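import Pool.Agent.Lib.VM.HB
import Pool.Agent.Lib.HLT.Defs

/-!
# Package MW: windows of the Moebius function, definitions

`mu`, `li`: the Moebius and the Liouville function, complex valued. `Mn P H α`: `α` is not within `P / H` of a fraction with
denominator at most `P` (minor arcs). `wm`: weights of Heath-Brown's identity for the Moebius function. `muz x v`: the
Moebius function of `n + v`, cut off to `1 ≤ n + v ≤ 2 x`.
-/

set_option autoImplicit false

open Finset Filter

namespace Pool.Agent.MW

open Pool.Agent.VK Pool.Agent.HLT Pool.Agent.VM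

/-- The Moebius function. -/
noncomputable def mu (n : ℕ) : ℂ := ((ArithmeticFunction.moebius n : ℤ) : ℂ)

/-- The Liouville function. -/
noncomputable def li (n : ℕ) : ℂ := ((ArithmeticFunction.liouville n : ℤ) : ℂ)

/-- Minor arcs. -/
def Mn (P H α : ℝ) : Prop := ∀ (q : ℕ) (a : ℤ), 1 ≤ q → (q : ℝ) ≤ P → P / H < |α - a / q|

/-- Weights of Heath-Brown's identity for the Moebius function. -/
noncomputable def wm (e : Fin 12 → ℕ) : ℝ := if e 6 = 0 then wt12 e else 0

/-- The Moebius function, shifted and cut off. -/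
noncomputable def muz (x v : ℕ) : ℤ → ℂ :=
  fun n => if 1 ≤ n + v ∧ n + v ≤ 2 * (x : ℤ) then mu (n + v).toNat else 0

theorem wm_le (e : Fin 12 → ℕ) : |wm e| ≤ 64 := by
  unfold wm
  split_ifs
  · exact wt12_le e
  · simp

theorem norm_mu (n : ℕ) : ‖mu n‖ ≤ 1 := by
  unfold mu
  rw [Complex.norm_intCast]
  exact_mod_cast ArithmeticFunction.abs_moebius_le_one

theorem norm_li (n : ℕ) : ‖li n‖ ≤ 1 := by
  unfold li
  rw [Complex.norm_intCast]
  rcases Nat.eq_zero_or_pos n with rfl | h
  · simp
  · rw [ArithmeticFunction.liouville_apply h.ne']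
    simp

theorem Mn.mono {P P' H α : ℝ} (h : Mn P H α) (hP : P' ≤ P) (hH : 0 ≤ H) : Mn P' H α := by
  intro q a hq hqP
  exact lt_of_le_of_lt (div_le_div_of_nonneg_right hP hH) (h q a hq (hqP.trans hP))

theorem norm_muz (x v : ℕ) (n : ℤ) : ‖muz x v n‖ ≤ 1 := by
  unfold muz
  split_ifs
  · exact norm_mu _
  · simp

end Pool.Agent.MW
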