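import Pool.Agent.Lib.MW.SIm
import Pool.Agent.Lib.NLT.EdgeWin

/-!
# Module WBm: window bounds for the Moebius function in the form `WB`

As `NLT.edge_win` (file NLT/EdgeWin.lean; its auxiliary lemmas `SS`, `SS_add`, `SS_mul`, `wb_shift`, ... are public in `NLT.EdgeWinAux`). `L = log x`, `muz x v n = muz x 0 (n + v)`, so it is enough to treat `v = 0` (translation of `U` and a factor of norm one).
`ε' = min ε (1/10)`, `W0 = ⌈x^(1/6 + ε')⌉₊ ≤ x^(9/25)`.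
(1) `W0`: for every finite `U ⊆ ℤ`: `∑_{y ∈ U} ‖∑_{Ioc y (y + W0)} muz x 0 n ex(nα)‖² ≤ x W0²/L^(B+2)`: windows with `0 ≤ y ≤ 2x - W0` by `si_mu (B + 4) ε'` (nothing is cut off, `(y+j).toNat`), the windows with `-W0 < y < 0` or `2x - W0 < y ≤ 2x` are at most `2 W0`, each `≤ W0²`
(`2 W0³ ≤ x W0²/L^(B+4)`), all others are 0.
(2) General `x^(1/6+ε) ≤ W ≤ C x`: `k = W / W0`, `W = k W0 + r`, `r < W0` (`k ≥ 1`; `W ≥ W0` for `ε ≥ ε'` and `x^(1/6+ε) ≥ x^(1/6+ε')`: as `W` is an integer, `W ≥ W0`): `SS(y, W) = ∑_{i<k} SS(y + i W0, W0) + SS(y + k W0, r)`, so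
`∑_{y ∈ U} ‖SS(y,W)‖² ≤ 2 k² x W0²/L^(B+2) + 2 ∑_y ‖SS(y + k W0, r)‖²`. The rest: if `k ≥ L^(B+2)`-like, trivially `≤ (2x + W0) W0² ≤ 3 x W²/k²`; if `k < L^(B+2)`: use smaller blocks: it is simplest to choose first `W1 = ⌈x^(1/6 + ε'/2)⌉₊` as block length in (1) and (2)
(then `k = W/W1 ≥ x^(ε'/2)/2` always, and the rest is `≤ (2x + W1) W1² ≤ 3x W²·4/x^ε' ≤ x W²/L^(B+2)`).
-/

set_option autoImplicit false

open Finset Filter

namespace Pool.Agent.MW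

open Pool.Agent.VK Pool.Agent.HLT Pool.Agent.VM

namespace WBmAux

open Pool.Agent.NLT Pool.Agent.NLT.EdgeWinAux

theorem muz_zero (x : ℕ) (n : ℤ) (h : ¬ (1 ≤ n ∧ n ≤ ((2 * x : ℕ) : ℤ))) : muz x 0 n = 0 := by
  unfold muz
  rw [if_neg]
  push_cast at h ⊢
  omega

theorem muz_trans (x v : ℕ) : (fun n : ℤ => muz x 0 (n + v)) = muz x v := by
  funext n
  simp only [muz, Nat.cast_zero, add_zero]

theorem SS_mu (x : ℕ) (α : ℝ) (u W : ℕ) (h : u + W ≤ 2 * x) :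
    SS (muz x 0) α (u : ℤ) W = ∑ n ∈ Ioc u (u + W), mu n * ex (n * α) := by
  unfold SS
  have h1 : Ioc (u : ℤ) ((u : ℤ) + (W : ℤ)) = (Ioc u (u + W)).map Nat.castEmbedding := by
    ext y
    simp only [Finset.mem_Ioc, Finset.mem_map, Nat.castEmbedding_apply]
    constructor
    · intro hy
      exact ⟨y.toNat, by omega, by omega⟩
    · rintro ⟨a, ha, rfl⟩
      omega
  rw [h1, Finset.sum_map]
  refine Finset.sum_congr rfl (fun n hn => ?_)
  rw [Finset.mem_Ioc] at hn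
  simp only [Nat.castEmbedding_apply, muz]
  rw [if_pos (by omega)]
  have h3 : ((n : ℤ) + ((0 : ℕ) : ℤ)).toNat = n := by omega
  rw [h3]
  push_cast
  rfl

/-- The windows that start at nonnegative integers. -/
theorem nonneg_sum (x W : ℕ) (α : ℝ) (D : ℝ) (hW : W ≤ 2 * x)
    (h : ∑ u ∈ range (2 * x + 1), ‖∑ n ∈ Ioc u (u + W), mu n * ex (n * α)‖ ^ 2 ≤ D) :
    ∑ u ∈ range (2 * x + 1), ‖SS (muz x 0) α (u : ℤ) W‖ ^ 2 ≤ D + W * (W : ℝ) ^ 2 := by
  have hsplit : range (2 * x + 1) = range (2 * x + 1 - W) ∪ Ico (2 * x + 1 - W) (2 * x + 1) := by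
    ext u
    simp only [Finset.mem_union, Finset.mem_range, Finset.mem_Ico]
    omega
  have hdis : Disjoint (range (2 * x + 1 - W)) (Ico (2 * x + 1 - W) (2 * x + 1)) := by
    rw [Finset.disjoint_left]
    intro u hu hu2
    simp only [Finset.mem_range, Finset.mem_Ico] at hu hu2
    omega
  have h1 : ∑ u ∈ range (2 * x + 1 - W), ‖SS (muz x 0) α (u : ℤ) W‖ ^ 2 ≤ D := by
    refine le_trans ?_ h
    calc ∑ u ∈ range (2 * x + 1 - W), ‖SS (muz x 0) α (u : ℤ) W‖ ^ 2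
        = ∑ u ∈ range (2 * x + 1 - W), ‖∑ n ∈ Ioc u (u + W), mu n * ex (n * α)‖ ^ 2 := by
          refine Finset.sum_congr rfl (fun u hu => ?_)
          rw [Finset.mem_range] at hu
          rw [SS_mu x α u W (by omega)]
      _ ≤ _ := by
          refine Finset.sum_le_sum_of_subset_of_nonneg ?_ (fun _ _ _ => by positivity)
          intro u hu
          rw [Finset.mem_range] at hu ⊢
          omega
  have h2 : ∑ u ∈ Ico (2 * x + 1 - W) (2 * x + 1), ‖SS (muz x 0) α (u : ℤ) W‖ ^ 2 ≤ W * (W : ℝ) ^ 2 := by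
    calc ∑ u ∈ Ico (2 * x + 1 - W) (2 * x + 1), ‖SS (muz x 0) α (u : ℤ) W‖ ^ 2
        ≤ ∑ u ∈ Ico (2 * x + 1 - W) (2 * x + 1), (W : ℝ) ^ 2 :=
          Finset.sum_le_sum (fun u _ => pow_le_pow_left₀ (norm_nonneg _) (SS_le (norm_muz x 0) α u W) 2)
      _ = W * (W : ℝ) ^ 2 := by
          rw [Finset.sum_const, Nat.card_Ico, nsmul_eq_mul]
          congr 2
          omega
  rw [hsplit, Finset.sum_union hdis]
  linarith only [h1, h2]

end WBmAux

theorem wb_mu (B C : ℕ) (ε : ℝ) (hε : 0 < ε) : ∀ᶠ x : ℕ in atTop, ∀ W v : ℕ, (x : ℝ) ^ (1 / 6 + ε) ≤ W → W ≤ C * x →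
    Pool.Agent.NLT.WB (muz x v) W ((x : ℝ) * W ^ 2 / Real.log x ^ B) := by
  obtain ⟨δ, hδ⟩ : ∃ δ, δ = min ε (1 / 10) := ⟨_, rfl⟩
  have hδ0 : 0 < δ := by rw [hδ]; exact lt_min hε (by norm_num)
  have hδ1 : δ ≤ ε := by rw [hδ]; exact min_le_left _ _
  have hδ2 : δ ≤ 1 / 10 := by rw [hδ]; exact min_le_right _ _
  have hlp := Pool.Agent.VL.SI3Aux.ev_lp
  filter_upwards [si_mu (B + 4) (δ / 2) (by linarith), Pool.Agent.HLU.ev_log 3, eventually_ge_atTop 1,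
    hlp 0 2 (1 / 10) (by norm_num), hlp (B + 4) 4 (1 / 2) (by norm_num), hlp (B + 2) 24 δ hδ0]
    with x hsi hL3 hx1 e1 e2 e3
  intro W v hW1 _
  set L := Real.log x with hLdef
  have hx1' : (1 : ℝ) ≤ x := by exact_mod_cast hx1
  have hx0 : (0 : ℝ) < x := by linarith only [hx1']
  have hL0 : 0 < L := by linarith only [hL3]
  have hL1 : 1 ≤ L := by linarith only [hL3]
  rw [pow_zero, mul_one] at e1
  -- the block length
  obtain ⟨P, hP⟩ : ∃ P, P = (x : ℝ) ^ (1 / 6 + δ / 2) := ⟨_, rfl⟩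
  have hP1 : 1 ≤ P := by rw [hP]; exact Real.one_le_rpow hx1' (by linarith only [hδ0])
  obtain ⟨V, hV⟩ : ∃ V, V = ⌈P⌉₊ := ⟨_, rfl⟩
  have hV1 : P ≤ V := by rw [hV]; exact Nat.le_ceil _
  have hV2 : (V : ℝ) ≤ 2 * P := by
    have := (Nat.ceil_lt_add_one (by linarith only [hP1] : (0 : ℝ) ≤ P)).le
    rw [hV]
    linarith only [this, hP1]
  have hV0 : (0 : ℝ) < V := by linarith only [hV1, hP1]
  have hV0' : 0 < V := by exact_mod_cast hV0
  have hV3 : (V : ℝ) ≤ (x : ℝ) ^ (9 / 25 : ℝ) := by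
    have h1 : P * (x : ℝ) ^ (1 / 10 : ℝ) ≤ (x : ℝ) ^ (9 / 25 : ℝ) := by
      rw [hP, ← Real.rpow_add hx0]
      exact Real.rpow_le_rpow_of_exponent_le hx1' (by linarith only [hδ2])
    have h2 : 2 * P ≤ P * (x : ℝ) ^ (1 / 10 : ℝ) := by
      have := mul_le_mul_of_nonneg_left e1 (by linarith only [hP1] : (0 : ℝ) ≤ P)
      linarith only [this]
    linarith only [h1, h2, hV2]
  have hV4 : (V : ℝ) ≤ (x : ℝ) ^ (1 / 2 : ℝ) :=
    hV3.trans (Real.rpow_le_rpow_of_exponent_le hx1' (by norm_num))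
  have hxx : (x : ℝ) ^ (1 / 2 : ℝ) * (x : ℝ) ^ (1 / 2 : ℝ) = x := by
    rw [← Real.rpow_add hx0]
    norm_num
  have hxh : (x : ℝ) ^ (1 / 2 : ℝ) ≤ x := by
    have h1 : (1 : ℝ) ≤ (x : ℝ) ^ (1 / 2 : ℝ) := Real.one_le_rpow hx1' (by norm_num)
    nlinarith only [hxx, h1]
  have hVx : (V : ℝ) ≤ x := hV4.trans hxh
  have hVx' : V ≤ 2 * x := by
    have : V ≤ x := by exact_mod_cast hVx
    omega
  have hFn := norm_muz x 0
  have hF0 := WBmAux.muz_zero x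
  -- short windows
  have hV5 : 2 * (V : ℝ) * L ^ (B + 4) ≤ x := by
    have h1 : 2 * (V : ℝ) * L ^ (B + 4) ≤ (x : ℝ) ^ (1 / 2 : ℝ) * (4 * L ^ (B + 4)) := by
      have h2 : 0 ≤ L ^ (B + 4) := by positivity
      have h3 := mul_le_mul_of_nonneg_right hV4 h2
      have h4 : 0 ≤ (x : ℝ) ^ (1 / 2 : ℝ) * L ^ (B + 4) := by positivity
      linarith only [h3, h4]
    refine h1.trans ?_
    have h2 := mul_le_mul_of_nonneg_left e2 (by positivity : (0 : ℝ) ≤ (x : ℝ) ^ (1 / 2 : ℝ))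
    rw [hxx] at h2
    exact h2
  obtain ⟨E, hE⟩ : ∃ E, E = x * (V : ℝ) ^ 2 / L ^ (B + 4) := ⟨_, rfl⟩
  have hE0 : 0 ≤ E := by rw [hE]; positivity
  have hVE : (V : ℝ) * (V : ℝ) ^ 2 + V * (V : ℝ) ^ 2 ≤ E := by
    rw [hE, le_div_iff₀ (by positivity)]
    have h1 := mul_le_mul_of_nonneg_right hV5 (sq_nonneg (V : ℝ))
    linarith only [h1]
  have hshort : Pool.Agent.NLT.WB (muz x 0) V (2 * E) := by
    have h1 := Pool.Agent.NLT.EdgeWinAux.wb_nonneg hFn hF0 V (E + V * (V : ℝ) ^ 2) (by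
      intro α
      have h2 := hsi V α (by rw [← hP]; exact hV1) hV3
      rw [← hE] at h2
      exact WBmAux.nonneg_sum x V α E hVx' h2)
    refine Pool.Agent.NLT.EdgeWinAux.wb_mono h1 ?_
    linarith only [hVE]
  -- general windows
  obtain ⟨k, hk⟩ : ∃ k, k = W / V := ⟨_, rfl⟩
  obtain ⟨r, hr⟩ : ∃ r, r = W % V := ⟨_, rfl⟩
  have hWk : W = k * V + r := by
    rw [hk, hr, mul_comm]
    exact (Nat.div_add_mod W V).symm
  have hrV : r < V := by rw [hr]; exact Nat.mod_lt _ hV0'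
  have hWkr : (W : ℝ) = k * V + r := by exact_mod_cast hWk
  have hrVr : (r : ℝ) ≤ V := by exact_mod_cast hrV.le
  have hr0 : (0 : ℝ) ≤ r := Nat.cast_nonneg _
  have hk0 : (0 : ℝ) ≤ k := Nat.cast_nonneg _
  have hkW : (k : ℝ) * V ≤ W := by linarith only [hWkr, hr0]
  have hlong := Pool.Agent.NLT.EdgeWinAux.wb_long k hshort (Pool.Agent.NLT.EdgeWinAux.wb_triv hFn hF0 r)
  rw [← hWk] at hlong
  obtain ⟨G, hG⟩ : ∃ G, G = x * (W : ℝ) ^ 2 / L ^ (B + 2) := ⟨_, rfl⟩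
  have hG0 : 0 ≤ G := by rw [hG]; positivity
  have hL9 : 9 ≤ L ^ 2 := by nlinarith only [hL3]
  have hp1 : 9 * ((k : ℝ) * (k * (2 * E))) ≤ 2 * G := by
    have h1 : (k : ℝ) * (k * (2 * E)) = 2 * (x * (k * V : ℝ) ^ 2 / L ^ (B + 4)) := by rw [hE]; ring
    have h2 : x * (k * V : ℝ) ^ 2 / L ^ (B + 4) ≤ x * (W : ℝ) ^ 2 / L ^ (B + 4) := by
      refine div_le_div_of_nonneg_right ?_ (by positivity)
      refine mul_le_mul_of_nonneg_left ?_ hx0.le
      exact pow_le_pow_left₀ (by positivity) hkW 2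
    have h3 : G = L ^ 2 * (x * (W : ℝ) ^ 2 / L ^ (B + 4)) := by
      have : L ^ (B + 4) = L ^ (B + 2) * L ^ 2 := by rw [← pow_add]
      rw [hG, this]
      field_simp
    have h4 : 0 ≤ x * (W : ℝ) ^ 2 / L ^ (B + 4) := by positivity
    have h5 := mul_le_mul_of_nonneg_right hL9 h4
    rw [h1, h3]
    linarith only [h2, h5]
  have hp2 : 2 * (((r : ℝ) + ((2 * x : ℕ) : ℝ)) * (r : ℝ) ^ 2) ≤ G := by
    have h1 : 2 * (((r : ℝ) + ((2 * x : ℕ) : ℝ)) * (r : ℝ) ^ 2) ≤ 2 * ((3 * x) * (V : ℝ) ^ 2) := by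
      refine mul_le_mul_of_nonneg_left ?_ (by norm_num)
      refine mul_le_mul ?_ (pow_le_pow_left₀ hr0 hrVr 2) (by positivity) (by positivity)
      push_cast
      linarith only [hrVr, hVx]
    refine h1.trans ?_
    rw [hG, le_div_iff₀ (by positivity)]
    have hPδ : P * P * (x : ℝ) ^ δ ≤ (W : ℝ) ^ 2 := by
      have h2 : P * P * (x : ℝ) ^ δ = ((x : ℝ) ^ (1 / 6 + δ)) ^ 2 := by
        rw [hP, ← Real.rpow_add hx0, ← Real.rpow_add hx0, ← Real.rpow_natCast, ← Real.rpow_mul hx0.le]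
        congr 1
        push_cast
        ring
      rw [h2]
      refine pow_le_pow_left₀ (by positivity) ?_ 2
      exact (Real.rpow_le_rpow_of_exponent_le hx1' (by linarith only [hδ1])).trans hW1
    have hVV : (V : ℝ) ^ 2 ≤ 4 * (P * P) := by
      have := pow_le_pow_left₀ hV0.le hV2 2
      linarith only [this]
    have hPP : 0 ≤ P * P := by positivity
    have h3 : 24 * L ^ (B + 2) * (P * P) ≤ (W : ℝ) ^ 2 := by
      have := mul_le_mul_of_nonneg_left e3 hPP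
      linarith only [this, hPδ]
    have h4 : 6 * (V : ℝ) ^ 2 * L ^ (B + 2) ≤ (W : ℝ) ^ 2 := by
      have h5 : 0 ≤ L ^ (B + 2) := by positivity
      have := mul_le_mul_of_nonneg_right hVV h5
      linarith only [this, h3]
    have h6 := mul_le_mul_of_nonneg_left h4 hx0.le
    linarith only [h6]
  have hzero : Pool.Agent.NLT.WB (muz x 0) W ((x : ℝ) * W ^ 2 / L ^ B) := by
    refine Pool.Agent.NLT.EdgeWinAux.wb_mono hlong ?_
    have hfin : x * (W : ℝ) ^ 2 / L ^ B = L ^ 2 * G := by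
      have : L ^ (B + 2) = L ^ B * L ^ 2 := by rw [← pow_add]
      rw [hG, this]
      field_simp
    rw [hfin]
    have h1 := mul_le_mul_of_nonneg_right hL9 hG0
    linarith only [hp1, hp2, h1, hG0]
  have h1 := Pool.Agent.NLT.EdgeWinAux.wb_trans hzero (v : ℤ)
  rw [WBmAux.muz_trans] at h1
  exact h1

end Pool.Agent.MW
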