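import Pool.Agent.Lib.NLT.WDefs

/-!
# Module Corr: from window bounds to the correlations

`E : ℤ → ℂ`, zero outside `Icc 1 N`. `C(k) = ∑_{z ∈ Icc 1 N} E z conj(E (z + k))`. For real `α`: `G(α) := ∑_y ‖∑_{n ∈ Ioc y (y+W)} E n ex(nα)‖²` (sum over `y ∈ Icc (-W) N`, all other windows vanish) `= ∑_{|k| < W} (W - |k|) C(k) ex(-kα)`
(expand; the pair `(n, n')` lies in `W - |n - n'|` windows), `0 ≤ G ≤ D`. Parseval on `ZMod M`-frequencies `α = j/M`, `M = 2W + 2N + 1` (large enough that all `|k| < W` are distinct mod `M`; or `M = 2W`):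
`∑_{|k|<W} (W - |k|)² ‖C(k)‖² = (1/M) ∑_{j < M} G(j/M)² ≤ D (1/M) ∑_j G(j/M) = D W C(0) ≤ D W N`. For `|k| ≤ K`, `2K ≤ W`: `(W - |k|)² ≥ W²/4`. Hence `∑_{|k| ≤ K} ‖C(k)‖² ≤ 4 D N/W`.
-/

set_option autoImplicit false

open Finset

namespace Pool.Agent.MW

open Pool.Agent.HLT Pool.Agent.NLT

namespace CorrAux

lemma ex_eq_one_iff {N : ℕ} (hN : 0 < N) (k : ℤ) : ex (k / N) = 1 ↔ (N : ℤ) ∣ k := by
  unfold ex
  rw [Complex.exp_eq_one_iff]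
  have hN' : (N : ℂ) ≠ 0 := by exact_mod_cast hN.ne'
  have hpi : (2 * (Real.pi : ℂ) * Complex.I) ≠ 0 := Complex.two_pi_I_ne_zero
  constructor
  · rintro ⟨m, hm⟩
    refine ⟨m, ?_⟩
    have h1 : ((k : ℂ) / N) * (2 * (Real.pi : ℂ) * Complex.I) = m * (2 * (Real.pi : ℂ) * Complex.I) := by
      rw [← hm]
      push_cast
      ring
    have h2 := mul_right_cancel₀ hpi h1
    rw [div_eq_iff hN'] at h2
    have h3 : ((k : ℤ) : ℂ) = ((N * m : ℤ) : ℂ) := by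
      rw [h2]
      push_cast
      ring
    exact_mod_cast h3
  · rintro ⟨m, rfl⟩
    refine ⟨m, ?_⟩
    push_cast
    field_simp

lemma sum_ex {N : ℕ} (hN : 0 < N) (k : ℤ) :
    ∑ ξ ∈ range N, ex (k * (ξ / N)) = if (N : ℤ) ∣ k then (N : ℂ) else 0 := by
  have h1 : ∀ ξ : ℕ, ex (k * (ξ / N)) = ex (k / N) ^ ξ := by
    intro ξ
    rw [← ex_nat_mul]
    congr 1
    ring
  simp_rw [h1]
  split_ifs with h
  · rw [(ex_eq_one_iff hN k).2 h]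
    simp
  · have hne : ex (k / N) ≠ 1 := fun h' => h ((ex_eq_one_iff hN k).1 h')
    rw [geom_sum_eq hne]
    have h2 : ex (k / N) ^ N = 1 := by
      rw [← ex_nat_mul]
      have h3 : ((N : ℝ) * ((k : ℝ) / N)) = ((k : ℤ) : ℝ) := by
        have : (N : ℝ) ≠ 0 := by exact_mod_cast hN.ne'
        field_simp
      rw [h3, ex_int]
    rw [h2]
    simp

lemma sum_res (I J : Finset ℤ) (g : ℤ → ℂ) (h : ∀ m, m ∉ I → g m = 0) :
    ∑ m ∈ J, g m = ∑ m ∈ I, if m ∈ J then g m else 0 := by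
  rw [← Finset.sum_filter]
  symm
  apply Finset.sum_subset
  · intro m hm
    exact (mem_filter.mp hm).2
  · intro m hm hm2
    apply h
    intro hI
    exact hm2 (mem_filter.mpr ⟨hI, hm⟩)

lemma card_win (N W : ℕ) (n m : ℤ) (hn : n ∈ Icc (1 : ℤ) N) (hm : m ∈ Icc (1 : ℤ) N) :
    ((((Icc (-(W : ℤ)) N).filter (fun y : ℤ => n ∈ Ioc y (y + W) ∧ m ∈ Ioc y (y + W))).card : ℕ) : ℂ) =
      if |m - n| < W then (W : ℂ) - |m - n| else 0 := by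
  rw [mem_Icc] at hn hm
  have h1 : (Icc (-(W : ℤ)) N).filter (fun y : ℤ => n ∈ Ioc y (y + W) ∧ m ∈ Ioc y (y + W)) =
      Ico (max n m - W) (min n m) := by
    ext y
    simp only [mem_filter, mem_Icc, mem_Ioc, mem_Ico]
    omega
  rw [h1, Int.card_Ico]
  have h2 : min n m - (max n m - (W : ℤ)) = W - |m - n| := by
    rcases le_total n m with h | h
    · rw [min_eq_left h, max_eq_right h, abs_of_nonneg (by omega)]
      ring
    · rw [min_eq_right h, max_eq_left h, abs_of_nonpos (by omega)]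
      ring
  rw [h2]
  split_ifs with h3
  · have h4 : (((W : ℤ) - |m - n|).toNat : ℤ) = (W : ℤ) - |m - n| := Int.toNat_of_nonneg (by omega)
    have h5 : ((((W : ℤ) - |m - n|).toNat : ℤ) : ℂ) = (((W : ℤ) - |m - n| : ℤ) : ℂ) := by rw [h4]
    push_cast at h5
    rw [h5]
  · rw [Int.toNat_of_nonpos (by omega)]
    simp

noncomputable def CC (E : ℤ → ℂ) (N : ℕ) (k : ℤ) : ℂ := ∑ z ∈ Icc (1 : ℤ) N, E z * (starRingEnd ℂ) (E (z + k))

noncomputable def GG (E : ℤ → ℂ) (N W : ℕ) (α : ℝ) : ℝ :=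
  ∑ y ∈ Icc (-(W : ℤ)) N, ‖∑ n ∈ Ioc y (y + W), E n * ex ((n : ℝ) * α)‖ ^ 2

noncomputable def cc (E : ℤ → ℂ) (N W : ℕ) (k : ℤ) : ℂ := ((W : ℂ) - |k|) * CC E N k

lemma term_eq (E : ℤ → ℂ) (n m : ℤ) (α : ℝ) :
    (E n * ex ((n : ℝ) * α)) * (starRingEnd ℂ) (E m * ex ((m : ℝ) * α)) =
      E n * (starRingEnd ℂ) (E m) * ex (-((m - n : ℤ) : ℝ) * α) := by
  rw [map_mul, ← ex_neg]
  have : -((m - n : ℤ) : ℝ) * α = (n : ℝ) * α + -((m : ℝ) * α) := by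
    push_cast
    ring
  rw [this, ex_add]
  ring

lemma expand (E : ℤ → ℂ) (N W : ℕ) (hE0 : ∀ n : ℤ, n ∉ Icc (1 : ℤ) N → E n = 0) (α : ℝ) :
    ((GG E N W α : ℝ) : ℂ) = ∑ k ∈ Ioo (-(W : ℤ)) W, cc E N W k * ex (-(k : ℝ) * α) := by
  have hL : ((GG E N W α : ℝ) : ℂ) = ∑ n ∈ Icc (1 : ℤ) N, ∑ m ∈ Icc (1 : ℤ) N,
      (if |m - n| < (W : ℤ) then (W : ℂ) - |m - n| else 0) *
        (E n * (starRingEnd ℂ) (E m) * ex (-((m - n : ℤ) : ℝ) * α)) := by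
    unfold GG
    rw [Complex.ofReal_sum]
    have h1 : ∀ y ∈ Icc (-(W : ℤ)) N, ((‖∑ n ∈ Ioc y (y + W), E n * ex ((n : ℝ) * α)‖ ^ 2 : ℝ) : ℂ) =
        ∑ n ∈ Icc (1 : ℤ) N, ∑ m ∈ Icc (1 : ℤ) N, (if n ∈ Ioc y (y + W) ∧ m ∈ Ioc y (y + W) then
          (E n * (starRingEnd ℂ) (E m) * ex (-((m - n : ℤ) : ℝ) * α)) else 0) := by
      intro y _
      rw [Complex.ofReal_pow, ← Complex.mul_conj', sum_res (Icc (1 : ℤ) N) (Ioc y (y + W)) (fun n => E n * ex ((n : ℝ) * α))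
        (fun m hm => by rw [hE0 m hm, zero_mul]), map_sum, Finset.sum_mul_sum]
      refine Finset.sum_congr rfl (fun n _ => Finset.sum_congr rfl (fun m _ => ?_))
      by_cases h1 : n ∈ Ioc y (y + W)
      · by_cases h2 : m ∈ Ioc y (y + W)
        · rw [if_pos h1, if_pos h2, if_pos ⟨h1, h2⟩, term_eq]
        · rw [if_neg h2, map_zero, mul_zero, if_neg (fun h => h2 h.2)]
      · rw [if_neg h1, zero_mul, if_neg (fun h => h1 h.1)]
    rw [Finset.sum_congr rfl h1, Finset.sum_comm]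
    refine Finset.sum_congr rfl (fun n hn => ?_)
    rw [Finset.sum_comm]
    refine Finset.sum_congr rfl (fun m hm => ?_)
    rw [← Finset.sum_filter, Finset.sum_const, nsmul_eq_mul, card_win N W n m hn hm]
  rw [hL]
  have hR : ∀ k ∈ Ioo (-(W : ℤ)) W, cc E N W k * ex (-(k : ℝ) * α) =
      ∑ z ∈ Icc (1 : ℤ) N, ((W : ℂ) - |k|) * (E z * (starRingEnd ℂ) (E (z + k)) * ex (-(k : ℝ) * α)) := by
    intro k _
    unfold cc CC
    rw [Finset.mul_sum, Finset.sum_mul]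
    refine Finset.sum_congr rfl (fun z _ => ?_)
    ring
  refine Eq.trans ?_ ((Finset.sum_congr rfl hR).trans Finset.sum_comm).symm
  refine Finset.sum_congr rfl (fun z hz => ?_)
  have h2 : ∑ k ∈ Ioo (-(W : ℤ)) W, ((W : ℂ) - |k|) * (E z * (starRingEnd ℂ) (E (z + k)) * ex (-(k : ℝ) * α)) =
      ∑ m ∈ Ioo (z - W) (z + W), ((W : ℂ) - |m - z|) *
        (E z * (starRingEnd ℂ) (E m) * ex (-((m - z : ℤ) : ℝ) * α)) := by
    refine Finset.sum_bij' (fun k _ => z + k) (fun m _ => m - z) ?_ ?_ ?_ ?_ ?_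
    · intro k hk
      rw [mem_Ioo] at hk ⊢
      constructor <;> omega
    · intro k hk
      rw [mem_Ioo] at hk ⊢
      constructor <;> omega
    · intro k _
      ring
    · intro k _
      ring
    · intro k _
      have h3 : z + k - z = k := by ring
      rw [h3]
  rw [h2, sum_res (Icc (1 : ℤ) N) (Ioo (z - W) (z + W)) _ (fun m hm => by
    rw [hE0 m hm, map_zero]
    ring)]
  refine Finset.sum_congr rfl (fun m _ => ?_)
  by_cases h3 : |m - z| < (W : ℤ)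
  · rw [if_pos h3, if_pos]
    rw [mem_Ioo]
    rw [abs_lt] at h3
    constructor <;> omega
  · rw [if_neg h3, if_neg, zero_mul]
    intro h4
    apply h3
    rw [mem_Ioo] at h4
    rw [abs_lt]
    constructor <;> omega

lemma dvd_zero_of (W : ℕ) (k l : ℤ) (hk : k ∈ Ioo (-(W : ℤ)) W) (hl : l ∈ Ioo (-(W : ℤ)) W)
    (h : ((2 * W : ℕ) : ℤ) ∣ l - k) : l = k := by
  rw [mem_Ioo] at hk hl
  obtain ⟨t, ht⟩ := h
  push_cast at ht
  have h1 : t = 0 := by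
    by_contra h0
    rcases lt_or_gt_of_ne h0 with h2 | h2
    · nlinarith
    · nlinarith
  rw [h1] at ht
  omega

lemma pars (W : ℕ) (hW : 1 ≤ W) (c : ℤ → ℂ) :
    ∑ j ∈ range (2 * W), (∑ k ∈ Ioo (-(W : ℤ)) W, c k * ex (-(k : ℝ) * (j / ((2 * W : ℕ) : ℝ)))) *
      (starRingEnd ℂ) (∑ k ∈ Ioo (-(W : ℤ)) W, c k * ex (-(k : ℝ) * (j / ((2 * W : ℕ) : ℝ)))) =
      (2 * W : ℕ) * ∑ k ∈ Ioo (-(W : ℤ)) W, ((‖c k‖ ^ 2 : ℝ) : ℂ) := by
  have hM : 0 < 2 * W := by omega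
  have h1 : ∀ j ∈ range (2 * W), (∑ k ∈ Ioo (-(W : ℤ)) W, c k * ex (-(k : ℝ) * (j / ((2 * W : ℕ) : ℝ)))) *
      (starRingEnd ℂ) (∑ k ∈ Ioo (-(W : ℤ)) W, c k * ex (-(k : ℝ) * (j / ((2 * W : ℕ) : ℝ)))) =
      ∑ k ∈ Ioo (-(W : ℤ)) W, ∑ l ∈ Ioo (-(W : ℤ)) W, c k * (starRingEnd ℂ) (c l) *
        ex (((l - k : ℤ) : ℝ) * (j / ((2 * W : ℕ) : ℝ))) := by
    intro j _
    rw [map_sum, Finset.sum_mul_sum]
    refine Finset.sum_congr rfl (fun k _ => Finset.sum_congr rfl (fun l _ => ?_))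
    rw [map_mul, ← ex_neg]
    have h2 : ((l - k : ℤ) : ℝ) * (j / ((2 * W : ℕ) : ℝ)) =
        -(k : ℝ) * (j / ((2 * W : ℕ) : ℝ)) + -(-(l : ℝ) * (j / ((2 * W : ℕ) : ℝ))) := by
      push_cast
      ring
    rw [h2, ex_add]
    ring
  rw [Finset.sum_congr rfl h1, Finset.sum_comm, Finset.mul_sum]
  refine Finset.sum_congr rfl (fun k hk => ?_)
  rw [Finset.sum_comm]
  have h3 : ∀ l ∈ Ioo (-(W : ℤ)) W, ∑ j ∈ range (2 * W), c k * (starRingEnd ℂ) (c l) *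
        ex (((l - k : ℤ) : ℝ) * (j / ((2 * W : ℕ) : ℝ))) =
      if l = k then ((2 * W : ℕ) : ℂ) * ((‖c k‖ ^ 2 : ℝ) : ℂ) else 0 := by
    intro l hl
    rw [← Finset.mul_sum, sum_ex hM (l - k)]
    by_cases h : l = k
    · rw [if_pos h, if_pos]
      · rw [h, Complex.mul_conj']
        push_cast
        ring
      · rw [h]
        simp
    · rw [if_neg h, if_neg, mul_zero]
      intro h4
      exact h (dvd_zero_of W k l hk hl h4)
  rw [Finset.sum_congr rfl h3, Finset.sum_ite_eq' (Ioo (-(W : ℤ)) W) k, if_pos hk]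

lemma mean (W : ℕ) (hW : 1 ≤ W) (c : ℤ → ℂ) :
    ∑ j ∈ range (2 * W), (∑ k ∈ Ioo (-(W : ℤ)) W, c k * ex (-(k : ℝ) * (j / ((2 * W : ℕ) : ℝ)))) =
      (2 * W : ℕ) * c 0 := by
  have hM : 0 < 2 * W := by omega
  have h0 : (0 : ℤ) ∈ Ioo (-(W : ℤ)) W := by
    rw [mem_Ioo]
    constructor <;> omega
  rw [Finset.sum_comm]
  have h3 : ∀ k ∈ Ioo (-(W : ℤ)) W, ∑ j ∈ range (2 * W), c k * ex (-(k : ℝ) * (j / ((2 * W : ℕ) : ℝ))) =
      if k = 0 then ((2 * W : ℕ) : ℂ) * c 0 else 0 := by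
    intro k hk
    have h1 := sum_ex hM (0 - k)
    have h2 : ∀ j ∈ range (2 * W), c k * ex (-(k : ℝ) * (j / ((2 * W : ℕ) : ℝ))) =
        c k * ex (((0 - k : ℤ) : ℝ) * (j / ((2 * W : ℕ) : ℝ))) := by
      intro j _
      congr 2
      push_cast
      ring
    rw [Finset.sum_congr rfl h2, ← Finset.mul_sum, h1]
    by_cases h : k = 0
    · rw [if_pos h, if_pos]
      · rw [h]
        ring
      · rw [h]
        simp
    · rw [if_neg h, if_neg, mul_zero]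
      intro h4
      exact h (dvd_zero_of W k 0 hk h0 h4).symm
  rw [Finset.sum_congr rfl h3, Finset.sum_ite_eq' (Ioo (-(W : ℤ)) W) 0, if_pos h0]

end CorrAux


theorem corr_of_wb (E : ℤ → ℂ) (N W K : ℕ) (D : ℝ) (hW : 1 ≤ W) (hKW : 2 * K ≤ W) (hE : ∀ n, ‖E n‖ ≤ 1)
    (hE0 : ∀ n : ℤ, n ∉ Icc (1 : ℤ) N → E n = 0) (h : WB E W D) :
    ∑ k ∈ Icc (-(K : ℤ)) K, ‖∑ z ∈ Icc (1 : ℤ) N, E z * (starRingEnd ℂ) (E (z + k))‖ ^ 2 ≤ 4 * D * N / W := by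
  have hM : 0 < 2 * W := by omega
  have hWr : (0 : ℝ) < W := by exact_mod_cast hW
  have hG0 : ∀ α, 0 ≤ CorrAux.GG E N W α := fun α => Finset.sum_nonneg (fun y _ => by positivity)
  have hGD : ∀ α, CorrAux.GG E N W α ≤ D := fun α => h α _
  have hex := CorrAux.expand E N W hE0
  -- Parseval
  have h1 : ∑ j ∈ range (2 * W), CorrAux.GG E N W (j / ((2 * W : ℕ) : ℝ)) ^ 2 =
      (2 * W : ℕ) * ∑ k ∈ Ioo (-(W : ℤ)) W, ‖CorrAux.cc E N W k‖ ^ 2 := by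
    have h2 := CorrAux.pars W hW (CorrAux.cc E N W)
    have h3 : ∀ j ∈ range (2 * W), (∑ k ∈ Ioo (-(W : ℤ)) W, CorrAux.cc E N W k * ex (-(k : ℝ) * (j / ((2 * W : ℕ) : ℝ)))) *
      (starRingEnd ℂ) (∑ k ∈ Ioo (-(W : ℤ)) W, CorrAux.cc E N W k * ex (-(k : ℝ) * (j / ((2 * W : ℕ) : ℝ)))) =
        ((CorrAux.GG E N W (j / ((2 * W : ℕ) : ℝ)) ^ 2 : ℝ) : ℂ) := by
      intro j _
      rw [← hex, Complex.conj_ofReal]
      push_cast
      ring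
    rw [Finset.sum_congr rfl h3] at h2
    exact_mod_cast h2
  have h4 : ∑ j ∈ range (2 * W), CorrAux.GG E N W (j / ((2 * W : ℕ) : ℝ)) ≤ (2 * W : ℕ) * (W * N) := by
    have h2 := CorrAux.mean W hW (CorrAux.cc E N W)
    have h3 : ∀ j ∈ range (2 * W), (∑ k ∈ Ioo (-(W : ℤ)) W, CorrAux.cc E N W k * ex (-(k : ℝ) * (j / ((2 * W : ℕ) : ℝ)))) =
        ((CorrAux.GG E N W (j / ((2 * W : ℕ) : ℝ)) : ℝ) : ℂ) := by
      intro j _
      rw [← hex]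
    rw [Finset.sum_congr rfl h3, ← Complex.ofReal_sum] at h2
    have h5 : ‖CorrAux.cc E N W 0‖ ≤ W * N := by
      unfold CorrAux.cc CorrAux.CC
      rw [norm_mul]
      have h6 : ‖(W : ℂ) - ((|(0 : ℤ)| : ℤ) : ℂ)‖ = W := by
        simp
      rw [h6]
      refine mul_le_mul_of_nonneg_left ?_ hWr.le
      refine (norm_sum_le _ _).trans ?_
      have h7 : ∀ z ∈ Icc (1 : ℤ) N, ‖E z * (starRingEnd ℂ) (E (z + 0))‖ ≤ 1 := by
        intro z _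
        rw [norm_mul, RCLike.norm_conj]
        exact mul_le_one₀ (hE z) (norm_nonneg _) (hE _)
      refine (Finset.sum_le_sum h7).trans ?_
      rw [Finset.sum_const, Int.card_Icc]
      simp
    have h8 : ∑ j ∈ range (2 * W), CorrAux.GG E N W (j / ((2 * W : ℕ) : ℝ)) ≤
        ‖((∑ j ∈ range (2 * W), CorrAux.GG E N W (j / ((2 * W : ℕ) : ℝ)) : ℝ) : ℂ)‖ := by
      rw [Complex.norm_real]
      exact le_abs_self _
    refine h8.trans ?_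
    rw [h2, norm_mul, Complex.norm_natCast]
    exact mul_le_mul_of_nonneg_left h5 (Nat.cast_nonneg _)
  have h5 : ∑ j ∈ range (2 * W), CorrAux.GG E N W (j / ((2 * W : ℕ) : ℝ)) ^ 2 ≤
      D * ∑ j ∈ range (2 * W), CorrAux.GG E N W (j / ((2 * W : ℕ) : ℝ)) := by
    rw [Finset.mul_sum]
    refine Finset.sum_le_sum (fun j _ => ?_)
    rw [pow_two]
    exact mul_le_mul_of_nonneg_right (hGD _) (hG0 _)
  have hD : 0 ≤ D := (hG0 0).trans (hGD 0)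
  have hMr : (0 : ℝ) < ((2 * W : ℕ) : ℝ) := by exact_mod_cast hM
  have h6 : ∑ k ∈ Ioo (-(W : ℤ)) W, ‖CorrAux.cc E N W k‖ ^ 2 ≤ D * (W * N) := by
    have h7 := h5.trans (mul_le_mul_of_nonneg_left h4 hD)
    rw [h1] at h7
    have h8 : ((2 * W : ℕ) : ℝ) * ∑ k ∈ Ioo (-(W : ℤ)) W, ‖CorrAux.cc E N W k‖ ^ 2 ≤
        ((2 * W : ℕ) : ℝ) * (D * (W * N)) := by
      refine h7.trans (le_of_eq ?_)
      ring
    exact le_of_mul_le_mul_left h8 hMr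
  have h9 : ∑ k ∈ Icc (-(K : ℤ)) K, ‖∑ z ∈ Icc (1 : ℤ) N, E z * (starRingEnd ℂ) (E (z + k))‖ ^ 2 * ((W : ℝ) ^ 2 / 4) ≤
      ∑ k ∈ Ioo (-(W : ℤ)) W, ‖CorrAux.cc E N W k‖ ^ 2 := by
    refine (Finset.sum_le_sum (f := fun k : ℤ => ‖∑ z ∈ Icc (1 : ℤ) N, E z * (starRingEnd ℂ) (E (z + k))‖ ^ 2 * ((W : ℝ) ^ 2 / 4))
      (g := fun k : ℤ => ‖CorrAux.cc E N W k‖ ^ 2) ?_).trans
      (Finset.sum_le_sum_of_subset_of_nonneg ?_ (fun k _ _ => by positivity))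
    · intro k hk
      rw [mem_Icc] at hk
      have hkabs : |k| ≤ K := abs_le.mpr hk
      have hkr : ((|k| : ℤ) : ℝ) ≤ W / 2 := by
        have h10 : ((|k| : ℤ) : ℝ) ≤ K := by exact_mod_cast hkabs
        have h11 : 2 * (K : ℝ) ≤ W := by exact_mod_cast hKW
        linarith
      show ‖CorrAux.CC E N k‖ ^ 2 * ((W : ℝ) ^ 2 / 4) ≤ ‖((W : ℂ) - |k|) * CorrAux.CC E N k‖ ^ 2
      rw [norm_mul, mul_pow, mul_comm]
      refine mul_le_mul_of_nonneg_right ?_ (by positivity)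
      have h12 : ‖(W : ℂ) - ((|k| : ℤ) : ℂ)‖ = (W : ℝ) - ((|k| : ℤ) : ℝ) := by
        have h13 : (W : ℂ) - ((|k| : ℤ) : ℂ) = (((W : ℝ) - ((|k| : ℤ) : ℝ) : ℝ) : ℂ) := by
          rw [Complex.ofReal_sub, Complex.ofReal_natCast, Complex.ofReal_intCast]
        rw [h13, Complex.norm_real, Real.norm_eq_abs, abs_of_nonneg]
        linarith
      rw [h12]
      have h14 : (W : ℝ) / 2 ≤ (W : ℝ) - ((|k| : ℤ) : ℝ) := by linarith
      calc (W : ℝ) ^ 2 / 4 = ((W : ℝ) / 2) ^ 2 := by ring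
        _ ≤ _ := pow_le_pow_left₀ (by positivity) h14 2
    · intro k hk
      rw [mem_Icc] at hk
      rw [mem_Ioo]
      constructor <;> omega
  rw [← Finset.sum_mul] at h9
  have h10 := h9.trans h6
  have h11 : (0 : ℝ) < (W : ℝ) ^ 2 / 4 := by positivity
  rw [← le_div_iff₀ h11] at h10
  refine h10.trans (le_of_eq ?_)
  field_simp

end Pool.Agent.MW
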