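import Pool.Agent.Lib.MW.HBm
import Pool.Agent.Lib.MW.ClsMin
import Pool.Agent.Lib.VM.ClsTwo
import Pool.Agent.Lib.VM.BlkMinor

/-!
# Module BlkCop: minor arcs for the Moebius function on integers coprime to the denominator, dyadic block

The proof is that of `VM.blk_minor` (file VM/BlkMinor.lean), simpler: no logarithm (`hb_mu`, no sum over `y`), no part for the integers not coprime to `q`.
`L = log X`, `e0` from `cls_minor2 ε`, then `s, C` from it for `(e1, e2)`, `C2, c` from `cls_two`, `A1 = B + c + 40`, `A = 2 A1 + B + 50`. `β = α - a/q`.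
(MIN) `L^(B+40) ≤ q max 1 (H |β|)`: if `q ≤ L^A` then `Mn` gives `H |β| > L^A`; otherwise `q > L^A`.
For `cls_two` use a second approximation: Dirichlet (`VM.BlkMinorAux.dirichlet α H (L^A)`, `L^A ≤ H`): `1 ≤ q0 ≤ Q0`, `Q0 ≤ H/L^A`, `H/L^A ≤ Q0 + 1`, `|α - a0/q0| ≤ 1/(q0 (Q0+1))`;
`q0 > L^A`: otherwise `Mn` gives `L^A/H < |α - a0/q0| ≤ 1/(q0 (Q0+1)) ≤ L^A/H`. So `L^A < q0 ≤ H/L^A`, `|α - a0/q0| ≤ 1/q0²`.
`hb_mu` with `r = q`, `N = 4X`, `z = ⌈(4X)^(1/6)⌉`, `E = clog`: `mu(n) 1_{(n,q)=1} = ∑_e wm e Fcl z q 0 e n` for `n ≤ 4X`, at most `(2L)^12` terms, `|wm e| ≤ 64`; Cauchy: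
the loss is `(2L)^24 64² ≤ L^30`-like, so each class must be `≤ X H²/L^(B+30)`:
(i) some `i` with `L^A1 < 2^(e i) ≤ H/L^A1`: `cls_two` with `(a0, q0)`; (ii) a Moebius cell `i < 6` with `2^(e i) > H/L^A1 ≥ 2z`: `Fcl = 0`; (iii) otherwise `cls_minor2` with `(a, q)`.
The numerical lemmas of `VM.BlkMinorAux` (`logpow`, `two_calc`, `minor_calc`, `clog_le`, ...) may be used.
-/

set_option autoImplicit false

open Finset Filter

namespace Pool.Agent.MW

open Pool.Agent.VK Pool.Agent.HLT Pool.Agent.VM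

open Pool.Agent.VM.BlkMinorAux in
theorem blk_cop (B : ℕ) (ε : ℝ) (hε : 0 < ε) : ∃ e0 : ℝ, 0 < e0 ∧ e0 ≤ 1 / 1000 ∧ ∀ e1 e2 : ℝ, 0 < e1 → 0 < e2 → e2 ≤ e0 →
    ∃ A : ℕ, ∀ᶠ X : ℕ in atTop, ∀ (q H : ℕ) (a : ℤ) (α : ℝ), (X : ℝ) ^ (1 / 6 + ε) ≤ H → (H : ℝ) ≤ (X : ℝ) ^ (39 / 100 : ℝ) →
    1 ≤ q → (q : ℝ) ≤ H * (X : ℝ) ^ (-e1) → IsCoprime a (q : ℤ) → |α - a / q| ≤ (X : ℝ) ^ e2 / (q * H) →
    Mn (Real.log X ^ A) H α →
    ∑ u ∈ Icc X (2 * X), ‖∑ n ∈ Ioc u (u + H), (if n.Coprime q then mu n else 0) * ex (n * α)‖ ^ 2 ≤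
      X * (H : ℝ) ^ 2 / Real.log X ^ B := by
  classical
  obtain ⟨e0, he00, he01, hcm⟩ := cls_minor2 ε hε
  refine ⟨e0, he00, he01, ?_⟩
  intro e1 e2 he1 he2 he20
  obtain ⟨s, C1, hs0, hC1, hev⟩ := hcm e1 e2 he1 he2 he20
  obtain ⟨C2, c, hC2, htwo⟩ := cls_two
  refine ⟨2 * ((B + c + 40) + (B + 40)) + 10, ?_⟩
  have hlogtop : Tendsto (fun X : ℕ => Real.log (X : ℝ)) atTop atTop :=
    Real.tendsto_log_atTop.comp tendsto_natCast_atTop_atTop
  filter_upwards [hev, eventually_ge_atTop 1, hlogtop.eventually_ge_atTop 1024,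
    hlogtop.eventually_ge_atTop (16 * C2 * 2 ^ c), hlogtop.eventually_ge_atTop (2 * C1),
    logpow (B + c + 40) 8 ε hε, logpow (B + c + 40) 1 s hs0, logpow (B + 30) (2 * C1) s hs0,
    logpow (2 * ((B + c + 40) + (B + 40)) + 10) 1 (1 / 6 + ε) (by linarith)]
    with X hX hX1 hL hL2 hL1 hp1 hp2 hp3 hp4
  intro q H a α hHl hHu hq1 hqH hcop hαq hMn
  set L := Real.log X with hLdef
  have hL0 : 0 < L := by linarith only [hL]
  have hL1' : 1 ≤ L := by linarith only [hL]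
  have hX0 : (0 : ℝ) < X := by exact_mod_cast hX1
  have hX1' : (1 : ℝ) ≤ X := by exact_mod_cast hX1
  have hH1' : (1 : ℝ) ≤ H := by
    refine le_trans ?_ hHl
    exact Real.one_le_rpow hX1' (by (clear * - hε; positivity))
  have hH1 : 1 ≤ H := by exact_mod_cast hH1'
  have hH0 : (0 : ℝ) < H := by linarith only [hH1']
  have hHX' : (H : ℝ) ≤ X := by
    refine hHu.trans ?_
    calc (X : ℝ) ^ (39 / 100 : ℝ) ≤ (X : ℝ) ^ (1 : ℝ) :=
          Real.rpow_le_rpow_of_exponent_le hX1' (by norm_num)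
      _ = X := Real.rpow_one _
  have hHX : H ≤ X := by exact_mod_cast hHX'
  set A := 2 * ((B + c + 40) + (B + 40)) + 10 with hA
  have hlog4 : 1 + Real.log ((4 * X : ℕ) : ℝ) ≤ 2 * L := by
    push_cast
    rw [Real.log_mul (by norm_num) (by (clear * - hX1; positivity)), ← hLdef]
    have h4 : Real.log 4 = 2 * Real.log 2 := by
      rw [show (4 : ℝ) = 2 ^ 2 by norm_num, Real.log_pow]
      norm_num
    have h6 := Real.log_two_lt_d9
    linarith only [hL, h4, h6]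
  have hLA0 : 0 < L ^ A := pow_pos hL0 A
  have hLAH : L ^ A ≤ H := by
    rw [one_mul] at hp4
    exact hp4.trans hHl
  have hq0' : (0 : ℝ) < q := by exact_mod_cast hq1
  have hq1' : (1 : ℝ) ≤ q := by exact_mod_cast hq1
  -- the second approximation
  obtain ⟨q0, Q0, a0, hq01, hqQ0, hQ01, hQ02, hcop0, hα0'⟩ := dirichlet α H (L ^ A) hLA0 hLAH
  have hq01' : (1 : ℝ) ≤ q0 := by exact_mod_cast hq01
  have hq0L' : L ^ A < q0 := by
    by_contra hcon
    push Not at hcon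
    have h1 := hMn q0 a0 hq01 hcon
    have h2 : (1 : ℝ) / ((q0 : ℝ) * (Q0 + 1 : ℕ)) ≤ L ^ A / H := by
      rw [div_le_div_iff₀ (by (clear * - hq01; positivity)) hH0]
      rw [div_le_iff₀ hLA0] at hQ02
      calc 1 * (H : ℝ) = H := one_mul _
        _ ≤ (Q0 + 1 : ℕ) * L ^ A := hQ02
        _ ≤ q0 * ((Q0 + 1 : ℕ) * L ^ A) := le_mul_of_one_le_left (by positivity) hq01'
        _ = L ^ A * (q0 * (Q0 + 1 : ℕ)) := by ring
    linarith only [h1, h2, hα0']
  have hq0L : L ^ A ≤ q0 := hq0L'.le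
  have hq0H : (q0 : ℝ) ≤ H / L ^ A := by
    refine le_trans ?_ hQ01
    exact_mod_cast hqQ0
  have hα0 : |α - a0 / q0| ≤ 1 / (q0 : ℝ) ^ 2 := by
    refine hα0'.trans ?_
    apply one_div_le_one_div_of_le (by (clear * - hq01; positivity))
    have h1 : (q0 : ℝ) ≤ (Q0 + 1 : ℕ) := by exact_mod_cast (by omega : q0 ≤ Q0 + 1)
    calc (q0 : ℝ) ^ 2 = q0 * q0 := sq _
      _ ≤ q0 * (Q0 + 1 : ℕ) := mul_le_mul_of_nonneg_left h1 (by linarith only [hq01'])
  -- the main lower bound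
  have hMIN : L ^ (B + 40) ≤ q * max 1 (H * |α - a / q|) := by
    have hpow : L ^ (B + 40) ≤ L ^ A := pow_le_pow_right₀ hL1' (by omega)
    rcases le_or_gt (q : ℝ) (L ^ A) with hqA | hqA
    · have h1 := hMn q a hq1 hqA
      rw [div_lt_iff₀ hH0] at h1
      have h2 : H * |α - a / q| ≤ max 1 (H * |α - a / q|) := le_max_right _ _
      have h3 : max 1 (H * |α - a / q|) ≤ q * max 1 (H * |α - a / q|) :=
        le_mul_of_one_le_left (le_trans zero_le_one (le_max_left _ _)) hq1'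
      linarith only [hpow, h1, h2, h3]
    · have h3 : (q : ℝ) ≤ q * max 1 (H * |α - a / q|) :=
        le_mul_of_one_le_right hq0'.le (le_max_left _ _)
      linarith only [hpow, hqA, h3]
  set z : ℕ := ⌈((4 * X : ℕ) : ℝ) ^ (1 / 6 : ℝ)⌉₊ with hz
  have hz6 : 4 * X ≤ z ^ 6 := by
    have h1 : ((4 * X : ℕ) : ℝ) ^ (1 / 6 : ℝ) ≤ z := Nat.le_ceil _
    have h2 : (((4 * X : ℕ) : ℝ) ^ (1 / 6 : ℝ)) ^ (6 : ℕ) = ((4 * X : ℕ) : ℝ) := by
      rw [← Real.rpow_natCast, ← Real.rpow_mul (by (clear * - hX1; positivity))]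
      norm_num
    have h3 : ((4 * X : ℕ) : ℝ) ≤ (z : ℝ) ^ 6 := by
      rw [← h2]
      exact pow_le_pow_left₀ (by (clear * - hX1; positivity)) h1 6
    exact_mod_cast h3
  have hz2 : 2 * (z : ℝ) ≤ H / L ^ (B + c + 40) := by
    have h1 : (z : ℝ) ≤ 4 * (X : ℝ) ^ (1 / 6 : ℝ) := by
      have h2 : (z : ℝ) < ((4 * X : ℕ) : ℝ) ^ (1 / 6 : ℝ) + 1 := Nat.ceil_lt_add_one (by (clear * - hX1; positivity))
      have h3 : ((4 * X : ℕ) : ℝ) ^ (1 / 6 : ℝ) ≤ 2 * (X : ℝ) ^ (1 / 6 : ℝ) := by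
        push_cast
        rw [Real.mul_rpow (by norm_num) (by (clear * - hX1; positivity))]
        apply mul_le_mul_of_nonneg_right _ (by (clear * - hX1; positivity))
        calc (4 : ℝ) ^ (1 / 6 : ℝ) ≤ (4 : ℝ) ^ (1 / 2 : ℝ) :=
              Real.rpow_le_rpow_of_exponent_le (by norm_num) (by norm_num)
          _ = 2 := by
              rw [← Real.sqrt_eq_rpow, show (4 : ℝ) = 2 ^ 2 by norm_num]
              exact Real.sqrt_sq (by norm_num)
      have h4 : (1 : ℝ) ≤ (X : ℝ) ^ (1 / 6 : ℝ) := Real.one_le_rpow hX1' (by norm_num)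
      linarith only [h2, h3, h4]
    rw [le_div_iff₀ (by (clear * - hL; positivity))]
    calc 2 * (z : ℝ) * L ^ (B + c + 40) ≤ 2 * (4 * (X : ℝ) ^ (1 / 6 : ℝ)) * L ^ (B + c + 40) := by
          gcongr
      _ = (X : ℝ) ^ (1 / 6 : ℝ) * (8 * L ^ (B + c + 40)) := by ring
      _ ≤ (X : ℝ) ^ (1 / 6 : ℝ) * (X : ℝ) ^ ε := by gcongr
      _ = (X : ℝ) ^ (1 / 6 + ε) := by rw [← Real.rpow_add hX0]
      _ ≤ H := hHl
  -- the classes
  have hcls : ∀ (y : ℕ) (e : Fin 12 → ℕ),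
      ∑ u ∈ Icc X (2 * X), ‖∑ n ∈ Ioc u (u + H), Fcl z q y e n * ex (n * α)‖ ^ 2 ≤
        X * (H : ℝ) ^ 2 / L ^ (B + 30) := by
    intro y e
    by_cases hi : ∃ i : Fin 12, L ^ (B + c + 40) < (2 : ℝ) ^ e i ∧ (2 : ℝ) ^ e i ≤ H / L ^ (B + c + 40)
    · obtain ⟨i, hi1, hi2⟩ := hi
      have hei : 1 ≤ e i := by
        by_contra h
        have h0 : e i = 0 := by omega
        rw [h0, pow_zero] at hi1
        have : 1 ≤ L ^ (B + c + 40) := one_le_pow₀ hL1'
        linarith only [hi1, this]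
      have h1 := htwo (2 * X) H q0 z q y e i a0 α hH1 (by omega) hq01 hcop0 hα0 hei
      have h2 : ∑ u ∈ Icc X (2 * X), ‖∑ n ∈ Ioc u (u + H), Fcl z q y e n * ex (n * α)‖ ^ 2 ≤
          ∑ u ∈ range (2 * X + 1), ‖∑ n ∈ Ioc u (u + H), Fcl z q y e n * ex (n * α)‖ ^ 2 := by
        refine Finset.sum_le_sum_of_subset_of_nonneg ?_ fun _ _ _ => sq_nonneg _
        intro u hu
        rw [Finset.mem_Icc] at hu
        rw [Finset.mem_range]
        omega
      refine h2.trans (h1.trans ?_)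
      have hA1 : H / L ^ A ≤ H / L ^ (B + c + 40) := by
        apply div_le_div_of_nonneg_left hH0.le (by (clear * - hL; positivity))
        exact pow_le_pow_right₀ hL1' (by omega)
      have h3 : (H : ℝ) / q0 ≤ H / L ^ (B + c + 40) := by
        apply div_le_div_of_nonneg_left hH0.le (by (clear * - hL; positivity))
        exact (pow_le_pow_right₀ hL1' (by omega)).trans hq0L
      have h4 : (H : ℝ) / 2 ^ e i ≤ H / L ^ (B + c + 40) :=
        div_le_div_of_nonneg_left hH0.le (by (clear * - hL; positivity)) hi1.le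
      have h5 : (q0 : ℝ) ≤ H / L ^ (B + c + 40) := hq0H.trans hA1
      have h6 : (0 : ℝ) ≤ Real.log ((2 * X : ℕ) : ℝ) :=
        Real.log_nonneg (by exact_mod_cast (by omega : 1 ≤ 2 * X))
      have h7 : 1 + Real.log ((2 * X : ℕ) : ℝ) ≤ 2 * L := by
        refine le_trans ?_ hlog4
        have : Real.log ((2 * X : ℕ) : ℝ) ≤ Real.log ((4 * X : ℕ) : ℝ) := by
          apply Real.log_le_log
          · exact_mod_cast (by omega : 0 < 2 * X)
          · exact_mod_cast (by omega : 2 * X ≤ 4 * X)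
        linarith only [this]
      have hq0X : (q0 : ℝ) ≤ X := by
        refine h5.trans ((div_le_self hH0.le (one_le_pow₀ hL1')).trans hHX')
      have h8 : 0 ≤ Real.log (q0 : ℝ) := Real.log_nonneg hq01'
      have h9 : 1 + Real.log (q0 : ℝ) ≤ 2 * L := by
        have : Real.log (q0 : ℝ) ≤ L := Real.log_le_log (by linarith only [hq01']) hq0X
        linarith only [hL, this]
      have h10 := two_calc X H L C2 (Real.log ((2 * X : ℕ) : ℝ)) (Real.log (q0 : ℝ))
        ((2 : ℝ) ^ e i + H / q0 + H / (2 : ℝ) ^ e i + q0) B c hX0.le hH0.le hL hC2 hL2 h6 h7 h8 h9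
        (by (clear * - hH1 hq01; positivity)) (by linarith only [hq0H, hi2, hA1, h3, h4])
      refine le_trans (le_of_eq ?_) h10
      push_cast
      ring
    · push Not at hi
      by_cases hm : ∃ i : Fin 12, i.val < 6 ∧ L ^ (B + c + 40) < (2 : ℝ) ^ e i
      · obtain ⟨i, hi6, hi1⟩ := hm
        have h1 : 2 * (z : ℝ) ≤ (2 : ℝ) ^ e i := hz2.trans (hi i hi1).le
        have h2 : 2 * z ≤ 2 ^ e i := by exact_mod_cast h1
        have h3 : z ≤ 2 ^ e i / 2 := by
          rw [Nat.le_div_iff_mul_le (by norm_num)]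
          omega
        have h4 : Fcl z q y e = 0 := by
          unfold Fcl
          exact Finset.prod_eq_zero (Finset.mem_univ i) (gcl_moebius z q y e i hi6 h3)
        rw [h4]
        simp only [ArithmeticFunction.zero_apply, zero_mul, Finset.sum_const_zero, norm_zero]
        rw [Finset.sum_eq_zero (fun _ _ => by norm_num)]
        (clear * - hX1 hL hH1; positivity)
      · push Not at hm
        have h1 : ∀ i : Fin 12, (2 : ℝ) ^ e i ≤ (X : ℝ) ^ s ∨
            (6 ≤ i.val ∧ H * (X : ℝ) ^ (-s) ≤ (2 : ℝ) ^ e i) := by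
          intro i
          by_cases h : L ^ (B + c + 40) < (2 : ℝ) ^ e i
          · right
            refine ⟨?_, ?_⟩
            · by_contra h6
              exact absurd (hm i (by omega)) (not_le.2 h)
            · refine le_trans ?_ (hi i h).le
              rw [Real.rpow_neg hX0.le, ← div_eq_mul_inv]
              apply div_le_div_of_nonneg_left hH0.le (by (clear * - hL; positivity))
              linarith only [hp2]
          · left
            push Not at h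
            linarith only [hp2, h]
        refine (hX H q z y e a α hHl hHu hq1 hqH hcop hαq h1).trans ?_
        rw [Real.rpow_neg hX0.le]
        exact minor_calc X H L C1 _ _ B hX0.le hL hC1 hL1 hMIN hp3
  -- Heath-Brown
  set E := Nat.clog 2 (4 * X) with hE
  have hE2 : 4 * X ≤ 2 ^ E := Nat.le_pow_clog (by norm_num) _
  have hE3 : (E : ℝ) + 1 ≤ 2 * L := clog_le X L rfl hX1 hL
  have hwin : ∀ u ∈ Icc X (2 * X),
      ∑ n ∈ Ioc u (u + H), (if n.Coprime q then mu n else 0) * ex (n * α) =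
      ∑ y ∈ ({0} : Finset ℕ), (((fun _ => 1 : ℕ → ℝ) y : ℝ) : ℂ) *
        ∑ e ∈ Fintype.piFinset (fun _ : Fin 12 => range (E + 1)), (wm e : ℂ) *
          ∑ n ∈ Ioc u (u + H), Fcl z q y e n * ex (n * α) := by
    intro u hu
    rw [Finset.mem_Icc] at hu
    rw [Finset.sum_singleton]
    simp only [Complex.ofReal_one, one_mul]
    have h2 : ∀ n ∈ Ioc u (u + H), (if n.Coprime q then mu n else 0) * ex (n * α) =
        ∑ e ∈ Fintype.piFinset (fun _ : Fin 12 => range (E + 1)), (wm e : ℂ) *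
          (Fcl z q 0 e n * ex (n * α)) := by
      intro n hn
      rw [Finset.mem_Ioc] at hn
      rw [hb_mu z q (4 * X) E hz6 hE2 n (by omega) (by omega), Finset.sum_mul]
      refine Finset.sum_congr rfl fun e _ => ?_
      ring
    rw [Finset.sum_congr rfl h2, Finset.sum_comm]
    refine Finset.sum_congr rfl fun e _ => ?_
    rw [← Finset.mul_sum]
  have h1 := part1 (Icc X (2 * X)) ({0} : Finset ℕ)
    (Fintype.piFinset (fun _ : Fin 12 => range (E + 1)))
    (fun _ => 1) wm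
    (fun y e u => ∑ n ∈ Ioc u (u + H), Fcl z q y e n * ex (n * α)) (fun _ _ => zero_le_one) wm_le
    (X * (H : ℝ) ^ 2 / L ^ (B + 30)) (fun y _ e _ => hcls y e)
  rw [Finset.sum_congr rfl fun u hu => by rw [hwin u hu]]
  refine h1.trans ?_
  rw [Finset.sum_singleton]
  have h2 : ((Fintype.piFinset (fun _ : Fin 12 => range (E + 1))).card : ℝ) ≤ (2 * L) ^ 12 := by
    rw [Fintype.card_piFinset]
    simp only [Finset.card_range, Finset.prod_const, Finset.card_univ, Fintype.card_fin]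
    push_cast
    gcongr
  calc (1 : ℝ) ^ 2 * 4096 *
        ((Fintype.piFinset (fun _ : Fin 12 => range (E + 1))).card : ℝ) ^ 2 *
        (X * (H : ℝ) ^ 2 / L ^ (B + 30))
      ≤ (1 : ℝ) ^ 2 * 4096 * ((2 * L) ^ 12) ^ 2 * (X * (H : ℝ) ^ 2 / L ^ (B + 30)) := by gcongr
    _ = 2 ^ 36 * (X * (H : ℝ) ^ 2 / L ^ (B + 6)) := by
        have : L ^ (B + 30) = L ^ (B + 6) * L ^ 24 := by ring
        rw [this]
        field_simp
        ring
    _ ≤ L ^ 6 * (X * (H : ℝ) ^ 2 / L ^ (B + 6)) := by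
        have h5 : (1024 : ℝ) ^ 6 ≤ L ^ 6 := pow_le_pow_left₀ (by norm_num) hL 6
        have h6 : (2 : ℝ) ^ 36 ≤ L ^ 6 := by
          norm_num at h5 ⊢
          linarith only [h5]
        gcongr
    _ = X * (H : ℝ) ^ 2 / L ^ B := by
        have : L ^ (B + 6) = L ^ B * L ^ 6 := by ring
        rw [this]
        field_simp

end Pool.Agent.MW
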