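import Pool.Agent.Lib.MW.Defs

/-!
# Module Ident: identities for the Moebius and the Liouville function

Proofs. `li_mul`: `ArithmeticFunction.liouville_apply_mul`. `mu_mul`: `IsMultiplicative.map_mul_of_coprime`.
`mu_split`: if `n` is squarefree, `d = gcd n q` is the only divisor of `n` and `q` with `n / d` coprime to `q` for which `mu d ≠ 0`
(if `d ∣ n`, `d ∣ q`, `(n/d, q) = 1` then `d = gcd n q`), and `mu n = mu d * mu (n/d)` because `d`, `n/d` are coprime. If `n` is not squarefree, every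
term is 0: `mu d ≠ 0`, `mu (n/d) ≠ 0`, `(n/d, q) = 1`, `d ∣ q` would make `n = d (n/d)` squarefree (coprime squarefree factors).
`li_sq`: both sides are multiplicative, or: write `n = s m^2` with `s` squarefree (`Nat.sq_mul_squarefree`), then
`mu (n / b^2) ≠ 0`, `b^2 ∣ n` forces `b = m` (for `b^2 ∣ s m^2` with `s m^2 / b^2` squarefree: compare the exponents of each prime, or
`b ∣ m` by `Nat.sq_mul_squarefree`-type lemmas, `s (m/b)^2` squarefree, so `m = b`), and `mu s = li s = li (s m^2)`.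
`mu_sq`: from `li_sq`: `∑_{b² ∣ n} mu b * li (n/b²) = ∑_{b² c² k = n} mu b mu k = ∑_{g² k = n} mu k ∑_{b ∣ g} mu b = mu n` (only `g = 1`), or directly: with
`n = s m^2`: `b² ∣ n` iff `b ∣ m`, `li (n/b²) = li s`, `∑_{b ∣ m} mu b = [m = 1]` (`ArithmeticFunction.sum_moebius_mul...`, `coe_moebius_mul_coe_zeta`).
(`b ^ 2 ∣ s * m ^ 2` with `s` squarefree iff `b ∣ m`.)
`li_part` (`d ∣ q`): if `gcd n q = d` then `(n/d, q/d) = 1`, all `b` with `b² ∣ n/d` and all cofactors `n/(d b²)` are coprime to `q/d` (divisors of `n/d`), and the sum is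
`li d * li (n/d) = li n` by `li_sq` (for `n/d`; `d b² ∣ n` iff `b² ∣ n/d`) and `li_mul`. If `gcd n q ≠ d` every term is 0: `d b² ∣ n`, `b` and `n/(d b²)` coprime to `q/d` give `(n/d, q/d) = 1`, so `gcd n q = d`.
`li_split`: sum `li_part` over `d ∣ q`.
The sums over `b` may be extended to `Icc 1 N` for every `N ≥ n` (`b ≤ b² ≤ n`).
-/

set_option autoImplicit false

open Finset Filter

namespace Pool.Agent.MW

open Pool.Agent.VK Pool.Agent.HLT Pool.Agent.VM

theorem li_mul (m n : ℕ) : li (m * n) = li m * li n := by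
  unfold li
  rw [ArithmeticFunction.liouville_apply_mul]
  push_cast
  rfl

theorem mu_mul {m n : ℕ} (h : m.Coprime n) : mu (m * n) = mu m * mu n := by
  unfold mu
  rw [ArithmeticFunction.isMultiplicative_moebius.map_mul_of_coprime h]
  push_cast
  rfl

namespace IdentAux

theorem sq_dvd_iff {s m b : ℕ} (hs : Squarefree s) (hm : 1 ≤ m) : b ^ 2 ∣ s * m ^ 2 ↔ b ∣ m := by
  constructor
  · intro h
    have hg : 0 < Nat.gcd b m := Nat.gcd_pos_of_pos_right _ hm
    obtain ⟨g, b', m', hg', hcop, hb, hm'⟩ := Nat.exists_coprime' hg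
    have hgp : 0 < g := hg'
    rw [hb, hm'] at h
    have h2 : b' ^ 2 * g ^ 2 ∣ (s * m' ^ 2) * g ^ 2 := by
      have e1 : b' ^ 2 * g ^ 2 = (b' * g) ^ 2 := by ring
      have e2 : (s * m' ^ 2) * g ^ 2 = s * (m' * g) ^ 2 := by ring
      rw [e1, e2]
      exact h
    have h3 : b' ^ 2 ∣ s * m' ^ 2 := Nat.dvd_of_mul_dvd_mul_right (pow_pos hgp 2) h2
    have h4 : Nat.Coprime (b' ^ 2) (m' ^ 2) := Nat.Coprime.pow 2 2 hcop
    have h5 : b' ^ 2 ∣ s := h4.dvd_of_dvd_mul_right h3
    have h6 : IsUnit b' := hs b' (by rw [← sq]; exact h5)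
    have h7 : b' = 1 := Nat.isUnit_iff.mp h6
    rw [hb, hm', h7, one_mul]
    exact Dvd.intro_left m' rfl
  · intro h
    exact (pow_dvd_pow_of_dvd h 2).trans (Dvd.intro_left s rfl)

theorem li_sqf {s : ℕ} (hs : Squarefree s) : li s = mu s := by
  unfold li mu
  rw [ArithmeticFunction.liouville_apply hs.ne_zero, ArithmeticFunction.moebius_apply_of_squarefree hs]

theorem li_mul_self {m : ℕ} (hm : 1 ≤ m) : li m * li m = 1 := by
  unfold li
  rw [ArithmeticFunction.liouville_apply (by omega)]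
  push_cast
  rw [← mul_pow]
  norm_num

theorem li_mul_sq {s m : ℕ} (hm : 1 ≤ m) : li (s * m ^ 2) = li s := by
  rw [sq, li_mul, li_mul, li_mul_self hm, mul_one]

theorem mu_eq_zero {n : ℕ} (h : ¬ Squarefree n) : mu n = 0 := by
  unfold mu
  rw [ArithmeticFunction.moebius_eq_zero_of_not_squarefree h]
  simp

theorem decomp (n : ℕ) (hn : 1 ≤ n) : ∃ s m : ℕ, n = s * m ^ 2 ∧ Squarefree s ∧ 1 ≤ m := by
  obtain ⟨a, b, hab, ha⟩ := Nat.sq_mul_squarefree n
  refine ⟨a, b, by rw [← hab, mul_comm], ha, ?_⟩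
  rcases Nat.eq_zero_or_pos b with h | h
  · subst h
    simp at hab
    omega
  · exact h

theorem not_sqf {s c : ℕ} (hc : c ≠ 1) : ¬ Squarefree (s * c ^ 2) := by
  intro h
  have h1 : IsUnit c := h c (by rw [← sq]; exact Dvd.intro_left s rfl)
  exact hc (Nat.isUnit_iff.mp h1)

theorem sum_mu (m : ℕ) (hm : 1 ≤ m) : (∑ b ∈ m.divisors, mu b) = if m = 1 then 1 else 0 := by
  have h : ((ArithmeticFunction.moebius * (ArithmeticFunction.zeta : ArithmeticFunction ℤ)) m) = (1 : ArithmeticFunction ℤ) m := by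
    rw [ArithmeticFunction.moebius_mul_coe_zeta]
  rw [ArithmeticFunction.coe_mul_zeta_apply] at h
  unfold mu
  rw [← Int.cast_sum, h, ArithmeticFunction.one_apply]
  split_ifs <;> simp

theorem le_of_sq {s m n N : ℕ} (h : n = s * m ^ 2) (hn : 1 ≤ n) (hN : n ≤ N) : m ≤ N := by
  have hs : 1 ≤ s := by
    rcases Nat.eq_zero_or_pos s with h0 | h0
    · subst h0
      simp at h
      omega
    · exact h0
  have h1 : m ≤ m ^ 2 := Nat.le_self_pow (by norm_num) m
  have h2 : m ^ 2 ≤ s * m ^ 2 := Nat.le_mul_of_pos_left _ hs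
  omega

theorem gcd_of {n q d e k : ℕ} (hd : d ∣ q) (hq : 1 ≤ q) (he : n = d * e) (hc : e.Coprime (q / d)) : Nat.gcd n q = d := by
  have hdp : 0 < d := Nat.pos_of_dvd_of_pos hd hq
  obtain ⟨r, hr⟩ := hd
  have hr' : q / d = r := by
    rw [hr]
    exact Nat.mul_div_cancel_left r hdp
  rw [hr'] at hc
  rw [he, hr, Nat.gcd_mul_left, Nat.Coprime.gcd_eq_one hc, mul_one]

end IdentAux

theorem mu_split (q n : ℕ) (hq : 1 ≤ q) (hn : 1 ≤ n) :
    mu n = ∑ d ∈ q.divisors, if d ∣ n then mu d * (if (n / d).Coprime q then mu (n / d) else 0) else 0 := by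
  have hg : Nat.gcd n q ∣ q := Nat.gcd_dvd_right n q
  have hg' : Nat.gcd n q ∣ n := Nat.gcd_dvd_left n q
  have hgp : 0 < Nat.gcd n q := Nat.gcd_pos_of_pos_left _ hn
  rw [Finset.sum_eq_single (Nat.gcd n q)]
  · rw [if_pos hg']
    have e : Nat.gcd n q * (n / Nat.gcd n q) = n := Nat.mul_div_cancel' hg'
    split_ifs with h
    · have hc : Nat.Coprime (Nat.gcd n q) (n / Nat.gcd n q) :=
        (Nat.Coprime.coprime_dvd_right hg h).symm
      rw [← mu_mul hc, e]
    · rw [mul_zero]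
      apply IdentAux.mu_eq_zero
      intro hsq
      apply h
      rw [Nat.coprime_iff_gcd_eq_one]
      by_contra hne
      obtain ⟨p, hp, hpd⟩ := Nat.exists_prime_and_dvd hne
      have hp1 : p ∣ n / Nat.gcd n q := hpd.trans (Nat.gcd_dvd_left _ _)
      have hp2 : p ∣ q := hpd.trans (Nat.gcd_dvd_right _ _)
      have hp3 : p ∣ n := hp1.trans (Nat.div_dvd_of_dvd hg')
      have hp4 : p ∣ Nat.gcd n q := Nat.dvd_gcd hp3 hp2
      have hp5 : p * p ∣ n := by
        rw [← e]
        exact Nat.mul_dvd_mul hp4 hp1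
      have := hsq p hp5
      rw [Nat.isUnit_iff] at this
      exact hp.one_lt.ne' this
  · intro d hd hne
    rw [Nat.mem_divisors] at hd
    split_ifs with h1 h2
    · exfalso
      apply hne
      symm
      refine IdentAux.gcd_of (k := 0) hd.1 hq (Nat.mul_div_cancel' h1).symm ?_
      exact Nat.Coprime.coprime_dvd_right (Nat.div_dvd_of_dvd hd.1) h2
    · rw [mul_zero]
    · rfl
  · intro h
    exact absurd (Nat.mem_divisors.mpr ⟨hg, by omega⟩) h

theorem li_sq (n N : ℕ) (hn : 1 ≤ n) (hN : n ≤ N) :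
    li n = ∑ b ∈ Icc 1 N, if b ^ 2 ∣ n then mu (n / b ^ 2) else 0 := by
  obtain ⟨s, m, h, hs, hm⟩ := IdentAux.decomp n hn
  have hmN := IdentAux.le_of_sq h hn hN
  rw [Finset.sum_eq_single m]
  · rw [if_pos (by rw [h]; exact Dvd.intro_left s rfl)]
    rw [h, Nat.mul_div_cancel s (pow_pos (by omega) 2), IdentAux.li_mul_sq hm, IdentAux.li_sqf hs]
  · intro b hb hne
    rw [Finset.mem_Icc] at hb
    split_ifs with h1
    · rw [h, IdentAux.sq_dvd_iff hs hm] at h1
      obtain ⟨c, hc⟩ := h1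
      have hc1 : c ≠ 1 := by
        rintro rfl
        rw [mul_one] at hc
        exact hne hc.symm
      have e : n / b ^ 2 = s * c ^ 2 := by
        rw [h, hc]
        have : s * (b * c) ^ 2 = b ^ 2 * (s * c ^ 2) := by ring
        rw [this, Nat.mul_div_cancel_left _ (pow_pos (by omega) 2)]
      rw [e]
      exact IdentAux.mu_eq_zero (IdentAux.not_sqf hc1)
    · rfl
  · intro hh
    exact absurd (Finset.mem_Icc.mpr ⟨hm, hmN⟩) hh

theorem mu_sq (n N : ℕ) (hn : 1 ≤ n) (hN : n ≤ N) :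
    mu n = ∑ b ∈ Icc 1 N, if b ^ 2 ∣ n then mu b * li (n / b ^ 2) else 0 := by
  obtain ⟨s, m, h, hs, hm⟩ := IdentAux.decomp n hn
  have hmN := IdentAux.le_of_sq h hn hN
  have key : (∑ b ∈ Icc 1 N, if b ^ 2 ∣ n then mu b * li (n / b ^ 2) else 0) = ∑ b ∈ m.divisors, mu b * li s := by
    rw [← Finset.sum_filter]
    apply Finset.sum_congr
    · ext b
      rw [Finset.mem_filter, Finset.mem_Icc, Nat.mem_divisors, h, IdentAux.sq_dvd_iff hs hm]
      constructor
      · rintro ⟨-, h2⟩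
        exact ⟨h2, by omega⟩
      · rintro ⟨h2, -⟩
        have := Nat.le_of_dvd (by omega) h2
        have := Nat.pos_of_dvd_of_pos h2 (by omega)
        exact ⟨⟨by omega, by omega⟩, h2⟩
    · intro b hb
      rw [Nat.mem_divisors] at hb
      obtain ⟨c, hc⟩ := hb.1
      have hbp : 0 < b := Nat.pos_of_dvd_of_pos hb.1 (by omega)
      have hcp : 1 ≤ c := by
        rcases Nat.eq_zero_or_pos c with h0 | h0
        · subst h0
          omega
        · exact h0
      have e : n / b ^ 2 = s * c ^ 2 := by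
        rw [h, hc]
        have : s * (b * c) ^ 2 = b ^ 2 * (s * c ^ 2) := by ring
        rw [this, Nat.mul_div_cancel_left _ (pow_pos hbp 2)]
      rw [e, IdentAux.li_mul_sq hcp]
  rw [key, ← Finset.sum_mul, IdentAux.sum_mu m hm]
  split_ifs with h1
  · rw [h, h1, one_pow, mul_one, one_mul, IdentAux.li_sqf hs]
  · rw [zero_mul, h]
    exact IdentAux.mu_eq_zero (IdentAux.not_sqf h1)

theorem li_part (q n N d : ℕ) (hq : 1 ≤ q) (hn : 1 ≤ n) (hN : n ≤ N) (hd : d ∣ q) :
    (∑ b ∈ Icc 1 N, if b.Coprime (q / d) ∧ d * b ^ 2 ∣ n then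
      li d * (if (n / (d * b ^ 2)).Coprime (q / d) then mu (n / (d * b ^ 2)) else 0) else 0) =
      if Nat.gcd n q = d then li n else 0 := by
  have hdp : 0 < d := Nat.pos_of_dvd_of_pos hd hq
  split_ifs with hg
  · have hdn : d ∣ n := hg ▸ Nat.gcd_dvd_left n q
    have hcop : (n / d).Coprime (q / d) := by
      have := Nat.coprime_div_gcd_div_gcd (m := n) (n := q) (by rw [hg]; exact hdp)
      rwa [hg] at this
    obtain ⟨e, he⟩ := hdn
    have hed : n / d = e := by
      rw [he]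
      exact Nat.mul_div_cancel_left e hdp
    rw [hed] at hcop
    have hep : 1 ≤ e := by
      rcases Nat.eq_zero_or_pos e with h0 | h0
      · subst h0
        simp at he
        omega
      · exact h0
    have heN : e ≤ N := by
      have : e ≤ d * e := Nat.le_mul_of_pos_left _ hdp
      omega
    have hdvd : ∀ b : ℕ, d * b ^ 2 ∣ n ↔ b ^ 2 ∣ e := by
      intro b
      rw [he]
      exact Nat.mul_dvd_mul_iff_left hdp
    rw [he, li_mul, li_sq e N hep heN, Finset.mul_sum]
    apply Finset.sum_congr rfl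
    intro b hb
    rw [Finset.mem_Icc] at hb
    rw [← he]
    by_cases h1 : b ^ 2 ∣ e
    · obtain ⟨k, hk⟩ := h1
      have hb2 : 0 < b ^ 2 := pow_pos (by omega) 2
      have e1 : n / (d * b ^ 2) = k := by
        rw [he, hk, ← mul_assoc]
        exact Nat.mul_div_cancel_left k (Nat.mul_pos hdp hb2)
      have e2 : e / b ^ 2 = k := by
        rw [hk]
        exact Nat.mul_div_cancel_left k hb2
      have hkc : k.Coprime (q / d) := Nat.Coprime.coprime_dvd_left (by rw [hk]; exact Dvd.intro_left (b ^ 2) rfl) hcop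
      have hbc : b.Coprime (q / d) := by
        refine Nat.Coprime.coprime_dvd_left ?_ hcop
        rw [hk, sq]
        exact ⟨b * k, by ring⟩
      have hbe : b ^ 2 ∣ e := ⟨k, hk⟩
      rw [if_pos ⟨hbc, (hdvd b).mpr hbe⟩, if_pos hbe, e1, e2, if_pos hkc]
    · rw [if_neg h1, if_neg (fun h => h1 ((hdvd b).mp h.2)), mul_zero]
  · apply Finset.sum_eq_zero
    intro b hb
    split_ifs with h1 h2
    · exfalso
      apply hg
      obtain ⟨k, hk⟩ := h1.2
      rw [Finset.mem_Icc] at hb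
      have hb2 : 0 < b ^ 2 := pow_pos (by omega) 2
      have e1 : n / (d * b ^ 2) = k := by
        rw [hk]
        exact Nat.mul_div_cancel_left k (Nat.mul_pos hdp hb2)
      rw [e1] at h2
      refine IdentAux.gcd_of (k := 0) hd hq (e := b ^ 2 * k) (by rw [hk, mul_assoc]) ?_
      exact Nat.Coprime.mul_left (Nat.Coprime.pow_left 2 h1.1) h2
    · rw [mul_zero]
    · rfl

theorem li_split (q n N : ℕ) (hq : 1 ≤ q) (hn : 1 ≤ n) (hN : n ≤ N) :
    li n = ∑ d ∈ q.divisors, ∑ b ∈ Icc 1 N, if b.Coprime (q / d) ∧ d * b ^ 2 ∣ n then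
      li d * (if (n / (d * b ^ 2)).Coprime (q / d) then mu (n / (d * b ^ 2)) else 0) else 0 := by
  have h : ∀ d ∈ q.divisors, (∑ b ∈ Icc 1 N, if b.Coprime (q / d) ∧ d * b ^ 2 ∣ n then
      li d * (if (n / (d * b ^ 2)).Coprime (q / d) then mu (n / (d * b ^ 2)) else 0) else 0) =
      if Nat.gcd n q = d then li n else 0 := by
    intro d hd
    exact li_part q n N d hq hn hN (Nat.dvd_of_mem_divisors hd)
  rw [Finset.sum_congr rfl h, Finset.sum_ite_eq, if_pos]
  exact Nat.mem_divisors.mpr ⟨Nat.gcd_dvd_right n q, by omega⟩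

end Pool.Agent.MW
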