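import Pool.Agent.Lib.MW.BlkPair
import Pool.Agent.Lib.MW.Ident

/-!
# Module BlkLam: minor arcs for the Liouville function, dyadic block

`L = log X`. `blk_pair (B + 8) ε` gives `p, η, A1`. `A = 2 A1 + 2 B + 20`. Dirichlet (`VM.MinorP6Aux.dirichlet α H (X^p)`): `1 ≤ q ≤ Q`, `Q ≤ H/X^p ≤ Q + 1`, `|α - a/q| ≤ 1/(q(Q+1)) ≤ X^p/(q H)`,
`β = α - a/q`. `li_split` (`N = 4X`): for `1 ≤ n ≤ 4X`, `li n = ∑_{d ∣ q} ∑_{b ≤ 4X} T_{d,b}(n)`, `T_{d,b}(n) = [(b, q/d) = 1, d b² ∣ n] li d g_{q/d}(n/(d b²))`, `g_r(m) = [(m, r) = 1] mu m`.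
Call `d ∣ q` BAD if `q/d ≤ L^A1` and `H |β| ≤ L^A1`. Split the pairs:
(M) `d ≤ X^η` not bad, `b ≤ Z := ⌊X^η⌋`, `(b, q/d) = 1`: `blk_pair` (times the unimodular constant `li d`); `cauchy_ws` with weights `w = d b²`:
`(∑ 1/(d b²)) ∑ d b² (X H²/((d b²)² L^(B+8)) + 4 X) ≤ (∑ 1/(d b²))² X H²/L^(B+8) + (∑ 1/(d b²)) 4 X ∑ d b²`, `∑_{d ∣ q} ∑_b 1/(d b²) ≤ 2 (1 + log q) ≤ 4 L` (`d` runs over distinct integers `≤ q ≤ X`),
`∑ d b² ≤ X^(5η) ≤ X^(1/200)`, `H² ≥ X^(1/3)`.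
(D) `d` bad or `d > X^η`, all `b`: by `li_part` the sum over `b` is `[gcd n q = d] li n`, so the function is `li n` times the indicator that `gcd n q ∈ D'` (`D'` the set of these `d`); `tail_win`:
`≤ H² ∑_{d ∈ D'} 4X/d`. If a bad `d` exists then `H |β| ≤ L^A1`, so `q > L^A` (otherwise `Mn` gives `H|β| > L^A`), and `∑_{bad} 1/d = ∑_{q' ∣ q, q' ≤ L^A1} q'/q ≤ L^(2 A1)/L^A`; the `d > X^η`: at most
`τ(q) X^(-η)` (`tau_small`).
(E) `d ≤ X^η` not bad, `b > Z`: at most `∑_{d ∣ q} ∑_{b > Z} [d b² ∣ n]` terms of norm `≤ 1`; its square is at most `τ(n)² τ(n)²·`... : use `(count)² ≤ τ(n)^2 · count`-type bounds (the pairs `(d,b)` are pairs of divisors of `n`),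
`τ(n) ≤ X^ν` for `n ≤ 4X`, and `∑_{n ≤ 4X} count ≤ τ(q) ∑_{b > Z} 4X/b² ≤ X^(1 + ν) 4/Z`-like; a power saving.
Total: `3 (M + D + E) ≤ X H²/L^B`.
-/

set_option autoImplicit false

open Finset Filter

namespace Pool.Agent.MW

open Pool.Agent.VK Pool.Agent.HLT Pool.Agent.VM

namespace BlkLamAux

/-- one pair of the decomposition -/
noncomputable def T0 (q d b n : ℕ) : ℂ :=
  if d * b ^ 2 ∣ n then (if (n / (d * b ^ 2)).Coprime (q / d) then mu (n / (d * b ^ 2)) else 0) else 0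

/-- one pair of the decomposition -/
noncomputable def T (q d b n : ℕ) : ℂ :=
  if b.Coprime (q / d) ∧ d * b ^ 2 ∣ n then
    li d * (if (n / (d * b ^ 2)).Coprime (q / d) then mu (n / (d * b ^ 2)) else 0) else 0

lemma T_eq (q d b n : ℕ) : T q d b n = if b.Coprime (q / d) then li d * T0 q d b n else 0 := by
  unfold T T0
  by_cases h1 : b.Coprime (q / d) <;> by_cases h2 : d * b ^ 2 ∣ n <;> simp [h1, h2]

lemma norm_T (q d b n : ℕ) : ‖T q d b n‖ ≤ if d * b ^ 2 ∣ n then 1 else 0 := by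
  unfold T
  by_cases h2 : d * b ^ 2 ∣ n
  · rw [if_pos h2]
    by_cases h1 : b.Coprime (q / d)
    · rw [if_pos ⟨h1, h2⟩, norm_mul]
      have h3 : ‖(if (n / (d * b ^ 2)).Coprime (q / d) then mu (n / (d * b ^ 2)) else 0 : ℂ)‖ ≤ 1 := by
        split_ifs
        · exact norm_mu _
        · simp
      exact mul_le_one₀ (norm_li d) (norm_nonneg _) h3
    · rw [if_neg (fun h => h1 h.1), norm_zero]
      exact zero_le_one
  · rw [if_neg h2, if_neg (fun h => h2 h.2), norm_zero]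

lemma decomp (q n N Z : ℕ) (D1 : Finset ℕ) (hq : 1 ≤ q) (hn : 1 ≤ n) (hN : n ≤ N)
    (hD : D1 ⊆ q.divisors) (hZ : Z ≤ N) :
    li n = (if Nat.gcd n q ∈ q.divisors \ D1 then li n else 0) +
      (∑ d ∈ D1, ∑ b ∈ Icc 1 Z, T q d b n) + ∑ d ∈ D1, ∑ b ∈ Ioc Z N, T q d b n := by
  have h1 := li_split q n N hq hn hN
  have h2 : li n = ∑ d ∈ q.divisors, ∑ b ∈ Icc 1 N, T q d b n := h1
  rw [← Finset.sum_sdiff hD] at h2
  have h3 : ∑ d ∈ q.divisors \ D1, ∑ b ∈ Icc 1 N, T q d b n =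
      if Nat.gcd n q ∈ q.divisors \ D1 then li n else 0 := by
    rw [← Finset.sum_ite_eq (q.divisors \ D1) (Nat.gcd n q) (fun _ => li n)]
    refine Finset.sum_congr rfl fun d hd => ?_
    rw [Finset.mem_sdiff, Nat.mem_divisors] at hd
    exact li_part q n N d hq hn hN hd.1.1
  have h4 : ∀ d, ∑ b ∈ Icc 1 N, T q d b n = ∑ b ∈ Icc 1 Z, T q d b n + ∑ b ∈ Ioc Z N, T q d b n := by
    intro d
    have h5 : Icc 1 N = Ioc 0 N := by ext x; simp [Nat.succ_le_iff]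
    have h6 : Icc 1 Z = Ioc 0 Z := by ext x; simp [Nat.succ_le_iff]
    rw [h5, h6, Finset.sum_Ioc_consecutive _ (Nat.zero_le Z) hZ]
  rw [h3, Finset.sum_congr rfl (fun d _ => h4 d), Finset.sum_add_distrib, ← add_assoc] at h2
  exact h2

lemma sum_inv (q : ℕ) (D : Finset ℕ) (hD : D ⊆ q.divisors) :
    ∑ d ∈ D, 1 / (d : ℝ) ≤ 1 + Real.log q := by
  have h1 : ∑ d ∈ D, 1 / (d : ℝ) ≤ ∑ d ∈ Icc 1 q, 1 / (d : ℝ) := by
    refine Finset.sum_le_sum_of_subset_of_nonneg ?_ fun _ _ _ => by positivity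
    intro d hd
    have h2 := Nat.mem_divisors.1 (hD hd)
    have h3 := Nat.pos_of_mem_divisors (hD hd)
    rw [mem_Icc]
    exact ⟨h3, Nat.le_of_dvd (Nat.pos_of_ne_zero h2.2) h2.1⟩
  refine h1.trans ?_
  have h2 := harmonic_le_one_add_log q
  rw [harmonic_eq_sum_Icc] at h2
  push_cast at h2
  simpa [one_div] using h2

lemma sum_sq_tail (Z N : ℕ) (hZ : 1 ≤ Z) : ∑ b ∈ Ioc Z N, 1 / (b : ℝ) ^ 2 ≤ 1 / (Z : ℝ) := by
  rcases le_or_gt Z N with h | h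
  · have h1 := sum_Ioc_inv_sq_le_sub (α := ℝ) (k := Z) (n := N) (by omega) h
    have h2 : ∑ b ∈ Ioc Z N, 1 / (b : ℝ) ^ 2 = ∑ b ∈ Ioc Z N, ((b : ℝ) ^ 2)⁻¹ := by
      simp [one_div]
    rw [h2, one_div]
    have h3 : (0 : ℝ) ≤ (N : ℝ)⁻¹ := by positivity
    linarith only [h1, h3]
  · rw [Ioc_eq_empty (by omega), sum_empty]
    positivity

lemma sum_sq_head (Z : ℕ) : ∑ b ∈ Icc 1 Z, 1 / (b : ℝ) ^ 2 ≤ 2 := by
  rcases Nat.eq_zero_or_pos Z with rfl | hZ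
  · simp
  · have h5 : Icc 1 Z = insert 1 (Ioc 1 Z) := by
      ext x
      simp only [mem_Icc, mem_insert, mem_Ioc]
      omega
    rw [h5, sum_insert (by simp)]
    have h1 := sum_sq_tail 1 Z le_rfl
    have h2 : (1 : ℝ) / ((1 : ℕ) : ℝ) ^ 2 = 1 := by norm_num
    have h3 : (1 : ℝ) / ((1 : ℕ) : ℝ) = 1 := by norm_num
    rw [h3] at h1
    rw [h2]
    linarith only [h1]

lemma card_mult (d N : ℕ) (hd : 1 ≤ d) :
    ∑ n ∈ Icc 1 N, (if d ∣ n then (1 : ℝ) else 0) ≤ N / d := by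
  have h5 : Icc 1 N = Ioc 0 N := by ext x; simp [Nat.succ_le_iff]
  rw [← Finset.sum_filter, sum_const, nsmul_eq_mul, mul_one, h5, Nat.Ioc_filter_dvd_card_eq_div]
  exact Nat.cast_div_le

/-- part (D) -/
lemma part_D (H N q : ℕ) (D2 U : Finset ℕ) (hD2 : ∀ d ∈ D2, 1 ≤ d) (hU : ∀ u ∈ U, u + H ≤ N)
    (α : ℝ) : ∑ u ∈ U, ‖∑ n ∈ Ioc u (u + H), (if Nat.gcd n q ∈ D2 then li n else 0) * ex (n * α)‖ ^ 2 ≤
      (H : ℝ) ^ 2 * (N * ∑ d ∈ D2, 1 / (d : ℝ)) := by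
  refine (tail_win _ H N U hU).trans (mul_le_mul_of_nonneg_left ?_ (by positivity))
  have h1 : ∀ n ∈ Icc 1 N, ‖(if Nat.gcd n q ∈ D2 then li n else 0) * ex (n * α)‖ ^ 2 ≤
      ∑ d ∈ D2, if d ∣ n then (1 : ℝ) else 0 := by
    intro n _
    have h0 : ∀ d ∈ D2, (0 : ℝ) ≤ if d ∣ n then (1 : ℝ) else 0 := fun d _ => by
      split_ifs
      · exact zero_le_one
      · exact le_rfl
    by_cases h : Nat.gcd n q ∈ D2
    · rw [if_pos h, norm_mul, norm_ex, mul_one]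
      have h2 := Finset.single_le_sum h0 h
      rw [if_pos (Nat.gcd_dvd_left n q)] at h2
      refine le_trans ?_ h2
      exact pow_le_one₀ (norm_nonneg _) (norm_li n)
    · rw [if_neg h, zero_mul, norm_zero]
      have h2 := Finset.sum_nonneg h0
      rw [zero_pow two_ne_zero]
      exact h2
  refine (Finset.sum_le_sum h1).trans ?_
  rw [Finset.sum_comm, Finset.mul_sum]
  refine Finset.sum_le_sum fun d hd => (card_mult d N (hD2 d hd)).trans ?_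
  rw [mul_one_div]

/-- part (E) -/
lemma part_E (H N q Z : ℕ) (D1 U : Finset ℕ) (hD : ∀ d ∈ D1, 1 ≤ d) (hZ : 1 ≤ Z)
    (hU : ∀ u ∈ U, u + H ≤ N) (K : ℝ) (hK : ∀ n ∈ Icc 1 N, (n.divisors.card : ℝ) ≤ K) (α : ℝ) :
    ∑ u ∈ U, ‖∑ n ∈ Ioc u (u + H), (∑ d ∈ D1, ∑ b ∈ Ioc Z N, T q d b n) * ex (n * α)‖ ^ 2 ≤
      (H : ℝ) ^ 2 * (K ^ 2 * (N * ((∑ d ∈ D1, 1 / (d : ℝ)) * (1 / Z)))) := by
  refine (tail_win _ H N U hU).trans (mul_le_mul_of_nonneg_left ?_ (by positivity))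
  have h1 : ∀ n ∈ Icc 1 N, ‖(∑ d ∈ D1, ∑ b ∈ Ioc Z N, T q d b n) * ex (n * α)‖ ^ 2 ≤
      K ^ 2 * ∑ d ∈ D1, ∑ b ∈ Ioc Z N, if d * b ^ 2 ∣ n then (1 : ℝ) else 0 := by
    intro n hn
    have hn1 : 1 ≤ n := (mem_Icc.1 hn).1
    rw [norm_mul, norm_ex, mul_one]
    obtain ⟨c, hc⟩ : ∃ c : ℝ, c = ∑ d ∈ D1, ∑ b ∈ Ioc Z N, if d * b ^ 2 ∣ n then (1 : ℝ) else 0 :=
      ⟨_, rfl⟩
    have h2 : ‖∑ d ∈ D1, ∑ b ∈ Ioc Z N, T q d b n‖ ≤ c := by
      rw [hc]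
      refine (norm_sum_le _ _).trans (Finset.sum_le_sum fun d _ => ?_)
      exact (norm_sum_le _ _).trans (Finset.sum_le_sum fun b _ => norm_T q d b n)
    have h3 : c ≤ K ^ 2 := by
      have h4 : c ≤ ∑ d ∈ n.divisors, ∑ b ∈ n.divisors, (1 : ℝ) := by
        rw [hc]
        have h5 : ∀ d ∈ D1, (∑ b ∈ Ioc Z N, if d * b ^ 2 ∣ n then (1 : ℝ) else 0) ≤
            if d ∣ n then (n.divisors.card : ℝ) else 0 := by
          intro d _
          by_cases hd : d ∣ n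
          · rw [if_pos hd, ← Finset.sum_filter, sum_const, nsmul_eq_mul, mul_one]
            refine Nat.cast_le.2 (Finset.card_le_card fun b hb => ?_)
            rw [mem_filter] at hb
            rw [Nat.mem_divisors]
            exact ⟨(Dvd.dvd.mul_left (dvd_pow_self b two_ne_zero) d).trans hb.2, by omega⟩
          · rw [if_neg hd]
            refine (Finset.sum_eq_zero fun b _ => ?_).le
            rw [if_neg]
            exact fun h => hd ((Dvd.intro _ rfl).trans h)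
        refine (Finset.sum_le_sum h5).trans ?_
        rw [← Finset.sum_filter]
        have h6 : D1.filter (fun d => d ∣ n) ⊆ n.divisors := by
          intro d hd
          rw [mem_filter] at hd
          rw [Nat.mem_divisors]
          exact ⟨hd.2, by omega⟩
        refine (Finset.sum_le_sum_of_subset_of_nonneg h6 fun _ _ _ => by positivity).trans ?_
        refine (Finset.sum_le_sum fun d _ => ?_)
        rw [sum_const, nsmul_eq_mul, mul_one]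
      rw [sum_const, sum_const, nsmul_eq_mul, nsmul_eq_mul, mul_one] at h4
      refine h4.trans ?_
      rw [pow_two]
      have h7 := hK n hn
      have h8 : (0 : ℝ) ≤ n.divisors.card := by positivity
      exact mul_le_mul h7 h7 h8 (h8.trans h7)
    rw [← hc]
    have h9 : 0 ≤ c := (norm_nonneg _).trans h2
    calc ‖∑ d ∈ D1, ∑ b ∈ Ioc Z N, T q d b n‖ ^ 2 ≤ c ^ 2 :=
          pow_le_pow_left₀ (norm_nonneg _) h2 2
      _ = c * c := pow_two c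
      _ ≤ K ^ 2 * c := mul_le_mul_of_nonneg_right h3 h9
  refine (Finset.sum_le_sum h1).trans ?_
  rw [← Finset.mul_sum]
  refine mul_le_mul_of_nonneg_left ?_ (by positivity)
  rw [Finset.sum_comm]
  have h2 : ∀ d ∈ D1, ∑ n ∈ Icc 1 N, (∑ b ∈ Ioc Z N, if d * b ^ 2 ∣ n then (1 : ℝ) else 0) ≤
      N * (1 / (d : ℝ)) * (1 / Z) := by
    intro d hd
    rw [Finset.sum_comm]
    have h3 : ∀ b ∈ Ioc Z N, ∑ n ∈ Icc 1 N, (if d * b ^ 2 ∣ n then (1 : ℝ) else 0) ≤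
        N * (1 / (d : ℝ)) * (1 / (b : ℝ) ^ 2) := by
      intro b hb
      have hb1 : 1 ≤ b := by have := (mem_Ioc.1 hb).1; omega
      refine (card_mult (d * b ^ 2) N (Nat.mul_pos (hD d hd) (by positivity))).trans ?_
      push_cast
      rw [mul_one_div, mul_one_div, div_div]
    refine (Finset.sum_le_sum h3).trans ?_
    rw [← Finset.mul_sum]
    exact mul_le_mul_of_nonneg_left (sum_sq_tail Z N hZ) (by positivity)
  refine (Finset.sum_le_sum h2).trans ?_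
  rw [Finset.sum_mul, Finset.mul_sum]
  refine (Finset.sum_le_sum fun d _ => ?_)
  rw [mul_assoc]

/-- part (M) -/
lemma part_M (H q Z : ℕ) (D1 U : Finset ℕ) (hD : ∀ d ∈ D1, 1 ≤ d) (W V S R α : ℝ) (hW : 0 ≤ W)
    (hV : 0 ≤ V) (hS : (∑ d ∈ D1, 1 / (d : ℝ)) * 2 ≤ S)
    (hR : ∑ d ∈ D1, ∑ b ∈ Icc 1 Z, ((d * b ^ 2 : ℕ) : ℝ) ≤ R)
    (h : ∀ d ∈ D1, ∀ b ∈ Icc 1 Z, b.Coprime (q / d) →
      ∑ u ∈ U, ‖∑ n ∈ Ioc u (u + H), T0 q d b n * ex (n * α)‖ ^ 2 ≤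
        W / ((d * b ^ 2 : ℕ) : ℝ) ^ 2 + V) :
    ∑ u ∈ U, ‖∑ n ∈ Ioc u (u + H), (∑ d ∈ D1, ∑ b ∈ Icc 1 Z, T q d b n) * ex (n * α)‖ ^ 2 ≤
      S * (S * W + V * R) := by
  have h0 : ∀ u, ∑ n ∈ Ioc u (u + H), (∑ d ∈ D1, ∑ b ∈ Icc 1 Z, T q d b n) * ex (n * α) =
      ∑ i ∈ D1 ×ˢ Icc 1 Z, ∑ n ∈ Ioc u (u + H), T q i.1 i.2 n * ex (n * α) := by
    intro u
    rw [Finset.sum_comm (s := D1 ×ˢ Icc 1 Z)]
    refine Finset.sum_congr rfl fun n _ => ?_
    rw [← Finset.sum_product' D1 (Icc 1 Z) (fun d b => T q d b n), Finset.sum_mul]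
  have hw : ∀ i ∈ D1 ×ˢ Icc 1 Z, (0 : ℝ) < ((i.1 * i.2 ^ 2 : ℕ) : ℝ) := by
    rintro ⟨d, b⟩ hi
    rw [mem_product] at hi
    have h1 := hD d hi.1
    have h2 := (mem_Icc.1 hi.2).1
    simp only at h1 h2 ⊢
    have h3 : 0 < d * b ^ 2 := Nat.mul_pos h1 (by positivity)
    exact_mod_cast h3
  simp_rw [h0]
  refine (cauchy_ws (D1 ×ˢ Icc 1 Z) (fun i => ((i.1 * i.2 ^ 2 : ℕ) : ℝ)) hw U
    (fun i u => ∑ n ∈ Ioc u (u + H), T q i.1 i.2 n * ex (n * α))).trans ?_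
  have hS1 : ∑ i ∈ D1 ×ˢ Icc 1 Z, 1 / ((i.1 * i.2 ^ 2 : ℕ) : ℝ) ≤ S := by
    rw [Finset.sum_product]
    refine le_trans ?_ hS
    rw [Finset.sum_mul]
    refine Finset.sum_le_sum fun d _ => ?_
    have h1 : ∀ b ∈ Icc 1 Z, 1 / ((d * b ^ 2 : ℕ) : ℝ) = 1 / (d : ℝ) * (1 / (b : ℝ) ^ 2) := by
      intro b _
      push_cast
      rw [one_div_mul_one_div]
    rw [Finset.sum_congr rfl h1, ← Finset.mul_sum]
    exact mul_le_mul_of_nonneg_left (sum_sq_head Z) (by positivity)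
  have hS0 : 0 ≤ ∑ i ∈ D1 ×ˢ Icc 1 Z, 1 / ((i.1 * i.2 ^ 2 : ℕ) : ℝ) :=
    Finset.sum_nonneg fun i hi => by
      have := hw i hi
      positivity
  have hSn : 0 ≤ S := hS0.trans hS1
  have hi : ∀ i ∈ D1 ×ˢ Icc 1 Z, ((i.1 * i.2 ^ 2 : ℕ) : ℝ) *
      ∑ u ∈ U, ‖∑ n ∈ Ioc u (u + H), T q i.1 i.2 n * ex (n * α)‖ ^ 2 ≤
      W * (1 / ((i.1 * i.2 ^ 2 : ℕ) : ℝ)) + V * ((i.1 * i.2 ^ 2 : ℕ) : ℝ) := by
    intro i hi
    have hwi := hw i hi
    obtain ⟨d, b⟩ := i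
    rw [mem_product] at hi
    simp only at hi hwi ⊢
    obtain ⟨w, hw'⟩ : ∃ w : ℝ, w = ((d * b ^ 2 : ℕ) : ℝ) := ⟨_, rfl⟩
    rw [← hw'] at hwi ⊢
    by_cases hc : b.Coprime (q / d)
    · have h1 := h d hi.1 b hi.2 hc
      rw [← hw'] at h1
      have h2 : ∀ u, ‖∑ n ∈ Ioc u (u + H), T q d b n * ex (n * α)‖ ^ 2 ≤
          ‖∑ n ∈ Ioc u (u + H), T0 q d b n * ex (n * α)‖ ^ 2 := by
        intro u
        have h3 : ∑ n ∈ Ioc u (u + H), T q d b n * ex (n * α) =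
            li d * ∑ n ∈ Ioc u (u + H), T0 q d b n * ex (n * α) := by
          rw [Finset.mul_sum]
          refine Finset.sum_congr rfl fun n _ => ?_
          rw [T_eq, if_pos hc, mul_assoc]
        rw [h3, norm_mul]
        refine pow_le_pow_left₀ (by positivity) ?_ 2
        exact mul_le_of_le_one_left (norm_nonneg _) (norm_li d)
      have h4 := (Finset.sum_le_sum fun u (_ : u ∈ U) => h2 u).trans h1
      refine (mul_le_mul_of_nonneg_left h4 hwi.le).trans (le_of_eq ?_)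
      field_simp
    · have h2 : ∀ u, ∑ n ∈ Ioc u (u + H), T q d b n * ex (n * α) = 0 := by
        intro u
        refine Finset.sum_eq_zero fun n _ => ?_
        rw [T_eq, if_neg hc, zero_mul]
      simp only [h2]
      simp only [norm_zero, ne_eq, OfNat.ofNat_ne_zero, not_false_eq_true, zero_pow,
        sum_const_zero, mul_zero]
      positivity
  have hI : ∑ i ∈ D1 ×ˢ Icc 1 Z, ((i.1 * i.2 ^ 2 : ℕ) : ℝ) *
      ∑ u ∈ U, ‖∑ n ∈ Ioc u (u + H), T q i.1 i.2 n * ex (n * α)‖ ^ 2 ≤ S * W + V * R := by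
    refine (Finset.sum_le_sum hi).trans ?_
    rw [Finset.sum_add_distrib, ← Finset.mul_sum, ← Finset.mul_sum]
    have h1 : ∑ i ∈ D1 ×ˢ Icc 1 Z, ((i.1 * i.2 ^ 2 : ℕ) : ℝ) ≤ R := by
      rw [Finset.sum_product]
      exact hR
    have h2 := mul_le_mul_of_nonneg_left hS1 hW
    have h3 := mul_le_mul_of_nonneg_left h1 hV
    linarith only [h2, h3]
  have hI0 : 0 ≤ ∑ i ∈ D1 ×ˢ Icc 1 Z, ((i.1 * i.2 ^ 2 : ℕ) : ℝ) *
      ∑ u ∈ U, ‖∑ n ∈ Ioc u (u + H), T q i.1 i.2 n * ex (n * α)‖ ^ 2 := by positivity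
  exact mul_le_mul hS1 hI hI0 hSn

lemma ev_log (K : ℝ) (n : ℕ) (c : ℝ) (hc : 0 < c) :
    ∀ᶠ X : ℕ in atTop, K * Real.log X ^ n ≤ (X : ℝ) ^ c := by
  have h := (isLittleO_log_rpow_rpow_atTop (n : ℝ) hc).bound (c := 1 / (|K| + 1)) (by positivity)
  have h2 := (tendsto_natCast_atTop_atTop (R := ℝ)).eventually h
  filter_upwards [h2, eventually_ge_atTop 1] with X hX hX1
  have hx : (1 : ℝ) ≤ X := by exact_mod_cast hX1
  have hL : 0 ≤ Real.log X := Real.log_nonneg hx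
  rw [Real.rpow_natCast, Real.norm_of_nonneg (by positivity),
    Real.norm_of_nonneg (by positivity)] at hX
  have h3 : K * Real.log X ^ n ≤ (|K| + 1) * Real.log X ^ n :=
    mul_le_mul_of_nonneg_right (by linarith only [le_abs_self K]) (by positivity)
  refine h3.trans ?_
  have hK : 0 < |K| + 1 := by positivity
  have h4 := mul_le_mul_of_nonneg_left hX hK.le
  refine h4.trans (le_of_eq ?_)
  field_simp

/-- the divisors of part (D) -/
lemma sum_D2 (q : ℕ) (hq : 1 ≤ q) (D2 : Finset ℕ) (hD : D2 ⊆ q.divisors) (y P K V : ℝ) (hy : 0 < y)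
    (hP : 0 ≤ P) (hK : (q.divisors.card : ℝ) ≤ K) (hV : 0 ≤ V)
    (hbad : ∀ d ∈ D2, (d : ℝ) ≤ y → ((q / d : ℕ) : ℝ) ≤ P ∧ P ^ 2 / q ≤ V) :
    ∑ d ∈ D2, 1 / (d : ℝ) ≤ K / y + V := by
  have hq0 : (0 : ℝ) < q := by exact_mod_cast hq
  have hKy : (q.divisors.card : ℝ) * (1 / y) ≤ K / y := by
    rw [mul_one_div]
    exact div_le_div_of_nonneg_right hK hy.le
  by_cases hb : ∃ d ∈ D2, (d : ℝ) ≤ y
  · obtain ⟨d0, hd0, hd0y⟩ := hb
    have hPV := (hbad d0 hd0 hd0y).2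
    have h1 : ∀ d ∈ D2, 1 / (d : ℝ) ≤ 1 / y +
        (if ((q / d : ℕ) : ℝ) ≤ P then ((q / d : ℕ) : ℝ) / q else 0) := by
      intro d hd
      have hdq := Nat.mem_divisors.1 (hD hd)
      have hd1 : 1 ≤ d := Nat.pos_of_mem_divisors (hD hd)
      have hd0 : (0 : ℝ) < d := by exact_mod_cast hd1
      by_cases h : (d : ℝ) ≤ y
      · rw [if_pos (hbad d hd h).1, Nat.cast_div hdq.1 hd0.ne']
        have h2 : (q : ℝ) / d / q = 1 / d := by field_simp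
        rw [h2]
        have : 0 < 1 / y := by positivity
        linarith only [this]
      · push Not at h
        have h2 : 1 / (d : ℝ) ≤ 1 / y := one_div_le_one_div_of_le hy h.le
        have h3 : (0 : ℝ) ≤ if ((q / d : ℕ) : ℝ) ≤ P then ((q / d : ℕ) : ℝ) / q else 0 := by
          split_ifs
          · positivity
          · exact le_rfl
        linarith only [h2, h3]
    have h2 : ∑ d ∈ D2, 1 / (d : ℝ) ≤ ∑ d ∈ q.divisors, (1 / y +
        (if ((q / d : ℕ) : ℝ) ≤ P then ((q / d : ℕ) : ℝ) / q else 0)) := by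
      refine (Finset.sum_le_sum h1).trans ?_
      refine Finset.sum_le_sum_of_subset_of_nonneg hD fun d _ _ => ?_
      split_ifs <;> positivity
    rw [Finset.sum_add_distrib, sum_const, nsmul_eq_mul,
      Nat.sum_div_divisors q (fun e => if (e : ℝ) ≤ P then (e : ℝ) / q else 0)] at h2
    have h3 : ∑ e ∈ q.divisors, (if (e : ℝ) ≤ P then (e : ℝ) / q else 0) ≤ P ^ 2 / q := by
      rw [← Finset.sum_filter]
      have h4 : ∀ e ∈ q.divisors.filter (fun e : ℕ => (e : ℝ) ≤ P), (e : ℝ) / q ≤ P / q := by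
        intro e he
        exact div_le_div_of_nonneg_right (mem_filter.1 he).2 hq0.le
      refine (Finset.sum_le_sum h4).trans ?_
      rw [sum_const, nsmul_eq_mul]
      have h5 : (((q.divisors.filter (fun e : ℕ => (e : ℝ) ≤ P)).card : ℕ) : ℝ) ≤ P := by
        have h6 : q.divisors.filter (fun e : ℕ => (e : ℝ) ≤ P) ⊆ Icc 1 ⌊P⌋₊ := by
          intro e he
          rw [mem_filter] at he
          rw [mem_Icc]
          exact ⟨Nat.pos_of_mem_divisors he.1, Nat.le_floor he.2⟩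
        have h7 := Finset.card_le_card h6
        rw [Nat.card_Icc, Nat.add_sub_cancel] at h7
        exact (Nat.cast_le.2 h7).trans (Nat.floor_le hP)
      have h8 : 0 ≤ P / q := by positivity
      refine (mul_le_mul_of_nonneg_right h5 h8).trans (le_of_eq ?_)
      ring
    linarith only [h2, h3, hPV, hKy]
  · push Not at hb
    have h1 : ∑ d ∈ D2, 1 / (d : ℝ) ≤ ∑ d ∈ q.divisors, 1 / y := by
      refine (Finset.sum_le_sum fun d hd => one_div_le_one_div_of_le hy (hb d hd).le).trans ?_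
      exact Finset.sum_le_sum_of_subset_of_nonneg hD fun d _ _ => by positivity
    rw [sum_const, nsmul_eq_mul] at h1
    linarith only [h1, hKy, hV]

lemma norm_add3_sq (a b c : ℂ) : ‖a + b + c‖ ^ 2 ≤ 3 * (‖a‖ ^ 2 + ‖b‖ ^ 2 + ‖c‖ ^ 2) := by
  have h1 : ‖a + b + c‖ ≤ ‖a‖ + ‖b‖ + ‖c‖ := norm_add₃_le
  have h2 : ‖a + b + c‖ ^ 2 ≤ (‖a‖ + ‖b‖ + ‖c‖) ^ 2 := pow_le_pow_left₀ (norm_nonneg _) h1 2
  nlinarith only [h2, sq_nonneg (‖a‖ - ‖b‖), sq_nonneg (‖b‖ - ‖c‖), sq_nonneg (‖a‖ - ‖c‖)]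

end BlkLamAux

open BlkLamAux

theorem blk_lam (B : ℕ) (ε : ℝ) (hε : 0 < ε) : ∃ A : ℕ, ∀ᶠ X : ℕ in atTop, ∀ (H : ℕ) (α : ℝ),
    (X : ℝ) ^ (1 / 6 + ε) ≤ H → (H : ℝ) ≤ (X : ℝ) ^ (19 / 50 : ℝ) → Mn (Real.log X ^ A) H α →
    ∑ u ∈ Icc X (2 * X), ‖∑ n ∈ Ioc u (u + H), li n * ex (n * α)‖ ^ 2 ≤ X * (H : ℝ) ^ 2 / Real.log X ^ B := by
  obtain ⟨p, η, A1, hp, hp1, hη, hη1, hηε, hpair⟩ := blk_pair (B + 8) ε hε
  obtain ⟨Ct, hCt, htau⟩ := tau_small (η / 8) (by positivity)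
  refine ⟨2 * A1 + 2 * B + 20, ?_⟩
  filter_upwards [hpair, ev_log (72 * Ct) B (η / 2) (by positivity),
    ev_log 288 (B + 1) (1 / 6) (by norm_num), ev_log (576 * Ct ^ 2) (B + 1) (η / 2) (by positivity),
    ev_log 2 0 η hη, eventually_ge_atTop 27] with X hpair e1 e2 e3 e4 e5
  intro H α hH1 hH2 hMn
  obtain ⟨x, hx⟩ : ∃ x : ℝ, x = X := ⟨_, rfl⟩
  obtain ⟨h, hh⟩ : ∃ h : ℝ, h = H := ⟨_, rfl⟩
  obtain ⟨L, hL⟩ : ∃ L : ℝ, L = Real.log x := ⟨_, rfl⟩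
  have hpair2 := fun (q d b : ℕ) (a : ℤ) => hpair q H d b a α hH1 hH2
  rw [← hx, ← hh, ← hL] at hpair2
  rw [← hx, ← hL] at e1 e2 e3 e4 hMn
  rw [← hh] at hMn
  rw [← hx, ← hh] at hH1 hH2
  have hx27 : 27 ≤ x := by rw [hx]; exact_mod_cast e5
  have hx1 : 1 ≤ x := by linarith only [hx27]
  have hx0 : 0 < x := by linarith only [hx27]
  have hL3 : 3 ≤ L := by
    rw [hL, Real.le_log_iff_exp_le hx0]
    have h1 := Real.exp_one_lt_d9
    have h2 : Real.exp 3 = Real.exp 1 ^ 3 := by rw [← Real.exp_nat_mul]; norm_num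
    rw [h2]
    have h3 : Real.exp 1 ^ 3 ≤ (3 : ℝ) ^ 3 :=
      pow_le_pow_left₀ (Real.exp_pos 1).le (by linarith only [h1]) 3
    linarith only [h3, hx27]
  have hL1 : 1 ≤ L := by linarith only [hL3]
  have hL0 : 0 < L := by linarith only [hL3]
  have hP0 : 0 < x ^ p := Real.rpow_pos_of_pos hx0 _
  have hPH : x ^ p ≤ h :=
    (Real.rpow_le_rpow_of_exponent_le hx1 (by linarith only [hp1, hε])).trans hH1
  have hh1 : 1 ≤ h := (Real.one_le_rpow hx1 hp.le).trans hPH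
  have hh0 : 0 < h := by linarith only [hh1]
  have hhx : h ≤ x := by
    refine hH2.trans ?_
    calc x ^ (19 / 50 : ℝ) ≤ x ^ (1 : ℝ) :=
          Real.rpow_le_rpow_of_exponent_le hx1 (by norm_num)
      _ = x := Real.rpow_one x
  obtain ⟨q, Q, a, hq1, hqQ, hQ1, hQ2, hcop, hα⟩ := BlkMinorAux.dirichlet α h (x ^ p) hP0 hPH
  have hq0 : (0 : ℝ) < q := by exact_mod_cast hq1
  have hq2 : (q : ℝ) ≤ h * x ^ (-p) := by
    have h1 : (q : ℝ) ≤ Q := by exact_mod_cast hqQ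
    refine (h1.trans hQ1).trans (le_of_eq ?_)
    rw [Real.rpow_neg hx0.le, div_eq_mul_inv]
  have hα2 : |α - a / q| ≤ x ^ p / (q * h) := by
    refine hα.trans ?_
    have h1 : h ≤ (Q + 1 : ℕ) * x ^ p := by rwa [div_le_iff₀ hP0] at hQ2
    have hQ0 : (0 : ℝ) < (Q + 1 : ℕ) := by positivity
    rw [div_le_div_iff₀ (by positivity) (by positivity)]
    calc 1 * ((q : ℝ) * h) = q * h := one_mul _
      _ ≤ q * ((Q + 1 : ℕ) * x ^ p) := mul_le_mul_of_nonneg_left h1 hq0.le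
      _ = x ^ p * (q * (Q + 1 : ℕ)) := by ring
  have hqx : (q : ℝ) ≤ x := by
    refine hq2.trans (le_trans ?_ hhx)
    refine mul_le_of_le_one_right hh0.le ?_
    exact Real.rpow_le_one_of_one_le_of_nonpos hx1 (by linarith only [hp])
  obtain ⟨y, hy⟩ : ∃ y : ℝ, y = x ^ η := ⟨_, rfl⟩
  have hy2 : 2 ≤ y := by
    rw [hy]
    simpa using e4
  have hy0 : 0 < y := by linarith only [hy2]
  have hyx : y ≤ x := by
    rw [hy]
    calc x ^ η ≤ x ^ (1 : ℝ) := Real.rpow_le_rpow_of_exponent_le hx1 (by linarith only [hη1])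
      _ = x := Real.rpow_one x
  obtain ⟨Z, hZ⟩ : ∃ Z : ℕ, Z = ⌊y⌋₊ := ⟨_, rfl⟩
  have hZy : (Z : ℝ) ≤ y := by rw [hZ]; exact Nat.floor_le hy0.le
  have hyZ : y < Z + 1 := by rw [hZ]; exact Nat.lt_floor_add_one y
  have hZ1 : 1 ≤ Z := by rw [hZ]; exact Nat.le_floor (by push_cast; linarith only [hy2])
  have hZ0 : (0 : ℝ) < Z := by exact_mod_cast hZ1
  have hZX : Z ≤ 4 * X := by
    have h1 : (Z : ℝ) ≤ X := by rw [← hx]; exact hZy.trans hyx
    have h2 : Z ≤ X := by exact_mod_cast h1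
    omega
  have hZ2 : 1 / (Z : ℝ) ≤ 2 / y := by
    have hZ1' : (1 : ℝ) ≤ Z := by exact_mod_cast hZ1
    rw [div_le_div_iff₀ hZ0 hy0]
    linarith only [hyZ, hZ1']
  classical
  obtain ⟨D1, hD1⟩ : ∃ D1 : Finset ℕ, D1 = q.divisors.filter (fun d : ℕ => (d : ℝ) ≤ y ∧
      (L ^ A1 < ((q / d : ℕ) : ℝ) ∨ L ^ A1 < h * |α - a / q|)) := ⟨_, rfl⟩
  have hD1s : D1 ⊆ q.divisors := by rw [hD1]; exact filter_subset _ _
  have hD1p : ∀ d ∈ D1, 1 ≤ d := fun d hd => Nat.pos_of_mem_divisors (hD1s hd)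
  have hHX : H ≤ X := by
    have h1 : (H : ℝ) ≤ X := by rw [← hx, ← hh]; exact hhx
    exact_mod_cast h1
  have hU : ∀ u ∈ Icc X (2 * X), u + H ≤ 4 * X := by
    intro u hu
    rw [mem_Icc] at hu
    omega
  have hN4 : ((4 * X : ℕ) : ℝ) = 4 * x := by rw [hx]; push_cast; ring
  -- part (D)
  have hpD := part_D H (4 * X) q (q.divisors \ D1) (Icc X (2 * X))
    (fun d hd => Nat.pos_of_mem_divisors (Finset.mem_sdiff.1 hd).1) hU α
  have hSD : ∑ d ∈ q.divisors \ D1, 1 / (d : ℝ) ≤ Ct * x ^ (η / 8) / y + 1 / L ^ (2 * B + 20) := by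
    refine sum_D2 q hq1 _ Finset.sdiff_subset y (L ^ A1) _ _ hy0 (by positivity) ?_ (by positivity) ?_
    · refine (htau q hq1).trans (mul_le_mul_of_nonneg_left ?_ (by linarith only [hCt]))
      exact Real.rpow_le_rpow hq0.le hqx (by positivity)
    · intro d hd hdy
      rw [Finset.mem_sdiff, hD1, mem_filter] at hd
      have h1 : ¬ (L ^ A1 < ((q / d : ℕ) : ℝ) ∨ L ^ A1 < h * |α - a / q|) :=
        fun h2 => hd.2 ⟨hd.1, hdy, h2⟩
      push Not at h1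
      refine ⟨h1.1, ?_⟩
      have h2 : L ^ (2 * A1 + 2 * B + 20) < q := by
        by_contra h3
        push Not at h3
        have h4 := hMn q a hq1 h3
        rw [div_lt_iff₀ hh0] at h4
        have h5 : L ^ A1 ≤ L ^ (2 * A1 + 2 * B + 20) := pow_le_pow_right₀ hL1 (by omega)
        have h6 : |α - (a : ℝ) / q| * h = h * |α - a / q| := mul_comm _ _
        rw [h6] at h4
        linarith only [h4, h5, h1.2]
      rw [div_le_div_iff₀ hq0 (by positivity)]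
      calc (L ^ A1) ^ 2 * L ^ (2 * B + 20) = L ^ (2 * A1 + 2 * B + 20) := by
            rw [← pow_mul, ← pow_add]
            congr 1
            ring
        _ ≤ 1 * q := by rw [one_mul]; exact h2.le
  have hLB : 0 < L ^ B := by positivity
  have hyE : y = x ^ (η / 2) * x ^ (η / 2) := by
    rw [hy, ← Real.rpow_add hx0]
    congr 1
    ring
  obtain ⟨v, hv⟩ : ∃ v : ℝ, v = x ^ (η / 2) := ⟨_, rfl⟩
  rw [← hv] at e1 e3 hyE
  have hv0 : 0 < v := by rw [hv]; exact Real.rpow_pos_of_pos hx0 _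
  have hw1 : x ^ (η / 8) ≤ v := by
    rw [hv]
    exact Real.rpow_le_rpow_of_exponent_le hx1 (by linarith only [hη])
  have hw0 : 0 < x ^ (η / 8) := Real.rpow_pos_of_pos hx0 _
  have r1 : Ct * x ^ (η / 8) / y ≤ 1 / (72 * L ^ B) := by
    rw [div_le_div_iff₀ hy0 (by positivity), one_mul, hyE]
    calc Ct * x ^ (η / 8) * (72 * L ^ B) = (72 * Ct * L ^ B) * x ^ (η / 8) := by ring
      _ ≤ v * v := mul_le_mul e1 hw1 hw0.le hv0.le
  have r2 : 1 / L ^ (2 * B + 20) ≤ 1 / (72 * L ^ B) := by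
    refine one_div_le_one_div_of_le (by positivity) ?_
    have h1 : L ^ (2 * B + 20) = L ^ B * L ^ 20 * L ^ B := by
      rw [← pow_add, ← pow_add]
      congr 1
      ring
    rw [h1]
    refine mul_le_mul_of_nonneg_right ?_ hLB.le
    have h2 : (1 : ℝ) ≤ L ^ B := one_le_pow₀ hL1
    have h3 : (72 : ℝ) ≤ L ^ 20 := by
      have h4 : (3 : ℝ) ^ 20 ≤ L ^ 20 := pow_le_pow_left₀ (by norm_num) hL3 20
      have h5 : (72 : ℝ) ≤ 3 ^ 20 := by norm_num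
      exact h5.trans h4
    nlinarith only [h2, h3]
  have boundD : (H : ℝ) ^ 2 * ((4 * X : ℕ) * ∑ d ∈ q.divisors \ D1, 1 / (d : ℝ)) ≤
      x * h ^ 2 / (9 * L ^ B) := by
    rw [hN4, ← hh]
    have h1 : ∑ d ∈ q.divisors \ D1, 1 / (d : ℝ) ≤ 2 / (72 * L ^ B) := by
      refine (hSD.trans (add_le_add r1 r2)).trans (le_of_eq ?_)
      ring
    calc h ^ 2 * (4 * x * ∑ d ∈ q.divisors \ D1, 1 / (d : ℝ)) ≤
        h ^ 2 * (4 * x * (2 / (72 * L ^ B))) :=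
          mul_le_mul_of_nonneg_left (mul_le_mul_of_nonneg_left h1 (by positivity)) (by positivity)
      _ = x * h ^ 2 / (9 * L ^ B) := by field_simp; norm_num
  -- the sum of the inverses
  have hS1 : ∑ d ∈ D1, 1 / (d : ℝ) ≤ 2 * L := by
    refine (sum_inv q D1 hD1s).trans ?_
    have h1 : Real.log q ≤ L := by rw [hL]; exact Real.log_le_log hq0 hqx
    linarith only [h1, hL1]
  -- part (E)
  have hpE := part_E H (4 * X) q Z D1 (Icc X (2 * X)) hD1p hZ1 hU (Ct * (2 * x ^ (η / 8))) (by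
    intro n hn
    rw [mem_Icc] at hn
    refine (htau n hn.1).trans (mul_le_mul_of_nonneg_left ?_ (by linarith only [hCt]))
    have h1 : (n : ℝ) ≤ 4 * x := by rw [← hN4]; exact_mod_cast hn.2
    have h2 : (n : ℝ) ^ (η / 8) ≤ (4 * x) ^ (η / 8) :=
      Real.rpow_le_rpow (Nat.cast_nonneg n) h1 (by positivity)
    refine h2.trans ?_
    rw [Real.mul_rpow (by norm_num) hx0.le]
    refine mul_le_mul_of_nonneg_right ?_ hw0.le
    have h3 : (4 : ℝ) ^ (η / 8) ≤ 4 ^ (1 / 2 : ℝ) :=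
      Real.rpow_le_rpow_of_exponent_le (by norm_num) (by linarith only [hη1])
    have h4 : (4 : ℝ) ^ (1 / 2 : ℝ) = 2 := by
      rw [show (4 : ℝ) = 2 ^ (2 : ℝ) by norm_num, ← Real.rpow_mul (by norm_num)]
      norm_num
    rw [h4] at h3
    exact h3) α
  have boundE : (H : ℝ) ^ 2 * ((Ct * (2 * x ^ (η / 8))) ^ 2 * ((4 * X : ℕ) *
      ((∑ d ∈ D1, 1 / (d : ℝ)) * (1 / Z)))) ≤ x * h ^ 2 / (9 * L ^ B) := by
    rw [hN4, ← hh]
    have hww : (x ^ (η / 8)) ^ 2 ≤ v := by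
      rw [hv, ← Real.rpow_natCast, ← Real.rpow_mul hx0.le]
      refine Real.rpow_le_rpow_of_exponent_le hx1 ?_
      push_cast
      linarith only [hη]
    have h1 : (∑ d ∈ D1, 1 / (d : ℝ)) * (1 / Z) ≤ 2 * L * (2 / y) :=
      mul_le_mul hS1 hZ2 (by positivity) (by positivity)
    have h2 : (Ct * (2 * x ^ (η / 8))) ^ 2 ≤ 4 * Ct ^ 2 * v := by
      calc (Ct * (2 * x ^ (η / 8))) ^ 2 = 4 * Ct ^ 2 * (x ^ (η / 8)) ^ 2 := by ring
        _ ≤ 4 * Ct ^ 2 * v := mul_le_mul_of_nonneg_left hww (by positivity)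
    have h3 : 0 ≤ (∑ d ∈ D1, 1 / (d : ℝ)) * (1 / Z) := by positivity
    have h4 : (Ct * (2 * x ^ (η / 8))) ^ 2 * (4 * x * ((∑ d ∈ D1, 1 / (d : ℝ)) * (1 / Z))) ≤
        4 * Ct ^ 2 * v * (4 * x * (2 * L * (2 / y))) :=
      mul_le_mul h2 (mul_le_mul_of_nonneg_left h1 (by positivity)) (by positivity) (by positivity)
    have h5 : 4 * Ct ^ 2 * v * (4 * x * (2 * L * (2 / y))) ≤ x / (9 * L ^ B) := by
      rw [hyE, le_div_iff₀ (by positivity)]
      have h6 : 4 * Ct ^ 2 * v * (4 * x * (2 * L * (2 / (v * v)))) * (9 * L ^ B) =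
          x * ((576 * Ct ^ 2 * L ^ (B + 1)) / v) := by
        rw [pow_succ L B]
        generalize L ^ B = w
        field_simp
        ring
      rw [h6]
      refine mul_le_of_le_one_right hx0.le ?_
      rw [div_le_one hv0]
      exact e3
    calc h ^ 2 * ((Ct * (2 * x ^ (η / 8))) ^ 2 * (4 * x * ((∑ d ∈ D1, 1 / (d : ℝ)) * (1 / Z)))) ≤
        h ^ 2 * (x / (9 * L ^ B)) := mul_le_mul_of_nonneg_left (h4.trans h5) (by positivity)
      _ = x * h ^ 2 / (9 * L ^ B) := by ring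
  -- part (M)
  have hcard : (D1.card : ℝ) ≤ y := by
    have h1 : D1 ⊆ Icc 1 Z := by
      intro d hd
      have hd' := hd
      rw [hD1, mem_filter] at hd'
      rw [mem_Icc, hZ]
      exact ⟨hD1p d hd, Nat.le_floor hd'.2.1⟩
    have h2 := Finset.card_le_card h1
    rw [Nat.card_Icc, Nat.add_sub_cancel] at h2
    exact (Nat.cast_le.2 h2).trans hZy
  have hR : ∑ d ∈ D1, ∑ b ∈ Icc 1 Z, ((d * b ^ 2 : ℕ) : ℝ) ≤ y * (y * (y * y ^ 2)) := by
    have h1 : ∀ d ∈ D1, ∑ b ∈ Icc 1 Z, ((d * b ^ 2 : ℕ) : ℝ) ≤ y * (y * y ^ 2) := by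
      intro d hd
      have hdy : (d : ℝ) ≤ y := by
        rw [hD1, mem_filter] at hd
        exact hd.2.1
      have h2 : ∀ b ∈ Icc 1 Z, ((d * b ^ 2 : ℕ) : ℝ) ≤ y * y ^ 2 := by
        intro b hb
        have hby : (b : ℝ) ≤ y :=
          (Nat.cast_le.2 (mem_Icc.1 hb).2).trans hZy
        push_cast
        exact mul_le_mul hdy (pow_le_pow_left₀ (Nat.cast_nonneg b) hby 2) (by positivity) hy0.le
      refine (Finset.sum_le_sum h2).trans ?_
      rw [sum_const, nsmul_eq_mul, Nat.card_Icc, Nat.add_sub_cancel]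
      exact mul_le_mul_of_nonneg_right hZy (by positivity)
    refine (Finset.sum_le_sum h1).trans ?_
    rw [sum_const, nsmul_eq_mul]
    exact mul_le_mul_of_nonneg_right hcard (by positivity)
  have hpM := part_M H q Z D1 (Icc X (2 * X)) hD1p (x * h ^ 2 / L ^ (B + 8)) (4 * x) (4 * L)
    (y * (y * (y * y ^ 2))) α (by positivity) (by positivity) (by linarith only [hS1]) hR (by
      intro d hd b hb hbc
      have hd' := hd
      rw [hD1, mem_filter] at hd'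
      have hby : (b : ℝ) ≤ y := (Nat.cast_le.2 (mem_Icc.1 hb).2).trans hZy
      have h1 := hpair2 q d b a hq1 hq2 hcop hα2 (Nat.dvd_of_mem_divisors hd'.1)
        (by rw [← hy]; exact hd'.2.1) (mem_Icc.1 hb).1 (by rw [← hy]; exact hby) hbc hd'.2.2
      refine le_trans h1 (le_of_eq ?_)
      rw [div_div, mul_comm (L ^ (B + 8))])
  have boundM : 4 * L * (4 * L * (x * h ^ 2 / L ^ (B + 8)) + 4 * x * (y * (y * (y * y ^ 2)))) ≤
      x * h ^ 2 / (9 * L ^ B) := by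
    have h1 : 4 * L * (4 * L * (x * h ^ 2 / L ^ (B + 8))) ≤ x * h ^ 2 / (18 * L ^ B) := by
      have h2 : 4 * L * (4 * L * (x * h ^ 2 / L ^ (B + 8))) = x * h ^ 2 * (16 / L ^ (B + 6)) := by
        have h20 : L ^ (B + 8) = L ^ (B + 6) * L ^ 2 := by rw [← pow_add]
        have h21 : 0 < L ^ (B + 6) := by positivity
        rw [h20]
        generalize L ^ (B + 6) = w at h21 ⊢
        field_simp
        ring
      have h3 : 16 / L ^ (B + 6) ≤ 1 / (18 * L ^ B) := by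
        rw [div_le_div_iff₀ (by positivity) (by positivity), one_mul, pow_add]
        have h4 : (3 : ℝ) ^ 6 ≤ L ^ 6 := pow_le_pow_left₀ (by norm_num) hL3 6
        have h5 : (288 : ℝ) ≤ L ^ 6 := by
          have : (288 : ℝ) ≤ 3 ^ 6 := by norm_num
          exact this.trans h4
        nlinarith only [h5, hLB]
      rw [h2]
      refine (mul_le_mul_of_nonneg_left h3 (by positivity)).trans (le_of_eq ?_)
      ring
    have h6 : y * (y * (y * y ^ 2)) ≤ x ^ (1 / 6 : ℝ) := by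
      have h7 : y * (y * (y * y ^ 2)) = y ^ 5 := by ring
      rw [h7, hy, ← Real.rpow_natCast, ← Real.rpow_mul hx0.le]
      refine Real.rpow_le_rpow_of_exponent_le hx1 ?_
      push_cast
      linarith only [hη1]
    have h8 : x ^ (1 / 6 : ℝ) * x ^ (1 / 6 : ℝ) ≤ h ^ 2 := by
      have h9 : x ^ (1 / 6 : ℝ) ≤ h :=
        (Real.rpow_le_rpow_of_exponent_le hx1 (by linarith only [hε])).trans hH1
      rw [pow_two]
      exact mul_le_mul h9 h9 (by positivity) hh0.le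
    have h10 : 4 * L * (4 * x * (y * (y * (y * y ^ 2)))) ≤ x * h ^ 2 / (18 * L ^ B) := by
      rw [le_div_iff₀ (by positivity)]
      calc 4 * L * (4 * x * (y * (y * (y * y ^ 2)))) * (18 * L ^ B) =
          x * ((288 * L ^ (B + 1)) * (y * (y * (y * y ^ 2)))) := by rw [pow_succ]; ring
        _ ≤ x * (x ^ (1 / 6 : ℝ) * x ^ (1 / 6 : ℝ)) :=
            mul_le_mul_of_nonneg_left (mul_le_mul e2 h6 (by positivity) (by positivity)) hx0.le
        _ ≤ x * h ^ 2 := mul_le_mul_of_nonneg_left h8 hx0.le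
    calc 4 * L * (4 * L * (x * h ^ 2 / L ^ (B + 8)) + 4 * x * (y * (y * (y * y ^ 2)))) =
        4 * L * (4 * L * (x * h ^ 2 / L ^ (B + 8))) + 4 * L * (4 * x * (y * (y * (y * y ^ 2)))) := by
          ring
      _ ≤ x * h ^ 2 / (18 * L ^ B) + x * h ^ 2 / (18 * L ^ B) := add_le_add h1 h10
      _ = x * h ^ 2 / (9 * L ^ B) := by field_simp; norm_num
  -- the sum
  have hsum : ∀ u ∈ Icc X (2 * X), ‖∑ n ∈ Ioc u (u + H), li n * ex (n * α)‖ ^ 2 ≤
      3 * (‖∑ n ∈ Ioc u (u + H), (if Nat.gcd n q ∈ q.divisors \ D1 then li n else 0) * ex (n * α)‖ ^ 2 +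
        ‖∑ n ∈ Ioc u (u + H), (∑ d ∈ D1, ∑ b ∈ Icc 1 Z, T q d b n) * ex (n * α)‖ ^ 2 +
        ‖∑ n ∈ Ioc u (u + H), (∑ d ∈ D1, ∑ b ∈ Ioc Z (4 * X), T q d b n) * ex (n * α)‖ ^ 2) := by
    intro u hu
    have hu4 := hU u hu
    have h1 : ∑ n ∈ Ioc u (u + H), li n * ex (n * α) =
        ∑ n ∈ Ioc u (u + H), (if Nat.gcd n q ∈ q.divisors \ D1 then li n else 0) * ex (n * α) +
        ∑ n ∈ Ioc u (u + H), (∑ d ∈ D1, ∑ b ∈ Icc 1 Z, T q d b n) * ex (n * α) +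
        ∑ n ∈ Ioc u (u + H), (∑ d ∈ D1, ∑ b ∈ Ioc Z (4 * X), T q d b n) * ex (n * α) := by
      rw [← Finset.sum_add_distrib, ← Finset.sum_add_distrib]
      refine Finset.sum_congr rfl fun n hn => ?_
      rw [mem_Ioc] at hn
      have h2 := decomp q n (4 * X) Z D1 hq1 (by omega) (by omega) hD1s hZX
      rw [← add_mul, ← add_mul, ← h2]
    rw [h1]
    exact norm_add3_sq _ _ _
  refine (Finset.sum_le_sum hsum).trans ?_
  rw [← Finset.mul_sum, Finset.sum_add_distrib, Finset.sum_add_distrib, ← hx, ← hh, ← hL]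
  have hfin : x * h ^ 2 / L ^ B = 3 * (x * h ^ 2 / (9 * L ^ B) + x * h ^ 2 / (9 * L ^ B) +
      x * h ^ 2 / (9 * L ^ B)) := by field_simp; norm_num
  rw [hfin]
  refine mul_le_mul_of_nonneg_left ?_ (by norm_num)
  exact add_le_add (add_le_add (hpD.trans boundD) (hpM.trans boundM)) (hpE.trans boundE)

end Pool.Agent.MW
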