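import Pool.Agent.Lib.MW.Defs

/-!
# Module Dil: windows of dilated functions, tails

`dil_win`: `n = j m`, `n ∈ (u, u + H]` iff `m ∈ (u / j, (u + H) / j]` (natural division), and `(u+H)/j - u/j ∈ {H/j, H/j + 1}`, so the inner sum for `u` is the sum
over `Ioc v (v + H/j)`, `v = u / j`, plus at most one term of norm `≤ 1` (`‖ex‖ = 1`: `norm_ex`): `‖·‖² ≤ 2 ‖·‖² + 2`; every `v` has at most `j` values `u`
(`u / j = v` iff `v j ≤ u < v j + j`); `ex (j m α) = ex (m (j α))`.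
`tail_win`: Cauchy in the window and each `n` lies in at most `H` windows (cf. `VL.window_sum` in VL/MajorWin3.lean, `VM.BlkMinorAux.shift_cover`).
`cauchy_ws`: `‖∑ S_i‖² ≤ (∑ 1/w_i) (∑ w_i ‖S_i‖²)` (`Finset.sum_div_sq_le...` or `inner_mul_le_norm_mul_norm`; `Finset.sq_sum_le...`,
e.g. `Finset.sum_sq_le_sum_mul_sum_of_sq_le_mul` or `Finset.inner_mul_le_norm_mul_norm`).
-/

set_option autoImplicit false

open Finset Filter

namespace Pool.Agent.MW

open Pool.Agent.VK Pool.Agent.HLT Pool.Agent.VM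

namespace DilAux

theorem inner_eq (f : ℕ → ℂ) (j H u : ℕ) (hj : 1 ≤ j) (α : ℝ) :
    ∑ n ∈ Ioc u (u + H), (if j ∣ n then f (n / j) else 0) * ex (n * α) =
      ∑ m ∈ Ioc (u / j) ((u + H) / j), f m * ex (m * (j * α)) := by
  have h1 : ∑ n ∈ Ioc u (u + H), (if j ∣ n then f (n / j) else 0) * ex (n * α) =
      ∑ n ∈ (Ioc u (u + H)).filter (fun n => j ∣ n), f (n / j) * ex (n * α) := by
    rw [Finset.sum_filter]
    refine Finset.sum_congr rfl fun n _ => ?_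
    split_ifs
    · rfl
    · rw [zero_mul]
  rw [h1]
  symm
  refine Finset.sum_bij (fun m _ => j * m) ?_ ?_ ?_ ?_
  · intro m hm
    rw [Finset.mem_Ioc] at hm
    rw [Finset.mem_filter, Finset.mem_Ioc]
    refine ⟨⟨?_, ?_⟩, dvd_mul_right j m⟩
    · have h2 := hm.1
      rw [Nat.div_lt_iff_lt_mul (by omega)] at h2
      rw [mul_comm]
      exact h2
    · have h2 := hm.2
      rw [Nat.le_div_iff_mul_le (by omega)] at h2
      rw [mul_comm]
      exact h2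
  · intro a _ b _ hab
    exact Nat.eq_of_mul_eq_mul_left (by omega) hab
  · intro n hn
    rw [Finset.mem_filter, Finset.mem_Ioc] at hn
    obtain ⟨⟨h2, h3⟩, m, rfl⟩ := hn
    refine ⟨m, ?_, rfl⟩
    rw [Finset.mem_Ioc]
    refine ⟨?_, ?_⟩
    · rw [Nat.div_lt_iff_lt_mul (by omega), mul_comm]
      exact h2
    · rw [Nat.le_div_iff_mul_le (by omega), mul_comm]
      exact h3
  · intro m _
    rw [Nat.mul_div_cancel_left _ (by omega)]
    push_cast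
    congr 2
    ring

theorem div_cases (j H u : ℕ) (hj : 1 ≤ j) :
    (u + H) / j = u / j + H / j ∨ (u + H) / j = u / j + H / j + 1 := by
  have h0 : 0 < j := hj
  have hu := Nat.div_add_mod u j
  have hH := Nat.div_add_mod H j
  have h1 := Nat.mod_lt u h0
  have h2 := Nat.mod_lt H h0
  rcases Nat.lt_or_ge (u % j + H % j) j with h3 | h3
  · left
    apply le_antisymm
    · rw [Nat.div_le_iff_le_mul_add_pred h0]
      have h4 : j * (u / j + H / j) = j * (u / j) + j * (H / j) := by ring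
      rw [h4]
      omega
    · rw [Nat.le_div_iff_mul_le h0]
      have h4 : (u / j + H / j) * j = j * (u / j) + j * (H / j) := by ring
      rw [h4]
      omega
  · right
    apply le_antisymm
    · rw [Nat.div_le_iff_le_mul_add_pred h0]
      have h4 : j * (u / j + H / j + 1) = j * (u / j) + j * (H / j) + j := by ring
      rw [h4]
      omega
    · rw [Nat.le_div_iff_mul_le h0]
      have h4 : (u / j + H / j + 1) * j = j * (u / j) + j * (H / j) + j := by ring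
      rw [h4]
      omega

theorem one (f : ℕ → ℂ) (hf : ∀ n, ‖f n‖ ≤ 1) (j H u : ℕ) (hj : 1 ≤ j) (α : ℝ) :
    ‖∑ n ∈ Ioc u (u + H), (if j ∣ n then f (n / j) else 0) * ex (n * α)‖ ^ 2 ≤
      2 * ‖∑ m ∈ Ioc (u / j) (u / j + H / j), f m * ex (m * (j * α))‖ ^ 2 + 2 := by
  rw [inner_eq f j H u hj α]
  rcases div_cases j H u hj with h | h
  · rw [h]
    nlinarith [sq_nonneg ‖∑ m ∈ Ioc (u / j) (u / j + H / j), f m * ex (m * (j * α))‖]
  · rw [h]
    have h1 : Ioc (u / j) (u / j + H / j + 1) = insert (u / j + H / j + 1) (Ioc (u / j) (u / j + H / j)) := by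
      generalize H / j = c
      generalize u / j = d
      ext x
      simp only [Finset.mem_Ioc, Finset.mem_insert]
      omega
    rw [h1, Finset.sum_insert (by simp)]
    have h2 : ‖f (u / j + H / j + 1) * ex (((u / j + H / j + 1 : ℕ) : ℝ) * (j * α))‖ ≤ 1 := by
      rw [norm_mul, norm_ex, mul_one]
      exact hf _
    have h3 := norm_add_le (f (u / j + H / j + 1) * ex (((u / j + H / j + 1 : ℕ) : ℝ) * (j * α)))
      (∑ m ∈ Ioc (u / j) (u / j + H / j), f m * ex (m * (j * α)))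
    have h4 : ‖f (u / j + H / j + 1) * ex (((u / j + H / j + 1 : ℕ) : ℝ) * (j * α)) +
      ∑ m ∈ Ioc (u / j) (u / j + H / j), f m * ex (m * (j * α))‖ ≤
      ‖∑ m ∈ Ioc (u / j) (u / j + H / j), f m * ex (m * (j * α))‖ + 1 := by linarith
    have h5 := pow_le_pow_left₀ (norm_nonneg _) h4 2
    refine h5.trans ?_
    nlinarith [sq_nonneg (‖∑ m ∈ Ioc (u / j) (u / j + H / j), f m * ex (m * (j * α))‖ - 1)]

theorem fib (G : ℕ → ℝ) (hG : ∀ v, 0 ≤ G v) (j : ℕ) (hj : 1 ≤ j) (U V : Finset ℕ) (hUV : ∀ u ∈ U, u / j ∈ V) :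
    ∑ u ∈ U, G (u / j) ≤ j * ∑ v ∈ V, G v := by
  rw [← Finset.sum_fiberwise_of_maps_to hUV, Finset.mul_sum]
  refine Finset.sum_le_sum fun v _ => ?_
  have h1 : ∑ u ∈ U.filter (fun u => u / j = v), G (u / j) = ∑ u ∈ U.filter (fun u => u / j = v), G v :=
    Finset.sum_congr rfl fun u hu => by rw [(Finset.mem_filter.1 hu).2]
  rw [h1, Finset.sum_const, nsmul_eq_mul]
  refine mul_le_mul_of_nonneg_right ?_ (hG v)
  have h2 : U.filter (fun u => u / j = v) ⊆ Ico (v * j) (v * j + j) := by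
    intro u hu
    have h3 := (Finset.mem_filter.1 hu).2
    have h4 := Nat.div_add_mod u j
    have h5 := Nat.mod_lt u hj
    rw [Finset.mem_Ico]
    rw [h3, mul_comm] at h4
    omega
  have h3 := Finset.card_le_card h2
  rw [Nat.card_Ico, Nat.add_sub_cancel_left] at h3
  exact_mod_cast h3

end DilAux

theorem dil_win (f : ℕ → ℂ) (hf : ∀ n, ‖f n‖ ≤ 1) (j H : ℕ) (hj : 1 ≤ j) (α : ℝ) (U V : Finset ℕ) (hUV : ∀ u ∈ U, u / j ∈ V) :
    ∑ u ∈ U, ‖∑ n ∈ Ioc u (u + H), (if j ∣ n then f (n / j) else 0) * ex (n * α)‖ ^ 2 ≤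
      2 * j * ∑ v ∈ V, ‖∑ m ∈ Ioc v (v + H / j), f m * ex (m * (j * α))‖ ^ 2 + 2 * U.card := by
  have h1 : ∀ u ∈ U, ‖∑ n ∈ Ioc u (u + H), (if j ∣ n then f (n / j) else 0) * ex (n * α)‖ ^ 2 ≤
      2 * ‖∑ m ∈ Ioc (u / j) (u / j + H / j), f m * ex (m * (j * α))‖ ^ 2 + 2 :=
    fun u _ => DilAux.one f hf j H u hj α
  refine (Finset.sum_le_sum h1).trans ?_
  rw [Finset.sum_add_distrib, ← Finset.mul_sum, Finset.sum_const, nsmul_eq_mul]
  have h2 := DilAux.fib (fun v => ‖∑ m ∈ Ioc v (v + H / j), f m * ex (m * (j * α))‖ ^ 2) (fun v => sq_nonneg _) j hj U V hUV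
  have h3 : ∑ u ∈ U, ‖∑ m ∈ Ioc (u / j) (u / j + H / j), f m * ex (m * (j * α))‖ ^ 2 ≤
      j * ∑ v ∈ V, ‖∑ m ∈ Ioc v (v + H / j), f m * ex (m * (j * α))‖ ^ 2 := h2
  linarith

theorem tail_win (g : ℕ → ℂ) (H N : ℕ) (U : Finset ℕ) (hU : ∀ u ∈ U, u + H ≤ N) :
    ∑ u ∈ U, ‖∑ n ∈ Ioc u (u + H), g n‖ ^ 2 ≤ (H : ℝ) ^ 2 * ∑ n ∈ Icc 1 N, ‖g n‖ ^ 2 := by
  have h1 : ∀ u ∈ U, ‖∑ n ∈ Ioc u (u + H), g n‖ ^ 2 ≤
      H * ∑ n ∈ Icc 1 N, if n ∈ Ioc u (u + H) then ‖g n‖ ^ 2 else 0 := by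
    intro u hu
    have h2 : ‖∑ n ∈ Ioc u (u + H), g n‖ ^ 2 ≤ (∑ n ∈ Ioc u (u + H), ‖g n‖) ^ 2 :=
      pow_le_pow_left₀ (norm_nonneg _) (norm_sum_le _ _) 2
    have h3 := sq_sum_le_card_mul_sum_sq (s := Ioc u (u + H)) (f := fun n => ‖g n‖)
    rw [Nat.card_Ioc, Nat.add_sub_cancel_left] at h3
    have h4 : ∑ n ∈ Icc 1 N, (if n ∈ Ioc u (u + H) then ‖g n‖ ^ 2 else 0) = ∑ n ∈ Ioc u (u + H), ‖g n‖ ^ 2 := by
      rw [← Finset.sum_filter]
      refine Finset.sum_congr ?_ fun _ _ => rfl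
      ext n
      have h5 := hU u hu
      simp only [Finset.mem_filter, Finset.mem_Icc, Finset.mem_Ioc]
      omega
    rw [h4]
    exact h2.trans h3
  refine (Finset.sum_le_sum h1).trans ?_
  rw [← Finset.mul_sum, Finset.sum_comm, pow_two, mul_assoc]
  refine mul_le_mul_of_nonneg_left ?_ (Nat.cast_nonneg H)
  rw [Finset.mul_sum]
  refine Finset.sum_le_sum fun n _ => ?_
  rw [← Finset.sum_filter, Finset.sum_const, nsmul_eq_mul]
  refine mul_le_mul_of_nonneg_right ?_ (sq_nonneg _)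
  have h2 : U.filter (fun u => n ∈ Ioc u (u + H)) ⊆ Ico (n - H) n := by
    intro u hu
    have h3 := (Finset.mem_filter.1 hu).2
    rw [Finset.mem_Ioc] at h3
    rw [Finset.mem_Ico]
    omega
  have h3 := Finset.card_le_card h2
  rw [Nat.card_Ico] at h3
  have h4 : (U.filter (fun u => n ∈ Ioc u (u + H))).card ≤ H := by omega
  exact_mod_cast h4

theorem cauchy_ws {ι : Type*} (I : Finset ι) (w : ι → ℝ) (hw : ∀ i ∈ I, 0 < w i) (U : Finset ℕ) (S : ι → ℕ → ℂ) :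
    ∑ u ∈ U, ‖∑ i ∈ I, S i u‖ ^ 2 ≤ (∑ i ∈ I, 1 / w i) * ∑ i ∈ I, w i * ∑ u ∈ U, ‖S i u‖ ^ 2 := by
  have h1 : ∀ u ∈ U, ‖∑ i ∈ I, S i u‖ ^ 2 ≤ (∑ i ∈ I, 1 / w i) * ∑ i ∈ I, w i * ‖S i u‖ ^ 2 := by
    intro u _
    have h2 : ‖∑ i ∈ I, S i u‖ ^ 2 ≤ (∑ i ∈ I, ‖S i u‖) ^ 2 :=
      pow_le_pow_left₀ (norm_nonneg _) (norm_sum_le _ _) 2
    refine h2.trans ?_
    refine Finset.sum_sq_le_sum_mul_sum_of_sq_eq_mul I (fun i hi => ?_) (fun i hi => ?_) fun i hi => ?_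
    · exact (one_div_pos.2 (hw i hi)).le
    · exact mul_nonneg (hw i hi).le (sq_nonneg _)
    · have h3 := (hw i hi).ne'
      field_simp
  refine (Finset.sum_le_sum h1).trans ?_
  rw [← Finset.mul_sum, Finset.sum_comm]
  simp only [← Finset.mul_sum]
  exact le_rfl

end Pool.Agent.MW
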