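import Pool.Agent.Lib.MW.BlkCop
import Pool.Agent.Lib.MW.Dil

/-!
# Module BlkPair: one pair `(d, b)` of the decomposition of the Liouville function, dyadic block

We may assume `ε ≤ 1/10` (use `min ε (1/10)`). `blk_cop (B + 10) (ε/2)` gives `e0`; `e2 = e0`, `p = e0/2`, `e1 = e0/4`, `η = min (e0/32) (ε/32)`; `A'` = the exponent of
`blk_cop` for `(e1, e2)`; `A1 = A' + 1`. `L = log X`, `β = α - a/q`, `J = d b² ≤ X^(3η)`, `q' = q/d`, `H' = H / J` (natural division, `H' ≥ H/(2J)` as real numbers),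
`X0 = X / J`, `α' = J α`, `a' = b² a`: `α' - a'/q' = J β` because `J a / q = b² a / q'`; `a'` is coprime to `q'`.
`dil_win` (with `f m = if m.Coprime q' then mu m else 0`, `j = J`, `U = Icc X (2X)`, `V = Icc X0 (2 X / J)`): `≤ 2 J ∑_V ‖∑_{Ioc v (v + H')} f m ex (m α')‖² + 2 (X + 1)`, and
`V ⊆ Icc X0 (2 X0) ∪ Icc (2 X0) (2 (2 X0))`. So apply `blk_cop` (which holds for all `X' ≥ N0`; `X0 ≥ X^(1-3η)/2 ≥ N0`) with `X' = X0` and `X' = 2 X0`, `(q', H', a', α')`: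
* `X'^(1/6+ε/2) ≤ (2X)^(1/6+ε/2) ≤ 2 X^(1/6+ε/2) ≤ X^(1/6+ε)/(2J) ≤ H'` since `4 J ≤ X^(ε/2)`;
* `H' ≤ H ≤ X^(19/50) ≤ (X^(1-3η)/2)^(39/100) ≤ X'^(39/100)`;
* `q' ≤ H X^(-p)/d ≤ (H/(2 d b²)) (X^(-e1)/2) ≤ H' X'^(-e1)` since `4 b² ≤ X^(2η)·4 ≤ X^(p - e1)` and `X' ≤ 2X`;
* `|J β| ≤ J X^p/(q H) ≤ X'^e2/(q' H')` since `q' H' ≤ (q/d)(H/J)` and `X^p ≤ X'^e2`;
* `Mn ((log X')^A') H' α'` (it is enough to have it for `L^A' ≥ (log X')^A'`, `Mn.mono`; note `log X' ≤ L`: `2 X0 ≤ 2 X/J`; if `J = 1` then `log (2X) ≤ 2 L`, so prove it for `(2L)^A'`):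
  suppose `1 ≤ q1 ≤ P := (2L)^A'`, `|α' - a1/q1| ≤ P/H' ≤ 2 J P/H`. If `a1/q1 ≠ a'/q'`: `1/(q1 q') ≤ 2JP/H + J|β|`, so `1 ≤ 2 P² q' J/H + P (q'/q) J X^p/H ≤ 2 P² X^(2η - p) + P X^(p + 2η)/H < 1`
  (`q' J = q b² ≤ H X^(-p) X^(2η)`, `q'/q = 1/d`), a contradiction. If `a1/q1 = a'/q'`: `q' ∣ q1` (`a'`, `q'` coprime), so `q' ≤ P`, and `|J β| ≤ 2JP/H`, so `H |β| ≤ 2P`; both contradict the last hypothesis
  (`2 P ≤ L^A1`).
Result: `2 J · 2 · (2X/J)(H/J)²/(log X')^(B+10) + 2(X+1)`, `log X' ≥ L/2`; `2^(B+14) ≤ L^10`.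
-/

set_option autoImplicit false

open Finset Filter

namespace Pool.Agent.MW

open Pool.Agent.VK Pool.Agent.HLT Pool.Agent.VM

namespace BlkPairAux

lemma ev (c δ : ℝ) (hδ : 0 < δ) : ∀ᶠ X : ℕ in atTop, c ≤ (X : ℝ) ^ δ := by
  have h := (tendsto_rpow_atTop hδ).comp (tendsto_natCast_atTop_atTop (R := ℝ))
  exact h.eventually_ge_atTop c

lemma evlog (c : ℝ) : ∀ᶠ X : ℕ in atTop, c ≤ Real.log X := by
  have h := Real.tendsto_log_atTop.comp (tendsto_natCast_atTop_atTop (R := ℝ))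
  exact h.eventually_ge_atTop c

/-- Natural division. -/
lemma div_lo (N J : ℕ) (hJ : 1 ≤ J) (h : 2 * (J : ℝ) ≤ N) : (N : ℝ) / (2 * J) ≤ ((N / J : ℕ) : ℝ) := by
  have hJ0 : (0 : ℝ) < J := by exact_mod_cast hJ
  have h1 : N < J * (N / J + 1) := Nat.lt_mul_div_succ N hJ
  have h2 : (N : ℝ) < J * (((N / J : ℕ) : ℝ) + 1) := by exact_mod_cast h1
  rw [div_le_iff₀ (by positivity)]
  have h3 : (J : ℝ) * (((N / J : ℕ) : ℝ) + 1) = J * ((N / J : ℕ) : ℝ) + J := by ring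
  rw [h3] at h2
  have h4 : ((N / J : ℕ) : ℝ) * (2 * J) = 2 * (J * ((N / J : ℕ) : ℝ)) := by ring
  rw [h4]
  linarith

lemma mn_core {q' : ℕ} {a' : ℤ} {α' H' P Jr hr γ : ℝ} (hq' : 1 ≤ q') (hc : IsCoprime a' (q' : ℤ))
    (hP : 0 ≤ P) (hH : hr / (2 * Jr) ≤ H') (hhr : 0 < hr) (hJr : 0 < Jr) (hγ : |α' - a' / q'| = γ)
    (h1 : P * q' * (2 * Jr * P / hr + γ) < 1) (h2 : ¬ ((q' : ℝ) ≤ P ∧ γ ≤ 2 * Jr * P / hr)) :
    Mn P H' α' := by
  intro q1 a1 hq1 hq1P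
  by_contra hlt
  rw [not_lt] at hlt
  have hq1r : (1 : ℝ) ≤ q1 := by exact_mod_cast hq1
  have hq'r : (1 : ℝ) ≤ q' := by exact_mod_cast hq'
  have hH0 : 0 < hr / (2 * Jr) := by positivity
  have hbd : |α' - a1 / q1| ≤ 2 * Jr * P / hr := by
    refine hlt.trans ?_
    calc P / H' ≤ P / (hr / (2 * Jr)) := div_le_div_of_nonneg_left hP hH0 hH
      _ = 2 * Jr * P / hr := by field_simp
  by_cases he : a1 * q' = a' * q1
  · apply h2
    have hd : (q' : ℤ) ∣ q1 := by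
      have h3 : (q' : ℤ) ∣ a' * q1 := ⟨a1, by rw [← he]; ring⟩
      exact hc.symm.dvd_of_dvd_mul_left h3
    have hle : q' ≤ q1 := Nat.le_of_dvd hq1 (Int.natCast_dvd_natCast.1 hd)
    have hler : (q' : ℝ) ≤ q1 := by exact_mod_cast hle
    refine ⟨hler.trans hq1P, ?_⟩
    have hfr : (a' : ℝ) / q' = a1 / q1 := by
      rw [div_eq_div_iff (by positivity) (by positivity)]
      have : (a1 : ℝ) * q' = a' * q1 := by exact_mod_cast he
      linarith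
    rw [← hγ, hfr]
    exact hbd
  · have h3 : (1 : ℝ) ≤ |(a1 : ℝ) * q' - a' * q1| := by
      have h4 : a1 * q' - a' * q1 ≠ 0 := sub_ne_zero.2 he
      have h5 : 1 ≤ |a1 * q' - a' * q1| := Int.one_le_abs h4
      exact_mod_cast h5
    have h4 : (a1 : ℝ) * q' - a' * q1 = (q1 * q') * (a1 / q1 - a' / q') := by
      have hq10 : (q1 : ℝ) ≠ 0 := by positivity
      have hq'0 : (q' : ℝ) ≠ 0 := by positivity
      field_simp
    have h5 : |(a1 : ℝ) / q1 - a' / q'| ≤ 2 * Jr * P / hr + γ := by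
      have : (a1 : ℝ) / q1 - a' / q' = -(α' - a1 / q1) + (α' - a' / q') := by ring
      rw [this, ← hγ]
      refine (abs_add_le _ _).trans ?_
      rw [abs_neg]
      linarith
    rw [h4, abs_mul, abs_of_pos (by positivity)] at h3
    have h6 : (q1 : ℝ) * q' * |(a1 : ℝ) / q1 - a' / q'| ≤ P * q' * (2 * Jr * P / hr + γ) := by
      have h7 : (q1 : ℝ) * q' ≤ P * q' := mul_le_mul_of_nonneg_right hq1P (by positivity)
      exact mul_le_mul h7 h5 (abs_nonneg _) (by positivity)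
    linarith

lemma two_pow_le {s : ℝ} (h1 : s ≤ 1) : (2 : ℝ) ^ s ≤ 2 := by
  calc (2 : ℝ) ^ s ≤ (2 : ℝ) ^ (1 : ℝ) := Real.rpow_le_rpow_of_exponent_le (by norm_num) h1
    _ = 2 := Real.rpow_one 2

lemma c1 {x y h j H' η ε : ℝ} (hx : 1 ≤ x) (hy0 : 0 ≤ y) (hy : y ≤ 2 * x) (hj : 1 ≤ j)
    (hjx : j ≤ x ^ (3 * η)) (hh : x ^ (1 / 6 + ε) ≤ h) (hH : h / (2 * j) ≤ H') (hη : 3 * η ≤ ε / 4)
    (hε : 0 < ε) (hε1 : ε ≤ 1 / 10) (h4 : 4 ≤ x ^ (ε / 4)) : y ^ (1 / 6 + ε / 2) ≤ H' := by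
  have hx0 : 0 < x := by linarith
  have a1 : y ^ (1 / 6 + ε / 2) ≤ 2 * x ^ (1 / 6 + ε / 2) := by
    calc y ^ (1 / 6 + ε / 2) ≤ (2 * x) ^ (1 / 6 + ε / 2) :=
          Real.rpow_le_rpow hy0 hy (by linarith)
      _ = 2 ^ (1 / 6 + ε / 2) * x ^ (1 / 6 + ε / 2) := Real.mul_rpow (by norm_num) hx0.le
      _ ≤ 2 * x ^ (1 / 6 + ε / 2) :=
          mul_le_mul_of_nonneg_right (two_pow_le (by linarith)) (Real.rpow_nonneg hx0.le _)
  have a2 : j ≤ x ^ (ε / 4) := hjx.trans (Real.rpow_le_rpow_of_exponent_le hx hη)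
  have e : x ^ (1 / 6 + ε) = x ^ (1 / 6 + ε / 2) * (x ^ (ε / 4) * x ^ (ε / 4)) := by
    rw [← Real.rpow_add hx0, ← Real.rpow_add hx0]
    congr 1
    ring
  have a3 : 2 * x ^ (1 / 6 + ε / 2) ≤ h / (2 * j) := by
    rw [le_div_iff₀ (by positivity)]
    refine le_trans ?_ hh
    rw [e]
    have p0 : 0 ≤ x ^ (1 / 6 + ε / 2) := Real.rpow_nonneg hx0.le _
    calc 2 * x ^ (1 / 6 + ε / 2) * (2 * j) = x ^ (1 / 6 + ε / 2) * (4 * j) := by ring
      _ ≤ x ^ (1 / 6 + ε / 2) * (x ^ (ε / 4) * x ^ (ε / 4)) :=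
          mul_le_mul_of_nonneg_left (mul_le_mul h4 a2 (by linarith) (by linarith)) p0
  linarith

lemma ylow {x y j η : ℝ} (hx : 1 ≤ x) (hj : 1 ≤ j) (hjx : j ≤ x ^ (3 * η)) (hη : 3 * η ≤ 1 / 1000)
    (hy : x / (2 * j) ≤ y) : x ^ (999 / 1000 : ℝ) / 2 ≤ y := by
  have hx0 : 0 < x := by linarith
  refine le_trans ?_ hy
  rw [div_le_div_iff₀ (by norm_num) (by positivity)]
  have a2 : j ≤ x ^ (1 / 1000 : ℝ) := hjx.trans (Real.rpow_le_rpow_of_exponent_le hx hη)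
  have e : x ^ (999 / 1000 : ℝ) * x ^ (1 / 1000 : ℝ) = x := by
    rw [← Real.rpow_add hx0]
    norm_num
  have p0 : 0 ≤ x ^ (999 / 1000 : ℝ) := Real.rpow_nonneg hx0.le _
  calc x ^ (999 / 1000 : ℝ) * (2 * j) = 2 * (x ^ (999 / 1000 : ℝ) * j) := by ring
    _ ≤ 2 * (x ^ (999 / 1000 : ℝ) * x ^ (1 / 1000 : ℝ)) := by
        apply mul_le_mul_of_nonneg_left _ (by norm_num)
        exact mul_le_mul_of_nonneg_left a2 p0
    _ = x * 2 := by rw [e]; ring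

lemma ypow {x y s : ℝ} (hx : 1 ≤ x) (hy : x ^ (999 / 1000 : ℝ) / 2 ≤ y) (hs : 0 ≤ s) (hs1 : s ≤ 1) :
    x ^ (999 / 1000 * s) / 2 ≤ y ^ s := by
  have hx0 : 0 < x := by linarith
  have p0 : 0 < x ^ (999 / 1000 : ℝ) := Real.rpow_pos_of_pos hx0 _
  calc x ^ (999 / 1000 * s) / 2 ≤ x ^ (999 / 1000 * s) / 2 ^ s := by
        apply div_le_div_of_nonneg_left (Real.rpow_nonneg hx0.le _) (by positivity)
          (two_pow_le hs1)
    _ = (x ^ (999 / 1000 : ℝ) / 2) ^ s := by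
        rw [Real.div_rpow p0.le (by norm_num), ← Real.rpow_mul hx0.le]
    _ ≤ y ^ s := Real.rpow_le_rpow (by positivity) hy hs

lemma c2 {x y H' : ℝ} (hx : 1 ≤ x) (hy : x ^ (999 / 1000 : ℝ) / 2 ≤ y)
    (hH : H' ≤ x ^ (19 / 50 : ℝ)) (h2 : 2 ≤ x ^ (1 / 200 : ℝ)) : H' ≤ y ^ (39 / 100 : ℝ) := by
  have hx0 : 0 < x := by linarith
  refine hH.trans (le_trans ?_ (ypow hx hy (by norm_num) (by norm_num)))
  rw [le_div_iff₀ (by norm_num)]
  calc x ^ (19 / 50 : ℝ) * 2 ≤ x ^ (19 / 50 : ℝ) * x ^ (1 / 200 : ℝ) :=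
        mul_le_mul_of_nonneg_left h2 (Real.rpow_nonneg hx0.le _)
    _ = x ^ (19 / 50 + 1 / 200 : ℝ) := (Real.rpow_add hx0 _ _).symm
    _ ≤ x ^ (999 / 1000 * (39 / 100) : ℝ) := by
        apply Real.rpow_le_rpow_of_exponent_le hx
        norm_num

lemma c4 {x y h j H' η e0 q q' d b : ℝ} (hx : 1 ≤ x) (hy0 : 0 < y) (hy : y ≤ 2 * x) (hd : 1 ≤ d)
    (hb : 1 ≤ b) (hbx : b ≤ x ^ η) (hjd : j = d * b ^ 2) (hq : q = d * q')
    (hqh : q ≤ h * x ^ (-(e0 / 2))) (hh : 0 < h) (hH : h / (2 * j) ≤ H') (he0 : 0 < e0) (he1 : e0 ≤ 1)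
    (hη : η ≤ e0 / 32) (h4 : 4 ≤ x ^ (e0 / 8)) : q' ≤ H' * y ^ (-(e0 / 4)) := by
  have hx0 : 0 < x := by linarith
  have hj0 : 0 < j := by rw [hjd]; positivity
  have a1 : x ^ (-(e0 / 4)) / 2 ≤ y ^ (-(e0 / 4)) := by
    have b1 : (2 * x) ^ (-(e0 / 4)) ≤ y ^ (-(e0 / 4)) :=
      Real.rpow_le_rpow_of_nonpos hy0 hy (by linarith)
    have b2 : (2 * x) ^ (-(e0 / 4)) = 2 ^ (-(e0 / 4)) * x ^ (-(e0 / 4)) :=
      Real.mul_rpow (by norm_num) hx0.le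
    have b3 : (1 : ℝ) / 2 ≤ 2 ^ (-(e0 / 4)) := by
      rw [Real.rpow_neg (by norm_num), one_div]
      exact inv_anti₀ (by positivity) (two_pow_le (by linarith))
    have p0 : 0 ≤ x ^ (-(e0 / 4)) := Real.rpow_nonneg hx0.le _
    calc x ^ (-(e0 / 4)) / 2 = 1 / 2 * x ^ (-(e0 / 4)) := by ring
      _ ≤ 2 ^ (-(e0 / 4)) * x ^ (-(e0 / 4)) := mul_le_mul_of_nonneg_right b3 p0
      _ ≤ _ := by rw [← b2]; exact b1
  have a2 : b ^ 2 ≤ x ^ (2 * η) := by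
    calc b ^ 2 ≤ (x ^ η) ^ 2 := pow_le_pow_left₀ (by linarith) hbx 2
      _ = x ^ (2 * η) := by
          rw [← Real.rpow_natCast, ← Real.rpow_mul hx0.le]
          congr 1
          push_cast
          ring
  have a3 : 4 * b ^ 2 * x ^ (-(e0 / 2)) ≤ x ^ (-(e0 / 4)) := by
    calc 4 * b ^ 2 * x ^ (-(e0 / 2)) ≤ x ^ (e0 / 8) * x ^ (2 * η) * x ^ (-(e0 / 2)) := by
          apply mul_le_mul_of_nonneg_right _ (Real.rpow_nonneg hx0.le _)
          exact mul_le_mul h4 a2 (by positivity) (Real.rpow_nonneg hx0.le _)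
      _ = x ^ (e0 / 8 + 2 * η + -(e0 / 2)) := by
          rw [Real.rpow_add hx0, Real.rpow_add hx0]
      _ ≤ x ^ (-(e0 / 4)) := by
          apply Real.rpow_le_rpow_of_exponent_le hx
          linarith
  have hd0 : 0 < d := by linarith
  have a4 : q' ≤ h * x ^ (-(e0 / 2)) / d := by
    rw [le_div_iff₀ hd0, mul_comm, ← hq]
    exact hqh
  refine a4.trans ?_
  have a5 : h / (2 * j) * (x ^ (-(e0 / 4)) / 2) ≤ H' * y ^ (-(e0 / 4)) :=
    mul_le_mul hH a1 (by positivity) ((by positivity : 0 ≤ h / (2 * j)).trans hH)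
  refine le_trans ?_ a5
  have a6 : h / (2 * j) * (x ^ (-(e0 / 4)) / 2) = h / d * (x ^ (-(e0 / 4)) / (4 * b ^ 2)) := by
    rw [hjd]
    have : b ≠ 0 := by linarith
    field_simp
    ring
  rw [a6, mul_div_right_comm]
  apply mul_le_mul_of_nonneg_left _ (by positivity)
  rw [le_div_iff₀ (by positivity)]
  linarith

lemma c6 {x y h j H' e0 q q' d γ : ℝ} (hx : 1 ≤ x) (hy : x ^ (999 / 1000 : ℝ) / 2 ≤ y)
    (hd : 1 ≤ d) (hj : 1 ≤ j) (hq' : 1 ≤ q') (hq : q = d * q') (hh : 0 < h) (hH0 : 0 < H')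
    (hH : H' ≤ h / j) (he0 : 0 < e0) (he1 : e0 ≤ 1) (hγ : γ ≤ j * (x ^ (e0 / 2) / (q * h)))
    (h2 : 2 ≤ x ^ (e0 / 4)) : γ ≤ y ^ e0 / (q' * H') := by
  have hx0 : 0 < x := by linarith
  have hd0 : 0 < d := by linarith
  have hq'0 : 0 < q' := by linarith
  have hj0 : 0 < j := by linarith
  have a1 : x ^ (e0 / 2) ≤ y ^ e0 := by
    refine le_trans ?_ (ypow hx hy he0.le he1)
    rw [le_div_iff₀ (by norm_num)]
    calc x ^ (e0 / 2) * 2 ≤ x ^ (e0 / 2) * x ^ (e0 / 4) :=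
          mul_le_mul_of_nonneg_left h2 (Real.rpow_nonneg hx0.le _)
      _ = x ^ (e0 / 2 + e0 / 4) := (Real.rpow_add hx0 _ _).symm
      _ ≤ x ^ (999 / 1000 * e0) := by
          apply Real.rpow_le_rpow_of_exponent_le hx
          linarith
  refine hγ.trans ?_
  have p0 : 0 < x ^ (e0 / 2) := Real.rpow_pos_of_pos hx0 _
  calc j * (x ^ (e0 / 2) / (q * h)) = x ^ (e0 / 2) / (d * (q' * (h / j))) := by
        rw [hq]; field_simp
    _ ≤ x ^ (e0 / 2) / (1 * (q' * H')) := by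
        apply div_le_div_of_nonneg_left p0.le (by positivity)
        apply mul_le_mul hd _ (by positivity) hd0.le
        exact mul_le_mul_of_nonneg_left hH hq'0.le
    _ = x ^ (e0 / 2) / (q' * H') := by rw [one_mul]
    _ ≤ y ^ e0 / (q' * H') := by
        apply div_le_div_of_nonneg_right a1 (by positivity)

lemma c7 {x h j η e0 q q' d b P γ : ℝ} (hx : 1 ≤ x) (hd : 1 ≤ d) (hb : 1 ≤ b) (hbx : b ≤ x ^ η)
    (hjd : j = d * b ^ 2) (hq' : 1 ≤ q') (hq : q = d * q') (hh : 0 < h) (hhx : x ^ (1 / 6 : ℝ) ≤ h)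
    (hqh : q ≤ h * x ^ (-(e0 / 2))) (he0 : 0 < e0) (he1 : e0 ≤ 1 / 1000) (hη : η ≤ e0 / 32)
    (hγ : γ ≤ j * (x ^ (e0 / 2) / (q * h))) (hP : 0 ≤ P) (hP1 : 8 * P ^ 2 ≤ x ^ (e0 / 4))
    (hP2 : 4 * P ≤ x ^ (1 / 10 : ℝ)) : P * q' * (2 * j * P / h + γ) < 1 := by
  have hx0 : 0 < x := by linarith
  have hd0 : 0 < d := by linarith
  have hb0 : 0 < b := by linarith
  have hq'0 : 0 < q' := by linarith
  have hq0 : 0 < q := by rw [hq]; positivity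
  have hj0 : 0 < j := by rw [hjd]; positivity
  have a2 : b ^ 2 ≤ x ^ (2 * η) := by
    calc b ^ 2 ≤ (x ^ η) ^ 2 := pow_le_pow_left₀ (by linarith) hbx 2
      _ = x ^ (2 * η) := by
          rw [← Real.rpow_natCast, ← Real.rpow_mul hx0.le]
          congr 1
          push_cast
          ring
  have hqj : q' * j = q * b ^ 2 := by rw [hjd, hq]; ring
  have e1 : P * q' * (2 * j * P / h + γ) = 2 * P ^ 2 * (q' * j) / h + P * (q' * γ) := by
    field_simp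
  rw [e1]
  have s1 : 2 * P ^ 2 * (q' * j) / h ≤ 1 / 4 := by
    rw [hqj, div_le_iff₀ hh]
    calc 2 * P ^ 2 * (q * b ^ 2) ≤ 2 * P ^ 2 * (h * x ^ (-(e0 / 2)) * x ^ (2 * η)) := by
          apply mul_le_mul_of_nonneg_left _ (by positivity)
          exact mul_le_mul hqh a2 (by positivity) (by positivity)
      _ = 2 * P ^ 2 * x ^ (-(e0 / 2) + 2 * η) * h := by
          rw [Real.rpow_add hx0]; ring
      _ ≤ 1 / 4 * h := by
          apply mul_le_mul_of_nonneg_right _ hh.le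
          have b1 : x ^ (-(e0 / 2) + 2 * η) ≤ x ^ (-(e0 / 4)) := by
            apply Real.rpow_le_rpow_of_exponent_le hx
            linarith
          have b2 : x ^ (-(e0 / 4)) = (x ^ (e0 / 4))⁻¹ := Real.rpow_neg hx0.le _
          have b3 : 0 < x ^ (e0 / 4) := Real.rpow_pos_of_pos hx0 _
          calc 2 * P ^ 2 * x ^ (-(e0 / 2) + 2 * η) ≤ 2 * P ^ 2 * (x ^ (e0 / 4))⁻¹ := by
                rw [← b2]
                exact mul_le_mul_of_nonneg_left b1 (by positivity)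
            _ ≤ 1 / 4 := by
                rw [← div_eq_mul_inv, div_le_iff₀ b3]
                linarith
  have s2 : P * (q' * γ) ≤ 1 / 4 := by
    have c0 : q' * γ ≤ b ^ 2 * x ^ (e0 / 2) / h := by
      calc q' * γ ≤ q' * (j * (x ^ (e0 / 2) / (q * h))) :=
            mul_le_mul_of_nonneg_left hγ hq'0.le
        _ = (q' * j) * (x ^ (e0 / 2) / (q * h)) := by ring
        _ = b ^ 2 * x ^ (e0 / 2) / h := by rw [hqj]; field_simp
    have c1 : b ^ 2 * x ^ (e0 / 2) / h ≤ (x ^ (1 / 10 : ℝ))⁻¹ := by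
      rw [div_le_iff₀ hh]
      have b3 : 0 < x ^ (1 / 10 : ℝ) := Real.rpow_pos_of_pos hx0 _
      rw [inv_mul_eq_div, le_div_iff₀ b3]
      refine le_trans ?_ hhx
      calc b ^ 2 * x ^ (e0 / 2) * x ^ (1 / 10 : ℝ) ≤ x ^ (2 * η) * x ^ (e0 / 2) * x ^ (1 / 10 : ℝ) := by
            apply mul_le_mul_of_nonneg_right _ b3.le
            exact mul_le_mul_of_nonneg_right a2 (Real.rpow_nonneg hx0.le _)
        _ = x ^ (2 * η + e0 / 2 + 1 / 10) := by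
            rw [Real.rpow_add hx0, Real.rpow_add hx0]
        _ ≤ x ^ (1 / 6 : ℝ) := by
            apply Real.rpow_le_rpow_of_exponent_le hx
            linarith
    have b3 : 0 < x ^ (1 / 10 : ℝ) := Real.rpow_pos_of_pos hx0 _
    calc P * (q' * γ) ≤ P * (x ^ (1 / 10 : ℝ))⁻¹ := mul_le_mul_of_nonneg_left (c0.trans c1) hP
      _ ≤ 1 / 4 := by
          rw [← div_eq_mul_inv, div_le_iff₀ b3]
          linarith
  linarith

/-- The final calculation. -/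
lemma fin_calc {x h j L S1 S2 X0 H' l1 l2 : ℝ} {B : ℕ} (hx : 0 ≤ x) (hh : 0 ≤ h) (hj : 1 ≤ j) (hL : 1 ≤ L)
    (hX00 : 0 ≤ X0) (hX0 : X0 ≤ x / j) (hH0 : 0 ≤ H') (hH : H' ≤ h / j) (h1 : L / 2 ≤ l1)
    (h2 : L / 2 ≤ l2) (hS1 : S1 ≤ X0 * H' ^ 2 / l1 ^ (B + 10))
    (hS2 : S2 ≤ 2 * X0 * H' ^ 2 / l2 ^ (B + 10)) (hB : 6 * 2 ^ (B + 10) ≤ L ^ 10) :
    2 * j * (S1 + S2) ≤ x * h ^ 2 / (j ^ 2 * L ^ B) := by
  have hj0 : 0 < j := by linarith
  have hL0 : 0 < L := by linarith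
  have hLp : 0 < (L / 2) ^ (B + 10) := by positivity
  have g1 : S1 ≤ X0 * H' ^ 2 / (L / 2) ^ (B + 10) := by
    refine hS1.trans ?_
    exact div_le_div_of_nonneg_left (by positivity) hLp (pow_le_pow_left₀ (by positivity) h1 _)
  have g2 : S2 ≤ 2 * X0 * H' ^ 2 / (L / 2) ^ (B + 10) := by
    refine hS2.trans ?_
    exact div_le_div_of_nonneg_left (by positivity) hLp (pow_le_pow_left₀ (by positivity) h2 _)
  have g3 : X0 * H' ^ 2 ≤ x / j * (h / j) ^ 2 :=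
    mul_le_mul hX0 (pow_le_pow_left₀ hH0 hH 2) (by positivity) (by positivity)
  have g4 : S1 + S2 ≤ 3 * (x / j * (h / j) ^ 2) / (L / 2) ^ (B + 10) := by
    calc S1 + S2 ≤ X0 * H' ^ 2 / (L / 2) ^ (B + 10) + 2 * X0 * H' ^ 2 / (L / 2) ^ (B + 10) :=
          add_le_add g1 g2
      _ = 3 * (X0 * H' ^ 2) / (L / 2) ^ (B + 10) := by ring
      _ ≤ _ := by
          apply div_le_div_of_nonneg_right _ hLp.le
          linarith
  calc 2 * j * (S1 + S2) ≤ 2 * j * (3 * (x / j * (h / j) ^ 2) / (L / 2) ^ (B + 10)) :=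
        mul_le_mul_of_nonneg_left g4 (by positivity)
    _ = 6 * 2 ^ (B + 10) / L ^ 10 * (x * h ^ 2 / (j ^ 2 * L ^ B)) := by
        have hT : (0 : ℝ) < 2 ^ (B + 10) := by positivity
        have e1 : (L / 2) ^ (B + 10) = L ^ B * L ^ 10 / 2 ^ (B + 10) := by rw [div_pow, pow_add]
        rw [e1]
        generalize (2 : ℝ) ^ (B + 10) = T at hT
        field_simp
        ring
    _ ≤ 1 * (x * h ^ 2 / (j ^ 2 * L ^ B)) := by
        apply mul_le_mul_of_nonneg_right _ (by positivity)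
        rw [div_le_one (by positivity)]
        exact hB
    _ = _ := one_mul _

end BlkPairAux

open BlkPairAux

theorem blk_pair (B : ℕ) (ε : ℝ) (hε : 0 < ε) : ∃ (p η : ℝ) (A1 : ℕ), 0 < p ∧ p ≤ 1 / 1000 ∧ 0 < η ∧ η ≤ 1 / 1000 ∧ η ≤ ε ∧
    ∀ᶠ X : ℕ in atTop, ∀ (q H d b : ℕ) (a : ℤ) (α : ℝ), (X : ℝ) ^ (1 / 6 + ε) ≤ H → (H : ℝ) ≤ (X : ℝ) ^ (19 / 50 : ℝ) →
    1 ≤ q → (q : ℝ) ≤ H * (X : ℝ) ^ (-p) → IsCoprime a (q : ℤ) → |α - a / q| ≤ (X : ℝ) ^ p / (q * H) →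
    d ∣ q → (d : ℝ) ≤ (X : ℝ) ^ η → 1 ≤ b → (b : ℝ) ≤ (X : ℝ) ^ η → b.Coprime (q / d) →
    (Real.log X ^ A1 < (q / d : ℕ) ∨ Real.log X ^ A1 < H * |α - a / q|) →
    ∑ u ∈ Icc X (2 * X), ‖∑ n ∈ Ioc u (u + H), (if d * b ^ 2 ∣ n then
        (if (n / (d * b ^ 2)).Coprime (q / d) then mu (n / (d * b ^ 2)) else 0) else 0) * ex (n * α)‖ ^ 2 ≤
      X * (H : ℝ) ^ 2 / (((d * b ^ 2 : ℕ) : ℝ) ^ 2 * Real.log X ^ B) + 4 * X := by
  obtain ⟨ε', hε'0, hε'1, hε'ε⟩ : ∃ ε' : ℝ, 0 < ε' ∧ ε' ≤ 1 / 10 ∧ ε' ≤ ε :=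
    ⟨min ε (1 / 10), lt_min hε (by norm_num), min_le_right _ _, min_le_left _ _⟩
  obtain ⟨e0, he0, he1, hcop⟩ := blk_cop (B + 10) (ε' / 2) (by linarith)
  obtain ⟨A', hA'⟩ := hcop (e0 / 4) e0 (by linarith) he0 le_rfl
  obtain ⟨N0, hN0⟩ := eventually_atTop.1 hA'
  obtain ⟨η, hη0, hη1, hη2⟩ : ∃ η : ℝ, 0 < η ∧ η ≤ e0 / 32 ∧ η ≤ ε' / 32 :=
    ⟨min (e0 / 32) (ε' / 32), lt_min (by linarith) (by linarith), min_le_left _ _, min_le_right _ _⟩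
  refine ⟨e0 / 2, η, A' + 1, by linarith, by linarith, hη0, by linarith, by linarith, ?_⟩
  filter_upwards [eventually_ge_atTop 1, evlog 1, evlog (2 ^ (A' + 1)), evlog (6 * 2 ^ (B + 10)),
    ev 4 (ε' / 4) (by linarith), ev 2 (1 / 200) (by norm_num), ev 4 (e0 / 8) (by linarith),
    ev 2 (e0 / 4) (by linarith), BlkMinorAux.logpow (2 * A') (8 * (2 ^ A') ^ 2) (e0 / 4) (by linarith),
    BlkMinorAux.logpow A' (4 * 2 ^ A') (1 / 10) (by norm_num), ev (4 * (N0 + 1)) (1 / 10) (by norm_num)]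
    with X v1 v2 v3 v4 v5 v6 v7 v8 v9 v10 v11
  intro q H d b a α hHlo hHhi hq1 hqH hcop1 hα hdq hdx hb1 hbx hbq hor
  -- the parameters
  set x : ℝ := (X : ℝ) with hxdef
  set L : ℝ := Real.log x with hLdef
  have hx1 : (1 : ℝ) ≤ x := by rw [hxdef]; exact_mod_cast v1
  have hx0 : 0 < x := by linarith
  have hd1 : 1 ≤ d := Nat.pos_of_dvd_of_pos hdq hq1
  obtain ⟨q', rfl⟩ := hdq
  have hq' : d * q' / d = q' := Nat.mul_div_cancel_left q' hd1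
  rw [hq'] at hbq hor
  rw [hq']
  have hq'1 : 1 ≤ q' := by
    rcases Nat.eq_zero_or_pos q' with h0 | h0
    · rw [h0, mul_zero] at hq1; omega
    · exact h0
  have hd1r : (1 : ℝ) ≤ d := by exact_mod_cast hd1
  have hb1r : (1 : ℝ) ≤ b := by exact_mod_cast hb1
  have hq'1r : (1 : ℝ) ≤ q' := by exact_mod_cast hq'1
  obtain ⟨J, hJ⟩ : ∃ J : ℕ, J = d * b ^ 2 := ⟨_, rfl⟩
  rw [← hJ]
  have hJr : (J : ℝ) = d * (b : ℝ) ^ 2 := by rw [hJ]; push_cast; ring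
  have hJ1 : 1 ≤ J := by
    rw [hJ]
    exact Nat.succ_le_of_lt (by positivity)
  have hJ1r : (1 : ℝ) ≤ J := by exact_mod_cast hJ1
  have hJ0r : (0 : ℝ) < J := by linarith
  have hJx : (J : ℝ) ≤ x ^ (3 * η) := by
    rw [hJr]
    have e : x ^ (3 * η) = x ^ η * (x ^ η) ^ 2 := by
      rw [← Real.rpow_natCast (x ^ η) 2, ← Real.rpow_mul hx0.le, ← Real.rpow_add hx0]
      congr 1
      push_cast
      ring
    rw [e]
    exact mul_le_mul hdx (pow_le_pow_left₀ (by linarith) hbx 2) (by positivity)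
      (Real.rpow_nonneg hx0.le _)
  have h3η : 3 * η ≤ 1 / 1000 := by linarith
  -- sizes
  have hHx : x ^ (1 / 6 + ε') ≤ (H : ℝ) :=
    le_trans (Real.rpow_le_rpow_of_exponent_le hx1 (by linarith)) hHlo
  have hHx6 : x ^ (1 / 6 : ℝ) ≤ (H : ℝ) :=
    le_trans (Real.rpow_le_rpow_of_exponent_le hx1 (by linarith)) hHx
  have hH0 : (0 : ℝ) < H := lt_of_lt_of_le (Real.rpow_pos_of_pos hx0 _) hHx
  have h10 : x ^ (1 / 10 : ℝ) * J ≤ x ^ (1 / 6 : ℝ) := by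
    calc x ^ (1 / 10 : ℝ) * J ≤ x ^ (1 / 10 : ℝ) * x ^ (3 * η) :=
          mul_le_mul_of_nonneg_left hJx (Real.rpow_nonneg hx0.le _)
      _ = x ^ (1 / 10 + 3 * η) := (Real.rpow_add hx0 _ _).symm
      _ ≤ x ^ (1 / 6 : ℝ) := Real.rpow_le_rpow_of_exponent_le hx1 (by linarith)
  have hN0r : (0 : ℝ) ≤ N0 := Nat.cast_nonneg _
  have h10' : (4 : ℝ) * (N0 + 1) * J ≤ x ^ (1 / 6 : ℝ) :=
    le_trans (mul_le_mul_of_nonneg_right v11 hJ0r.le) h10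
  have h2J : 2 * (J : ℝ) ≤ H := by nlinarith
  have hx16 : x ^ (1 / 6 : ℝ) ≤ x := by
    calc x ^ (1 / 6 : ℝ) ≤ x ^ (1 : ℝ) := Real.rpow_le_rpow_of_exponent_le hx1 (by norm_num)
      _ = x := Real.rpow_one x
  have h2J' : 2 * (J : ℝ) ≤ X := by
    have : 2 * (J : ℝ) ≤ x ^ (1 / 6 : ℝ) := by nlinarith
    rw [← hxdef]
    linarith
  have hH'lo := div_lo H J hJ1 h2J
  have hX0lo := div_lo X J hJ1 h2J'
  rw [← hxdef] at hX0lo
  have hH'hi : ((H / J : ℕ) : ℝ) ≤ H / J := Nat.cast_div_le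
  have hX0hi : ((X / J : ℕ) : ℝ) ≤ x / J := Nat.cast_div_le
  have hH'0 : (0 : ℝ) < ((H / J : ℕ) : ℝ) := lt_of_lt_of_le (by positivity) hH'lo
  have hX0N : (N0 : ℝ) + 1 ≤ ((X / J : ℕ) : ℝ) := by
    refine le_trans ?_ hX0lo
    rw [le_div_iff₀ (by positivity)]
    nlinarith
  have hX0N' : N0 + 1 ≤ X / J := by exact_mod_cast hX0N
  -- coprimality
  have hcq : IsCoprime ((b : ℤ) ^ 2 * a) (q' : ℤ) := by
    have h1 : IsCoprime a (q' : ℤ) := by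
      have h2 : ((d * q' : ℕ) : ℤ) = (q' : ℤ) * d := by push_cast; ring
      rw [h2] at hcop1
      exact hcop1.of_mul_right_left
    have h3 : IsCoprime (b : ℤ) (q' : ℤ) := Nat.isCoprime_iff_coprime.2 hbq
    exact IsCoprime.mul_left h3.pow_left h1
  have hqr : ((d * q' : ℕ) : ℝ) = d * (q' : ℝ) := by push_cast; ring
  -- the distance
  have hdist : |(J : ℝ) * α - ((((b : ℤ) ^ 2 * a : ℤ)) : ℝ) / q'| = J * |α - a / ((d * q' : ℕ) : ℝ)| := by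
    rw [← abs_of_pos hJ0r, ← abs_mul, abs_of_pos hJ0r]
    congr 1
    rw [hJr, hqr]
    push_cast
    have h1 : (d : ℝ) ≠ 0 := by positivity
    have h2 : (q' : ℝ) ≠ 0 := by positivity
    field_simp
  set γ : ℝ := J * |α - a / ((d * q' : ℕ) : ℝ)| with hγdef
  have hγ : γ ≤ J * (x ^ (e0 / 2) / (((d * q' : ℕ) : ℝ) * H)) :=
    mul_le_mul_of_nonneg_left hα hJ0r.le
  -- the minor arc condition
  set P : ℝ := (2 * L) ^ A' with hPdef
  have hL1 : 1 ≤ L := v2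
  have hP0 : 0 ≤ P := by positivity
  have hP1 : 8 * P ^ 2 ≤ x ^ (e0 / 4) := by
    refine le_trans (le_of_eq ?_) v9
    rw [hPdef, mul_pow]
    ring
  have hP2 : 4 * P ≤ x ^ (1 / 10 : ℝ) := by
    refine le_trans (le_of_eq ?_) v10
    rw [hPdef, mul_pow]
    ring
  have hP3 : 2 * P ≤ L ^ (A' + 1) := by
    rw [hPdef, mul_pow, pow_succ L A']
    have h1 : (2 : ℝ) ^ (A' + 1) = 2 * 2 ^ A' := by ring
    have h2 : 0 ≤ L ^ A' := by positivity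
    calc 2 * (2 ^ A' * L ^ A') = L ^ A' * 2 ^ (A' + 1) := by rw [h1]; ring
      _ ≤ L ^ A' * L := mul_le_mul_of_nonneg_left v3 h2
  have hmn : Mn P ((H / J : ℕ) : ℝ) (J * α) := by
    refine mn_core hq'1 hcq hP0 hH'lo hH0 hJ0r hdist ?_ ?_
    · exact c7 hx1 hd1r hb1r hbx hJr hq'1r hqr hH0 hHx6 hqH he0 he1 hη1 hγ hP0 hP1 hP2
    · rintro ⟨g1, g2⟩
      rcases hor with h1 | h1
      · have h2 : L ^ (A' + 1) < (q' : ℝ) := h1
        linarith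
      · have h2 : L ^ (A' + 1) < H * |α - a / ((d * q' : ℕ) : ℝ)| := h1
        have h3 : |α - a / ((d * q' : ℕ) : ℝ)| ≤ 2 * P / H := by
          have h4 : J * |α - a / ((d * q' : ℕ) : ℝ)| ≤ J * (2 * P / H) := by
            calc J * |α - a / ((d * q' : ℕ) : ℝ)| ≤ 2 * J * P / H := g2
              _ = J * (2 * P / H) := by ring
          exact le_of_mul_le_mul_left h4 hJ0r
        have h5 : H * |α - a / ((d * q' : ℕ) : ℝ)| ≤ 2 * P := by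
          calc H * |α - a / ((d * q' : ℕ) : ℝ)| ≤ H * (2 * P / H) :=
                mul_le_mul_of_nonneg_left h3 hH0.le
            _ = 2 * P := by field_simp
        linarith
  -- one application
  have happ : ∀ Y : ℕ, X / J ≤ Y → Y ≤ 2 * (X / J) →
      L / 2 ≤ Real.log Y ∧
      ∑ u ∈ Icc Y (2 * Y), ‖∑ n ∈ Ioc u (u + H / J), (if n.Coprime q' then mu n else 0) *
        ex (n * (J * α))‖ ^ 2 ≤ Y * ((H / J : ℕ) : ℝ) ^ 2 / Real.log Y ^ (B + 10) := by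
    intro Y hY1 hY2
    have hY1r : ((X / J : ℕ) : ℝ) ≤ Y := by exact_mod_cast hY1
    have hY2r : (Y : ℝ) ≤ 2 * ((X / J : ℕ) : ℝ) := by exact_mod_cast hY2
    have hYlo : x ^ (999 / 1000 : ℝ) / 2 ≤ Y := ylow hx1 hJ1r hJx h3η (hX0lo.trans hY1r)
    have hY0 : (0 : ℝ) < Y := lt_of_lt_of_le (by positivity) hYlo
    have hxJ : x / J ≤ x := div_le_self hx0.le hJ1r
    have hYhi : (Y : ℝ) ≤ 2 * x := by linarith
    have hlogY : Real.log Y ≤ 2 * L := by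
      calc Real.log Y ≤ Real.log (2 * x) := Real.log_le_log hY0 hYhi
        _ = Real.log 2 + L := Real.log_mul (by norm_num) hx0.ne'
        _ ≤ 2 * L := by
            have : Real.log 2 ≤ 1 := by
              have := Real.log_two_lt_d9
              linarith
            linarith
    have hlogY2 : L / 2 ≤ Real.log Y := by
      have h1 : x ^ (1 / 2 : ℝ) ≤ Y := by
        refine le_trans ?_ hYlo
        rw [le_div_iff₀ (by norm_num)]
        calc x ^ (1 / 2 : ℝ) * 2 ≤ x ^ (1 / 2 : ℝ) * x ^ (1 / 200 : ℝ) :=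
              mul_le_mul_of_nonneg_left v6 (Real.rpow_nonneg hx0.le _)
          _ = x ^ (1 / 2 + 1 / 200 : ℝ) := (Real.rpow_add hx0 _ _).symm
          _ ≤ x ^ (999 / 1000 : ℝ) := Real.rpow_le_rpow_of_exponent_le hx1 (by norm_num)
      have h2 := Real.log_le_log (Real.rpow_pos_of_pos hx0 _) h1
      rw [Real.log_rpow hx0] at h2
      linarith
    refine ⟨hlogY2, ?_⟩
    refine hN0 Y (by omega) q' (H / J) ((b : ℤ) ^ 2 * a) (J * α) ?_ ?_ hq'1 ?_ hcq ?_ ?_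
    · have := c1 hx1 hY0.le hYhi hJ1r hJx hHx hH'lo (by linarith) hε'0 hε'1 v5
      exact this
    · exact c2 hx1 hYlo (hH'hi.trans ((div_le_self hH0.le hJ1r).trans hHhi)) v6
    · exact c4 hx1 hY0 hYhi hd1r hb1r hbx hJr hqr hqH hH0 hH'lo he0 (by linarith) hη1 v7
    · rw [hdist]
      exact c6 hx1 hYlo hd1r hJ1r hq'1r hqr hH0 hH'0 hH'hi he0 (by linarith) hγ v8
    · have h1 : 0 ≤ Real.log Y := by linarith
      exact hmn.mono (pow_le_pow_left₀ h1 hlogY A') hH'0.le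
  obtain ⟨l1, hS1⟩ := happ (X / J) le_rfl (by omega)
  obtain ⟨l2, hS2⟩ := happ (2 * (X / J)) (by omega) le_rfl
  -- the windows
  have hwin := dil_win (fun m => if m.Coprime q' then mu m else 0) (fun n => by
    split_ifs
    · exact norm_mu n
    · simp) J H hJ1 α (Icc X (2 * X)) (Icc (X / J) (2 * (X / J)) ∪ Icc (2 * (X / J)) (2 * (2 * (X / J))))
    (fun u hu => by
      rw [Finset.mem_Icc] at hu
      rw [Finset.mem_union, Finset.mem_Icc, Finset.mem_Icc]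
      have h1 : X / J ≤ u / J := Nat.div_le_div_right hu.1
      have h2 : u / J ≤ 2 * X / J := Nat.div_le_div_right hu.2
      have h3 : 2 * X / J ≤ 2 * (X / J) + 1 := by
        have h4 : X < J * (X / J + 1) := Nat.lt_mul_div_succ X hJ1
        have h5 : 2 * X < J * (2 * (X / J) + 1 + 1) := by nlinarith
        exact Nat.le_of_lt_succ ((Nat.div_lt_iff_lt_mul hJ1).2 (h5.trans_eq (Nat.mul_comm _ _)))
      omega)
  refine hwin.trans ?_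
  have hcard : ((Icc X (2 * X)).card : ℝ) = x + 1 := by
    rw [Nat.card_Icc, hxdef]
    have : 2 * X + 1 - X = X + 1 := by omega
    rw [this]
    push_cast
    ring
  rw [hcard]
  have hunion : ∑ v ∈ Icc (X / J) (2 * (X / J)) ∪ Icc (2 * (X / J)) (2 * (2 * (X / J))),
      ‖∑ m ∈ Ioc v (v + H / J), (if m.Coprime q' then mu m else 0) * ex (m * (J * α))‖ ^ 2 ≤
      (∑ v ∈ Icc (X / J) (2 * (X / J)),
        ‖∑ m ∈ Ioc v (v + H / J), (if m.Coprime q' then mu m else 0) * ex (m * (J * α))‖ ^ 2) +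
      ∑ v ∈ Icc (2 * (X / J)) (2 * (2 * (X / J))),
        ‖∑ m ∈ Ioc v (v + H / J), (if m.Coprime q' then mu m else 0) * ex (m * (J * α))‖ ^ 2 := by
    rw [← Finset.sum_union_inter]
    exact le_add_of_nonneg_right (Finset.sum_nonneg fun _ _ => by positivity)
  have hS2' : ∑ v ∈ Icc (2 * (X / J)) (2 * (2 * (X / J))),
        ‖∑ m ∈ Ioc v (v + H / J), (if m.Coprime q' then mu m else 0) * ex (m * (J * α))‖ ^ 2 ≤
      2 * ((X / J : ℕ) : ℝ) * ((H / J : ℕ) : ℝ) ^ 2 / Real.log ((2 * (X / J) : ℕ) : ℝ) ^ (B + 10) := by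
    refine hS2.trans (le_of_eq ?_)
    push_cast
    ring
  have hfin := fin_calc (B := B) hx0.le hH0.le hJ1r hL1 (Nat.cast_nonneg (X / J)) hX0hi hH'0.le hH'hi l1 l2
    hS1 hS2' (by
      have h1 : L ≤ L ^ 10 := le_self_pow₀ hL1 (by norm_num)
      linarith)
  have hmul := mul_le_mul_of_nonneg_left hunion (by positivity : (0 : ℝ) ≤ 2 * J)
  have h4x : 2 * (x + 1) ≤ 4 * x := by linarith
  exact add_le_add (hmul.trans hfin) h4x

end Pool.Agent.MW
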