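import Pool.Agent.Lib.MW.Defs
import Pool.Agent.Lib.VL.BlockGen
import Pool.Agent.Lib.VM.VkMu
import Pool.Agent.Lib.VK.TypeOne
import Pool.Agent.Lib.BV.Vaughan

/-!
# Module DpMu: mean squares of `∑ μ(n) χ(n) n^(-it)` up to height `X^(1/5)`

`L = log X`, `V = ⌈X^(1/4)⌉₊`. Identity for `n > V`: `μ(n) = - (μ_V * μ_V * 1)(n) + (β_V * μ_{>V})(n)`, where `μ_V = muV V`, `β_V = betaV V = 1 - ζ * μ_V` (`= [n = 1] - ∑_{d ∣ n, d ≤ V} μ(d)`, zero for `n ≤ V`, at most `τ(n)`: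
`BV.betaV_apply_of_le`, `BV.betaV_abs_le`; check the sign convention in BV/Defs.lean) and `μ_{>V} = μ - μ_V`: in the ring of arithmetic functions
`(1 - ζ μ_V)(μ - μ_V) = μ - μ_V - μ_V + ζ μ_V μ_V` as `ζ μ = 1`. Everything is multiplied by `χ(n) n^(-it)` (completely multiplicative, `VK.nit_mul`).
Type I: `c = μ_V * μ_V`, `|c d| ≤ τ(d)`, `c d = 0` for `d > V²`, `V² ≤ 4 X^(1/2)`. For `d ≤ V²` the sum over `n ∈ (X/d, 3X/d]` of `χ(n) n^(-it)` is `≤ 7 C (X/d)/|t|` (`VK.kl_sum` in the form of `pieces` in VK/TypeOne.lean; `q |t| ≤ L^A X^(1/5) ≤ X/d`,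
natural divisions: `3X/d ≤ 8 (X/d)`), so the type I sum is `≤ 7 C (X/|t|) ∑_{d ≤ V²} τ(d)/d ≤ C' X L²/|t|` (`HLT.sum_tau_pow_div`, `k = 1`), and the integral of its square over `|t| ≥ L^B` is `≤ C'' X² L⁴/L^B`
(`t0 ≤ t1` of the same sign, since `|t| ≥ L^B > 0` on `[t0, t1]`). See `rearrange` in VK/TypeOne.lean.
Type II: `b n = μ(n) χ(n) [n > V]`, `a m = β_V(m) χ(m)`. Split `a = a' + a''`, `a'` = the part with `τ(m) ≤ K := L^κ`. For `a'`: `VL.block_gen` with `U = V`, `D2 = 3X`, `F = 0`, `T = t1 - t0 ≤ 2 X^(1/5) ≤ V`, `J = ⌈L^m⌉₊`, `D = 2·4^A'/L^A'`: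
the hypothesis for `y V ≤ 3X`: `0` if `y ≤ V`, else `∑_{n ≤ y} - ∑_{n ≤ V}` by `VM.vk_mu A' 5` for `N = y` and `N = V` (`V ≥ X^(1/4)`: `log V ≥ L/4`, `|t| ≤ X^(1/5) ≤ V^5`, `(log N)^B' ≤ L^B ≤ |t|`, `q ≤ L^A ≤ (log V)^A'`).
Result `≤ C K⁴ (2L)^20 (J² D² X² 2 + X²/√J)`; take `m = 8κ + 4A + 200`, `A' = m + 4κ + A + 50`.
For `a''`: the coefficients `c_k = ∑_{ab = k} a''(a) b(b)` satisfy `|c_k| ≤ τ(k)² [τ(k) > K] ≤ τ(k)³/K`, and by `VK.mean_value` the integral is `≤ C (1 + T + 3X) ∑_{k ≤ 3X} τ(k)^6/K² ≤ C' X² (1 + log 3X)^(2^6)/K²`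
(`HLT.sum_tau_pow`); `κ = A + 40` (with `2 κ ≥ 64 + A + 5`; take `κ = A + 80`).
See the proofs of `VL.dir_poly3` (VL/DirPoly3.lean) and `VK.dir_poly` (VK/DirPoly.lean) for the same computations with `Λ`.
-/

set_option autoImplicit false

open Finset Filter MeasureTheory

namespace Pool.Agent.MW

open Pool.Agent.VK Pool.Agent.HLT Pool.Agent.VM

namespace DpMuAux

open Pool.Agent.Lib.BV

/-! ### Continuity and elementary facts -/

lemma nit_cont {n : ℕ} (hn : 1 ≤ n) : Continuous (fun t : ℝ => nit n t) := by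
  unfold nit
  have h0 : (((n : ℝ)) : ℂ) ≠ 0 := by
    have : (n : ℝ) ≠ 0 := by exact_mod_cast (by omega : n ≠ 0)
    exact_mod_cast this
  refine Continuous.const_cpow ?_ (Or.inl h0)
  fun_prop

lemma cont_sum (w : ℕ → ℂ) (X Y : ℕ) :
    Continuous (fun t : ℝ => ∑ k ∈ Ioc X Y, w k * nit k t) := by
  apply continuous_finsetSum
  intro k hk
  have h1 : 1 ≤ k := by
    have := (Finset.mem_Ioc.1 hk).1
    omega
  exact continuous_const.mul (nit_cont h1)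

lemma cont_sum' {q : ℕ} (χ : DirichletCharacter ℂ q) (w : ℕ → ℂ) (X Y : ℕ) :
    Continuous (fun t : ℝ => ∑ k ∈ Ioc X Y, w k * (χ (k : ZMod q) * nit k t)) := by
  have h1 : (fun t : ℝ => ∑ k ∈ Ioc X Y, w k * (χ (k : ZMod q) * nit k t)) =
      fun t => ∑ k ∈ Ioc X Y, (w k * χ (k : ZMod q)) * nit k t := by
    funext t
    apply sum_congr rfl
    intro k _
    ring
  rw [h1]
  exact cont_sum _ _ _

lemma ev_log (C : ℝ) : ∀ᶠ X : ℕ in atTop, C ≤ Real.log X :=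
  (Real.tendsto_log_atTop.comp tendsto_natCast_atTop_atTop).eventually_ge_atTop C

lemma ev_pow (K : ℕ) (ε : ℝ) (hε : 0 < ε) :
    ∀ᶠ X : ℕ in atTop, Real.log X ^ K ≤ (X : ℝ) ^ ε := by
  have h := (isLittleO_log_rpow_rpow_atTop (K : ℝ) hε).bound (c := 1) one_pos
  have h2 := tendsto_natCast_atTop_atTop (R := ℝ) |>.eventually h
  filter_upwards [h2, eventually_ge_atTop 1] with X hX hX1
  rw [Real.rpow_natCast, one_mul] at hX
  have h3 : (0 : ℝ) ≤ Real.log X := Real.log_nonneg (by exact_mod_cast hX1)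
  rw [Real.norm_of_nonneg (by positivity), Real.norm_of_nonneg (by positivity)] at hX
  exact hX

lemma log3_ge_one {X : ℕ} (hX : 1 ≤ X) : 1 ≤ Real.log (X + 3) := by
  have hXr : (1 : ℝ) ≤ X := by exact_mod_cast hX
  rw [Real.le_log_iff_exp_le (by linarith)]
  have := Real.exp_one_lt_d9
  linarith

lemma log3_le {X : ℕ} (hX : 1 ≤ X) (hL : 2 ≤ Real.log X) :
    Real.log ((X : ℝ) + 3) ≤ 2 * Real.log X := by
  have hXr : (1 : ℝ) ≤ X := by exact_mod_cast hX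
  have h1 : Real.log ((X : ℝ) + 3) ≤ Real.log (X * 4) := Real.log_le_log (by linarith) (by linarith)
  rw [Real.log_mul (by linarith) (by norm_num)] at h1
  have h2 : Real.log 4 ≤ 2 := by
    have h3 : Real.log 4 = 2 * Real.log 2 := by
      rw [show (4 : ℝ) = 2 ^ 2 by norm_num, Real.log_pow]
      push_cast
      ring
    rw [h3]
    have := Real.log_two_lt_d9
    linarith
  linarith

lemma integral_inv_sq {t0 t1 W : ℝ} (h01 : t0 ≤ t1) (hW : 0 < W)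
    (ht : ∀ t : ℝ, t0 ≤ t → t ≤ t1 → W ≤ |t|) : ∫ t in t0..t1, t ^ (-2 : ℤ) ≤ 2 / W := by
  have h0 : (0 : ℝ) ∉ Set.uIcc t0 t1 := by
    rw [Set.uIcc_of_le h01]
    intro h
    have := ht 0 h.1 h.2
    rw [abs_zero] at this
    linarith
  rw [integral_zpow (Or.inr ⟨by norm_num, h0⟩)]
  norm_num
  have h1 : |t0⁻¹| ≤ 1 / W := by
    rw [abs_inv, one_div]
    exact inv_anti₀ hW (ht t0 le_rfl h01)
  have h2 : |t1⁻¹| ≤ 1 / W := by
    rw [abs_inv, one_div]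
    exact inv_anti₀ hW (ht t1 h01 le_rfl)
  have h3 := le_abs_self (t0⁻¹)
  have h4 := neg_abs_le (t1⁻¹)
  have h5 : 2 / W = 1 / W + 1 / W := by ring
  linarith

/-! ### The identity -/

/-- The Moebius function beyond `V`. -/
noncomputable def muG (V : ℕ) : ArithmeticFunction ℝ :=
  ((ArithmeticFunction.moebius : ArithmeticFunction ℤ) : ArithmeticFunction ℝ) - muV V

lemma muG_apply (V n : ℕ) : muG V n =
    if n ≤ V then 0 else ((ArithmeticFunction.moebius n : ℤ) : ℝ) := by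
  have h : muG V n = ((ArithmeticFunction.moebius : ArithmeticFunction ℤ) :
      ArithmeticFunction ℝ) n - muV V n := rfl
  rw [h, vau_muV_apply, ArithmeticFunction.intCoe_apply]
  split_ifs <;> simp

lemma zeta_sum (f : ArithmeticFunction ℝ) (k : ℕ) :
    (f * (ArithmeticFunction.zeta : ArithmeticFunction ℝ)) k =
      ∑ p ∈ k.divisorsAntidiagonal, f p.1 := by
  rw [ArithmeticFunction.mul_apply]
  refine Finset.sum_congr rfl fun p hp => ?_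
  have h1 := Nat.mem_divisorsAntidiagonal.1 hp
  have h2 : p.2 ≠ 0 := by
    intro h
    rw [h, mul_zero] at h1
    exact h1.2 h1.1.symm
  rw [ArithmeticFunction.natCoe_apply, ArithmeticFunction.zeta_apply_ne h2]
  simp

lemma mu_id {V k : ℕ} (hk : V < k) : ((ArithmeticFunction.moebius k : ℤ) : ℝ) =
    -(∑ p ∈ k.divisorsAntidiagonal, (muV V * muV V) p.1 * 1) +
      ∑ p ∈ k.divisorsAntidiagonal, betaV V p.1 * muG V p.2 := by
  have h := ArithmeticFunction.coe_moebius_mul_coe_zeta (R := ℝ)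
  have e : ((ArithmeticFunction.moebius : ArithmeticFunction ℤ) : ArithmeticFunction ℝ) =
      betaV V * muG V + (muV V + muV V) -
        (muV V * muV V) * (ArithmeticFunction.zeta : ArithmeticFunction ℝ) := by
    unfold betaV muG
    linear_combination (muV V) * h
  have h1 := congrArg (fun f : ArithmeticFunction ℝ => f k) e
  have hs : ∀ f g : ArithmeticFunction ℝ, (f - g) k = f k - g k := fun _ _ => rfl
  simp only [ArithmeticFunction.add_apply, hs, ArithmeticFunction.intCoe_apply] at h1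
  rw [h1, zeta_sum, vau_muV_apply, if_neg (by omega), ArithmeticFunction.mul_apply]
  simp only [mul_one]
  ring

lemma sq_muV_le (V d : ℕ) : |(muV V * muV V) d| ≤ (d.divisors.card : ℝ) := by
  rw [ArithmeticFunction.mul_apply]
  refine (Finset.abs_sum_le_sum_abs _ _).trans ?_
  have h1 : ∀ p ∈ d.divisorsAntidiagonal, |muV V p.1 * muV V p.2| ≤ 1 := by
    intro p _
    rw [abs_mul]
    calc |muV V p.1| * |muV V p.2| ≤ 1 * 1 :=
          mul_le_mul (vau_muV_abs_le V _) (vau_muV_abs_le V _) (abs_nonneg _) zero_le_one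
      _ = 1 := one_mul 1
  refine (Finset.sum_le_sum h1).trans (le_of_eq ?_)
  rw [Nat.sum_divisorsAntidiagonal (f := fun _ _ => (1 : ℝ))]
  simp

lemma sq_muV_zero {V d : ℕ} (hd : V * V < d) : (muV V * muV V) d = 0 := by
  rw [ArithmeticFunction.mul_apply]
  refine Finset.sum_eq_zero fun p hp => ?_
  have h1 := (Nat.mem_divisorsAntidiagonal.1 hp).1
  by_cases h2 : p.1 ≤ V
  · have h3 : ¬ p.2 ≤ V := by
      intro h3
      have := Nat.mul_le_mul h2 h3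
      omega
    rw [vau_muV_apply V p.2, if_neg h3, mul_zero]
  · rw [vau_muV_apply V p.1, if_neg h2, zero_mul]

/-! ### The three sums -/

/-- The type I sum. -/
noncomputable def S1 {q : ℕ} (χ : DirichletCharacter ℂ q) (X V : ℕ) (t : ℝ) : ℂ :=
  ∑ k ∈ Ioc X (3 * X), ((∑ p ∈ k.divisorsAntidiagonal, (muV V * muV V) p.1 *
    (fun _ : ℕ => (1 : ℝ)) p.2 : ℝ) : ℂ) * (χ (k : ZMod q) * nit k t)

open Classical in
/-- Coefficients with few divisors. -/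
noncomputable def ca {q : ℕ} (χ : DirichletCharacter ℂ q) (X V : ℕ) (K : ℝ) (m : ℕ) : ℂ :=
  if m ≤ 3 * X ∧ (m.divisors.card : ℝ) ≤ K then ((betaV V m : ℝ) : ℂ) * χ (m : ZMod q) else 0

open Classical in
/-- Coefficients with many divisors. -/
noncomputable def cd {q : ℕ} (χ : DirichletCharacter ℂ q) (X V : ℕ) (K : ℝ) (m : ℕ) : ℂ :=
  if m ≤ 3 * X ∧ ¬ (m.divisors.card : ℝ) ≤ K then ((betaV V m : ℝ) : ℂ) * χ (m : ZMod q) else 0

/-- Coefficients of the second factor. -/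
noncomputable def cb {q : ℕ} (χ : DirichletCharacter ℂ q) (V n : ℕ) : ℂ :=
  ((muG V n : ℝ) : ℂ) * χ (n : ZMod q)

/-- The bilinear sum. -/
noncomputable def SB (a b : ℕ → ℂ) (X : ℕ) (t : ℝ) : ℂ :=
  ∑ k ∈ Ioc X (3 * X), (∑ p ∈ k.divisorsAntidiagonal, a p.1 * b p.2) * nit k t

lemma decomp {q : ℕ} (χ : DirichletCharacter ℂ q) {X V : ℕ} (hV : V ≤ X) (K : ℝ) (t : ℝ) :
    ∑ n ∈ Ioc X (3 * X), mu n * χ (n : ZMod q) * nit n t =
      -S1 χ X V t + SB (ca χ X V K) (cb χ V) X t + SB (cd χ X V K) (cb χ V) X t := by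
  classical
  unfold S1 SB
  rw [← Finset.sum_neg_distrib, ← Finset.sum_add_distrib, ← Finset.sum_add_distrib]
  refine Finset.sum_congr rfl fun k hk => ?_
  have hkX : X < k := (Finset.mem_Ioc.1 hk).1
  have hk3 : k ≤ 3 * X := (Finset.mem_Ioc.1 hk).2
  have h3 : ∑ p ∈ k.divisorsAntidiagonal, ca χ X V K p.1 * cb χ V p.2 +
      ∑ p ∈ k.divisorsAntidiagonal, cd χ X V K p.1 * cb χ V p.2 =
      ((∑ p ∈ k.divisorsAntidiagonal, betaV V p.1 * muG V p.2 : ℝ) : ℂ) * χ (k : ZMod q) := by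
    rw [Complex.ofReal_sum, Finset.sum_mul, ← Finset.sum_add_distrib]
    refine Finset.sum_congr rfl fun p hp => ?_
    have hp1 := Nat.mem_divisorsAntidiagonal.1 hp
    have h4 : ((k : ℕ) : ZMod q) = (p.1 : ZMod q) * (p.2 : ZMod q) := by
      rw [← hp1.1]
      push_cast
      rfl
    have h5 : p.1 ≤ 3 * X := by
      have h6 : p.1 ∣ k := ⟨p.2, hp1.1.symm⟩
      exact (Nat.le_of_dvd (by omega) h6).trans hk3
    have h7 : ca χ X V K p.1 + cd χ X V K p.1 = ((betaV V p.1 : ℝ) : ℂ) * χ (p.1 : ZMod q) := by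
      unfold ca cd
      by_cases h8 : (p.1.divisors.card : ℝ) ≤ K
      · rw [if_pos ⟨h5, h8⟩, if_neg (fun h => h.2 h8), add_zero]
      · rw [if_neg (fun h => h8 h.2), if_pos ⟨h5, h8⟩, zero_add]
    rw [← add_mul, h7, h4, map_mul]
    unfold cb
    push_cast
    ring
  have h9 : ∀ s1 s2 : ℂ, -(((∑ p ∈ k.divisorsAntidiagonal, (muV V * muV V) p.1 *
      (fun _ : ℕ => (1 : ℝ)) p.2 : ℝ) : ℂ) * (χ (k : ZMod q) * nit k t)) + s1 * nit k t +
      s2 * nit k t = -(((∑ p ∈ k.divisorsAntidiagonal, (muV V * muV V) p.1 *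
      (fun _ : ℕ => (1 : ℝ)) p.2 : ℝ) : ℂ) * (χ (k : ZMod q) * nit k t)) + (s1 + s2) * nit k t := by
    intro s1 s2
    ring
  rw [h9, h3]
  have h10 : mu k = (((ArithmeticFunction.moebius k : ℤ) : ℝ) : ℂ) := by
    unfold mu
    push_cast
    rfl
  rw [h10, mu_id (by omega : V < k)]
  push_cast
  ring

/-! ### The type I sum -/

lemma type1 {C : ℝ} (hC1 : 1 ≤ C) (hC : ∀ (q N N' : ℕ) (f : ZMod q → ℂ) (v : ℝ), 1 ≤ q →
    1 ≤ N → N' ≤ 2 * N → (∀ a, ‖f a‖ ≤ 1) → 1 ≤ |v| → q * |v| ≤ N →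
    ‖∑ n ∈ Ioc N N', f (n : ZMod q) * nit n v‖ ≤ C * N / |v|)
    {q X V : ℕ} [NeZero q] (χ : DirichletCharacter ℂ q) (v : ℝ) (hDX : V * V ≤ X)
    (hv : 1 ≤ |v|) (hX : 4 * q * |v| * ((V * V : ℕ) : ℝ) ≤ X) :
    ‖S1 χ X V v‖ ≤ 7 * C * X / |v| * (1 + Real.log ((V * V : ℕ) : ℝ)) ^ 2 := by
  have hv0 : 0 < |v| := by linarith
  have hq : 1 ≤ q := Nat.one_le_iff_ne_zero.2 (NeZero.ne q)
  have hq0 : (1 : ℝ) ≤ q := by exact_mod_cast hq
  unfold S1
  rw [TypeOneAux.rearrange χ (fun d => (muV V * muV V) d) (fun _ => 1) v X (V * V) hDX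
    (fun d hd => sq_muV_zero hd)]
  refine (norm_sum_le _ _).trans ?_
  have key : ∀ d ∈ Icc 1 (V * V), ‖(((muV V * muV V) d : ℝ) : ℂ) * (χ (d : ZMod q) * nit d v) *
      ∑ n ∈ Ioc (X / d) (3 * X / d), ((1 : ℝ) : ℂ) * (χ (n : ZMod q) * nit n v)‖ ≤
      7 * C * X / |v| * ((d.divisors.card : ℝ) ^ 1 / d) := by
    intro d hd
    rw [mem_Icc] at hd
    have hd0 : (0 : ℝ) < d := by exact_mod_cast hd.1
    have hdD : (d : ℝ) ≤ ((V * V : ℕ) : ℝ) := by exact_mod_cast hd.2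
    have hM1 : 1 ≤ X / d := by
      rw [Nat.le_div_iff_mul_le hd.1, one_mul]
      exact hd.2.trans hDX
    have hM8 : 3 * X / d ≤ 8 * (X / d) := by
      have h1 : 3 * X / d < 3 * (X / d + 1) := by
        rw [Nat.div_lt_iff_lt_mul hd.1]
        have h2 := Nat.lt_mul_div_succ X hd.1
        have h3 : d * (X / d + 1) * 3 = 3 * (X / d + 1) * d := by ring
        omega
      omega
    have hXd : 4 * (q * |v|) ≤ X / d := by
      rw [le_div_iff₀ hd0]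
      have h1 : 4 * (q * |v|) * d ≤ 4 * (q * |v|) * ((V * V : ℕ) : ℝ) :=
        mul_le_mul_of_nonneg_left hdD (by positivity)
      linarith
    have hqv1 : 1 ≤ q * |v| := by nlinarith
    have hMr : (q : ℝ) * |v| ≤ ((X / d : ℕ) : ℝ) := by
      have h1 : (X : ℝ) / d < ((X / d : ℕ) : ℝ) + 1 := by
        have := Nat.lt_floor_add_one ((X : ℝ) / d)
        rw [Nat.floor_div_eq_div] at this
        exact this
      linarith
    have hMr2 : ((X / d : ℕ) : ℝ) ≤ X / d := Nat.cast_div_le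
    have hP : ‖∑ n ∈ Ioc (X / d) (3 * X / d), χ (n : ZMod q) * nit n v‖ ≤
        7 * C * ((X : ℝ) / d) / |v| := by
      refine (TypeOneAux.pieces hC1 hC hq hM1 hM8 (fun a => χ.norm_le_one a) hv hMr).trans ?_
      gcongr
    have hn1 : ‖(((muV V * muV V) d : ℝ) : ℂ) * (χ (d : ZMod q) * nit d v)‖ ≤
        (d.divisors.card : ℝ) := by
      rw [norm_mul, norm_mul, norm_nit hd.1, mul_one, Complex.norm_real, Real.norm_eq_abs]
      calc |(muV V * muV V) d| * ‖χ (d : ZMod q)‖ ≤ (d.divisors.card : ℝ) * 1 :=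
            mul_le_mul (sq_muV_le V d) (χ.norm_le_one _) (norm_nonneg _) (Nat.cast_nonneg _)
        _ = _ := mul_one _
    rw [norm_mul]
    have e1 : ∑ n ∈ Ioc (X / d) (3 * X / d), ((1 : ℝ) : ℂ) * (χ (n : ZMod q) * nit n v) =
        ∑ n ∈ Ioc (X / d) (3 * X / d), χ (n : ZMod q) * nit n v :=
      Finset.sum_congr rfl fun n _ => by rw [Complex.ofReal_one, one_mul]
    rw [e1]
    calc ‖(((muV V * muV V) d : ℝ) : ℂ) * (χ (d : ZMod q) * nit d v)‖ *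
          ‖∑ n ∈ Ioc (X / d) (3 * X / d), χ (n : ZMod q) * nit n v‖
        ≤ (d.divisors.card : ℝ) * (7 * C * ((X : ℝ) / d) / |v|) :=
          mul_le_mul hn1 hP (norm_nonneg _) (Nat.cast_nonneg _)
      _ = 7 * C * X / |v| * ((d.divisors.card : ℝ) ^ 1 / d) := by ring
  refine (sum_le_sum key).trans ?_
  rw [← mul_sum]
  have h1 := sum_tau_pow_div 1 (V * V)
  have h2 : (1 + Real.log ((V * V : ℕ) : ℝ)) ^ (2 ^ 1) = (1 + Real.log ((V * V : ℕ) : ℝ)) ^ 2 := by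
    norm_num
  rw [h2] at h1
  exact mul_le_mul_of_nonneg_left h1 (by positivity)

lemma int1 {C : ℝ} (hC1 : 1 ≤ C) (hC : ∀ (q N N' : ℕ) (f : ZMod q → ℂ) (v : ℝ), 1 ≤ q →
    1 ≤ N → N' ≤ 2 * N → (∀ a, ‖f a‖ ≤ 1) → 1 ≤ |v| → q * |v| ≤ N →
    ‖∑ n ∈ Ioc N N', f (n : ZMod q) * nit n v‖ ≤ C * N / |v|)
    {q X V : ℕ} [NeZero q] (χ : DirichletCharacter ℂ q) (hDX : V * V ≤ X) {t0 t1 W K1 : ℝ}
    (h01 : t0 ≤ t1) (hW : 1 ≤ W) (hK : 7 * C * X * (1 + Real.log ((V * V : ℕ) : ℝ)) ^ 2 ≤ K1)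
    (hr : ∀ t : ℝ, t0 ≤ t → t ≤ t1 → W ≤ |t| ∧ 4 * q * |t| * ((V * V : ℕ) : ℝ) ≤ X) :
    ∫ t in t0..t1, ‖S1 χ X V t‖ ^ 2 ≤ 2 * K1 ^ 2 / W := by
  have hcont : Continuous fun t => S1 χ X V t := by
    unfold S1
    exact cont_sum' χ _ X (3 * X)
  have h0 : (0 : ℝ) ∉ Set.uIcc t0 t1 := by
    rw [Set.uIcc_of_le h01]
    intro h
    have := (hr 0 h.1 h.2).1
    rw [abs_zero] at this
    linarith only [hW, this]
  have i1 : IntervalIntegrable (fun t => ‖S1 χ X V t‖ ^ 2) volume t0 t1 :=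
    (hcont.norm.pow 2).intervalIntegrable _ _
  have i2 : IntervalIntegrable (fun t : ℝ => K1 ^ 2 * t ^ (-2 : ℤ)) volume t0 t1 :=
    (intervalIntegral.intervalIntegrable_zpow (Or.inr h0)).const_mul _
  have hm := intervalIntegral.integral_mono_on h01 i1 i2 (by
    intro t ht
    obtain ⟨h1, h2⟩ := hr t ht.1 ht.2
    have hv : 1 ≤ |t| := hW.trans h1
    have hv0 : 0 < |t| := by linarith only [hv]
    have h3 := type1 hC1 hC χ t hDX hv h2
    have h4 : 7 * C * X / |t| * (1 + Real.log ((V * V : ℕ) : ℝ)) ^ 2 ≤ K1 / |t| := by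
      have h5 : 7 * C * X / |t| * (1 + Real.log ((V * V : ℕ) : ℝ)) ^ 2 =
        7 * C * X * (1 + Real.log ((V * V : ℕ) : ℝ)) ^ 2 / |t| := by ring
      rw [h5]
      exact div_le_div_of_nonneg_right hK hv0.le
    have h6 := pow_le_pow_left₀ (norm_nonneg _) (h3.trans h4) 2
    refine h6.trans (le_of_eq ?_)
    have h7 : t ^ (-2 : ℤ) = (|t| ^ 2)⁻¹ := by
      rw [sq_abs, zpow_neg]
      norm_cast
    rw [h7, div_pow]
    ring)
  refine hm.trans ?_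
  rw [intervalIntegral.integral_const_mul]
  have h1 := integral_inv_sq h01 (by linarith only [hW]) (fun t a b => (hr t a b).1)
  calc K1 ^ 2 * ∫ t in t0..t1, t ^ (-2 : ℤ) ≤ K1 ^ 2 * (2 / W) :=
        mul_le_mul_of_nonneg_left h1 (sq_nonneg _)
    _ = _ := by ring

/-! ### The bilinear sums -/

lemma norm_cb {q : ℕ} (χ : DirichletCharacter ℂ q) (V n : ℕ) : ‖cb χ V n‖ ≤ 1 := by
  unfold cb
  rw [norm_mul, Complex.norm_real, Real.norm_eq_abs, muG_apply]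
  have h1 : |(if n ≤ V then (0 : ℝ) else ((ArithmeticFunction.moebius n : ℤ) : ℝ))| ≤ 1 := by
    split_ifs
    · simp
    · have := ArithmeticFunction.abs_moebius_le_one (n := n)
      exact_mod_cast this
  calc _ ≤ (1 : ℝ) * 1 := mul_le_mul h1 (χ.norm_le_one _) (norm_nonneg _) zero_le_one
    _ = 1 := one_mul 1

lemma norm_beta {q : ℕ} (χ : DirichletCharacter ℂ q) {V : ℕ} (hV : 1 ≤ V) (m : ℕ) :
    ‖((betaV V m : ℝ) : ℂ) * χ (m : ZMod q)‖ ≤ (m.divisors.card : ℝ) := by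
  rw [norm_mul, Complex.norm_real, Real.norm_eq_abs]
  calc |betaV V m| * ‖χ (m : ZMod q)‖ ≤ (m.divisors.card : ℝ) * 1 :=
        mul_le_mul (betaV_abs_le hV m) (χ.norm_le_one _) (norm_nonneg _) (Nat.cast_nonneg _)
    _ = _ := mul_one _

lemma norm_ca {q : ℕ} (χ : DirichletCharacter ℂ q) {X V : ℕ} (hV : 1 ≤ V) {K : ℝ} (hK : 0 ≤ K)
    (m : ℕ) : ‖ca χ X V K m‖ ≤ K := by
  unfold ca
  split_ifs with h
  · exact (norm_beta χ hV m).trans h.2
  · rw [norm_zero]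
    exact hK

lemma ca_zero {q : ℕ} (χ : DirichletCharacter ℂ q) {X V : ℕ} (hV : 1 ≤ V) {K : ℝ} {m : ℕ}
    (hm : m ≤ V) : ca χ X V K m = 0 := by
  unfold ca
  rw [betaV_apply_of_le hV hm]
  simp

lemma ca_zero' {q : ℕ} (χ : DirichletCharacter ℂ q) {X V : ℕ} {K : ℝ} {m : ℕ}
    (hm : 3 * X < m) : ca χ X V K m = 0 := by
  unfold ca
  rw [if_neg]
  rintro ⟨h, -⟩
  omega

/-- The sums of `cb` are differences of sums of the Moebius function. -/
lemma sum_cb {q : ℕ} (χ : DirichletCharacter ℂ q) {V y : ℕ} (hy : V ≤ y) (t : ℝ) :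
    ∑ n ∈ Icc 1 y, cb χ V n * nit n t =
      ∑ n ∈ Icc 1 y, ((ArithmeticFunction.moebius n : ℤ) : ℂ) * (χ (n : ZMod q) * nit n t) -
      ∑ n ∈ Icc 1 V, ((ArithmeticFunction.moebius n : ℤ) : ℂ) * (χ (n : ZMod q) * nit n t) := by
  rw [eq_sub_iff_add_eq]
  have h1 : ∑ n ∈ Icc 1 V, ((ArithmeticFunction.moebius n : ℤ) : ℂ) * (χ (n : ZMod q) * nit n t) =
      ∑ n ∈ Icc 1 y, (if n ≤ V then ((ArithmeticFunction.moebius n : ℤ) : ℂ) *
        (χ (n : ZMod q) * nit n t) else 0) := by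
    rw [← sum_filter]
    apply sum_congr _ (fun _ _ => rfl)
    ext n
    simp only [mem_filter, mem_Icc]
    omega
  rw [h1, ← sum_add_distrib]
  apply sum_congr rfl
  intro n _
  unfold cb
  rw [muG_apply]
  by_cases h : n ≤ V
  · rw [if_pos h, if_pos h]
    simp
  · rw [if_neg h, if_neg h, add_zero]
    push_cast
    ring

/-- Coefficients with many divisors. -/
lemma int3 {C : ℝ} (hC : ∀ (N : ℕ) (a : ℕ → ℂ) (t0 T : ℝ), 1 ≤ N → 0 ≤ T →
    ∫ t in t0..(t0 + T), ‖∑ n ∈ Icc 1 N, a n * nit n t‖ ^ 2 ≤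
      C * (1 + T + N) * ∑ n ∈ Icc 1 N, ‖a n‖ ^ 2) (hC1 : 1 ≤ C)
    {q X V : ℕ} (χ : DirichletCharacter ℂ q) (hX : 1 ≤ X) (hV : 1 ≤ V) {K : ℝ} (hK : 1 ≤ K)
    {t0 T : ℝ} (hT : 0 ≤ T) :
    ∫ t in t0..(t0 + T), ‖SB (cd χ X V K) (cb χ V) X t‖ ^ 2 ≤
      C * (1 + T + 3 * X) * (3 * X * (1 + Real.log (3 * X)) ^ 64 / K ^ 2) := by
  classical
  obtain ⟨e, he⟩ : ∃ e : ℕ → ℂ, e = fun k => if X < k then
    ∑ p ∈ k.divisorsAntidiagonal, cd χ X V K p.1 * cb χ V p.2 else 0 := ⟨_, rfl⟩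
  have h1 : ∀ t : ℝ, SB (cd χ X V K) (cb χ V) X t = ∑ n ∈ Icc 1 (3 * X), e n * nit n t := by
    intro t
    unfold SB
    rw [he]
    have h2 : ∀ n ∈ Icc 1 (3 * X), (fun k => if X < k then
        ∑ p ∈ k.divisorsAntidiagonal, cd χ X V K p.1 * cb χ V p.2 else 0) n * nit n t =
        if X < n then (∑ p ∈ n.divisorsAntidiagonal, cd χ X V K p.1 * cb χ V p.2) * nit n t else 0 := by
      intro n _
      dsimp only
      split_ifs
      · rfl
      · rw [zero_mul]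
    rw [sum_congr rfl h2, ← sum_filter]
    apply sum_congr _ (fun _ _ => rfl)
    ext n
    simp only [mem_filter, mem_Icc, mem_Ioc]
    omega
  have hK0 : 0 < K := by linarith only [hK]
  have h2 : ∀ n ∈ Icc 1 (3 * X), ‖e n‖ ^ 2 ≤ (n.divisors.card : ℝ) ^ 6 / K ^ 2 := by
    intro n hn
    have hn1 : 1 ≤ n := (Finset.mem_Icc.1 hn).1
    obtain ⟨τ, hτ⟩ : ∃ τ : ℝ, τ = (n.divisors.card : ℝ) := ⟨_, rfl⟩
    rw [← hτ]
    have hτ0 : 0 ≤ τ := by rw [hτ]; exact Nat.cast_nonneg _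
    have h3 : ‖e n‖ ≤ τ ^ 3 / K := by
      rw [he]
      dsimp only
      split_ifs with h4
      · refine (norm_sum_le _ _).trans ?_
        have h5 : ∀ p ∈ n.divisorsAntidiagonal, ‖cd χ X V K p.1 * cb χ V p.2‖ ≤ τ ^ 2 / K := by
          intro p hp
          have hp1 := Nat.mem_divisorsAntidiagonal.1 hp
          have hdv : p.1 ∣ n := ⟨p.2, hp1.1.symm⟩
          have hle : (p.1.divisors.card : ℝ) ≤ τ := by
            rw [hτ]
            exact_mod_cast Finset.card_le_card (Nat.divisors_subset_of_dvd (by omega) hdv)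
          have h6 : ‖cd χ X V K p.1‖ ≤ τ ^ 2 / K := by
            unfold cd
            split_ifs with h7
            · have h8 : K ≤ τ := (not_le.1 h7.2).le.trans hle
              refine ((norm_beta χ hV p.1).trans hle).trans ?_
              rw [le_div_iff₀ hK0]
              nlinarith only [h8, hτ0]
            · rw [norm_zero]
              positivity
          rw [norm_mul]
          calc ‖cd χ X V K p.1‖ * ‖cb χ V p.2‖ ≤ (τ ^ 2 / K) * 1 :=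
                mul_le_mul h6 (norm_cb χ V p.2) (norm_nonneg _) (by positivity)
            _ = _ := mul_one _
        refine (sum_le_sum h5).trans (le_of_eq ?_)
        rw [sum_const, nsmul_eq_mul]
        have h9 : (n.divisorsAntidiagonal.card : ℝ) = τ := by
          rw [hτ]
          have h10 := Nat.sum_divisorsAntidiagonal (n := n) (f := fun _ _ => (1 : ℝ))
          simpa using h10
        rw [h9]
        ring
      · rw [norm_zero]
        positivity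
    have h4 := pow_le_pow_left₀ (norm_nonneg _) h3 2
    refine h4.trans (le_of_eq ?_)
    rw [div_pow]
    ring
  have h3 := hC (3 * X) e t0 T (by omega) hT
  have h4 : ∫ t in t0..(t0 + T), ‖SB (cd χ X V K) (cb χ V) X t‖ ^ 2 =
      ∫ t in t0..(t0 + T), ‖∑ n ∈ Icc 1 (3 * X), e n * nit n t‖ ^ 2 := by
    apply intervalIntegral.integral_congr
    intro t _
    dsimp only
    rw [h1 t]
  rw [h4]
  refine h3.trans ?_
  have h5 : ∑ n ∈ Icc 1 (3 * X), ‖e n‖ ^ 2 ≤ 3 * X * (1 + Real.log (3 * X)) ^ 64 / K ^ 2 := by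
    refine (sum_le_sum h2).trans ?_
    rw [← sum_div]
    apply div_le_div_of_nonneg_right _ (by positivity)
    have h6 := sum_tau_pow 6 (3 * X)
    push_cast at h6
    exact h6
  push_cast
  exact mul_le_mul_of_nonneg_left h5 (by positivity)

/-- Coefficients with few divisors. -/
lemma int2 {C : ℝ} (hC : ∀ (X U D2 J : ℕ) (a b : ℕ → ℂ) (t0 T F D K : ℝ), 1 ≤ U → U ≤ X →
    1 ≤ D2 → 1 ≤ J → J ≤ X → 0 ≤ T → T ≤ X → 0 ≤ F → 0 ≤ D → 1 ≤ K →
    (∀ m, ‖a m‖ ≤ K) → (∀ m, m ≤ U → a m = 0) → (∀ m, D2 < m → a m = 0) →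
    (∀ n, n ≤ 3 * X → ‖b n‖ ≤ K) →
    (∀ t : ℝ, t0 ≤ t → t ≤ t0 + T → ∀ y : ℕ, X ≤ 2 * D2 * y → y * U ≤ 3 * X →
      ‖∑ n ∈ Icc 1 y, b n * nit n t‖ ≤ F + D * y) →
    ∫ t in t0..(t0 + T), ‖∑ k ∈ Ioc X (3 * X), (∑ p ∈ k.divisorsAntidiagonal, a p.1 * b p.2) * nit k t‖ ^ 2 ≤
      C * K ^ 4 * Real.log (X + 3) ^ 20 * ((J : ℝ) ^ 2 * (F ^ 2 * D2 * (T + D2) + D ^ 2 * (X : ℝ) ^ 2 * (1 + T / U)) +
        (X : ℝ) ^ 2 / Real.sqrt J))
    {q X V J : ℕ} (χ : DirichletCharacter ℂ q) (hV : 1 ≤ V) (hVX : V ≤ X) (hJ1 : 1 ≤ J)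
    (hJX : J ≤ X) {K D t0 T : ℝ} (hK : 1 ≤ K) (hD : 0 ≤ D) (hT0 : 0 ≤ T) (hTV : T ≤ V)
    (hyp : ∀ t : ℝ, t0 ≤ t → t ≤ t0 + T → ∀ y : ℕ, V < y → y * V ≤ 3 * X →
      ‖∑ n ∈ Icc 1 y, cb χ V n * nit n t‖ ≤ D * y) :
    ∫ t in t0..(t0 + T), ‖SB (ca χ X V K) (cb χ V) X t‖ ^ 2 ≤
      C * K ^ 4 * Real.log (X + 3) ^ 20 * ((J : ℝ) ^ 2 * (D ^ 2 * (X : ℝ) ^ 2 * (1 + T / V)) +
        (X : ℝ) ^ 2 / Real.sqrt J) := by
  have hVr : (V : ℝ) ≤ X := by exact_mod_cast hVX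
  have h := hC X V (3 * X) J (ca χ X V K) (cb χ V) t0 T 0 D K hV hVX (by omega) hJ1 hJX hT0
    (hTV.trans hVr) le_rfl hD hK (fun m => norm_ca χ hV (by linarith only [hK]) m)
    (fun m hm => ca_zero χ hV hm) (fun m hm => ca_zero' χ hm)
    (fun n _ => (norm_cb χ V n).trans hK) (by
      intro t ht1 ht2 y _ hy
      rw [zero_add]
      rcases Nat.lt_or_ge V y with h1 | h1
      · exact hyp t ht1 ht2 y h1 hy
      · have h2 : ∑ n ∈ Icc 1 y, cb χ V n * nit n t = 0 := by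
          refine Finset.sum_eq_zero fun n hn => ?_
          unfold cb
          rw [muG_apply, if_pos ((Finset.mem_Icc.1 hn).2.trans h1)]
          simp
        rw [h2, norm_zero]
        positivity)
  have e : (0 : ℝ) ^ 2 * ((3 * X : ℕ) : ℝ) * (T + ((3 * X : ℕ) : ℝ)) = 0 := by
    rw [zero_pow (by norm_num), zero_mul, zero_mul]
  rw [e, zero_add] at h
  exact h

lemma combine {f g h s : ℝ → ℂ} {t0 t1 : ℝ} (ht : t0 ≤ t1) (hf : Continuous f)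
    (hg : Continuous g) (hh : Continuous h) (hs : ∀ t, s t = -f t + g t + h t) :
    ∫ t in t0..t1, ‖s t‖ ^ 2 ≤ 3 * (∫ t in t0..t1, ‖f t‖ ^ 2) + 3 * (∫ t in t0..t1, ‖g t‖ ^ 2) +
      3 * ∫ t in t0..t1, ‖h t‖ ^ 2 := by
  have k1 : ∫ t in t0..t1, ‖s t‖ ^ 2 = ∫ t in t0..t1, ‖-f t + g t + h t‖ ^ 2 := by
    apply intervalIntegral.integral_congr
    intro t _
    dsimp only
    rw [hs t]
  have i1 : IntervalIntegrable (fun t => 3 * ‖f t‖ ^ 2) volume t0 t1 :=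
    (continuous_const.mul (hf.norm.pow 2)).intervalIntegrable _ _
  have i2 : IntervalIntegrable (fun t => 3 * ‖g t‖ ^ 2) volume t0 t1 :=
    (continuous_const.mul (hg.norm.pow 2)).intervalIntegrable _ _
  have i3 : IntervalIntegrable (fun t => 3 * ‖h t‖ ^ 2) volume t0 t1 :=
    (continuous_const.mul (hh.norm.pow 2)).intervalIntegrable _ _
  rw [k1, ← intervalIntegral.integral_const_mul, ← intervalIntegral.integral_const_mul,
    ← intervalIntegral.integral_const_mul, ← intervalIntegral.integral_add i1 i2,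
    ← intervalIntegral.integral_add (i1.add i2) i3]
  apply intervalIntegral.integral_mono_on ht
  · exact (((hf.neg.add hg).add hh).norm.pow 2).intervalIntegrable _ _
  · exact (i1.add i2).add i3
  · intro t _
    have e2 : ‖-f t + g t + h t‖ ≤ ‖f t‖ + ‖g t‖ + ‖h t‖ := by
      refine (norm_add_le _ _).trans ?_
      have e4 := norm_add_le (-f t) (g t)
      rw [norm_neg] at e4
      linarith only [e4]
    have e3 : ‖-f t + g t + h t‖ ^ 2 ≤ (‖f t‖ + ‖g t‖ + ‖h t‖) ^ 2 :=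
      pow_le_pow_left₀ (norm_nonneg _) e2 2
    nlinarith only [e3, sq_nonneg (‖f t‖ - ‖g t‖), sq_nonneg (‖f t‖ - ‖h t‖),
      sq_nonneg (‖g t‖ - ‖h t‖)]

/-- The final computation. -/
lemma fin {C0 C2 C3 x L l W K1 K J D T V sJ lx : ℝ} {A κ m A' : ℕ} (hC0 : 1 ≤ C0) (hC2 : 1 ≤ C2)
    (hC3 : 1 ≤ C3) (hκ : κ = A + 40) (hm : m = 4 * κ + 21 + A) (hA' : A' = 3 * m)
    (hL2 : 2 ≤ L) (hLa : 14112 * C0 ^ 2 ≤ L)
    (hLb : 9 * C2 * 2 ^ 20 * (32 * 16 ^ A' + 1) ≤ L) (hLc : 135 * 3 ^ 64 * C3 ≤ L)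
    (hx : 1 ≤ x) (hW : L ^ (A + 5) ≤ W) (hK1 : K1 = 28 * C0 * x * L ^ 2) (hK : K = L ^ κ)
    (hl0 : 0 ≤ l) (hl : l ≤ 2 * L) (hJ0 : 0 ≤ J) (hJ : J ≤ 2 * L ^ (2 * m))
    (hD : D = 2 * 4 ^ A' / L ^ A') (hT0 : 0 ≤ T) (hV : 0 < V) (hTV : T ≤ V) (hTx : T ≤ x)
    (hsJ : L ^ m ≤ sJ) (hlx0 : 0 ≤ lx) (hlx : 1 + lx ≤ 3 * L) :
    3 * (2 * K1 ^ 2 / W) + 3 * (C2 * K ^ 4 * l ^ 20 * (J ^ 2 * (D ^ 2 * x ^ 2 * (1 + T / V)) +
      x ^ 2 / sJ)) + 3 * (C3 * (1 + T + 3 * x) * (3 * x * (1 + lx) ^ 64 / K ^ 2)) ≤ x ^ 2 / L ^ A := by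
  have hL0 : 0 < L := by linarith only [hL2]
  have hL1 : 1 ≤ L := by linarith only [hL2]
  have hx0 : 0 < x := by linarith only [hx]
  have hLA : 0 < L ^ A := pow_pos hL0 A
  obtain ⟨u, hu⟩ : ∃ u : ℝ, u = x ^ 2 / L ^ (A + 1) := ⟨_, rfl⟩
  have hu0 : 0 ≤ u := by rw [hu]; positivity
  have huL : x ^ 2 / L ^ A = L * u := by
    have : L ^ (A + 1) = L ^ A * L := pow_succ L A
    rw [hu, this]
    field_simp
  -- first term
  have h1 : 3 * (2 * K1 ^ 2 / W) ≤ 4704 * C0 ^ 2 * u := by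
    have a1 : 3 * (2 * K1 ^ 2 / W) ≤ 3 * (2 * K1 ^ 2 / L ^ (A + 5)) := by gcongr
    refine a1.trans (le_of_eq ?_)
    rw [hK1]
    have a2 : L ^ (A + 5) = L ^ (A + 1) * L ^ 4 := by rw [← pow_add]
    rw [a2]
    have a3 : 3 * (2 * (28 * C0 * x * L ^ 2) ^ 2 / (L ^ (A + 1) * L ^ 4)) =
        4704 * C0 ^ 2 * (x ^ 2 / L ^ (A + 1)) * (L ^ 4 / L ^ 4) := by ring
    rw [a3, div_self (by positivity), mul_one, hu]
  -- second term
  have h2 : 3 * (C2 * K ^ 4 * l ^ 20 * (J ^ 2 * (D ^ 2 * x ^ 2 * (1 + T / V)) + x ^ 2 / sJ)) ≤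
      3 * C2 * 2 ^ 20 * (32 * 16 ^ A' + 1) * u := by
    have b1 : 1 + T / V ≤ 2 := by
      have : T / V ≤ 1 := by rw [div_le_one hV]; exact hTV
      linarith only [this]
    have b0 : 0 ≤ 1 + T / V := by positivity
    have b2 : J ^ 2 ≤ (2 * L ^ (2 * m)) ^ 2 := pow_le_pow_left₀ hJ0 hJ 2
    have b3 : x ^ 2 / sJ ≤ x ^ 2 / L ^ m := by gcongr
    have b4 : l ^ 20 ≤ (2 * L) ^ 20 := pow_le_pow_left₀ hl0 hl 20
    have b5 : J ^ 2 * (D ^ 2 * x ^ 2 * (1 + T / V)) ≤ (2 * L ^ (2 * m)) ^ 2 * (D ^ 2 * x ^ 2 * 2) := by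
      gcongr
    have b6 : (2 * L ^ (2 * m)) ^ 2 * (D ^ 2 * x ^ 2 * 2) = 32 * 16 ^ A' * (x ^ 2 / L ^ (2 * m)) := by
      rw [hD]
      have c1 : (16 : ℝ) ^ A' = (4 ^ A') ^ 2 := by
        rw [← pow_mul, mul_comm A' 2, pow_mul]
        norm_num
      have c2 : L ^ A' = L ^ (2 * m) * L ^ m := by
        rw [← pow_add, hA']
        congr 1
        ring
      have c3 : L ^ (2 * m) = L ^ m * L ^ m := by
        rw [← pow_add]
        congr 1
        ring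
      rw [c1, c2, c3]
      have c4 : L ^ m ≠ 0 := by positivity
      field_simp
      ring
    have b7 : x ^ 2 / L ^ (2 * m) ≤ x ^ 2 / L ^ m := by
      have : L ^ m ≤ L ^ (2 * m) := pow_le_pow_right₀ hL1 (by omega)
      gcongr
    have b8 : J ^ 2 * (D ^ 2 * x ^ 2 * (1 + T / V)) + x ^ 2 / sJ ≤
        (32 * 16 ^ A' + 1) * (x ^ 2 / L ^ m) := by
      rw [b6] at b5
      have : 32 * (16 : ℝ) ^ A' * (x ^ 2 / L ^ (2 * m)) ≤ 32 * 16 ^ A' * (x ^ 2 / L ^ m) := by gcongr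
      linarith only [this, b5, b3]
    have b9 : C2 * K ^ 4 * l ^ 20 ≤ C2 * K ^ 4 * (2 * L) ^ 20 := by
      rw [hK]
      gcongr
    have b10 : 0 ≤ J ^ 2 * (D ^ 2 * x ^ 2 * (1 + T / V)) + x ^ 2 / sJ := by
      have : 0 < sJ := lt_of_lt_of_le (by positivity) hsJ
      positivity
    have b11 : C2 * K ^ 4 * l ^ 20 * (J ^ 2 * (D ^ 2 * x ^ 2 * (1 + T / V)) + x ^ 2 / sJ) ≤
        (C2 * K ^ 4 * (2 * L) ^ 20) * ((32 * 16 ^ A' + 1) * (x ^ 2 / L ^ m)) := by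
      apply mul_le_mul b9 b8 b10
      rw [hK]
      positivity
    have b12 : (C2 * K ^ 4 * (2 * L) ^ 20) * ((32 * 16 ^ A' + 1) * (x ^ 2 / L ^ m)) =
        C2 * 2 ^ 20 * (32 * 16 ^ A' + 1) * u := by
      have c1 : L ^ m = K ^ 4 * L ^ 20 * L ^ (A + 1) := by
        rw [hK, ← pow_mul, ← pow_add, ← pow_add, hm]
        congr 1
        ring
      rw [hu, c1, hK]
      have c2 : L ^ κ ≠ 0 := by positivity
      have c3 : L ≠ 0 := hL0.ne'
      field_simp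
    rw [b12] at b11
    linarith only [b11]
  -- third term
  have h3 : 3 * (C3 * (1 + T + 3 * x) * (3 * x * (1 + lx) ^ 64 / K ^ 2)) ≤ 45 * 3 ^ 64 * C3 * u := by
    have d1 : 1 + T + 3 * x ≤ 5 * x := by linarith only [hx, hTx]
    have d2 : (1 + lx) ^ 64 ≤ (3 * L) ^ 64 := pow_le_pow_left₀ (by linarith only [hlx0]) hlx 64
    have d3 : C3 * (1 + T + 3 * x) * (3 * x * (1 + lx) ^ 64 / K ^ 2) ≤
        C3 * (5 * x) * (3 * x * (3 * L) ^ 64 / K ^ 2) := by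
      have hK0 : 0 < K := by rw [hK]; positivity
      gcongr
    have d4 : C3 * (5 * x) * (3 * x * (3 * L) ^ 64 / K ^ 2) = 15 * 3 ^ 64 * C3 * (x ^ 2 * L ^ 64 / K ^ 2) := by
      ring
    have d5 : x ^ 2 * L ^ 64 / K ^ 2 ≤ u := by
      have e1 : K ^ 2 = L ^ (A + 1) * L ^ 64 * L ^ (A + 15) := by
        rw [hK, ← pow_mul, ← pow_add, ← pow_add, hκ]
        congr 1
        ring
      have e2 : x ^ 2 * L ^ 64 / K ^ 2 = u * (1 / L ^ (A + 15)) := by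
        rw [e1, hu]
        have c3 : L ≠ 0 := hL0.ne'
        field_simp
      rw [e2]
      have e3 : 1 / L ^ (A + 15) ≤ 1 := by
        rw [div_le_one (by positivity)]
        exact one_le_pow₀ hL1
      calc u * (1 / L ^ (A + 15)) ≤ u * 1 := by gcongr
        _ = u := mul_one u
    have d6 : 15 * 3 ^ 64 * C3 * (x ^ 2 * L ^ 64 / K ^ 2) ≤ 15 * 3 ^ 64 * C3 * u := by gcongr
    rw [d4] at d3
    linarith only [d3, d6]
  rw [huL]
  have k1 : 4704 * C0 ^ 2 * u ≤ L * u / 3 := by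
    have : (14112 * C0 ^ 2) * u ≤ L * u := by gcongr
    linarith only [this]
  have k2 : 3 * C2 * 2 ^ 20 * (32 * 16 ^ A' + 1) * u ≤ L * u / 3 := by
    have : (9 * C2 * 2 ^ 20 * (32 * 16 ^ A' + 1)) * u ≤ L * u := by gcongr
    linarith only [this]
  have k3 : 45 * 3 ^ 64 * C3 * u ≤ L * u / 3 := by
    have : (135 * 3 ^ 64 * C3) * u ≤ L * u := by gcongr
    linarith only [this]
  linarith only [h1, h2, h3, k1, k2, k3]

end DpMuAux

open DpMuAux Pool.Agent.Lib.BV in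
theorem dp_mu (A : ℕ) : ∃ B : ℕ, ∀ᶠ X : ℕ in atTop, ∀ (q : ℕ) [NeZero q] (χ : DirichletCharacter ℂ q),
    (q : ℝ) ≤ Real.log X ^ A → ∀ t0 t1 : ℝ, t0 ≤ t1 →
    (∀ t : ℝ, t0 ≤ t → t ≤ t1 → Real.log X ^ B ≤ |t| ∧ |t| ≤ (X : ℝ) ^ (1 / 5 : ℝ)) →
    ∫ t in t0..t1, ‖∑ n ∈ Ioc X (3 * X), mu n * χ (n : ZMod q) * nit n t‖ ^ 2 ≤ X ^ 2 / Real.log X ^ A := by
  obtain ⟨C0, hC01, hC0⟩ := kl_sum
  obtain ⟨C2, hC21, hC2⟩ := VL.block_gen
  obtain ⟨C3, hC31, hC3⟩ := mean_value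
  obtain ⟨κ, hκ⟩ : ∃ κ : ℕ, κ = A + 40 := ⟨_, rfl⟩
  obtain ⟨m, hm⟩ : ∃ m : ℕ, m = 4 * κ + 21 + A := ⟨_, rfl⟩
  obtain ⟨A', hA'⟩ : ∃ A' : ℕ, A' = 3 * m := ⟨_, rfl⟩
  obtain ⟨B', hB'⟩ := vk_mu A' 1
  obtain ⟨N0, hN0⟩ := eventually_atTop.1 hB'
  refine ⟨B' + (A + 5), ?_⟩
  have hU0 : ∀ᶠ X : ℕ in atTop, (N0 : ℝ) + 16 ≤ (X : ℝ) ^ (1 / 4 : ℝ) :=
    ((tendsto_rpow_atTop (by norm_num : (0 : ℝ) < 1 / 4)).comp
      tendsto_natCast_atTop_atTop).eventually_ge_atTop _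
  filter_upwards [ev_log (14112 * C0 ^ 2), ev_log (9 * C2 * 2 ^ 20 * (32 * 16 ^ A' + 1)),
    ev_log (135 * 3 ^ 64 * C3), ev_log 16, ev_log (4 ^ A'), hU0,
    ev_pow (2 * m + 1) (1 : ℝ) one_pos, ev_pow 1 (1 / 20) (by norm_num),
    ev_pow (A + 1) (3 / 10) (by norm_num),
    eventually_ge_atTop 1] with X e1 e2 e3 e4 e5 e6 e7 e8 e9 e10
  intro q _ χ hq t0 t1 ht hr
  have hXr : (1 : ℝ) ≤ X := by exact_mod_cast e10
  have hX0 : (0 : ℝ) < X := by linarith only [hXr]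
  have hl2 := log3_le e10 (by linarith only [e4])
  have hl1 := log3_ge_one e10
  have hlx : Real.log (3 * X) ≤ 2 + Real.log X := by
    rw [Real.log_mul (by norm_num) hX0.ne']
    have : Real.log 3 ≤ 2 := by
      have := Real.log_le_sub_one_of_pos (show (0 : ℝ) < 3 by norm_num)
      linarith only [this]
    linarith only [this]
  have hlx0 : 0 ≤ Real.log (3 * X) := Real.log_nonneg (by linarith only [hXr])
  obtain ⟨L, hL⟩ : ∃ L : ℝ, L = Real.log X := ⟨_, rfl⟩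
  rw [← hL] at e1 e2 e3 e4 e5 e7 e8 e9 hq hr hl2 hlx ⊢
  have hL1 : 1 ≤ L := by linarith only [e4]
  have hL0 : 0 < L := by linarith only [e4]
  -- powers of `X`
  obtain ⟨Y, hY⟩ : ∃ Y : ℝ, Y = (X : ℝ) ^ (1 / 4 : ℝ) := ⟨_, rfl⟩
  obtain ⟨Z, hZ⟩ : ∃ Z : ℝ, Z = (X : ℝ) ^ (1 / 5 : ℝ) := ⟨_, rfl⟩
  rw [← hY] at e6
  rw [← hZ] at hr
  have hN0r : (0 : ℝ) ≤ N0 := Nat.cast_nonneg _
  have hY16 : 16 ≤ Y := by linarith only [e6, hN0r]
  have hZ0 : 0 < Z := by rw [hZ]; exact Real.rpow_pos_of_pos hX0 _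
  have hYZ : 2 * Z ≤ Y := by
    have h1 : Y = Z * (X : ℝ) ^ (1 / 20 : ℝ) := by
      rw [hY, hZ, ← Real.rpow_add hX0]
      norm_num
    rw [h1]
    rw [pow_one] at e8
    have h2 : (2 : ℝ) ≤ (X : ℝ) ^ (1 / 20 : ℝ) := by linarith only [e8, e4]
    nlinarith only [h2, hZ0]
  have hY4 : Y ^ 4 = X := by
    rw [hY, ← Real.rpow_natCast, ← Real.rpow_mul hX0.le]
    norm_num
  have hZYX : 16 * L ^ A * (Z * Y ^ 2) ≤ X := by
    have h1 : 16 * L ^ A ≤ (X : ℝ) ^ (3 / 10 : ℝ) := by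
      refine le_trans ?_ e9
      rw [pow_succ, mul_comm]
      gcongr
    have h2 : Z * Y ^ 2 = (X : ℝ) ^ (7 / 10 : ℝ) := by
      rw [hZ, hY, ← Real.rpow_natCast, ← Real.rpow_mul hX0.le, ← Real.rpow_add hX0]
      norm_num
    rw [h2]
    have h3 : (X : ℝ) ^ (3 / 10 : ℝ) * (X : ℝ) ^ (7 / 10 : ℝ) = X := by
      rw [← Real.rpow_add hX0]
      norm_num
    calc 16 * L ^ A * (X : ℝ) ^ (7 / 10 : ℝ) ≤ (X : ℝ) ^ (3 / 10 : ℝ) * (X : ℝ) ^ (7 / 10 : ℝ) := by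
          gcongr
      _ = X := h3
  -- the parameter `V`
  obtain ⟨V, hV⟩ : ∃ V : ℕ, V = ⌈Y⌉₊ := ⟨_, rfl⟩
  have hV1 : Y ≤ V := by rw [hV]; exact Nat.le_ceil _
  have hV2 : (V : ℝ) ≤ 2 * Y := by
    have : (V : ℝ) < Y + 1 := by rw [hV]; exact Nat.ceil_lt_add_one (by linarith only [hY16])
    linarith only [hY16, this]
  have hV16 : (16 : ℝ) ≤ V := by linarith only [hV1, hY16]
  have hVpos : 1 ≤ V := by
    have : (1 : ℝ) ≤ V := by linarith only [hV16]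
    exact_mod_cast this
  have hVV : ((V * V : ℕ) : ℝ) ≤ 4 * Y ^ 2 := by
    push_cast
    nlinarith only [hV2, hV16]
  have hVVX : V * V ≤ X := by
    have h1 : ((V * V : ℕ) : ℝ) ≤ X := by
      refine hVV.trans ?_
      rw [← hY4]
      have : 16 * 16 ≤ Y ^ 2 := by nlinarith only [hY16]
      nlinarith only [this]
    exact_mod_cast h1
  have hVX : V ≤ X := (Nat.le_mul_self V).trans hVVX
  have hN0V : N0 ≤ V := by
    have : (N0 : ℝ) ≤ V := by linarith only [e6, hV1]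
    exact_mod_cast this
  -- the parameter `J`
  obtain ⟨J, hJ⟩ : ∃ J : ℕ, J = ⌈L ^ (2 * m)⌉₊ := ⟨_, rfl⟩
  have hJ1 : L ^ (2 * m) ≤ J := by rw [hJ]; exact Nat.le_ceil _
  have hLm : 1 ≤ L ^ (2 * m) := one_le_pow₀ hL1
  have hJ2 : (J : ℝ) ≤ 2 * L ^ (2 * m) := by
    have : (J : ℝ) < L ^ (2 * m) + 1 := by rw [hJ]; exact Nat.ceil_lt_add_one (by positivity)
    linarith only [hLm, this]
  have hJ3 : 1 ≤ J := by
    have : (1 : ℝ) ≤ J := hLm.trans hJ1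
    exact_mod_cast this
  have hJX : J ≤ X := by
    have h1 : (J : ℝ) ≤ X := by
      rw [Real.rpow_one] at e7
      have h2 : L ^ (2 * m + 1) = L ^ (2 * m) * L := pow_succ _ _
      have h3 : L ^ (2 * m) * 2 ≤ L ^ (2 * m) * L := by gcongr; linarith only [e4]
      linarith only [e7, hJ2, h2, h3]
    exact_mod_cast h1
  have hsJ : L ^ m ≤ Real.sqrt J := by
    apply Real.le_sqrt_of_sq_le
    rw [← pow_mul]
    refine le_trans (le_of_eq ?_) hJ1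
    congr 1
    ring
  -- the other parameters
  obtain ⟨K, hK⟩ : ∃ K : ℝ, K = L ^ κ := ⟨_, rfl⟩
  have hK1 : 1 ≤ K := by rw [hK]; exact one_le_pow₀ hL1
  obtain ⟨D, hD⟩ : ∃ D : ℝ, D = 2 * 4 ^ A' / L ^ A' := ⟨_, rfl⟩
  have hD0 : 0 ≤ D := by rw [hD]; positivity
  have hT0 : 0 ≤ t1 - t0 := by linarith only [ht]
  have hTZ : t1 - t0 ≤ 2 * Z := by
    have h1 := (hr t0 le_rfl ht).2
    have h2 := (hr t1 ht le_rfl).2
    have h3 := neg_abs_le t0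
    have h4 := le_abs_self t1
    linarith only [h1, h2, h3, h4]
  have hTV : t1 - t0 ≤ V := by linarith only [hTZ, hYZ, hV1]
  have hVXr : (V : ℝ) ≤ X := by exact_mod_cast hVX
  -- the hypothesis for the bilinear sum
  have hyp : ∀ t : ℝ, t0 ≤ t → t ≤ t0 + (t1 - t0) → ∀ y : ℕ, V < y → y * V ≤ 3 * X →
      ‖∑ n ∈ Icc 1 y, cb χ V n * nit n t‖ ≤ D * y := by
    intro t ht1 ht2 y hy hyV
    obtain ⟨h3, h4⟩ := hr t ht1 (by linarith only [ht2])
    have hyr : (V : ℝ) ≤ y := by exact_mod_cast hy.le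
    have hYy : Y ≤ y := hV1.trans hyr
    have hyX : (y : ℝ) ≤ X := by
      have h6 : (y : ℝ) * V ≤ 3 * X := by exact_mod_cast hyV
      have h7 : (y : ℝ) * 16 ≤ y * V := by gcongr
      linarith only [h6, h7, hX0]
    have hy0 : (0 : ℝ) < y := by linarith only [hYy, hY16]
    have hlogy : L / 4 ≤ Real.log y := by
      have h6 := Real.log_le_log (by linarith only [hY16]) hYy
      rw [hY, Real.log_rpow hX0, ← hL] at h6
      linarith only [h6]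
    have hlogy2 : Real.log y ≤ L := by rw [hL]; exact Real.log_le_log hy0 hyX
    have hlogy0 : 0 < L / 4 := by positivity
    have hpw : (L / 4) ^ A' ≤ Real.log y ^ A' := pow_le_pow_left₀ hlogy0.le hlogy A'
    have hQ : (q : ℝ) ≤ Real.log y ^ A' := by
      refine hq.trans (le_trans ?_ hpw)
      rw [div_pow, le_div_iff₀ (by positivity)]
      have h6 : L ^ A' = L ^ A * L ^ (A' - A) := by
        rw [← pow_add]
        congr 1
        omega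
      rw [h6]
      have h7 : L ≤ L ^ (A' - A) := le_self_pow₀ hL1 (by omega)
      have h8 : (4 : ℝ) ^ A' ≤ L ^ (A' - A) := e5.trans h7
      gcongr
    have hBt : Real.log y ^ B' ≤ |t| := by
      have h6 : L ^ B' ≤ L ^ (B' + (A + 5)) := pow_le_pow_right₀ hL1 (by omega)
      exact ((pow_le_pow_left₀ (hlogy0.le.trans hlogy) hlogy2 B').trans h6).trans h3
    have hCt : |t| ≤ (y : ℝ) ^ 1 := by
      rw [pow_one]
      linarith only [h4, hYZ, hZ0, hYy]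
    have hvk := hN0 y (hN0V.trans hy.le) q χ hQ t hBt hCt
    have hs1 := hvk y le_rfl
    have hs2 := hvk V hy.le
    rw [sum_cb χ hy.le t]
    refine (norm_sub_le _ _).trans ?_
    have h10 : (y : ℝ) / Real.log y ^ A' ≤ y / (L / 4) ^ A' := by gcongr
    have h11 : 2 * ((y : ℝ) / (L / 4) ^ A') = D * y := by
      rw [hD, div_pow]
      have h12 : (4 : ℝ) ^ A' ≠ 0 := by positivity
      have h13 : L ^ A' ≠ 0 := by positivity
      field_simp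
    linarith only [h10, h11, hs1, hs2]
  -- the three integrals
  obtain ⟨K1, hK1'⟩ : ∃ K1 : ℝ, K1 = 28 * C0 * X * L ^ 2 := ⟨_, rfl⟩
  have hlogVV : 1 + Real.log ((V * V : ℕ) : ℝ) ≤ 2 * L := by
    have h1 : (1 : ℝ) ≤ ((V * V : ℕ) : ℝ) := by exact_mod_cast Nat.mul_pos hVpos hVpos
    have h2 : ((V * V : ℕ) : ℝ) ≤ X := by exact_mod_cast hVVX
    have h3 := Real.log_le_log (by linarith only [h1]) h2
    rw [← hL] at h3
    linarith only [h3, hL1]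
  have hlogVV0 : 0 ≤ 1 + Real.log ((V * V : ℕ) : ℝ) := by
    have h1 : (1 : ℝ) ≤ ((V * V : ℕ) : ℝ) := by exact_mod_cast Nat.mul_pos hVpos hVpos
    have := Real.log_nonneg h1
    linarith only [this]
  have hK1b : 7 * C0 * X * (1 + Real.log ((V * V : ℕ) : ℝ)) ^ 2 ≤ K1 := by
    have h1 := pow_le_pow_left₀ hlogVV0 hlogVV 2
    have h2 : 7 * C0 * X * (1 + Real.log ((V * V : ℕ) : ℝ)) ^ 2 ≤ 7 * C0 * X * (2 * L) ^ 2 := by gcongr
    rw [hK1']
    linarith only [h2]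
  have hI1 := int1 hC01 hC0 χ hVVX ht (one_le_pow₀ hL1 : 1 ≤ L ^ (B' + (A + 5))) hK1b (by
    intro t h1 h2
    obtain ⟨h3, h4⟩ := hr t h1 h2
    refine ⟨h3, ?_⟩
    refine le_trans ?_ hZYX
    calc 4 * (q : ℝ) * |t| * ((V * V : ℕ) : ℝ) ≤ 4 * L ^ A * Z * (4 * Y ^ 2) := by gcongr
      _ = 16 * L ^ A * (Z * Y ^ 2) := by ring)
  have hI2 := int2 hC2 χ hVpos hVX hJ3 hJX hK1 hD0 hT0 hTV hyp
  have hI3 := int3 hC3 hC31 χ (V := V) e10 hVpos hK1 (t0 := t0) hT0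
  have e11 : t0 + (t1 - t0) = t1 := by ring
  rw [e11] at hI2 hI3
  have hcomb := combine ht (cont_sum' χ (fun k => ((∑ p ∈ k.divisorsAntidiagonal,
    (muV V * muV V) p.1 * (fun _ : ℕ => (1 : ℝ)) p.2 : ℝ) : ℂ)) X (3 * X))
    (cont_sum (fun k => ∑ p ∈ k.divisorsAntidiagonal, ca χ X V K p.1 * cb χ V p.2) X (3 * X))
    (cont_sum (fun k => ∑ p ∈ k.divisorsAntidiagonal, cd χ X V K p.1 * cb χ V p.2) X (3 * X))
    (fun t => decomp χ hVX K t)
  refine hcomb.trans ?_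
  have hfin := fin (C0 := C0) (C2 := C2) (C3 := C3) (x := (X : ℝ)) (L := L)
    (l := Real.log (X + 3)) (W := L ^ (B' + (A + 5))) (K1 := K1) (K := K) (J := (J : ℝ)) (D := D)
    (T := t1 - t0) (V := (V : ℝ)) (sJ := Real.sqrt J) (lx := Real.log (3 * X)) hC01 hC21 hC31
    hκ hm hA' (by linarith only [e4]) e1 e2 e3 hXr (pow_le_pow_right₀ hL1 (by omega)) hK1' hK
    (by linarith only [hl1]) hl2 (Nat.cast_nonneg _) hJ2 hD hT0 (by linarith only [hV16]) hTV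
    (hTV.trans hVXr) hsJ hlx0 (by linarith only [hlx, e4])
  refine le_trans (add_le_add (add_le_add ?_ ?_) ?_) hfin
  · exact mul_le_mul_of_nonneg_left hI1 (by norm_num)
  · exact mul_le_mul_of_nonneg_left hI2 (by norm_num)
  · exact mul_le_mul_of_nonneg_left hI3 (by norm_num)

end Pool.Agent.MW
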