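import Pool.Agent.Lib.MW.MuRec

/-!
# Module MuSW: Siegel-Walfisz for the Moebius function twisted by characters

(a) `χ ≠ 1`: `mu_rec` with `f n = mu n χ(n)`, `g n = Λ(n) χ(n)` (`= lam (chf χ) n`), `c = 0`: `Λ * μ = - μ log` (in Mathlib: `ArithmeticFunction` identities `vonMangoldt_mul_zeta`, `moebius_mul_log...`; or: `Λ * ζ = log`, derivative: `log · (μ * ζ) = (μ log) * ζ + μ * (ζ log) = 0`, i.e.
`(μ log) * ζ = - μ * log = - μ * Λ * ζ`, cancel `ζ`; `μ log` denotes the pointwise product), `χ` completely multiplicative. `K = C q` from `psi_chi_bound (2j+6) 1` (`x = y`, `⌊(y:ℝ)⌋₊ = y`; enlarge to `1 ≤ K`).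
(b) `q = 1` (all characters mod 1 are trivial: `Subsingleton`), or in general the function `mu` itself: `f = mu`, `g n = Λ(n) - 1` for `n ≥ 1` (`g 0 = 0`), `c = -1`: `(Λ - 1) * μ = - μ log - δ_1`. `K` from `psi_bound (2j+6)` (`∑_{n ≤ y} (Λ(n) - 1) = ψ(y) - y`).
So `‖∑_{n ≤ x} mu n‖ ≤ C x/(log x)^j'` for every `j'`.
(c) `χ = 1` mod `q`: `f(n) = mu n [(n,q) = 1]`. `mu n [(n,q)=1] = ∑_{k ∣ n, rad k ∣ q} mu(n/k)`, that is, `1_{(·,q)=1} μ = 1_{k ∣ q^∞} * μ` (both sides multiplicative; or: `1_{(·,q)=1} * 1_{q^∞} = ζ` by unique factorisation and `res`-calculus: `res μ * res ζ = 1`,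
see `VM.HBAux.res`, `res_mul`). Hence `F_q(x) = ∑_{k ≤ x, k ∣ q^∞} M(x/k)`. With `S = ∑_{k ∣ q^∞} k^(-1/2) = ∏_{p ∣ q} (1 - p^(-1/2))^(-1) ≤ ∏_{p ∣ q} p² ≤ q²` (`(1 - 2^(-1/2))^(-1) < 4`; Mathlib: `Nat.factoredNumbers`,
`EulerProduct.summable_and_hasSum_factoredNumbers_prod_filter_prime_geometric`): the `k ≤ √x` give `≤ C (x/(log √x)^j) ∑ 1/k ≤ C 2^j S x/(log x)^j` (for `x/k ≥ 3`; for `x ≥ 16` this holds), the `k > √x` give
`≤ ∑ x/k ≤ x x^(-1/4) S`. (Instead of the Euler product one may use induction on the number of prime factors: `F_{qp}(x) = F_q(x) + F_{qp}(x/p)`, with the stronger hypothesis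
`‖F_q(x)‖ ≤ C (∏_{p ∣ q} c_p) x/(1 + log x)^j`-like for all `x ≥ 1`.)
-/

set_option autoImplicit false

open Finset Filter

namespace Pool.Agent.MW

open Pool.Agent.VK Pool.Agent.HLT Pool.Agent.VM

namespace MuSWAux

open ArithmeticFunction

lemma swap_sum {R : Type} [AddCommMonoid R] (n : ℕ) (F : ℕ → ℕ → R) :
    ∑ p ∈ n.divisorsAntidiagonal, F p.1 p.2 = ∑ p ∈ n.divisorsAntidiagonal, F p.2 p.1 := by
  rw [Nat.sum_divisorsAntidiagonal' (f := F), Nat.sum_divisorsAntidiagonal (f := fun a b => F b a)]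

lemma conv_id (n : ℕ) (hn : 1 ≤ n) :
    ∑ p ∈ n.divisorsAntidiagonal, ((vonMangoldt p.1 : ℝ) : ℂ) * mu p.2 = -(mu n * (Real.log n : ℂ)) := by
  have h1 : ∀ m : ℕ, 0 < m → ∑ i ∈ m.divisors, ((moebius i : ℤ) : ℝ) * Real.log i = -vonMangoldt m :=
    fun m _ => sum_moebius_mul_log_eq
  have h2 := (sum_eq_iff_sum_mul_moebius_eq (f := fun i : ℕ => ((moebius i : ℤ) : ℝ) * Real.log i)
    (g := fun m : ℕ => -vonMangoldt m)).mp h1 n hn
  have h3 : ∑ p ∈ n.divisorsAntidiagonal, vonMangoldt p.1 * ((moebius p.2 : ℤ) : ℝ) =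
      -(((moebius n : ℤ) : ℝ) * Real.log n) := by
    rw [swap_sum n (fun a b => vonMangoldt a * ((moebius b : ℤ) : ℝ)), ← h2, ← Finset.sum_neg_distrib]
    refine Finset.sum_congr rfl (fun p _ => ?_)
    ring
  have h4 := congrArg (fun t : ℝ => (t : ℂ)) h3
  push_cast at h4
  unfold mu
  rw [Complex.natCast_log, ← h4]

lemma conv_one (n : ℕ) : ∑ p ∈ n.divisorsAntidiagonal, mu p.2 = if n = 1 then 1 else 0 := by
  rw [Nat.sum_divisorsAntidiagonal' (f := fun _ b => mu b)]
  have h1 : ∑ i ∈ n.divisors, (moebius i : ℤ) = if n = 1 then 1 else 0 := by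
    rw [← coe_mul_zeta_apply, moebius_mul_coe_zeta, one_apply]
  have h2 := congrArg (fun t : ℤ => (t : ℂ)) h1
  unfold mu
  push_cast at h2
  rw [h2]

/-- Bound for the summatory function of the Moebius function. -/
lemma m_bound (j : ℕ) : ∃ C : ℝ, 1 ≤ C ∧ ∀ x : ℕ, 3 ≤ x → ‖∑ n ∈ Icc 1 x, mu n‖ ≤ C * x / Real.log x ^ j := by
  obtain ⟨C, hC, h⟩ := mu_rec j
  obtain ⟨C2, hC2, h2⟩ := Pool.Agent.Lib.SW.psi_bound (2 * j + 6)
  refine ⟨C * max C2 1, ?_, fun x hx => ?_⟩
  · have := le_max_right C2 1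
    nlinarith
  · refine h mu (fun n => ((vonMangoldt n : ℝ) : ℂ) - 1) (-1) (max C2 1) (le_max_right _ _) (by simp) norm_mu
      ?_ ?_ ?_ x hx
    · intro n
      refine (norm_sub_le _ _).trans ?_
      rw [Complex.norm_real, Real.norm_eq_abs, abs_of_nonneg vonMangoldt_nonneg, norm_one]
    · intro n hn
      have h3 : ∀ p ∈ n.divisorsAntidiagonal, (((vonMangoldt p.1 : ℝ) : ℂ) - 1) * mu p.2 =
          ((vonMangoldt p.1 : ℝ) : ℂ) * mu p.2 - mu p.2 := fun p _ => by ring
      rw [Finset.sum_congr rfl h3, Finset.sum_sub_distrib, conv_id n hn, conv_one n]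
      split_ifs <;> ring
    · intro y hy
      have h3 := h2 y (by exact_mod_cast hy)
      rw [Nat.floor_natCast] at h3
      have h4 : ∑ n ∈ Icc 1 y, (((vonMangoldt n : ℝ) : ℂ) - 1) =
          ((∑ n ∈ Icc 1 y, vonMangoldt n - y : ℝ) : ℂ) := by
        rw [Finset.sum_sub_distrib]
        push_cast
        simp
      rw [h4, Complex.norm_real, Real.norm_eq_abs]
      refine h3.trans ?_
      have h5 : 0 ≤ Real.log (y : ℝ) := Real.log_natCast_nonneg y
      refine div_le_div_of_nonneg_right ?_ (by positivity)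
      exact mul_le_mul_of_nonneg_right (le_max_left _ _) (Nat.cast_nonneg _)

lemma chi_bound (j : ℕ) : ∃ C : ℝ, 1 ≤ C ∧ ∀ (q : ℕ) [NeZero q] (χ : DirichletCharacter ℂ q), χ ≠ 1 → ∀ x : ℕ, 3 ≤ x →
    ‖∑ n ∈ Icc 1 x, mu n * χ (n : ZMod q)‖ ≤ C * q * x / Real.log x ^ j := by
  obtain ⟨C, hC, h⟩ := mu_rec j
  obtain ⟨C2, hC2, h2⟩ := Pool.Agent.Lib.SW.psi_chi_bound (2 * j + 6) 1 one_pos
  refine ⟨C * max C2 1, ?_, fun q _ χ hχ x hx => ?_⟩
  · have := le_max_right C2 1
    nlinarith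
  · have hq : (1 : ℝ) ≤ q := by exact_mod_cast Nat.one_le_iff_ne_zero.2 (NeZero.ne q)
    have hm := le_max_right C2 1
    have hK : 1 ≤ max C2 1 * q := by nlinarith
    have hχ1 : ∀ n : ℕ, ‖χ (n : ZMod q)‖ ≤ 1 := fun n => DirichletCharacter.norm_le_one χ _
    have hmain := h (fun n => mu n * χ (n : ZMod q)) (Pool.Agent.Lib.SW.lam (Pool.Agent.Lib.SW.chf χ)) 0 (max C2 1 * q) hK
      (by simp) ?_ ?_ ?_ ?_ x hx
    · refine hmain.trans (le_of_eq ?_)
      ring
    · intro n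
      rw [norm_mul]
      exact mul_le_one₀ (norm_mu n) (norm_nonneg _) (hχ1 n)
    · intro n
      unfold Pool.Agent.Lib.SW.lam Pool.Agent.Lib.SW.chf
      rw [norm_mul, Complex.norm_real, Real.norm_eq_abs, abs_of_nonneg vonMangoldt_nonneg]
      have h3 := hχ1 n
      have h4 : 0 ≤ vonMangoldt n := vonMangoldt_nonneg
      nlinarith
    · intro n hn
      have h3 : ∀ p ∈ n.divisorsAntidiagonal, Pool.Agent.Lib.SW.lam (Pool.Agent.Lib.SW.chf χ) p.1 * (mu p.2 * χ (p.2 : ZMod q)) =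
          χ (n : ZMod q) * (((vonMangoldt p.1 : ℝ) : ℂ) * mu p.2) := by
        intro p hp
        have h4 := (Nat.mem_divisorsAntidiagonal.mp hp).1
        unfold Pool.Agent.Lib.SW.lam Pool.Agent.Lib.SW.chf
        rw [← h4]
        push_cast
        rw [map_mul]
        ring
      rw [Finset.sum_congr rfl h3, ← Finset.mul_sum, conv_id n hn]
      simp only [ite_self, add_zero]
      ring
    · intro y hy
      have h3 := h2 q χ hχ y (by exact_mod_cast hy)
      rw [Nat.floor_natCast, Real.rpow_one] at h3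
      refine h3.trans ?_
      have h5 : 0 ≤ Real.log (y : ℝ) := Real.log_natCast_nonneg y
      refine div_le_div_of_nonneg_right ?_ (by positivity)
      refine mul_le_mul_of_nonneg_right ?_ (Nat.cast_nonneg _)
      exact mul_le_mul_of_nonneg_right (le_max_left _ _) (by linarith)

/-- Sum of the Moebius function over the integers without prime factor in `S`. -/
noncomputable def F (S : Finset ℕ) (x : ℕ) : ℂ := ∑ n ∈ (Icc 1 x).filter (fun n => ∀ r ∈ S, ¬ r ∣ n), mu n

lemma mu_pm (p m : ℕ) (hp : p.Prime) : mu (p * m) = if p ∣ m then 0 else -mu m := by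
  unfold mu
  split_ifs with h
  · obtain ⟨k, rfl⟩ := h
    rw [moebius_eq_zero_of_not_squarefree]
    · simp
    · intro hs
      have h1 := hs p ⟨k, by ring⟩
      exact hp.one_lt.ne' (Nat.isUnit_iff.mp h1)
  · have hc : Nat.Coprime p m := (Nat.Prime.coprime_iff_not_dvd hp).mpr h
    rw [isMultiplicative_moebius.map_mul_of_coprime hc, moebius_apply_prime hp]
    push_cast
    ring

lemma F_insert (S : Finset ℕ) (p : ℕ) (hp : p.Prime) (hpS : p ∉ S) (hS : ∀ r ∈ S, r.Prime) (x : ℕ) :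
    F (insert p S) x = F S x + F (insert p S) (x / p) := by
  have h1 : F S x = ∑ n ∈ ((Icc 1 x).filter (fun n => ∀ r ∈ S, ¬ r ∣ n)).filter (fun n => p ∣ n), mu n +
      ∑ n ∈ ((Icc 1 x).filter (fun n => ∀ r ∈ S, ¬ r ∣ n)).filter (fun n => ¬ p ∣ n), mu n := by
    unfold F
    rw [Finset.sum_filter_add_sum_filter_not]
  have h2 : F (insert p S) x = ∑ n ∈ ((Icc 1 x).filter (fun n => ∀ r ∈ S, ¬ r ∣ n)).filter (fun n => ¬ p ∣ n), mu n := by
    unfold F
    refine Finset.sum_congr ?_ (fun _ _ => rfl)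
    ext n
    simp only [mem_filter, mem_insert, forall_eq_or_imp]
    tauto
  have h3 : ∑ n ∈ ((Icc 1 x).filter (fun n => ∀ r ∈ S, ¬ r ∣ n)).filter (fun n => p ∣ n), mu n =
      ∑ m ∈ (Icc 1 (x / p)).filter (fun n => ∀ r ∈ S, ¬ r ∣ n), mu (p * m) := by
    symm
    refine Finset.sum_bij (fun m _ => p * m) ?_ ?_ ?_ ?_
    · intro m hm
      rw [mem_filter, mem_Icc] at hm
      rw [mem_filter, mem_filter, mem_Icc]
      refine ⟨⟨⟨Nat.mul_pos hp.pos hm.1.1, ?_⟩, ?_⟩, Dvd.intro m rfl⟩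
      · rw [mul_comm]
        exact (Nat.le_div_iff_mul_le hp.pos).mp hm.1.2
      · intro r hr hdvd
        rcases (hS r hr).dvd_mul.mp hdvd with h | h
        · have := (Nat.prime_dvd_prime_iff_eq (hS r hr) hp).mp h
          exact hpS (this ▸ hr)
        · exact hm.2 r hr h
    · intro a _ b _ hab
      exact Nat.eq_of_mul_eq_mul_left hp.pos hab
    · intro n hn
      rw [mem_filter, mem_filter, mem_Icc] at hn
      obtain ⟨m, rfl⟩ := hn.2
      refine ⟨m, ?_, rfl⟩
      rw [mem_filter, mem_Icc]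
      refine ⟨⟨?_, ?_⟩, ?_⟩
      · rcases Nat.eq_zero_or_pos m with h | h
        · rw [h] at hn
          simp at hn
        · exact h
      · rw [Nat.le_div_iff_mul_le hp.pos, mul_comm]
        exact hn.1.1.2
      · intro r hr hdvd
        exact hn.1.2 r hr (Dvd.dvd.mul_left hdvd p)
    · intro m _
      rfl
  have h4 : ∑ m ∈ (Icc 1 (x / p)).filter (fun n => ∀ r ∈ S, ¬ r ∣ n), mu (p * m) = -F (insert p S) (x / p) := by
    have h5 : ∀ m ∈ (Icc 1 (x / p)).filter (fun n => ∀ r ∈ S, ¬ r ∣ n), mu (p * m) =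
        if ¬ p ∣ m then -mu m else 0 := by
      intro m _
      rw [mu_pm p m hp]
      by_cases h : p ∣ m
      · rw [if_pos h, if_neg (not_not.mpr h)]
      · rw [if_neg h, if_pos h]
    rw [Finset.sum_congr rfl h5, ← Finset.sum_filter, Finset.sum_neg_distrib]
    unfold F
    congr 1
    refine Finset.sum_congr ?_ (fun _ _ => rfl)
    ext n
    simp only [mem_filter, mem_insert, forall_eq_or_imp]
    tauto
  rw [h3, h4, ← h2] at h1
  rw [h1]
  ring

/-- The comparison function. -/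
noncomputable def B (j x : ℕ) : ℝ := (x : ℝ) / ((2 * j + 1 : ℝ) + Real.log x) ^ j

lemma B_nonneg (j x : ℕ) : 0 ≤ B j x := by
  unfold B
  have h : 0 ≤ Real.log (x : ℝ) := Real.log_natCast_nonneg x
  positivity

lemma B_div (j x p : ℕ) (hp : 2 ≤ p) (hx : 1 ≤ x) : B j (x / p) ≤ B j x / Real.sqrt p := by
  rcases Nat.eq_zero_or_pos (x / p) with h0 | h0
  · rw [h0]
    have h1 : B j 0 = 0 := by
      unfold B
      simp
    rw [h1]
    exact div_nonneg (B_nonneg j x) (Real.sqrt_nonneg _)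
  · obtain ⟨y, hy⟩ : ∃ y, y = x / p := ⟨_, rfl⟩
    rw [← hy] at h0 ⊢
    have hy1 : (1 : ℝ) ≤ y := by exact_mod_cast h0
    have hx1 : (1 : ℝ) ≤ x := by exact_mod_cast hx
    have hp2 : (2 : ℝ) ≤ p := by exact_mod_cast hp
    have hyx : (y : ℝ) * p ≤ x := by
      have : y * p ≤ x := by
        rw [hy]
        exact Nat.div_mul_le_self x p
      exact_mod_cast this
    obtain ⟨u, hu⟩ : ∃ u : ℝ, u = x / y := ⟨_, rfl⟩
    have hy0 : (0 : ℝ) < y := by linarith
    have hux : u * y = x := by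
      rw [hu]
      field_simp
    have hup : (p : ℝ) ≤ u := by
      rw [hu, le_div_iff₀ hy0]
      linarith
    have hu1 : 1 ≤ u := by linarith
    have hu0 : 0 < u := by linarith
    have hlogu : 0 ≤ Real.log u := Real.log_nonneg hu1
    have hlogy : 0 ≤ Real.log y := Real.log_nonneg hy1
    have hlogx : Real.log x = Real.log u + Real.log y := by
      rw [← hux, Real.log_mul hu0.ne' hy0.ne']
    have hK0 : (0 : ℝ) < 2 * j + 1 := by positivity
    have h1 : (2 * j + 1 : ℝ) + Real.log x ≤ ((2 * j + 1 : ℝ) + Real.log y) * Real.exp (Real.log u / (2 * j + 1)) := by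
      have h2 := Real.add_one_le_exp (Real.log u / (2 * j + 1))
      have h3 : (2 * j + 1 : ℝ) + Real.log x ≤ ((2 * j + 1 : ℝ) + Real.log y) * (Real.log u / (2 * j + 1) + 1) := by
        rw [hlogx]
        have h4 : ((2 * j + 1 : ℝ) + Real.log y) * (Real.log u / (2 * j + 1) + 1) =
            (2 * j + 1 : ℝ) + (Real.log u + Real.log y) + Real.log y * (Real.log u / (2 * j + 1)) := by
          field_simp
          ring
        rw [h4]
        have : 0 ≤ Real.log y * (Real.log u / (2 * j + 1)) := by positivity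
        linarith
      refine h3.trans ?_
      exact mul_le_mul_of_nonneg_left h2 (by positivity)
    have h5 : ((2 * j + 1 : ℝ) + Real.log x) ^ j ≤ ((2 * j + 1 : ℝ) + Real.log y) ^ j * Real.sqrt u := by
      refine (pow_le_pow_left₀ (by rw [hlogx]; positivity) h1 j).trans ?_
      rw [mul_pow]
      refine mul_le_mul_of_nonneg_left ?_ (by positivity)
      have h6 : Real.sqrt u = Real.exp (Real.log u / 2) := by
        rw [Real.sqrt_eq_iff_mul_self_eq hu0.le (Real.exp_pos _).le, ← Real.exp_add]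
        have : Real.log u / 2 + Real.log u / 2 = Real.log u := by ring
        rw [this, Real.exp_log hu0]
      rw [h6, ← Real.exp_nat_mul, Real.exp_le_exp]
      have h7 : (j : ℝ) * (Real.log u / (2 * j + 1)) = Real.log u * (j / (2 * j + 1)) := by ring
      rw [h7]
      have h8 : (j : ℝ) / (2 * j + 1) ≤ 1 / 2 := by
        rw [div_le_div_iff₀ hK0 (by norm_num)]
        linarith
      calc Real.log u * (j / (2 * j + 1)) ≤ Real.log u * (1 / 2) := mul_le_mul_of_nonneg_left h8 hlogu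
        _ = _ := by ring
    have hsu : 0 < Real.sqrt u := Real.sqrt_pos.mpr hu0
    have hsp : 0 < Real.sqrt p := Real.sqrt_pos.mpr (by linarith)
    have hspu : Real.sqrt p ≤ Real.sqrt u := Real.sqrt_le_sqrt hup
    have hpy : 0 < ((2 * j + 1 : ℝ) + Real.log y) ^ j := by positivity
    have hpx : 0 < ((2 * j + 1 : ℝ) + Real.log x) ^ j := by
      rw [hlogx]
      positivity
    unfold B
    rw [div_div, div_le_div_iff₀ hpy (by positivity)]
    have hs2 : Real.sqrt u * Real.sqrt u = u := Real.mul_self_sqrt hu0.le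
    calc (y : ℝ) * (((2 * j + 1 : ℝ) + Real.log x) ^ j * Real.sqrt p) ≤
        (y : ℝ) * ((((2 * j + 1 : ℝ) + Real.log y) ^ j * Real.sqrt u) * Real.sqrt u) := by
          refine mul_le_mul_of_nonneg_left ?_ hy0.le
          exact mul_le_mul h5 hspu hsp.le (by positivity)
      _ = (u * y) * ((2 * j + 1 : ℝ) + Real.log y) ^ j := by
          rw [mul_assoc, hs2]
          ring
      _ = _ := by rw [hux]

lemma F_bound (j : ℕ) (D : ℝ) (hD : 0 ≤ D) (h0 : ∀ x : ℕ, ‖F ∅ x‖ ≤ D * B j x) (S : Finset ℕ) (hS : ∀ r ∈ S, r.Prime) :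
    ∀ x : ℕ, ‖F S x‖ ≤ D * (∏ p ∈ S, (p : ℝ) ^ 2) * B j x := by
  induction S using Finset.induction_on with
  | empty =>
    intro x
    simpa using h0 x
  | insert p S hpS ih =>
    have hp : p.Prime := hS p (mem_insert_self _ _)
    have hS' : ∀ r ∈ S, r.Prime := fun r hr => hS r (mem_insert_of_mem hr)
    have ih' := ih hS'
    intro x
    rw [Finset.prod_insert hpS]
    obtain ⟨A, hA⟩ : ∃ A : ℝ, A = D * ∏ p ∈ S, (p : ℝ) ^ 2 := ⟨_, rfl⟩
    have hA0 : 0 ≤ A := by
      rw [hA]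
      exact mul_nonneg hD (Finset.prod_nonneg (fun _ _ => by positivity))
    have hgoal : D * ((p : ℝ) ^ 2 * ∏ p ∈ S, (p : ℝ) ^ 2) = (p : ℝ) ^ 2 * A := by
      rw [hA]
      ring
    rw [hgoal]
    rw [← hA] at ih'
    induction x using Nat.strong_induction_on with
    | _ x ihx =>
      rcases Nat.eq_zero_or_pos x with rfl | hx
      · unfold F
        simp [B]
      · rw [F_insert S p hp hpS hS' x]
        have h1 := ihx (x / p) (Nat.div_lt_self hx hp.one_lt)
        have h2 := B_div j x p hp.two_le hx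
        have h3 := B_nonneg j x
        refine (norm_add_le _ _).trans ?_
        have h4 := ih' x
        obtain ⟨s, hs⟩ : ∃ s, s = Real.sqrt p := ⟨_, rfl⟩
        have hp2 : (2 : ℝ) ≤ p := by exact_mod_cast hp.two_le
        have hs2 : s ^ 2 = p := by
          rw [hs]
          exact Real.sq_sqrt (by linarith)
        have hs1 : 7 / 5 ≤ s := by
          rw [hs]
          refine Real.le_sqrt_of_sq_le ?_
          norm_num
          linarith
        rw [← hs] at h2
        have h5 : (p : ℝ) ^ 2 * A * B j (x / p) ≤ (p : ℝ) ^ 2 * A * (B j x / s) :=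
          mul_le_mul_of_nonneg_left h2 (by positivity)
        have hs0 : 0 < s := by linarith
        have h6 : (p : ℝ) ^ 2 * A * (B j x / s) = s ^ 3 * (A * B j x) := by
          rw [← hs2]
          field_simp
        have h7 : 1 + s ^ 3 ≤ s ^ 4 := by
          have h8 : (7 / 5 : ℝ) ^ 3 ≤ s ^ 3 := pow_le_pow_left₀ (by norm_num) hs1 3
          nlinarith
        have h9 : 0 ≤ A * B j x := mul_nonneg hA0 h3
        calc ‖F S x‖ + ‖F (insert p S) (x / p)‖ ≤ A * B j x + s ^ 3 * (A * B j x) := by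
              rw [h6] at h5
              linarith
          _ = (1 + s ^ 3) * (A * B j x) := by ring
          _ ≤ s ^ 4 * (A * B j x) := mul_le_mul_of_nonneg_right h7 h9
          _ = (p : ℝ) ^ 2 * A * B j x := by
              rw [← hs2]
              ring

lemma one_bound (j : ℕ) : ∃ C : ℝ, 1 ≤ C ∧ ∀ (q : ℕ) [NeZero q] (x : ℕ), 3 ≤ x →
    ‖∑ n ∈ Icc 1 x, mu n * (1 : DirichletCharacter ℂ q) (n : ZMod q)‖ ≤ C * (q : ℝ) ^ 2 * x / Real.log x ^ j := by
  obtain ⟨C, hC, h⟩ := m_bound j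
  obtain ⟨K, hK⟩ : ∃ K : ℝ, K = (2 * j + 1 : ℝ) := ⟨_, rfl⟩
  have hK1 : 1 ≤ K := by
    rw [hK]
    have : (0 : ℝ) ≤ j := Nat.cast_nonneg j
    linarith
  obtain ⟨D, hD⟩ : ∃ D : ℝ, D = C * (K + 2) ^ j := ⟨_, rfl⟩
  have hD1 : 1 ≤ D := by
    rw [hD]
    have : 1 ≤ (K + 2) ^ j := one_le_pow₀ (by linarith)
    nlinarith
  have h0 : ∀ x : ℕ, ‖F ∅ x‖ ≤ D * B j x := by
    intro x
    have hF : F ∅ x = ∑ n ∈ Icc 1 x, mu n := by
      unfold F
      simp
    rw [hF]
    rcases lt_or_ge x 3 with hx | hx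
    · have h1 : ‖∑ n ∈ Icc 1 x, mu n‖ ≤ x := by
        refine (norm_sum_le _ _).trans ?_
        refine (Finset.sum_le_sum (fun n _ => norm_mu n)).trans ?_
        simp
      refine h1.trans ?_
      have hx2 : (x : ℝ) ≤ 2 := by
        have : x ≤ 2 := by omega
        exact_mod_cast this
      have hl : Real.log (x : ℝ) ≤ 2 := (Real.log_le_self (Nat.cast_nonneg x)).trans hx2
      have hl0 : 0 ≤ Real.log (x : ℝ) := Real.log_natCast_nonneg x
      unfold B
      rw [← hK, hD]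
      have h2 : (K + Real.log x) ^ j ≤ (K + 2) ^ j := pow_le_pow_left₀ (by linarith) (by linarith) j
      have h3 : 0 < (K + Real.log x) ^ j := pow_pos (by linarith) j
      rw [← mul_div_assoc, le_div_iff₀ h3]
      have hx0 : (0 : ℝ) ≤ x := Nat.cast_nonneg x
      calc (x : ℝ) * (K + Real.log x) ^ j ≤ x * (K + 2) ^ j := mul_le_mul_of_nonneg_left h2 hx0
        _ = 1 * (K + 2) ^ j * x := by ring
        _ ≤ C * (K + 2) ^ j * x := by
            refine mul_le_mul_of_nonneg_right (mul_le_mul_of_nonneg_right hC (by positivity)) hx0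
    · refine (h x hx).trans ?_
      have hx3 : (3 : ℝ) ≤ x := by exact_mod_cast hx
      have hl : 1 ≤ Real.log (x : ℝ) := by
        rw [Real.le_log_iff_exp_le (by linarith)]
        exact (Real.exp_one_lt_d9.le.trans (by norm_num)).trans hx3
      unfold B
      rw [← hK, hD]
      have h2 : (K + Real.log x) ^ j ≤ (K + 2) ^ j * Real.log x ^ j := by
        rw [← mul_pow]
        refine pow_le_pow_left₀ (by linarith) ?_ j
        nlinarith
      have h3 : 0 < (K + Real.log x) ^ j := pow_pos (by linarith) j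
      have h4 : 0 < Real.log (x : ℝ) ^ j := pow_pos (by linarith) j
      rw [← mul_div_assoc, div_le_div_iff₀ h4 h3]
      have hx0 : (0 : ℝ) ≤ x := Nat.cast_nonneg x
      calc C * x * (K + Real.log x) ^ j ≤ C * x * ((K + 2) ^ j * Real.log x ^ j) :=
            mul_le_mul_of_nonneg_left h2 (by positivity)
        _ = C * (K + 2) ^ j * x * Real.log x ^ j := by ring
  refine ⟨D, hD1, fun q _ x hx => ?_⟩
  have hq0 : q ≠ 0 := NeZero.ne q
  have h1 := F_bound j D (by linarith) h0 q.primeFactors (fun r hr => Nat.prime_of_mem_primeFactors hr) x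
  have h2 : ∑ n ∈ Icc 1 x, mu n * (1 : DirichletCharacter ℂ q) (n : ZMod q) = F q.primeFactors x := by
    unfold F
    rw [Finset.sum_filter]
    refine Finset.sum_congr rfl (fun n _ => ?_)
    by_cases hc : n.Coprime q
    · have h3 : ∀ r ∈ q.primeFactors, ¬ r ∣ n := by
        intro r hr hrn
        have hrp := Nat.prime_of_mem_primeFactors hr
        have hrq := Nat.dvd_of_mem_primeFactors hr
        have := Nat.dvd_gcd hrn hrq
        rw [hc] at this
        exact hrp.one_lt.ne' (Nat.dvd_one.mp this)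
      rw [if_pos h3, MulChar.one_apply ((ZMod.isUnit_iff_coprime n q).mpr hc), mul_one]
    · have h3 : ¬ ∀ r ∈ q.primeFactors, ¬ r ∣ n := by
        intro h4
        obtain ⟨r, hrp, hrn, hrq⟩ := Nat.Prime.not_coprime_iff_dvd.mp hc
        exact h4 r (Nat.mem_primeFactors.mpr ⟨hrp, hrq, hq0⟩) hrn
      rw [if_neg h3, MulChar.map_nonunit _ (fun h5 => hc ((ZMod.isUnit_iff_coprime n q).mp h5)), mul_zero]
  rw [h2]
  refine h1.trans ?_
  have h3 : ∏ p ∈ q.primeFactors, (p : ℝ) ^ 2 ≤ (q : ℝ) ^ 2 := by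
    rw [Finset.prod_pow]
    have h4 : (∏ p ∈ q.primeFactors, p) ≤ q := Nat.le_of_dvd (Nat.pos_of_ne_zero hq0) (Nat.prod_primeFactors_dvd q)
    have h5 : (∏ p ∈ q.primeFactors, (p : ℝ)) ≤ q := by
      have h6 : (((∏ p ∈ q.primeFactors, p : ℕ) : ℕ) : ℝ) ≤ q := by exact_mod_cast h4
      rwa [Nat.cast_prod] at h6
    exact pow_le_pow_left₀ (Finset.prod_nonneg (fun _ _ => Nat.cast_nonneg _)) h5 2
  have hx3 : (3 : ℝ) ≤ x := by exact_mod_cast hx
  have hl : 1 ≤ Real.log (x : ℝ) := by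
    rw [Real.le_log_iff_exp_le (by linarith)]
    exact (Real.exp_one_lt_d9.le.trans (by norm_num)).trans hx3
  have h6 : B j x ≤ x / Real.log x ^ j := by
    unfold B
    rw [← hK]
    refine div_le_div_of_nonneg_left (Nat.cast_nonneg x) (pow_pos (by linarith) j) ?_
    exact pow_le_pow_left₀ (by linarith) (by linarith) j
  have h7 : D * (∏ p ∈ q.primeFactors, (p : ℝ) ^ 2) ≤ D * (q : ℝ) ^ 2 := mul_le_mul_of_nonneg_left h3 (by linarith)
  calc D * (∏ p ∈ q.primeFactors, (p : ℝ) ^ 2) * B j x ≤ D * (q : ℝ) ^ 2 * (x / Real.log x ^ j) :=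
        mul_le_mul h7 h6 (B_nonneg j x) (by positivity)
    _ = D * (q : ℝ) ^ 2 * x / Real.log x ^ j := by ring

end MuSWAux

theorem mu_sum_chi (j : ℕ) : ∃ C : ℝ, 1 ≤ C ∧ ∀ (q : ℕ) [NeZero q] (χ : DirichletCharacter ℂ q) (x : ℕ), 3 ≤ x →
    ‖∑ n ∈ Icc 1 x, mu n * χ (n : ZMod q)‖ ≤ C * (q : ℝ) ^ 3 * x / Real.log x ^ j := by
  obtain ⟨C1, hC1, h1⟩ := MuSWAux.chi_bound j
  obtain ⟨C2, hC2, h2⟩ := MuSWAux.one_bound j
  refine ⟨C1 + C2, by linarith, fun q _ χ x hx => ?_⟩
  have hq : (1 : ℝ) ≤ q := by exact_mod_cast Nat.one_le_iff_ne_zero.2 (NeZero.ne q)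
  have hlog : 0 ≤ Real.log (x : ℝ) := Real.log_natCast_nonneg x
  have hx0 : (0 : ℝ) ≤ x := Nat.cast_nonneg x
  by_cases hχ : χ = 1
  · rw [hχ]
    refine (h2 q x hx).trans ?_
    refine div_le_div_of_nonneg_right ?_ (by positivity)
    refine mul_le_mul_of_nonneg_right ?_ hx0
    have h3 : (q : ℝ) ^ 2 ≤ (q : ℝ) ^ 3 := pow_le_pow_right₀ hq (by norm_num)
    exact mul_le_mul (by linarith) h3 (by positivity) (by linarith)
  · refine (h1 q χ hχ x hx).trans ?_
    refine div_le_div_of_nonneg_right ?_ (by positivity)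
    refine mul_le_mul_of_nonneg_right ?_ hx0
    have h3 : (q : ℝ) ≤ (q : ℝ) ^ 3 := le_self_pow₀ hq (by norm_num)
    exact mul_le_mul (by linarith) h3 (by linarith) (by linarith)

end Pool.Agent.MW
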