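import Pool.Agent.Lib.MW.DpMu
import Pool.Agent.Lib.MW.MuSW
import Pool.Agent.Lib.VL.FullL23

/-!
# Module FullMu: the full mean square of `∑ μ(n) χ(n) n^(-it)` up to height `X^(1/5)`

As `VL.full_gen` (file VL/FullL23.lean), simpler because there is no subtraction of the main term. `L = log X`, `B` from `dp_mu (A + 2)`, `T0 = L^B`. The integral over `T0 ≤ |t| ≤ X^(1/5)`: `dp_mu` on `[-X^(1/5), -T0]` and
`[T0, X^(1/5)]`. For `|t| ≤ T0`: by Abel summation (as in `VK.small_t`, VK/SmallT.lean) and `mu_sum_chi j` for all `y ≤ 3X`: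
`‖∑_{X < n ≤ 3X} mu n χ(n) nit n t‖ ≤ (1 + |t| log 3) · 2 max_{X ≤ y ≤ 3X} ‖∑_{n ≤ y} mu n χ(n)‖ ≤ 4 L^B · 2 C q³ 3X/L^j ≤ X/L^(A + B + 2)` for `j = 3A + 2B + 10`; the square times `2 L^B` is small.
-/

set_option autoImplicit false

open Finset Filter MeasureTheory

namespace Pool.Agent.MW

open Pool.Agent.VK Pool.Agent.HLT Pool.Agent.VM

namespace FullMuAux

/-- Sums up to `3X` and more. -/
lemma char_mu (A D : ℕ) : ∃ K : ℝ, 0 < K ∧ ∀ᶠ X : ℕ in atTop, ∀ (q : ℕ) [NeZero q]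
    (χ : DirichletCharacter ℂ q), (q : ℝ) ≤ Real.log X ^ A → ∀ y : ℕ, X ≤ y → y ≤ 3 * X →
    ‖∑ n ∈ Icc 1 y, mu n * χ (n : ZMod q)‖ ≤ K * (X / Real.log X ^ D) := by
  obtain ⟨C1, hC1, h1⟩ := mu_sum_chi (D + A * 3)
  refine ⟨3 * C1, by linarith, ?_⟩
  filter_upwards [Pool.Agent.HLU.ev_log 72, eventually_ge_atTop 3] with X hL hX3 q _ χ hq y hXy hy
  set L := Real.log X with hLd
  have hX3' : (3 : ℝ) ≤ X := by exact_mod_cast hX3
  have hX0 : (0 : ℝ) < X := by linarith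
  have hXy' : (X : ℝ) ≤ y := by exact_mod_cast hXy
  have hy' : (y : ℝ) ≤ 3 * X := by exact_mod_cast hy
  have hL0 : 0 < L := by linarith
  have hLy : L ≤ Real.log y := Real.log_le_log hX0 hXy'
  have hq0 : (0 : ℝ) ≤ q := Nat.cast_nonneg _
  have hC0 : 0 ≤ C1 := by linarith
  have hq3 : (q : ℝ) ^ 3 ≤ L ^ (A * 3) := by
    rw [pow_mul]
    exact pow_le_pow_left₀ hq0 hq 3
  refine (h1 q χ y (by omega)).trans ?_
  calc C1 * (q : ℝ) ^ 3 * y / Real.log y ^ (D + A * 3) ≤ C1 * L ^ (A * 3) * (3 * X) / L ^ (D + A * 3) := by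
        refine div_le_div₀ (by positivity) ?_ (by positivity) (pow_le_pow_left₀ hL0.le hLy _)
        exact mul_le_mul (mul_le_mul_of_nonneg_left hq3 hC0) hy' (by positivity) (by positivity)
    _ = 3 * C1 * (X / L ^ D) := by
        rw [pow_add]
        field_simp

/-- Small frequencies. -/
theorem small_mu (A B : ℕ) : ∀ᶠ X : ℕ in atTop, ∀ (q : ℕ) [NeZero q] (χ : DirichletCharacter ℂ q),
    (q : ℝ) ≤ Real.log X ^ A → ∀ t : ℝ, |t| ≤ Real.log X ^ B →
    ‖∑ n ∈ Ioc X (3 * X), mu n * χ (n : ZMod q) * nit n t‖ ≤ X / Real.log X ^ A := by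
  obtain ⟨K, hK, hev⟩ := char_mu A (A + B + 2)
  filter_upwards [hev, Pool.Agent.HLU.ev_log (1 + 6 * K), eventually_ge_atTop 1] with
    X h1 hL hX q _ χ hq t ht
  set L := Real.log X with hLd
  have hL1 : 1 ≤ L := by linarith
  have hX0 : (0 : ℝ) < X := by exact_mod_cast hX
  set M := 2 * (K * (X / L ^ (A + B + 2))) with hM
  have hM0 : 0 ≤ M := by positivity
  have h2 : ∀ y, X ≤ y → y ≤ 3 * X → ‖∑ n ∈ Ioc X y, mu n * χ (n : ZMod q)‖ ≤ M := by
    intro y hXy hy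
    have e1 : ∑ n ∈ Ioc X y, mu n * χ (n : ZMod q) =
        ∑ n ∈ Icc 1 y, mu n * χ (n : ZMod q) - ∑ n ∈ Icc 1 X, mu n * χ (n : ZMod q) := by
      have e2 := Finset.sum_Ioc_consecutive (fun n => mu n * χ (n : ZMod q)) (Nat.zero_le X) hXy
      have e3 : ∀ m : ℕ, Icc 1 m = Ioc 0 m := by
        intro m
        ext n
        simp only [Finset.mem_Icc, Finset.mem_Ioc]
        omega
      rw [e3, e3, ← e2]
      ring
    rw [e1]
    refine (norm_sub_le _ _).trans ?_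
    have e4 := h1 q χ hq y hXy hy
    have e5 := h1 q χ hq X le_rfl (by omega)
    rw [hM]
    linarith
  have h3 := Pool.Agent.VK.SmallTAux.abel hX (t := t) h2 (2 * X) le_rfl
  have e6 : X + 2 * X = 3 * X := by ring
  rw [e6] at h3
  have h4 := h2 (3 * X) (by omega) le_rfl
  have h5 : ‖∑ n ∈ Ioc X (3 * X), mu n * χ (n : ZMod q) * nit n t‖ ≤ M + 2 * M * |t| := by
    have e7 : ∑ n ∈ Ioc X (3 * X), mu n * χ (n : ZMod q) * nit n t =
        (∑ n ∈ Ioc X (3 * X), mu n * χ (n : ZMod q) * nit n t -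
          (∑ n ∈ Ioc X (3 * X), mu n * χ (n : ZMod q)) * nit (3 * X) t) +
        (∑ n ∈ Ioc X (3 * X), mu n * χ (n : ZMod q)) * nit (3 * X) t := by ring
    rw [e7]
    refine (norm_add_le _ _).trans ?_
    have e8 : ‖(∑ n ∈ Ioc X (3 * X), mu n * χ (n : ZMod q)) * nit (3 * X) t‖ ≤ M := by
      rw [norm_mul, norm_nit (by omega), mul_one]
      exact h4
    have e9 : ((2 * X : ℕ) : ℝ) * (M * (|t| / X)) = 2 * M * |t| := by
      push_cast
      field_simp
    rw [e9] at h3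
    linarith
  refine h5.trans ?_
  have hLB : 1 ≤ L ^ B := one_le_pow₀ hL1
  have h6 : M + 2 * M * |t| ≤ 3 * M * L ^ B := by
    have e1 : M * |t| ≤ M * L ^ B := mul_le_mul_of_nonneg_left ht hM0
    have e2 : M * 1 ≤ M * L ^ B := mul_le_mul_of_nonneg_left hLB hM0
    linarith
  refine h6.trans ?_
  have h7 : 3 * M * L ^ B = 6 * K * X / (L ^ A * L ^ 2) := by
    rw [hM, pow_add, pow_add]
    field_simp
    ring
  rw [h7, div_le_div_iff₀ (by positivity) (by positivity)]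
  have h8 : 6 * K ≤ L ^ 2 := by
    have e1 : L ≤ L ^ 2 := by nlinarith
    linarith
  calc 6 * K * X * L ^ A = (6 * K) * (X * L ^ A) := by ring
    _ ≤ L ^ 2 * (X * L ^ A) := mul_le_mul_of_nonneg_right h8 (by positivity)
    _ = _ := by ring

end FullMuAux

theorem full_mu (A : ℕ) : ∀ᶠ X : ℕ in atTop, ∀ (q : ℕ) [NeZero q] (χ : DirichletCharacter ℂ q),
    (q : ℝ) ≤ Real.log X ^ A →
    ∫ t in (-((X : ℝ) ^ (1 / 5 : ℝ)))..((X : ℝ) ^ (1 / 5 : ℝ)), ‖∑ n ∈ Ioc X (3 * X), mu n * χ (n : ZMod q) * nit n t‖ ^ 2 ≤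
      X ^ 2 / Real.log X ^ A := by
  obtain ⟨B0, hB0⟩ := dp_mu (A + 2)
  obtain ⟨B, hBdef⟩ : ∃ B, B = B0 + A + 2 := ⟨_, rfl⟩
  filter_upwards [hB0, FullMuAux.small_mu (A + B + 2) B, Pool.Agent.HLU.ev_log 8,
    eventually_ge_atTop 1] with X hdX hsX hLX hX q _ χ hq
  obtain ⟨L, hL⟩ : ∃ L, L = Real.log X := ⟨_, rfl⟩
  rw [← hL] at hdX hsX hLX hq ⊢
  have hL1 : 1 ≤ L := by linarith only [hLX]
  have hL0 : 0 < L := by linarith only [hLX]
  have hX0 : (0 : ℝ) < X := by exact_mod_cast hX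
  obtain ⟨T, hT⟩ : ∃ T, T = (X : ℝ) ^ (1 / 5 : ℝ) := ⟨_, rfl⟩
  rw [← hT] at hdX ⊢
  have hT0 : 0 < T := by rw [hT]; positivity
  obtain ⟨T0, hT0d⟩ : ∃ T0, T0 = L ^ B := ⟨_, rfl⟩
  have hT01 : 1 ≤ T0 := by rw [hT0d]; exact one_le_pow₀ hL1
  have hci : ∀ a b : ℝ, IntervalIntegrable
      (fun t => ‖∑ n ∈ Ioc X (3 * X), mu n * χ (n : ZMod q) * nit n t‖ ^ 2) volume a b := fun a b =>
    (Pool.Agent.VL.FullL23Aux.cont_sum (fun n => mu n * χ (n : ZMod q)) X).intervalIntegrable _ _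
  -- small frequencies
  have hsmall : ∀ S : ℝ, 0 ≤ S → S ≤ T0 →
      ∫ t in (-S)..S, ‖∑ n ∈ Ioc X (3 * X), mu n * χ (n : ZMod q) * nit n t‖ ^ 2 ≤
        X ^ 2 / L ^ A * (2 / L) := by
    intro S hS hST
    have h1 : ∫ t in (-S)..S, ‖∑ n ∈ Ioc X (3 * X), mu n * χ (n : ZMod q) * nit n t‖ ^ 2 ≤
        ∫ _t in (-S)..S, (X / L ^ (A + B + 2)) ^ 2 := by
      refine intervalIntegral.integral_mono_on (by linarith only [hS])
        (hci _ _) intervalIntegrable_const ?_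
      intro t ht
      refine pow_le_pow_left₀ (norm_nonneg _) (hsX q χ (hq.trans ?_) t ?_) 2
      · exact pow_le_pow_right₀ hL1 (by omega)
      · rw [← hT0d]
        exact (abs_le.2 ⟨ht.1, ht.2⟩).trans hST
    refine h1.trans ?_
    rw [intervalIntegral.integral_const, smul_eq_mul, sub_neg_eq_add]
    calc (S + S) * (X / L ^ (A + B + 2)) ^ 2 ≤ (L ^ B + L ^ B) * (X / L ^ (A + B + 2)) ^ 2 := by
          rw [hT0d] at hST
          exact mul_le_mul_of_nonneg_right (by linarith only [hST]) (by (clear * - hX hL1; positivity))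
      _ = X ^ 2 / L ^ A * (2 / (L ^ A * L ^ B * L ^ 4)) := by
          rw [div_pow, ← pow_mul, show (A + B + 2) * 2 = A + A + B + B + 4 by ring]
          simp only [pow_add]
          field_simp
          ring
      _ ≤ X ^ 2 / L ^ A * (2 / L) := by
          refine mul_le_mul_of_nonneg_left ?_ (by (clear * - hX hL1; positivity))
          refine div_le_div_of_nonneg_left (by norm_num) hL0 ?_
          have e1 : 1 ≤ L ^ A := one_le_pow₀ hL1
          have e2 : 1 ≤ L ^ B := one_le_pow₀ hL1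
          have e3 : L ≤ L ^ 4 := le_self_pow₀ hL1 (by norm_num)
          calc L = 1 * 1 * L := by ring
            _ ≤ L ^ A * L ^ B * L ^ 4 := by gcongr
  have hfin : ∀ u : ℝ, u ≤ 1 → X ^ 2 / L ^ A * u ≤ X ^ 2 / L ^ A := by
    intro u hu
    have h1 : 0 ≤ X ^ 2 / L ^ A := by (clear * - hX hL1; positivity)
    calc X ^ 2 / L ^ A * u ≤ X ^ 2 / L ^ A * 1 := mul_le_mul_of_nonneg_left hu h1
      _ = _ := mul_one _
  rcases le_total T T0 with hTT | hTT
  · refine (hsmall T hT0.le hTT).trans (hfin _ ?_)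
    rw [div_le_one hL0]
    linarith only [hLX]
  · -- large frequencies
    have hB1 : L ^ B0 ≤ T0 := by
      rw [hT0d]
      exact pow_le_pow_right₀ hL1 (by omega)
    have hqA : (q : ℝ) ≤ L ^ (A + 2) := hq.trans (pow_le_pow_right₀ hL1 (by omega))
    have hgp := hdX q χ hqA T0 T hTT (fun t h1 h2 => by
      have ht : 0 ≤ t := by linarith only [hT01, h1]
      rw [abs_of_nonneg ht]
      exact ⟨hB1.trans h1, h2⟩)
    have hgn := hdX q χ hqA (-T) (-T0) (by linarith only [hTT]) (fun t h1 h2 => by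
      have ht : t ≤ 0 := by linarith only [hT01, h2]
      rw [abs_of_nonpos ht]
      exact ⟨by linarith only [hB1, h2], by linarith only [h1]⟩)
    have hT00 : 0 < T0 := by linarith only [hT01]
    have hmid := hsmall T0 hT00.le le_rfl
    rw [← intervalIntegral.integral_add_adjacent_intervals (hci (-T) (-T0)) (hci (-T0) T),
      ← intervalIntegral.integral_add_adjacent_intervals (hci (-T0) T0) (hci T0 T)]
    have e1 : (X : ℝ) ^ 2 / L ^ (A + 2) ≤ X ^ 2 / L ^ A * (1 / L) := by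
      rw [← div_eq_mul_one_div, div_div, ← pow_succ]
      exact div_le_div_of_nonneg_left (by (clear * - hX; positivity)) (by (clear * - hL1; positivity))
        (pow_le_pow_right₀ hL1 (by omega))
    have e3 : X ^ 2 / L ^ A * (1 / L) * 2 + X ^ 2 / L ^ A * (2 / L) = X ^ 2 / L ^ A * (4 / L) := by
      ring
    have e4 := hfin (4 / L) (by
      rw [div_le_one hL0]
      linarith only [hLX])
    linarith only [hgp, hgn, hmid, e1, e3, e4]

end Pool.Agent.MW
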