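import Pool.Agent.Lib.MW.Defs

/-!
# Module HBm: Heath-Brown's identity for the Moebius function

Copy the proof of `VM.hb` (file VM/HB.lean) without the logarithm: `Mu = MC`, `MC * ZC = 1`. `1 - Mz z * ZC` vanishes below `z + 1` except... : exactly as in
`HBAux.hb_ring`: `(res r MC) * (1 - res r (Mz z) * res r ZC)^6` vanishes at all `n ≤ z^6` (it equals `(1 - res (Mz) res ZC)^5 (res MC - res Mz)`,
all factors supported on `n > z`), and the binomial formula with `res MC * res ZC = 1` gives for `n ≤ z^6`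
`res r MC n = ∑_{j=1}^6 (-1)^(j-1) C(6,j) (res r (Mz z)^j * res r ZC^(j-1)) n`.
Then `sum_Fcl`, `ag_M`, `ag_S`: with `wm e = wt12 e` for `e 6 = 0`, 0 otherwise, the variable `i = 6` is restricted to the cell `e 6 = 0`,
`cellS r 0 0 = 1` (`cellS_zero`). One way: `∑_e wm e * Fcl z r 0 e n` = the sum over the `e` with `e 6 = 0`; write
`∑_{e, e 6 = 0}` as a product of sums as in `prod_cl`/`sum_Fcl` (with the set of cells for `i = 6` replaced by `{0}`, i.e. redo the short proofs of `prod_cl` and `sum_Fcl`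
with `cl' E j i = if i = 6 then {0} else cl E j i`), so
`∑_e (if padded then 1) [e 6 = 0] Fcl z r 0 e = (∑_{c ≤ E} cellM r z c)^j * 1 * (∑_{c ≤ E} cellS r 0 c)^(j-1)`.
All auxiliary lemmas are in the namespace `Pool.Agent.VM.HBAux` and may be used.
-/

set_option autoImplicit false

open Finset Filter

namespace Pool.Agent.MW

open Pool.Agent.VK Pool.Agent.HLT Pool.Agent.VM

open Pool.Agent.VM.HBAux

namespace HBmAux

/-- Heath-Brown's identity for the Moebius function -/
lemma hbm_ring (z r n : ℕ) (hn : n ≤ z ^ 6) :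
    res r MC n = ∑ j ∈ Icc 1 6, ((-1 : ℂ) ^ (j - 1) * (Nat.choose 6 j : ℂ)) *
      (res r (Mz z) ^ j * res r ZC ^ (j - 1)) n := by
  obtain ⟨M, hM⟩ : ∃ M, M = res r (Mz z) := ⟨_, rfl⟩
  obtain ⟨Z, hZ⟩ : ∃ Z, Z = res r ZC := ⟨_, rfl⟩
  obtain ⟨U, hU⟩ : ∃ U, U = res r MC := ⟨_, rfl⟩
  have h1 : U * Z = 1 := by rw [hU, hZ, ← res_mul, MC_mul_ZC, res_one]
  have h3 : Sp (U - M) (z + 1) := by
    intro k hk
    by_contra hc
    apply hk
    have h4 : (U - M) k = U k - M k := map_sub (ev k) U M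
    rw [h4, hU, hM, res_apply, res_apply]
    have h5 : Mz z k = MC k := by
      show (if k ≤ z then _ else _) = _
      rw [if_pos (by omega)]
      rfl
    rw [h5, sub_self]
  have h4 : ((1 - M * Z) ^ 6 * U : ArithmeticFunction ℂ) n = 0 := by
    have h5 : (1 - M * Z) ^ 6 * U = (U - M) ^ 6 * (Z ^ 6 * U) := by
      rw [← h1]; ring
    rw [h5]
    by_contra hc
    have h6 := ((h3.pow 6).mul (Sp.one (Z ^ 6 * U))) n hc
    have h7 : z ^ 6 < (z + 1) ^ 6 := Nat.pow_lt_pow_left (Nat.lt_succ_self z) (by norm_num)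
    omega
  rw [← hM, ← hZ, ← hU]
  have h5 : U = (1 - M * Z) ^ 6 * U
      + ((6 : ℕ) : ArithmeticFunction ℂ) * (M ^ 1 * Z ^ 0)
      - ((15 : ℕ) : ArithmeticFunction ℂ) * (M ^ 2 * Z ^ 1)
      + ((20 : ℕ) : ArithmeticFunction ℂ) * (M ^ 3 * Z ^ 2)
      - ((15 : ℕ) : ArithmeticFunction ℂ) * (M ^ 4 * Z ^ 3)
      + ((6 : ℕ) : ArithmeticFunction ℂ) * (M ^ 5 * Z ^ 4)
      - ((1 : ℕ) : ArithmeticFunction ℂ) * (M ^ 6 * Z ^ 5) := by
    push_cast
    linear_combination (6 * M - 15 * M ^ 2 * Z + 20 * M ^ 3 * Z ^ 2 - 15 * M ^ 4 * Z ^ 3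
      + 6 * M ^ 5 * Z ^ 4 - M ^ 6 * Z ^ 5) * h1
  have h6 := congrArg (ev n) h5
  rw [map_sub, map_add, map_sub, map_add, map_sub, map_add] at h6
  simp only [ev_apply, nat_mul_apply] at h6
  rw [h4] at h6
  rw [h6]
  have h7 : (Icc 1 6 : Finset ℕ) = {1, 2, 3, 4, 5, 6} := by decide
  have c1 : Nat.choose 6 1 = 6 := rfl
  have c2 : Nat.choose 6 2 = 15 := rfl
  have c3 : Nat.choose 6 3 = 20 := rfl
  have c4 : Nat.choose 6 4 = 15 := rfl
  have c5 : Nat.choose 6 5 = 6 := rfl
  have c6 : Nat.choose 6 6 = 1 := rfl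
  rw [h7, sum_insert (by decide), sum_insert (by decide), sum_insert (by decide),
    sum_insert (by decide), sum_insert (by decide), sum_singleton, c1, c2, c3, c4, c5, c6]
  push_cast
  ring

/-- cells of the index `i`; the index `6` has only the cell `0` -/
def clm (E j : ℕ) (i : Fin 12) : Finset ℕ :=
  if ((j ≤ i.val ∧ i.val < 6) ∨ 6 + j ≤ i.val) ∨ i.val = 6 then {0} else range (E + 1)

lemma prod_clm {z : ℕ} (hz : 1 ≤ z) (r E : ℕ) {j : ℕ} (hj1 : 1 ≤ j) (hj6 : j ≤ 6) :
    ∏ i : Fin 12, ∑ c ∈ clm E j i, gg z r 0 i c =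
      (∑ c ∈ range (E + 1), cellM r z c) ^ j *
        (∑ c ∈ range (E + 1), cellS r 0 c) ^ (j - 1) := by
  obtain ⟨M, hM⟩ : ∃ M, M = ∑ c ∈ range (E + 1), cellM r z c := ⟨_, rfl⟩
  obtain ⟨T, hT⟩ : ∃ T, T = ∑ c ∈ range (E + 1), cellS r 0 c := ⟨_, rfl⟩
  rw [← hM, ← hT]
  have key : ∀ i : Fin 12, ∑ c ∈ clm E j i, gg z r 0 i c =
      if i.val < j then M else if i.val < 6 then 1 else if i.val = 6 then 1 else
        if i.val < 6 + j then T else 1 := by
    intro i
    unfold clm gg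
    by_cases h1 : i.val < j
    · rw [if_pos h1, if_neg (by omega), hM]
      refine sum_congr rfl fun c _ => ?_
      rw [if_pos (by omega)]
    · rw [if_neg h1]
      by_cases h2 : i.val < 6
      · rw [if_pos h2, if_pos (by omega), sum_singleton, if_pos h2, cellM_zero hz]
      · rw [if_neg h2]
        by_cases h3 : i.val = 6
        · rw [if_pos h3, if_pos (by omega), sum_singleton, if_neg h2, if_pos h3, cellS_zero]
        · rw [if_neg h3]
          by_cases h4 : i.val < 6 + j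
          · rw [if_pos h4, if_neg (by omega), hT]
            refine sum_congr rfl fun c _ => ?_
            rw [if_neg h2, if_neg h3]
          · rw [if_neg h4, if_pos (by omega), sum_singleton, if_neg h2, if_neg h3, cellS_zero]
  rw [prod_congr rfl fun i _ => key i]
  interval_cases j <;> simp [Fin.prod_univ_succ] <;> ring

lemma sum_Fclm {z : ℕ} (hz : 1 ≤ z) (r E n : ℕ) {j : ℕ} (hj1 : 1 ≤ j) (hj6 : j ≤ 6) :
    ∑ e ∈ Fintype.piFinset (fun _ : Fin 12 => range (E + 1)),
      (if (∀ i : Fin 12, ((j ≤ i.val ∧ i.val < 6) ∨ 6 + j ≤ i.val) → e i = 0) ∧ e 6 = 0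
        then (1 : ℂ) else 0) * Fcl z r 0 e n =
      ((∑ c ∈ range (E + 1), cellM r z c) ^ j *
        (∑ c ∈ range (E + 1), cellS r 0 c) ^ (j - 1)) n := by
  classical
  rw [← prod_clm hz r E hj1 hj6, prod_univ_sum, sum_apply]
  have h1 : Fintype.piFinset (clm E j) =
      (Fintype.piFinset (fun _ : Fin 12 => range (E + 1))).filter
        (fun e => (∀ i : Fin 12, ((j ≤ i.val ∧ i.val < 6) ∨ 6 + j ≤ i.val) → e i = 0) ∧
          e 6 = 0) := by
    ext e
    rw [mem_filter, Fintype.mem_piFinset, Fintype.mem_piFinset]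
    constructor
    · intro h
      refine ⟨fun i => ?_, fun i hi => ?_, ?_⟩
      · have h2 := h i
        unfold clm at h2
        split_ifs at h2
        · rw [mem_singleton] at h2
          rw [h2, mem_range]
          omega
        · exact h2
      · have h2 := h i
        unfold clm at h2
        rw [if_pos (Or.inl hi), mem_singleton] at h2
        exact h2
      · have h2 := h 6
        unfold clm at h2
        have h7 : (6 : Fin 12).val = 6 := rfl
        rw [if_pos (Or.inr h7), mem_singleton] at h2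
        exact h2
    · rintro ⟨h2, h3, h5⟩ i
      unfold clm
      split_ifs with h4
      · rw [mem_singleton]
        rcases h4 with h4 | h4
        · exact h3 i h4
        · have h6 : i = 6 := Fin.ext h4
          rw [h6, h5]
      · exact h2 i
  rw [h1, sum_filter]
  refine sum_congr rfl fun e _ => ?_
  split_ifs
  · rw [one_mul]
    rfl
  · rw [zero_mul]

end HBmAux

open HBmAux

theorem hb_mu (z r N E : ℕ) (hz : N ≤ z ^ 6) (hE : N ≤ 2 ^ E) (n : ℕ) (h1 : 1 ≤ n) (hn : n ≤ N) :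
    (if n.Coprime r then mu n else 0) =
      ∑ e ∈ Fintype.piFinset (fun _ : Fin 12 => range (E + 1)), (wm e : ℂ) * Fcl z r 0 e n := by
  classical
  have hz1 : 1 ≤ z := by
    rcases Nat.eq_zero_or_pos z with rfl | h
    · simp at hz; omega
    · exact h
  have h2 : ∀ e : Fin 12 → ℕ, (wm e : ℂ) * Fcl z r 0 e n = ∑ j ∈ Icc 1 6,
      ((-1 : ℂ) ^ (j - 1) * (Nat.choose 6 j : ℂ)) *
      ((if (∀ i : Fin 12, ((j ≤ i.val ∧ i.val < 6) ∨ 6 + j ≤ i.val) → e i = 0) ∧ e 6 = 0
        then (1 : ℂ) else 0) * Fcl z r 0 e n) := by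
    intro e
    unfold wm
    by_cases h6 : e 6 = 0
    · rw [if_pos h6]
      unfold wt12
      rw [Complex.ofReal_sum, sum_mul]
      refine sum_congr rfl fun j _ => ?_
      rw [← mul_assoc]
      congr 1
      push_cast
      congr 1
      by_cases h7 : ∀ i : Fin 12, ((j ≤ i.val ∧ i.val < 6) ∨ 6 + j ≤ i.val) → e i = 0
      · rw [if_pos h7, if_pos ⟨h7, h6⟩]
        simp
      · rw [if_neg h7, if_neg (fun h => h7 h.1)]
        simp
    · rw [if_neg h6]
      symm
      rw [Complex.ofReal_zero, zero_mul]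
      refine sum_eq_zero fun j _ => ?_
      rw [if_neg (fun h => h6 h.2), zero_mul, mul_zero]
  rw [sum_congr rfl fun e _ => h2 e, sum_comm]
  have h4 := hbm_ring z r n (hn.trans hz)
  rw [res_apply] at h4
  refine Eq.trans h4 ?_
  refine sum_congr rfl fun j hj => ?_
  rw [mem_Icc] at hj
  rw [← mul_sum, sum_Fclm hz1 r E n hj.1 hj.2]
  congr 1
  have h3 : Ag N (∑ c ∈ range (E + 1), cellS r 0 c) (res r ZC) := by
    rw [← Zy_zero]; exact ag_S hE
  exact ((((ag_M hE).pow j).mul (h3.pow (j - 1))) n hn).symm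

end Pool.Agent.MW
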