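import Pool.Agent.Lib.MW.VarAll
import Pool.Agent.Lib.MW.Ident
import Pool.Agent.Lib.MW.Dil

/-!
# Module MajorM: major arcs for the Moebius function, exponent 1/6

`L = log x`, `g m = if m.Coprime q then mu m else 0`. `mu_split`: `mu n = ∑_{d ∣ q} [d ∣ n] mu d g(n/d)`. At most `q` divisors, so by Cauchy the sum is
`≤ q ∑_{d ∣ q} ∑_u ‖∑_{n ∈ Ioc u (u+h)} [d ∣ n] g(n/d) ex(n a/q)‖²`, and `dil_win` (`j = d`, `U = V = range (2x+1)`): `≤ 2 d ∑_{v ≤ 2x} ‖∑_{m ∈ Ioc v (v + h/d)} g(m) ex(m (d a/q))‖² + 2 (2x+1)`.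
For `m` coprime to `q`: `ex(m d a/q) = ∑_χ c_χ χ(m)` over the Dirichlet characters mod `q`, `c_χ = (1/φ(q)) ∑_{b unit} ex(b d a/q) conj χ(b)`, `‖c_χ‖ ≤ 1` (orthogonality, `DirichletCharacter.sum_char_inv_mul_char_eq` or as in `VL.major_core`, file VL/MajorWin3.lean);
there are `φ(q) ≤ q` characters, so `‖·‖² ≤ q ∑_χ ‖∑_m mu m χ(m)‖²`; `var_all_mu (5 A1 + B + 2) (ε/2)` for `h' = h/d` (natural division; `x^(1/6+ε/2) ≤ h'` as `h' ≥ h/(2d)`, `d ≤ L^A1`): `≤ x h'^2/L^(5 A1 + B + 2)`.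
Total `≤ q · q · (2 q · q² · x h²/L^(5A1+B+2) + 6x) ≤ x h²/L^B`.
-/

set_option autoImplicit false

open Finset Filter

namespace Pool.Agent.MW

open Pool.Agent.VK Pool.Agent.HLT Pool.Agent.VM

namespace MajorMAux

lemma ex_modq (q : ℕ) (hq : 1 ≤ q) (a : ℤ) (n : ℕ) :
    ex (n * (a / q)) = ex (((n % q : ℕ) : ℝ) * (a / q)) := by
  have hq0 : (q : ℝ) ≠ 0 := by
    exact_mod_cast (by omega : q ≠ 0)
  have h2 : (n : ℝ) = ((n % q : ℕ) : ℝ) + q * ((n / q : ℕ) : ℝ) := by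
    exact_mod_cast (Nat.mod_add_div n q).symm
  generalize n / q = k at h2
  have h1 : (n : ℝ) * (a / q) = ((n % q : ℕ) : ℝ) * (a / q) + ((k : ℤ) * a : ℤ) := by
    conv_lhs => rw [h2]
    push_cast
    field_simp
  rw [h1, ex_add_int]

/-- The coefficient of the character. -/
noncomputable def co (q : ℕ) [NeZero q] (θ : ℝ) (χ : DirichletCharacter ℂ q) : ℂ :=
  (q.totient : ℂ)⁻¹ * ∑ b : (ZMod q)ˣ, ex (((b : ZMod q).val : ℝ) * θ) * χ ((b : ZMod q)⁻¹)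

lemma tot_ne (q : ℕ) [NeZero q] : (q.totient : ℂ) ≠ 0 := by
  exact_mod_cast (Nat.totient_pos.2 (Nat.pos_of_ne_zero (NeZero.ne q))).ne'

lemma norm_co (q : ℕ) [NeZero q] (θ : ℝ) (χ : DirichletCharacter ℂ q) : ‖co q θ χ‖ ≤ 1 := by
  have hφ : (0 : ℝ) < q.totient := by
    exact_mod_cast Nat.totient_pos.2 (Nat.pos_of_ne_zero (NeZero.ne q))
  unfold co
  rw [norm_mul, norm_inv, Complex.norm_natCast]
  have h1 : ‖∑ b : (ZMod q)ˣ, ex (((b : ZMod q).val : ℝ) * θ) * χ ((b : ZMod q)⁻¹)‖ ≤ q.totient := by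
    refine (norm_sum_le _ _).trans ?_
    calc ∑ b : (ZMod q)ˣ, ‖ex (((b : ZMod q).val : ℝ) * θ) * χ ((b : ZMod q)⁻¹)‖
        ≤ ∑ b : (ZMod q)ˣ, (1 : ℝ) := by
          refine Finset.sum_le_sum fun b _ => ?_
          rw [norm_mul, norm_ex, one_mul]
          exact DirichletCharacter.norm_le_one χ _
      _ = q.totient := by
          rw [Finset.sum_const, Finset.card_univ, ZMod.card_units_eq_totient, nsmul_eq_mul, mul_one]
  calc (q.totient : ℝ)⁻¹ * ‖∑ b : (ZMod q)ˣ, ex (((b : ZMod q).val : ℝ) * θ) * χ ((b : ZMod q)⁻¹)‖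
      ≤ (q.totient : ℝ)⁻¹ * q.totient := mul_le_mul_of_nonneg_left h1 (inv_nonneg.2 hφ.le)
    _ = 1 := inv_mul_cancel₀ hφ.ne'

/-- Orthogonality. -/
lemma expand (q : ℕ) [NeZero q] (a : ℤ) (m : ℕ) :
    (if m.Coprime q then mu m else 0) * ex (m * (a / q)) =
      ∑ χ : DirichletCharacter ℂ q, co q (a / q) χ * (mu m * χ (m : ZMod q)) := by
  classical
  by_cases hm : m.Coprime q
  · rw [if_pos hm]
    have h1 : ∀ χ : DirichletCharacter ℂ q, co q (a / q) χ * (mu m * χ (m : ZMod q)) =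
        mu m * ((q.totient : ℂ)⁻¹ * ∑ b : (ZMod q)ˣ, ex (((b : ZMod q).val : ℝ) * (a / q)) *
          (χ ((b : ZMod q)⁻¹) * χ (m : ZMod q))) := by
      intro χ
      unfold co
      have h2 : ∑ b : (ZMod q)ˣ, ex (((b : ZMod q).val : ℝ) * (a / q)) * (χ ((b : ZMod q)⁻¹) * χ (m : ZMod q)) =
          (∑ b : (ZMod q)ˣ, ex (((b : ZMod q).val : ℝ) * (a / q)) * χ ((b : ZMod q)⁻¹)) * χ (m : ZMod q) := by
        rw [Finset.sum_mul]
        exact Finset.sum_congr rfl fun b _ => by ring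
      rw [h2]
      ring
    rw [Finset.sum_congr rfl (fun χ _ => h1 χ), ← Finset.mul_sum, ← Finset.mul_sum, Finset.sum_comm]
    have hu : IsUnit (m : ZMod q) := (ZMod.isUnit_iff_coprime m q).2 hm
    have h3 : ∀ b : (ZMod q)ˣ, ∑ χ : DirichletCharacter ℂ q, ex (((b : ZMod q).val : ℝ) * (a / q)) *
        (χ ((b : ZMod q)⁻¹) * χ (m : ZMod q)) =
        if b = hu.unit then (q.totient : ℂ) * ex (((m : ZMod q).val : ℝ) * (a / q)) else 0 := by
      intro b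
      rw [← Finset.mul_sum, DirichletCharacter.sum_char_inv_mul_char_eq ℂ b.isUnit]
      by_cases hb : b = hu.unit
      · have hb2 : (b : ZMod q) = (m : ZMod q) := by rw [hb]; rfl
        rw [if_pos hb, if_pos hb2, hb2, mul_comm]
      · have hb2 : ¬ (b : ZMod q) = (m : ZMod q) := by
          intro h
          apply hb
          apply Units.ext
          rw [h]
          rfl
        rw [if_neg hb, if_neg hb2, mul_zero]
    rw [Finset.sum_congr rfl (fun b _ => h3 b), Finset.sum_ite_eq' Finset.univ, if_pos (Finset.mem_univ _),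
      inv_mul_cancel_left₀ (tot_ne q), ZMod.val_natCast,
      ex_modq q (Nat.pos_of_ne_zero (NeZero.ne q)) a m]
  · rw [if_neg hm, zero_mul]
    symm
    apply Finset.sum_eq_zero
    intro χ _
    have h1 : χ (m : ZMod q) = 0 := by
      apply MulChar.map_nonunit
      rw [ZMod.isUnit_iff_coprime]
      exact hm
    rw [h1]
    ring

lemma card_char (q : ℕ) [NeZero q] : (Fintype.card (DirichletCharacter ℂ q) : ℝ) ≤ q := by
  have h1 : Fintype.card (DirichletCharacter ℂ q) = q.totient := by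
    rw [← Nat.card_eq_fintype_card, DirichletCharacter.card_eq_totient_of_hasEnoughRootsOfUnity ℂ q]
  rw [h1]
  exact_mod_cast Nat.totient_le q

/-- Cauchy with equal weights. -/
lemma cau {ι : Type*} (I : Finset ι) (U : Finset ℕ) (S : ι → ℕ → ℂ) :
    ∑ u ∈ U, ‖∑ i ∈ I, S i u‖ ^ 2 ≤ I.card * ∑ i ∈ I, ∑ u ∈ U, ‖S i u‖ ^ 2 := by
  have h := cauchy_ws I (fun _ => 1) (fun _ _ => one_pos) U S
  simpa using h

/-- The coprime part. -/
lemma part (q : ℕ) [NeZero q] (a : ℤ) (U : Finset ℕ) (H : ℕ) (M : ℝ) (hM0 : 0 ≤ M)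
    (hM : ∀ χ : DirichletCharacter ℂ q, ∑ u ∈ U, ‖∑ m ∈ Ioc u (u + H), mu m * χ (m : ZMod q)‖ ^ 2 ≤ M) :
    ∑ u ∈ U, ‖∑ m ∈ Ioc u (u + H), (if m.Coprime q then mu m else 0) * ex (m * (a / q))‖ ^ 2 ≤ q ^ 2 * M := by
  have h1 : ∀ u : ℕ, ∑ m ∈ Ioc u (u + H), (if m.Coprime q then mu m else 0) * ex (m * (a / q)) =
      ∑ χ ∈ (Finset.univ : Finset (DirichletCharacter ℂ q)),
        co q (a / q) χ * ∑ m ∈ Ioc u (u + H), mu m * χ (m : ZMod q) := by
    intro u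
    rw [Finset.sum_congr rfl (fun m _ => expand q a m), Finset.sum_comm]
    exact Finset.sum_congr rfl fun χ _ => by rw [Finset.mul_sum]
  rw [Finset.sum_congr rfl (fun u _ => by rw [h1 u])]
  refine (cau _ _ _).trans ?_
  rw [Finset.card_univ]
  have hc := card_char q
  have h2 : ∑ χ ∈ (Finset.univ : Finset (DirichletCharacter ℂ q)), ∑ u ∈ U,
      ‖co q (a / q) χ * ∑ m ∈ Ioc u (u + H), mu m * χ (m : ZMod q)‖ ^ 2 ≤ q * M := by
    calc _ ≤ ∑ χ ∈ (Finset.univ : Finset (DirichletCharacter ℂ q)), M := by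
          refine Finset.sum_le_sum fun χ _ => le_trans (Finset.sum_le_sum fun u _ => ?_) (hM χ)
          rw [norm_mul, mul_pow]
          have h3 := pow_le_one₀ (n := 2) (norm_nonneg _) (norm_co q (a / q) χ)
          calc ‖co q (a / q) χ‖ ^ 2 * ‖∑ m ∈ Ioc u (u + H), mu m * χ (m : ZMod q)‖ ^ 2
              ≤ 1 * ‖∑ m ∈ Ioc u (u + H), mu m * χ (m : ZMod q)‖ ^ 2 :=
                mul_le_mul_of_nonneg_right h3 (sq_nonneg _)
            _ = _ := one_mul _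
      _ = (Fintype.card (DirichletCharacter ℂ q) : ℝ) * M := by
          rw [Finset.sum_const, Finset.card_univ, nsmul_eq_mul]
      _ ≤ q * M := mul_le_mul_of_nonneg_right hc hM0
  calc _ ≤ (q : ℝ) * (q * M) := mul_le_mul hc h2
        (Finset.sum_nonneg fun _ _ => Finset.sum_nonneg fun _ _ => sq_nonneg _) (Nat.cast_nonneg q)
    _ = _ := by ring

/-- The function of the divisor `d`. -/
noncomputable def fd (q d : ℕ) (m : ℕ) : ℂ := mu d * (if m.Coprime q then mu m else 0)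

lemma norm_fd (q d m : ℕ) : ‖fd q d m‖ ≤ 1 := by
  unfold fd
  rw [norm_mul]
  have h1 : ‖(if m.Coprime q then mu m else 0 : ℂ)‖ ≤ 1 := by
    split_ifs
    · exact norm_mu m
    · simp
  calc ‖mu d‖ * ‖(if m.Coprime q then mu m else 0 : ℂ)‖ ≤ 1 * 1 :=
        mul_le_mul (norm_mu d) h1 (norm_nonneg _) zero_le_one
    _ = 1 := one_mul _

/-- One divisor. -/
lemma one_div' (q : ℕ) [NeZero q] (a : ℤ) (x h d : ℕ) (hd : 1 ≤ d) (hdq : d ≤ q) (M : ℝ) (hM0 : 0 ≤ M)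
    (hM : ∀ χ : DirichletCharacter ℂ q,
      ∑ u ∈ range (2 * x + 1), ‖∑ m ∈ Ioc u (u + h / d), mu m * χ (m : ZMod q)‖ ^ 2 ≤ M) :
    ∑ u ∈ range (2 * x + 1), ‖∑ n ∈ Ioc u (u + h), (if d ∣ n then fd q d (n / d) else 0) * ex (n * (a / q))‖ ^ 2 ≤
      2 * q * (q ^ 2 * M) + 2 * (2 * x + 1) := by
  have h1 := dil_win (fd q d) (norm_fd q d) d h hd (a / q) (range (2 * x + 1)) (range (2 * x + 1))
    (fun u hu => by
      rw [Finset.mem_range] at hu ⊢
      exact lt_of_le_of_lt (Nat.div_le_self u d) hu)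
  refine h1.trans ?_
  rw [Finset.card_range]
  have h2 : ∑ v ∈ range (2 * x + 1), ‖∑ m ∈ Ioc v (v + h / d), fd q d m * ex (m * (d * (a / q)))‖ ^ 2 ≤ q ^ 2 * M := by
    refine le_trans (Finset.sum_le_sum fun v _ => ?_) (part q ((d : ℤ) * a) (range (2 * x + 1)) (h / d) M hM0 hM)
    refine pow_le_pow_left₀ (norm_nonneg _) ?_ 2
    have h3 : ∑ m ∈ Ioc v (v + h / d), fd q d m * ex (m * (d * (a / q))) =
        mu d * ∑ m ∈ Ioc v (v + h / d), (if m.Coprime q then mu m else 0) * ex (m * (((d : ℤ) * a : ℤ) / q)) := by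
      rw [Finset.mul_sum]
      refine Finset.sum_congr rfl fun m _ => ?_
      unfold fd
      have h4 : (m : ℝ) * (d * (a / q)) = m * ((((d : ℤ) * a : ℤ) : ℝ) / q) := by
        push_cast
        ring
      rw [h4]
      ring
    rw [h3, norm_mul]
    calc ‖mu d‖ * ‖∑ m ∈ Ioc v (v + h / d), (if m.Coprime q then mu m else 0) * ex (m * (((d : ℤ) * a : ℤ) / q))‖
        ≤ 1 * ‖∑ m ∈ Ioc v (v + h / d), (if m.Coprime q then mu m else 0) * ex (m * (((d : ℤ) * a : ℤ) / q))‖ :=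
          mul_le_mul_of_nonneg_right (norm_mu d) (norm_nonneg _)
      _ = _ := one_mul _
  have hd' : (d : ℝ) ≤ q := by exact_mod_cast hdq
  have h5 : (2 : ℝ) * d * ∑ v ∈ range (2 * x + 1), ‖∑ m ∈ Ioc v (v + h / d), fd q d m * ex (m * (d * (a / q)))‖ ^ 2 ≤
      2 * q * (q ^ 2 * M) := by
    refine mul_le_mul (by linarith) h2 (Finset.sum_nonneg fun _ _ => sq_nonneg _) (by positivity)
  push_cast
  linarith

/-- All divisors. -/
lemma all_div (q : ℕ) [NeZero q] (a : ℤ) (x h : ℕ) (M : ℝ) (hM0 : 0 ≤ M)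
    (hM : ∀ d, 1 ≤ d → d ≤ q → ∀ χ : DirichletCharacter ℂ q,
      ∑ u ∈ range (2 * x + 1), ‖∑ m ∈ Ioc u (u + h / d), mu m * χ (m : ZMod q)‖ ^ 2 ≤ M) :
    ∑ u ∈ range (2 * x + 1), ‖∑ n ∈ Ioc u (u + h), mu n * ex (n * (a / q))‖ ^ 2 ≤
      q * (q * (2 * q * (q ^ 2 * M) + 2 * (2 * x + 1))) := by
  have hq1 : 1 ≤ q := Nat.pos_of_ne_zero (NeZero.ne q)
  have h1 : ∀ u : ℕ, ∑ n ∈ Ioc u (u + h), mu n * ex (n * (a / q)) =
      ∑ d ∈ q.divisors, ∑ n ∈ Ioc u (u + h), (if d ∣ n then fd q d (n / d) else 0) * ex (n * (a / q)) := by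
    intro u
    rw [Finset.sum_comm]
    refine Finset.sum_congr rfl fun n hn => ?_
    rw [Finset.mem_Ioc] at hn
    rw [mu_split q n hq1 (by omega), Finset.sum_mul]
    rfl
  rw [Finset.sum_congr rfl (fun u _ => by rw [h1 u])]
  refine (cau _ _ _).trans ?_
  have hcard : ((q.divisors.card : ℕ) : ℝ) ≤ q := by exact_mod_cast Nat.card_divisors_le_self q
  have h2 : ∑ d ∈ q.divisors, ∑ u ∈ range (2 * x + 1),
      ‖∑ n ∈ Ioc u (u + h), (if d ∣ n then fd q d (n / d) else 0) * ex (n * (a / q))‖ ^ 2 ≤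
      q * (2 * q * (q ^ 2 * M) + 2 * (2 * x + 1)) := by
    calc _ ≤ ∑ d ∈ q.divisors, (2 * q * (q ^ 2 * M) + 2 * (2 * x + 1) : ℝ) := by
          refine Finset.sum_le_sum fun d hd => ?_
          have hd1 : d ≤ q := Nat.divisor_le hd
          have hd2 : 1 ≤ d := Nat.pos_of_mem_divisors hd
          exact one_div' q a x h d hd2 hd1 M hM0 (hM d hd2 hd1)
      _ = (q.divisors.card : ℝ) * (2 * q * (q ^ 2 * M) + 2 * (2 * x + 1)) := by
          rw [Finset.sum_const, nsmul_eq_mul]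
      _ ≤ _ := mul_le_mul_of_nonneg_right hcard (by positivity)
  exact mul_le_mul hcard h2 (Finset.sum_nonneg fun _ _ => Finset.sum_nonneg fun _ _ => sq_nonneg _)
    (Nat.cast_nonneg q)

/-- The final numerical step. -/
lemma num {x h Q L : ℝ} {A B : ℕ} (hx : 1 ≤ x) (hh : 0 < h) (hQ0 : 0 ≤ Q) (hL : 2 ≤ L) (hQ : Q ≤ L ^ A)
    (hE : 12 * L ^ (2 * A + B) ≤ h ^ 2) :
    Q * (Q * (2 * Q * (Q ^ 2 * (x * h ^ 2 / L ^ (5 * A + B + 2))) + 2 * (2 * x + 1))) ≤ x * h ^ 2 / L ^ B := by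
  have hL0 : 0 < L := by linarith
  have hx0 : 0 < x := by linarith
  have h5 : Q ^ 5 ≤ L ^ (5 * A) := by
    have := pow_le_pow_left₀ hQ0 hQ 5
    rwa [← pow_mul, mul_comm A 5] at this
  have h2 : Q ^ 2 ≤ L ^ (2 * A) := by
    have := pow_le_pow_left₀ hQ0 hQ 2
    rwa [← pow_mul, mul_comm A 2] at this
  have e1 : Q * (Q * (2 * Q * (Q ^ 2 * (x * h ^ 2 / L ^ (5 * A + B + 2))) + 2 * (2 * x + 1))) =
      2 * Q ^ 5 * (x * h ^ 2 / L ^ (5 * A + B + 2)) + 2 * Q ^ 2 * (2 * x + 1) := by ring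
  rw [e1]
  have p1 : 2 * Q ^ 5 * (x * h ^ 2 / L ^ (5 * A + B + 2)) ≤ x * h ^ 2 / L ^ B / 2 := by
    calc 2 * Q ^ 5 * (x * h ^ 2 / L ^ (5 * A + B + 2)) ≤ 2 * L ^ (5 * A) * (x * h ^ 2 / L ^ (5 * A + B + 2)) := by
          apply mul_le_mul_of_nonneg_right _ (by positivity)
          linarith
      _ = x * h ^ 2 / L ^ B / 2 * (4 / L ^ 2) := by
          have : L ^ (5 * A + B + 2) = L ^ (5 * A) * L ^ B * L ^ 2 := by
            rw [pow_add, pow_add]
          rw [this]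
          field_simp
          ring
      _ ≤ x * h ^ 2 / L ^ B / 2 * 1 := by
          apply mul_le_mul_of_nonneg_left _ (by positivity)
          rw [div_le_one (by positivity)]
          nlinarith only [hL]
      _ = _ := mul_one _
  have p2 : 2 * Q ^ 2 * (2 * x + 1) ≤ x * h ^ 2 / L ^ B / 2 := by
    rw [div_div, le_div_iff₀ (by positivity)]
    have h6 : 2 * Q ^ 2 * (2 * x + 1) ≤ 2 * L ^ (2 * A) * (3 * x) := by
      apply mul_le_mul _ _ (by positivity) (by positivity)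
      · linarith
      · linarith
    calc 2 * Q ^ 2 * (2 * x + 1) * (L ^ B * 2) ≤ 2 * L ^ (2 * A) * (3 * x) * (L ^ B * 2) :=
          mul_le_mul_of_nonneg_right h6 (by positivity)
      _ = x * (12 * L ^ (2 * A + B)) := by
          rw [pow_add]
          ring
      _ ≤ x * h ^ 2 := mul_le_mul_of_nonneg_left hE hx0.le
  linarith

end MajorMAux

theorem major_mu (A1 B : ℕ) (ε : ℝ) (hε : 0 < ε) : ∀ᶠ x : ℕ in atTop, ∀ (q : ℕ) (a : ℤ),
    1 ≤ q → (q : ℝ) ≤ Real.log x ^ A1 → ∀ h : ℕ, (x : ℝ) ^ (1 / 6 + ε) ≤ h → (h : ℝ) ≤ (x : ℝ) ^ (9 / 25 : ℝ) →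
    ∑ u ∈ range (2 * x + 1), ‖∑ n ∈ Ioc u (u + h), mu n * ex (n * (a / q))‖ ^ 2 ≤ x * (h : ℝ) ^ 2 / Real.log x ^ B := by
  classical
  filter_upwards [var_all_mu (5 * A1 + B + 2) (ε / 2) (by linarith), eventually_ge_atTop 1, VL.VarChi3Aux.ev_log 2,
    VL.VarChi3Aux.ev_rpow A1 2 (ε / 2) (by linarith),
    VL.VarChi3Aux.ev_rpow (2 * A1 + B) 12 (1 / 3) (by norm_num)] with x hv hx1 hL2 hE1 hE2
  intro q a hq1 hq h hh hhx
  have : NeZero q := ⟨by omega⟩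
  have hx0 : (1 : ℝ) ≤ x := by exact_mod_cast hx1
  have hxpos : (0 : ℝ) < x := by linarith only [hx0]
  have hhpos : (0 : ℝ) < h := lt_of_lt_of_le (Real.rpow_pos_of_pos hxpos _) hh
  have hL0 : 0 < Real.log x := by linarith only [hL2]
  have hL1 : 1 ≤ Real.log x := by linarith only [hL2]
  have hq' : (q : ℝ) ≤ Real.log x ^ (5 * A1 + B + 2) := hq.trans (pow_le_pow_right₀ hL1 (by omega))
  have hM : ∀ d, 1 ≤ d → d ≤ q → ∀ χ : DirichletCharacter ℂ q,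
      ∑ u ∈ range (2 * x + 1), ‖∑ m ∈ Ioc u (u + h / d), mu m * χ (m : ZMod q)‖ ^ 2 ≤
        x * (h : ℝ) ^ 2 / Real.log x ^ (5 * A1 + B + 2) := by
    intro d hd hdq χ
    have hd0 : (0 : ℝ) < d := by exact_mod_cast hd
    have hdL : (d : ℝ) ≤ Real.log x ^ A1 := le_trans (by exact_mod_cast hdq) hq
    have hle : ((h / d : ℕ) : ℝ) ≤ h := by exact_mod_cast Nat.div_le_self h d
    have hlow : (x : ℝ) ^ (1 / 6 + ε / 2) ≤ ((h / d : ℕ) : ℝ) := by
      have c1 : (h : ℝ) < d * (((h / d : ℕ) : ℝ) + 1) := by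
        have := Nat.lt_mul_div_succ h hd
        exact_mod_cast this
      have c2 : (1 : ℝ) ≤ (x : ℝ) ^ (1 / 6 + ε / 2) := Real.one_le_rpow hx0 (by linarith only [hε])
      have c3 : (x : ℝ) ^ (1 / 6 + ε) = (x : ℝ) ^ (ε / 2) * (x : ℝ) ^ (1 / 6 + ε / 2) := by
        rw [← Real.rpow_add hxpos]
        congr 1
        ring
      have c4 : 2 * (d : ℝ) * (x : ℝ) ^ (1 / 6 + ε / 2) ≤ h := by
        calc 2 * (d : ℝ) * (x : ℝ) ^ (1 / 6 + ε / 2) ≤ (x : ℝ) ^ (ε / 2) * (x : ℝ) ^ (1 / 6 + ε / 2) :=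
              mul_le_mul_of_nonneg_right (by linarith only [hdL, hE1]) (by linarith only [c2])
          _ = (x : ℝ) ^ (1 / 6 + ε) := c3.symm
          _ ≤ h := hh
      have c5 : 2 * (x : ℝ) ^ (1 / 6 + ε / 2) < ((h / d : ℕ) : ℝ) + 1 := by
        by_contra hcon
        push Not at hcon
        have := mul_le_mul_of_nonneg_left hcon hd0.le
        linarith only [this, c1, c4]
      linarith only [c5, c2]
    refine (hv q χ hq' (h / d) hlow (hle.trans hhx)).trans ?_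
    have hsq : ((h / d : ℕ) : ℝ) ^ 2 ≤ (h : ℝ) ^ 2 := pow_le_pow_left₀ (Nat.cast_nonneg _) hle 2
    exact div_le_div_of_nonneg_right (mul_le_mul_of_nonneg_left hsq hxpos.le) (by positivity)
  refine (MajorMAux.all_div q a x h _ (by positivity) hM).trans ?_
  refine MajorMAux.num hx0 hhpos (Nat.cast_nonneg q) hL2 hq ?_
  refine hE2.trans ?_
  have e1 : (x : ℝ) ^ (1 / 3 : ℝ) = ((x : ℝ) ^ (1 / 6 : ℝ)) ^ 2 := by
    rw [← Real.rpow_natCast, ← Real.rpow_mul hxpos.le]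
    norm_num
  rw [e1]
  refine pow_le_pow_left₀ (Real.rpow_nonneg hxpos.le _) ?_ 2
  exact (Real.rpow_le_rpow_of_exponent_le hx0 (by linarith only [hε])).trans hh

end Pool.Agent.MW
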