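import Pool.Agent.Lib.MW.BlkLam
import Pool.Agent.Lib.VM.MinorP6

/-!
# Module MinorL: minor arcs for the Liouville function, all windows

`L = log x`, `blk_lam (B + 3) (ε/2)` gives `A'`; `A = A' + 1`. `u < X0 = ⌈x^(19/20)⌉`: trivially `≤ (X0 + 1) H²`. The remaining `u ≤ 2x` are covered by the blocks `Icc X (2X)`, `X = 2^j X0 ≤ 2x` (`VM.MinorP6Aux.cover` or `VL.VarChi3Aux.dyadic`), at most `3L` of them;
`H ≥ x^(1/6+ε) ≥ X^(1/6+ε/2)`, `H ≤ x^(9/25) ≤ X^(19/50)` since `X ≥ x^(19/20)` and `(19/50)(19/20) = 0.361 > 0.36`; `Mn ((log X)^A') H α` from `Mn (L^A) H α` (`Mn.mono`; `log X ≤ 2L`, `(2L)^A' ≤ L^A`).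
`blk_lam`: `≤ X H²/(log X)^(B+3) ≤ 2 x H² 2^(B+3)/L^(B+3)`.
See `VM.minor_win_prime6` (file VM/MinorP6.lean) for the same computation.
-/

set_option autoImplicit false

open Finset Filter

namespace Pool.Agent.MW

open Pool.Agent.VK Pool.Agent.HLT Pool.Agent.VM

theorem minor_li (B : ℕ) (ε : ℝ) (hε : 0 < ε) : ∃ A : ℕ, ∀ᶠ x : ℕ in atTop, ∀ (H : ℕ) (α : ℝ),
    (x : ℝ) ^ (1 / 6 + ε) ≤ H → (H : ℝ) ≤ (x : ℝ) ^ (9 / 25 : ℝ) → Mn (Real.log x ^ A) H α →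
    ∑ u ∈ range (2 * x + 1), ‖∑ n ∈ Ioc u (u + H), li n * ex (n * α)‖ ^ 2 ≤ x * (H : ℝ) ^ 2 / Real.log x ^ B := by
  obtain ⟨Ab, hblk⟩ := blk_lam (B + 3) (ε / 2) (by positivity)
  obtain ⟨N0, hN0⟩ := eventually_atTop.1 hblk
  refine ⟨Ab + 1, ?_⟩
  filter_upwards [Pool.Agent.HLU.ev_log 4, Pool.Agent.HLU.ev_log (2 ^ Ab),
    Pool.Agent.HLU.ev_log (2 ^ (B + 8)),
    Pool.Agent.VL.MinorWinP3Aux.ev_log_pow B (show (0 : ℝ) < 4 by norm_num)
      (show (0 : ℝ) < 1 / 20 by norm_num),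
    MinorP6Aux.ev_rpow_ge (19 / 20) N0 (by norm_num),
    MinorP6Aux.ev_rpow_ge (ε / 2) ((2 : ℝ) ^ (1 / 6 + ε / 2))
      (by positivity), eventually_ge_atTop 2]
    with x hL4 hLA hLB e2 hxN0 e4 hx2 H α hH hHx hMn
  obtain ⟨L, hL⟩ : ∃ L, L = Real.log x := ⟨_, rfl⟩
  rw [← hL] at hL4 hLA hLB e2 hMn ⊢
  have hL0 : 0 < L := by linarith only [hL4]
  have hL1 : 1 ≤ L := by linarith only [hL4]
  have hx1 : 1 ≤ x := by omega
  have hx1r : (1 : ℝ) ≤ x := by exact_mod_cast hx1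
  have hx0 : (0 : ℝ) < x := by linarith only [hx1r]
  have hmono : ∀ u v : ℝ, u ≤ v → (x : ℝ) ^ u ≤ (x : ℝ) ^ v := fun u v huv =>
    Real.rpow_le_rpow_of_exponent_le hx1r huv
  have hH16 : (x : ℝ) ^ (1 / 6 : ℝ) ≤ H := (hmono _ _ (by linarith only [hε])).trans hH
  have hH0 : (0 : ℝ) < H := lt_of_lt_of_le (by (clear * - hx2; positivity)) hH16
  set X0 : ℕ := ⌈(x : ℝ) ^ (19 / 20 : ℝ)⌉₊ with hX0
  have hX0lo : (x : ℝ) ^ (19 / 20 : ℝ) ≤ X0 := Nat.le_ceil _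
  have hx19 : (1 : ℝ) ≤ (x : ℝ) ^ (19 / 20 : ℝ) := Real.one_le_rpow hx1r (by norm_num)
  have hX01 : 1 ≤ X0 := by
    have : (1 : ℝ) ≤ X0 := hx19.trans hX0lo
    exact_mod_cast this
  have hX0hi : (X0 : ℝ) ≤ 2 * (x : ℝ) ^ (19 / 20 : ℝ) := by
    have := (Nat.ceil_lt_add_one (show (0 : ℝ) ≤ (x : ℝ) ^ (19 / 20 : ℝ) by (clear * - hx2; positivity))).le
    rw [← hX0] at this
    linarith only [this, hx19]
  have hsmall : ∀ u ∈ range X0, ‖∑ n ∈ Ioc u (u + H), li n * ex (n * α)‖ ^ 2 ≤ (H : ℝ) ^ 2 := by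
    intro u _
    have h1 : ‖∑ n ∈ Ioc u (u + H), li n * ex (n * α)‖ ≤ H := by
      refine (norm_sum_le _ _).trans ?_
      calc ∑ n ∈ Ioc u (u + H), ‖li n * ex (n * α)‖ ≤ ∑ _n ∈ Ioc u (u + H), (1 : ℝ) := by
            refine sum_le_sum fun n _ => ?_
            rw [norm_mul, norm_ex, mul_one]
            exact norm_li n
        _ = H := by
            rw [sum_const, Nat.card_Ioc, nsmul_eq_mul, mul_one]
            congr 1
            omega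
    exact pow_le_pow_left₀ (norm_nonneg _) h1 2
  have hblock : ∀ j ∈ (range (Nat.log 2 (2 * x) + 1)).filter (fun j => X0 * 2 ^ j ≤ 2 * x),
      ∑ u ∈ Icc (X0 * 2 ^ j) (2 * (X0 * 2 ^ j)), ‖∑ n ∈ Ioc u (u + H), li n * ex (n * α)‖ ^ 2 ≤
      2 ^ (B + 4) * x * (H : ℝ) ^ 2 / L ^ (B + 3) := by
    intro j hj
    obtain ⟨-, hj⟩ := mem_filter.1 hj
    obtain ⟨X, hX⟩ : ∃ X, X = X0 * 2 ^ j := ⟨_, rfl⟩
    rw [← hX] at hj ⊢
    have hX0X : X0 ≤ X := by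
      rw [hX]
      exact Nat.le_mul_of_pos_right _ (by (clear * -; positivity))
    have hX0Xr : (X0 : ℝ) ≤ X := by exact_mod_cast hX0X
    have hxX : (x : ℝ) ^ (19 / 20 : ℝ) ≤ X := hX0lo.trans hX0Xr
    have hX1r : (1 : ℝ) ≤ X := hx19.trans hxX
    have hXpos : (0 : ℝ) < X := by linarith only [hX1r]
    have hXN : N0 ≤ X := by
      have : (N0 : ℝ) ≤ X := hxN0.trans hxX
      exact_mod_cast this
    have hXx : (X : ℝ) ≤ 2 * x := by exact_mod_cast hj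
    have hlogX2 : Real.log X ≤ 2 * L :=
      Pool.Agent.VL.MinorWinP3Aux.log_le_two hx1 hL (by linarith only [hL4]) (by omega)
    have hlogX1 : L / 2 ≤ Real.log X := by
      have h1 := Real.log_le_log (by (clear * - hx2; positivity)) hxX
      rw [Real.log_rpow hx0, ← hL] at h1
      linarith only [h1, hL0]
    have hlogX0 : 0 < Real.log X := by linarith only [hlogX1, hL0]
    have hlogA : Real.log X ^ Ab ≤ L ^ (Ab + 1) := by
      calc Real.log X ^ Ab ≤ (2 * L) ^ Ab := pow_le_pow_left₀ hlogX0.le hlogX2 _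
        _ = 2 ^ Ab * L ^ Ab := mul_pow _ _ _
        _ ≤ L * L ^ Ab := mul_le_mul_of_nonneg_right hLA (by (clear * - hL4; positivity))
        _ = L ^ (Ab + 1) := by ring
    have key := hN0 X hXN H α ?_ ?_ (hMn.mono hlogA hH0.le)
    · refine key.trans ?_
      have h1 : (L / 2) ^ (B + 3) ≤ Real.log X ^ (B + 3) :=
        pow_le_pow_left₀ (by (clear * - hL4; positivity)) hlogX1 _
      have h2 : 0 < (L / 2) ^ (B + 3) := by (clear * - hL4; positivity)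
      calc (X : ℝ) * (H : ℝ) ^ 2 / Real.log X ^ (B + 3)
          ≤ (2 * x) * (H : ℝ) ^ 2 / (L / 2) ^ (B + 3) := by
            apply div_le_div₀ (by (clear * - hx2 hH0; positivity)) _ h2 h1
            exact mul_le_mul_of_nonneg_right hXx (by (clear * - hH0; positivity))
        _ = 2 ^ (B + 4) * x * (H : ℝ) ^ 2 / L ^ (B + 3) := by
            rw [div_pow]
            field_simp
            ring
    · calc (X : ℝ) ^ (1 / 6 + ε / 2) ≤ (2 * x : ℝ) ^ (1 / 6 + ε / 2) :=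
            Real.rpow_le_rpow hXpos.le hXx (by (clear * - hε; positivity))
        _ = (2 : ℝ) ^ (1 / 6 + ε / 2) * (x : ℝ) ^ (1 / 6 + ε / 2) :=
            Real.mul_rpow (by norm_num) hx0.le
        _ ≤ (x : ℝ) ^ (ε / 2) * (x : ℝ) ^ (1 / 6 + ε / 2) :=
            mul_le_mul_of_nonneg_right e4 (by (clear * - hx2; positivity))
        _ = (x : ℝ) ^ (1 / 6 + ε) := by
            rw [← Real.rpow_add hx0]
            congr 1
            ring
        _ ≤ H := hH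
    · calc (H : ℝ) ≤ (x : ℝ) ^ (9 / 25 : ℝ) := hHx
        _ ≤ (x : ℝ) ^ (19 / 20 * (19 / 50) : ℝ) := hmono _ _ (by norm_num)
        _ = ((x : ℝ) ^ (19 / 20 : ℝ)) ^ (19 / 50 : ℝ) := Real.rpow_mul hx0.le _ _
        _ ≤ (X : ℝ) ^ (19 / 50 : ℝ) := Real.rpow_le_rpow (by (clear * - hx2; positivity)) hxX (by norm_num)
  have hcov := MinorP6Aux.cover (fun u => ‖∑ n ∈ Ioc u (u + H), li n * ex (n * α)‖ ^ 2)
        (fun u => by (clear * -; positivity)) X0 (2 * x) hX01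
  have hV : ∑ u ∈ Icc X0 (2 * x), ‖∑ n ∈ Ioc u (u + H), li n * ex (n * α)‖ ^ 2 ≤
      (4 * L) * (2 ^ (B + 4) * x * (H : ℝ) ^ 2 / L ^ (B + 3)) := by
    refine hcov.trans ((sum_le_sum hblock).trans ?_)
    rw [sum_const, nsmul_eq_mul]
    refine mul_le_mul_of_nonneg_right ?_ (by (clear * - hx2 hL4 hH0; positivity))
    have h1 : ((range (Nat.log 2 (2 * x) + 1)).filter (fun j => X0 * 2 ^ j ≤ 2 * x)).card ≤
        Nat.log 2 (2 * x) + 1 := by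
      refine (card_filter_le _ _).trans ?_
      rw [card_range]
    have h2 := Pool.Agent.VL.MinorWinP3Aux.log2_le (show 1 ≤ 2 * x by omega)
    have h3 : Real.log ((2 * x : ℕ) : ℝ) ≤ 2 * L :=
      Pool.Agent.VL.MinorWinP3Aux.log_le_two hx1 hL (by linarith only [hL4]) (by omega)
    have h4 : ((((range (Nat.log 2 (2 * x) + 1)).filter
        (fun j => X0 * 2 ^ j ≤ 2 * x)).card : ℕ) : ℝ) ≤ ((Nat.log 2 (2 * x) + 1 : ℕ) : ℝ) := by
      exact_mod_cast h1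
    push_cast at h4
    linarith only [h2, h3, h4, hL4]
  have hsplit : ∑ u ∈ range (2 * x + 1), ‖∑ n ∈ Ioc u (u + H), li n * ex (n * α)‖ ^ 2 ≤
      ∑ u ∈ range X0, ‖∑ n ∈ Ioc u (u + H), li n * ex (n * α)‖ ^ 2 +
      ∑ u ∈ Icc X0 (2 * x), ‖∑ n ∈ Ioc u (u + H), li n * ex (n * α)‖ ^ 2 := by
    rw [← sum_union (by
      rw [disjoint_left]
      intro u hu hu'
      rw [mem_range] at hu
      rw [mem_Icc] at hu'
      omega)]
    refine sum_le_sum_of_subset_of_nonneg ?_ fun _ _ _ => by (clear * -; positivity)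
    intro u hu
    rw [mem_range] at hu
    rw [mem_union, mem_range, mem_Icc]
    omega
  have hsm : ∑ u ∈ range X0, ‖∑ n ∈ Ioc u (u + H), li n * ex (n * α)‖ ^ 2 ≤
      (2 * (x : ℝ) ^ (19 / 20 : ℝ)) * (H : ℝ) ^ 2 := by
    refine (sum_le_sum hsmall).trans ?_
    rw [sum_const, card_range, nsmul_eq_mul]
    exact mul_le_mul_of_nonneg_right hX0hi (by (clear * - hL4 hH0; positivity))
  have hLB0 : 0 < L ^ B := pow_pos hL0 _
  have f1 : (2 * (x : ℝ) ^ (19 / 20 : ℝ)) * (H : ℝ) ^ 2 ≤ 1 / 2 * (x * (H : ℝ) ^ 2 / L ^ B) := by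
    have h1 : (x : ℝ) = (x : ℝ) ^ (19 / 20 : ℝ) * (x : ℝ) ^ (1 / 20 : ℝ) := by
      rw [← Real.rpow_add hx0]
      norm_num
    rw [← mul_div_assoc, le_div_iff₀ hLB0]
    have h3 : 0 ≤ (x : ℝ) ^ (19 / 20 : ℝ) * (H : ℝ) ^ 2 := by (clear * - hx2 hH0; positivity)
    calc (2 * (x : ℝ) ^ (19 / 20 : ℝ)) * (H : ℝ) ^ 2 * L ^ B
        = 1 / 2 * (((x : ℝ) ^ (19 / 20 : ℝ) * (H : ℝ) ^ 2) * (4 * L ^ B)) := by ring
      _ ≤ 1 / 2 * (((x : ℝ) ^ (19 / 20 : ℝ) * (H : ℝ) ^ 2) * (x : ℝ) ^ (1 / 20 : ℝ)) :=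
          mul_le_mul_of_nonneg_left (mul_le_mul_of_nonneg_left e2 h3) (by norm_num)
      _ = 1 / 2 * (x * (H : ℝ) ^ 2) := by
          nth_rw 3 [h1]
          ring
  have f3 : (4 * L) * (2 ^ (B + 4) * x * (H : ℝ) ^ 2 / L ^ (B + 3)) ≤
      1 / 2 * (x * (H : ℝ) ^ 2 / L ^ B) := by
    have h1 : (2 : ℝ) ^ (B + 8) ≤ L * L := by
      calc (2 : ℝ) ^ (B + 8) ≤ L := hLB
        _ = 1 * L := (one_mul L).symm
        _ ≤ L * L := mul_le_mul_of_nonneg_right hL1 hL0.le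
    have h2 : 0 ≤ (x : ℝ) * (H : ℝ) ^ 2 / L ^ (B + 2) := by (clear * - hx2 hL4 hH0; positivity)
    calc (4 * L) * (2 ^ (B + 4) * x * (H : ℝ) ^ 2 / L ^ (B + 3))
        = 1 / 4 * (2 ^ (B + 8) * ((x : ℝ) * (H : ℝ) ^ 2 / L ^ (B + 2))) := by
          rw [pow_add 2 B 4, pow_add 2 B 8, pow_succ L (B + 2)]
          field_simp
          ring
      _ ≤ 1 / 4 * ((L * L) * ((x : ℝ) * (H : ℝ) ^ 2 / L ^ (B + 2))) :=
          mul_le_mul_of_nonneg_left (mul_le_mul_of_nonneg_right h1 h2) (by norm_num)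
      _ = 1 / 4 * (x * (H : ℝ) ^ 2 / L ^ B) := by
          rw [pow_add L B 2]
          field_simp
      _ ≤ 1 / 2 * (x * (H : ℝ) ^ 2 / L ^ B) :=
          mul_le_mul_of_nonneg_right (by norm_num) (by (clear * - hx2 hL4 hH0; positivity))
  linarith only [hsplit, hV, hsm, f1, f3]

end Pool.Agent.MW
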