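import Pool.Agent.Lib.MW.MinorL
import Pool.Agent.Lib.MW.Ident
import Pool.Agent.Lib.MW.Dil
import Pool.Agent.Lib.VM.ConvBd
import Pool.Agent.Lib.VM.BlkMinor
import Pool.Agent.Lib.HLT.TauPow

/-!
# Module MinorM: minor arcs for the Moebius function, all windows

`L = log x`, `Z = ⌊L^m⌋`, `m = B + 30`. `mu_sq` (`N = 3x`): for `1 ≤ n ≤ 3x`: `mu n = ∑_{b ≤ 3x} [b² ∣ n] mu b li(n/b²)`.
Main part `b ≤ Z`: Cauchy (`cauchy_ws` with weights `b²`, `∑ 1/b² ≤ 2`): `≤ 2 ∑_{b ≤ Z} b² ∑_u ‖∑_{Ioc u (u+H)} [b² ∣ n] li(n/b²) ex(nα)‖²`, `dil_win` (`j = b²`, `U = V = range (2x+1)`):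
`≤ 2 b² ∑_{v ≤ 2x} ‖∑_{Ioc v (v + H/b²)} li m ex(m b² α)‖² + 2 (2x + 1)`. `minor_li (B + 5 + 2m) (ε/2)` (exponent `A'`) with `H' = H / b²` (natural division, `H' ≥ H/(2b²) ≥ x^(1/6+ε/2)`), `α' = b² α`: `Mn (L^A') H' α'` holds if `Mn (L^A) H α` with
`A = A' + 2m + 2`: if `q ≤ L^A'`, `|b² α - a/q| ≤ L^A'/H' ≤ 2 b² L^A'/H` then `|α - a/(b² q)| ≤ 2 L^A'/H ≤ L^A/H` and `b² q ≤ L^(2m + A') ≤ L^A`, a contradiction. So the main part is `≤ 2 Z · Z² (2 Z² x H²/L^(B+5+2m)·... + 6x)`: choose the exponent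
large (`B + 5 + 6m` is certainly enough; the sum over `b ≤ Z` of `b² · 2 b² x (H/b²)²/L^(..)` is `≤ 2 Z x H²/L^(..)`).
Tail `b > Z`: `r(n) = ∑_{Z < b, b² ∣ n} mu b li(n/b²)`, `|r(n)| ≤ #{b > Z : b² ∣ n} =: s(n)`, `tail_win` (`N = 3x`): `≤ H² ∑_{n ≤ 3x} s(n)²`, `s(n)² ≤ τ(n) s(n)`, and `∑_{n ≤ 3x} τ(n) s(n) = ∑_{b > Z} ∑_{m ≤ 3x/b²} τ(b² m) ≤ ∑_{b > Z} τ(b)² ∑_{m ≤ 3x/b²} τ(m)
≤ ∑_{Z < b ≤ 3x} τ(b)² (3x/b²)(1 + log 3x)`; `∑_{b > Z} τ(b)²/b² ≤ Z^(-1/2) ∑ τ(b)²/b^(3/2)`: constant (`τ(b) ≤ C b^(1/16)`, `tau_small`), total `≤ C x L/√Z ≤ x/L^(B+2)`.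
-/

set_option autoImplicit false

open Finset Filter

namespace Pool.Agent.MW

open Pool.Agent.VK Pool.Agent.HLT Pool.Agent.VM

namespace MinorMAux

open scoped Pointwise in
theorem tau_mul_le (a b : ℕ) : (a * b).divisors.card ≤ a.divisors.card * b.divisors.card := by
  rw [Nat.divisors_mul]
  exact Finset.card_mul_le

/-- Multiples of `j`. -/
theorem reindex (N j : ℕ) (hj : 1 ≤ j) (t : ℕ → ℝ) :
    ∑ n ∈ Icc 1 N, (if j ∣ n then t n else 0) = ∑ m ∈ Icc 1 (N / j), t (j * m) := by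
  rw [← Finset.sum_filter]
  symm
  refine Finset.sum_bij (fun m _ => j * m) ?_ ?_ ?_ ?_
  · intro m hm
    rw [Finset.mem_Icc] at hm
    rw [Finset.mem_filter, Finset.mem_Icc]
    refine ⟨⟨Nat.mul_pos hj hm.1, ?_⟩, dvd_mul_right j m⟩
    have h2 := hm.2
    rw [Nat.le_div_iff_mul_le hj] at h2
    rw [mul_comm]
    exact h2
  · intro a _ b _ hab
    exact Nat.eq_of_mul_eq_mul_left hj hab
  · intro n hn
    rw [Finset.mem_filter, Finset.mem_Icc] at hn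
    obtain ⟨⟨h2, h3⟩, m, rfl⟩ := hn
    refine ⟨m, ?_, rfl⟩
    rw [Finset.mem_Icc]
    refine ⟨?_, ?_⟩
    · by_contra h4
      have h5 : m = 0 := by omega
      rw [h5, mul_zero] at h2
      omega
    · rw [Nat.le_div_iff_mul_le hj, mul_comm]
      exact h3
  · intro m _
    rfl

/-- The number of large square divisors. -/
theorem tail_sum : ∃ C : ℝ, 1 ≤ C ∧ ∀ Z N : ℕ, 1 ≤ Z →
    ∑ n ∈ Icc 1 N, (∑ b ∈ Ioc Z N, if b ^ 2 ∣ n then (1 : ℝ) else 0) ^ 2 ≤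
      C * N * (1 + Real.log N) ^ 2 * (Z : ℝ) ^ (-(1 / 4) : ℝ) := by
  obtain ⟨C0, hC0, htau⟩ := tau_small (1 / 4) (by norm_num)
  have hsum : Summable fun b : ℕ => (b : ℝ) ^ (-(5 / 4) : ℝ) :=
    Real.summable_nat_rpow.2 (by norm_num)
  set S : ℝ := ∑' b : ℕ, (b : ℝ) ^ (-(5 / 4) : ℝ) with hS
  have hS0 : 0 ≤ S := tsum_nonneg fun b => Real.rpow_nonneg (Nat.cast_nonneg _) _
  refine ⟨C0 * (S + 1), by nlinarith, fun Z N hZ => ?_⟩
  have hZ0 : (0 : ℝ) < Z := by exact_mod_cast hZ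
  have hlog : (0 : ℝ) ≤ 1 + Real.log N := by
    have := Real.log_natCast_nonneg N
    linarith
  have h1 : ∀ n ∈ Icc 1 N, (∑ b ∈ Ioc Z N, if b ^ 2 ∣ n then (1 : ℝ) else 0) ^ 2 ≤
      ∑ b ∈ Ioc Z N, if b ^ 2 ∣ n then (n.divisors.card : ℝ) else 0 := by
    intro n hn
    rw [Finset.mem_Icc] at hn
    have h2 : ∑ b ∈ Ioc Z N, (if b ^ 2 ∣ n then (n.divisors.card : ℝ) else 0) =
        (n.divisors.card : ℝ) * ∑ b ∈ Ioc Z N, if b ^ 2 ∣ n then (1 : ℝ) else 0 := by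
      rw [Finset.mul_sum]
      refine Finset.sum_congr rfl fun b _ => ?_
      split_ifs <;> simp
    rw [h2, pow_two]
    refine mul_le_mul_of_nonneg_right ?_ (Finset.sum_nonneg fun b _ => by split_ifs <;> norm_num)
    rw [← Finset.sum_filter, Finset.sum_const, nsmul_eq_mul, mul_one]
    have h3 : (Ioc Z N).filter (fun b => b ^ 2 ∣ n) ⊆ n.divisors := by
      intro b hb
      rw [Finset.mem_filter] at hb
      rw [Nat.mem_divisors]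
      exact ⟨(dvd_pow_self b two_ne_zero).trans hb.2, by omega⟩
    exact_mod_cast Finset.card_le_card h3
  refine (Finset.sum_le_sum h1).trans ?_
  rw [Finset.sum_comm]
  have h4 : ∀ b ∈ Ioc Z N, ∑ n ∈ Icc 1 N, (if b ^ 2 ∣ n then (n.divisors.card : ℝ) else 0) ≤
      C0 * N * (1 + Real.log N) ^ 2 * ((Z : ℝ) ^ (-(1 / 4) : ℝ) * (b : ℝ) ^ (-(5 / 4) : ℝ)) := by
    intro b hb
    rw [Finset.mem_Ioc] at hb
    have hb0 : (0 : ℝ) < b := by exact_mod_cast (by omega : 0 < b)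
    have hb1 : 1 ≤ b ^ 2 := Nat.one_le_pow _ _ (by omega)
    rw [reindex N (b ^ 2) hb1 (fun n => (n.divisors.card : ℝ))]
    have h5 : ∑ m ∈ Icc 1 (N / b ^ 2), ((b ^ 2 * m).divisors.card : ℝ) ≤
        ((b ^ 2).divisors.card : ℝ) * ∑ m ∈ Icc 1 (N / b ^ 2), ((m.divisors.card : ℝ)) ^ 1 := by
      rw [Finset.mul_sum]
      refine Finset.sum_le_sum fun m _ => ?_
      rw [pow_one]
      exact_mod_cast tau_mul_le (b ^ 2) m
    have h6 := Pool.Agent.HLT.sum_tau_pow 1 (N / b ^ 2)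
    have h7 : ((N / b ^ 2 : ℕ) : ℝ) ≤ N / (b : ℝ) ^ 2 := by
      have := @Nat.cast_div_le ℝ _ _ _ N (b ^ 2)
      rwa [Nat.cast_pow] at this
    have h8 : (1 + Real.log ((N / b ^ 2 : ℕ) : ℝ)) ^ (2 ^ 1) ≤ (1 + Real.log N) ^ 2 := by
      rw [pow_one]
      have h9 := Real.log_natCast_nonneg (N / b ^ 2)
      refine pow_le_pow_left₀ (by linarith) ?_ 2
      rcases Nat.eq_zero_or_pos (N / b ^ 2) with h10 | h10
      · rw [h10]
        simpa using Real.log_natCast_nonneg N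
      · have h11 : ((N / b ^ 2 : ℕ) : ℝ) ≤ N := by exact_mod_cast Nat.div_le_self _ _
        have := Real.log_le_log (by exact_mod_cast h10) h11
        linarith
    have h12 : ((b ^ 2).divisors.card : ℝ) ≤ C0 * (b : ℝ) ^ (1 / 2 : ℝ) := by
      refine (htau (b ^ 2) hb1).trans (le_of_eq ?_)
      rw [Nat.cast_pow, ← Real.rpow_natCast, ← Real.rpow_mul hb0.le]
      norm_num
    have h13 : ∑ m ∈ Icc 1 (N / b ^ 2), ((m.divisors.card : ℝ)) ^ 1 ≤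
        N / (b : ℝ) ^ 2 * (1 + Real.log N) ^ 2 := by
      refine h6.trans ?_
      exact mul_le_mul h7 h8 (by
        have h9 := Real.log_natCast_nonneg (N / b ^ 2)
        positivity) (by positivity)
    have h14 : (b : ℝ) ^ (1 / 2 : ℝ) / (b : ℝ) ^ 2 ≤
        (Z : ℝ) ^ (-(1 / 4) : ℝ) * (b : ℝ) ^ (-(5 / 4) : ℝ) := by
      have h15 : (b : ℝ) ^ (1 / 2 : ℝ) / (b : ℝ) ^ 2 =
          (b : ℝ) ^ (-(1 / 4) : ℝ) * (b : ℝ) ^ (-(5 / 4) : ℝ) := by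
        rw [← Real.rpow_natCast, ← Real.rpow_sub hb0, ← Real.rpow_add hb0]
        norm_num
      rw [h15]
      refine mul_le_mul_of_nonneg_right ?_ (Real.rpow_nonneg hb0.le _)
      exact Real.rpow_le_rpow_of_nonpos hZ0 (by exact_mod_cast (by omega : Z ≤ b)) (by norm_num)
    calc ∑ m ∈ Icc 1 (N / b ^ 2), ((b ^ 2 * m).divisors.card : ℝ)
        ≤ ((b ^ 2).divisors.card : ℝ) * ∑ m ∈ Icc 1 (N / b ^ 2), ((m.divisors.card : ℝ)) ^ 1 := h5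
      _ ≤ (C0 * (b : ℝ) ^ (1 / 2 : ℝ)) * (N / (b : ℝ) ^ 2 * (1 + Real.log N) ^ 2) :=
          mul_le_mul h12 h13 (Finset.sum_nonneg fun m _ => by positivity) (by positivity)
      _ = C0 * N * (1 + Real.log N) ^ 2 * ((b : ℝ) ^ (1 / 2 : ℝ) / (b : ℝ) ^ 2) := by ring
      _ ≤ _ := mul_le_mul_of_nonneg_left h14 (by positivity)
  refine (Finset.sum_le_sum h4).trans ?_
  rw [← Finset.mul_sum, ← Finset.mul_sum]
  have h16 : ∑ b ∈ Ioc Z N, (b : ℝ) ^ (-(5 / 4) : ℝ) ≤ S + 1 := by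
    have := hsum.sum_le_tsum (Ioc Z N) fun b _ => Real.rpow_nonneg (Nat.cast_nonneg b) _
    linarith
  calc C0 * N * (1 + Real.log N) ^ 2 * ((Z : ℝ) ^ (-(1 / 4) : ℝ) * ∑ b ∈ Ioc Z N, (b : ℝ) ^ (-(5 / 4) : ℝ))
      ≤ C0 * N * (1 + Real.log N) ^ 2 * ((Z : ℝ) ^ (-(1 / 4) : ℝ) * (S + 1)) := by gcongr
    _ = _ := by ring

/-- The two parts of the Moebius function. -/
theorem split_mu (x Z H u : ℕ) (α : ℝ) (hu : u + H ≤ 3 * x) (hZ : Z ≤ 3 * x) :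
    ∑ n ∈ Ioc u (u + H), mu n * ex (n * α) =
      ∑ b ∈ Icc 1 Z, mu b * ∑ n ∈ Ioc u (u + H), (if b ^ 2 ∣ n then li (n / b ^ 2) else 0) * ex (n * α) +
      ∑ n ∈ Ioc u (u + H), (∑ b ∈ Ioc Z (3 * x), if b ^ 2 ∣ n then mu b * li (n / b ^ 2) else 0) * ex (n * α) := by
  have h1 : ∀ n ∈ Ioc u (u + H), mu n * ex (n * α) =
      (∑ b ∈ Icc 1 Z, if b ^ 2 ∣ n then mu b * li (n / b ^ 2) else 0) * ex (n * α) +
      (∑ b ∈ Ioc Z (3 * x), if b ^ 2 ∣ n then mu b * li (n / b ^ 2) else 0) * ex (n * α) := by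
    intro n hn
    rw [Finset.mem_Ioc] at hn
    rw [← add_mul, mu_sq n (3 * x) (by omega) (by omega)]
    congr 1
    rw [← Finset.sum_union]
    · refine Finset.sum_congr ?_ fun _ _ => rfl
      ext b
      simp only [Finset.mem_union, Finset.mem_Icc, Finset.mem_Ioc]
      omega
    · rw [Finset.disjoint_left]
      intro b hb hb'
      rw [Finset.mem_Icc] at hb
      rw [Finset.mem_Ioc] at hb'
      omega
  rw [Finset.sum_congr rfl h1, Finset.sum_add_distrib]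
  congr 1
  have h2 : ∀ n ∈ Ioc u (u + H),
      (∑ b ∈ Icc 1 Z, if b ^ 2 ∣ n then mu b * li (n / b ^ 2) else 0) * ex (n * α) =
      ∑ b ∈ Icc 1 Z, mu b * ((if b ^ 2 ∣ n then li (n / b ^ 2) else 0) * ex (n * α)) := by
    intro n _
    rw [Finset.sum_mul]
    refine Finset.sum_congr rfl fun b _ => ?_
    split_ifs
    · ring
    · ring
  rw [Finset.sum_congr rfl h2, Finset.sum_comm]
  refine Finset.sum_congr rfl fun b _ => ?_
  rw [Finset.mul_sum]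

/-- The tail. -/
theorem tail_part (x Z H : ℕ) (α : ℝ) (hH : H ≤ x) :
    ∑ u ∈ range (2 * x + 1), ‖∑ n ∈ Ioc u (u + H),
      (∑ b ∈ Ioc Z (3 * x), if b ^ 2 ∣ n then mu b * li (n / b ^ 2) else 0) * ex (n * α)‖ ^ 2 ≤
      (H : ℝ) ^ 2 * ∑ n ∈ Icc 1 (3 * x), (∑ b ∈ Ioc Z (3 * x), if b ^ 2 ∣ n then (1 : ℝ) else 0) ^ 2 := by
  refine (tail_win (fun n => (∑ b ∈ Ioc Z (3 * x), if b ^ 2 ∣ n then mu b * li (n / b ^ 2) else 0) *
    ex (n * α)) H (3 * x) (range (2 * x + 1)) (fun u hu => ?_)).trans ?_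
  · rw [Finset.mem_range] at hu
    omega
  · refine mul_le_mul_of_nonneg_left ?_ (sq_nonneg _)
    refine Finset.sum_le_sum fun n _ => ?_
    refine pow_le_pow_left₀ (norm_nonneg _) ?_ 2
    rw [norm_mul, norm_ex, mul_one]
    refine (norm_sum_le _ _).trans (Finset.sum_le_sum fun b _ => ?_)
    split_ifs
    · rw [norm_mul]
      exact mul_le_one₀ (norm_mu _) (norm_nonneg _) (norm_li _)
    · rw [norm_zero]

/-- The main part. -/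
theorem main_part (x Z H : ℕ) (α K : ℝ) (hZ : ∀ b ∈ Icc 1 Z,
    (b : ℝ) ^ 2 * ∑ v ∈ range (2 * x + 1), ‖∑ m ∈ Ioc v (v + H / b ^ 2), li m * ex (m * (((b ^ 2 : ℕ) : ℝ) * α))‖ ^ 2 ≤ K) :
    ∑ u ∈ range (2 * x + 1), ‖∑ b ∈ Icc 1 Z, mu b *
      ∑ n ∈ Ioc u (u + H), (if b ^ 2 ∣ n then li (n / b ^ 2) else 0) * ex (n * α)‖ ^ 2 ≤
      (Z : ℝ) ^ 2 * (2 * K + 2 * (2 * x + 1)) := by
  refine (cauchy_ws (Icc 1 Z) (fun _ => 1) (fun _ _ => one_pos) (range (2 * x + 1))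
    (fun b u => mu b * ∑ n ∈ Ioc u (u + H), (if b ^ 2 ∣ n then li (n / b ^ 2) else 0) * ex (n * α))).trans ?_
  have h1 : ∑ _b ∈ Icc 1 Z, (1 : ℝ) / 1 = Z := by simp
  rw [h1, pow_two, mul_assoc]
  refine mul_le_mul_of_nonneg_left ?_ (Nat.cast_nonneg _)
  have h2 : ∀ b ∈ Icc 1 Z, (1 : ℝ) * ∑ u ∈ range (2 * x + 1), ‖mu b * ∑ n ∈ Ioc u (u + H),
      (if b ^ 2 ∣ n then li (n / b ^ 2) else 0) * ex (n * α)‖ ^ 2 ≤ 2 * K + 2 * (2 * x + 1) := by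
    intro b hb
    have hb' := Finset.mem_Icc.1 hb
    rw [one_mul]
    have h3 : ∀ u ∈ range (2 * x + 1), ‖mu b * ∑ n ∈ Ioc u (u + H),
        (if b ^ 2 ∣ n then li (n / b ^ 2) else 0) * ex (n * α)‖ ^ 2 ≤
        ‖∑ n ∈ Ioc u (u + H), (if b ^ 2 ∣ n then li (n / b ^ 2) else 0) * ex (n * α)‖ ^ 2 := by
      intro u _
      refine pow_le_pow_left₀ (norm_nonneg _) ?_ 2
      rw [norm_mul]
      exact mul_le_of_le_one_left (norm_nonneg _) (norm_mu _)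
    refine (Finset.sum_le_sum h3).trans ?_
    have h4 := dil_win li norm_li (b ^ 2) H (Nat.one_le_pow _ _ (by omega)) α (range (2 * x + 1))
      (range (2 * x + 1)) (fun u hu => by
        rw [Finset.mem_range] at hu ⊢
        exact lt_of_le_of_lt (Nat.div_le_self _ _) hu)
    have h5 := hZ b hb
    rw [Finset.card_range] at h4
    push_cast at h4 h5 ⊢
    linarith
  refine (Finset.sum_le_sum h2).trans (le_of_eq ?_)
  rw [Finset.sum_const, Nat.card_Icc, Nat.add_sub_cancel, nsmul_eq_mul]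

/-- Minor arcs for the dilated frequency. -/
theorem minor_dil {L α : ℝ} {A' m H b : ℕ} (hL : 4 ≤ L) (hb : 1 ≤ b) (hbm : (b : ℝ) ≤ L ^ m)
    (hH : 2 * b ^ 2 ≤ H) (h : Mn (L ^ (A' + 2 * m + 2)) H α) :
    Mn (L ^ A') ((H / b ^ 2 : ℕ) : ℝ) (((b ^ 2 : ℕ) : ℝ) * α) := by
  intro q a hq hqL
  by_contra hcon
  rw [not_lt] at hcon
  have hb0 : (0 : ℝ) < b := by exact_mod_cast hb
  have hL0 : (0 : ℝ) < L := by linarith
  have hq0 : (0 : ℝ) < q := by exact_mod_cast hq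
  have hH0 : (0 : ℝ) < H := by
    have : 1 ≤ b ^ 2 := Nat.one_le_pow _ _ hb
    exact_mod_cast (by omega : 0 < H)
  have h1 := h (b ^ 2 * q) a (Nat.mul_pos (Nat.one_le_pow _ _ hb) hq) (by
    push_cast
    calc (b : ℝ) ^ 2 * q ≤ (L ^ m) ^ 2 * L ^ A' := by gcongr
      _ = L ^ (A' + 2 * m) := by rw [← pow_mul, ← pow_add]; congr 1; ring
      _ ≤ L ^ (A' + 2 * m + 2) := pow_le_pow_right₀ (by linarith) (by omega))
  have h2 : (H : ℝ) / 2 ≤ ((H / b ^ 2 : ℕ) : ℝ) * (b : ℝ) ^ 2 := by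
    have h3 := Nat.div_add_mod H (b ^ 2)
    have h4 := Nat.mod_lt H (Nat.one_le_pow 2 _ hb)
    have h5 : H ≤ 2 * (H / b ^ 2 * b ^ 2) := by
      rw [mul_comm (b ^ 2)] at h3
      omega
    have h6 : (H : ℝ) ≤ 2 * (((H / b ^ 2 : ℕ) : ℝ) * (b : ℝ) ^ 2) := by exact_mod_cast h5
    linarith
  have hH'0 : (0 : ℝ) < ((H / b ^ 2 : ℕ) : ℝ) := by
    by_contra h3
    have h4 : ((H / b ^ 2 : ℕ) : ℝ) = 0 := le_antisymm (not_lt.1 h3) (Nat.cast_nonneg _)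
    rw [h4, zero_mul] at h2
    linarith
  have h3 : |α - a / ((b ^ 2 * q : ℕ) : ℝ)| = |((b ^ 2 : ℕ) : ℝ) * α - a / q| / (b : ℝ) ^ 2 := by
    have h4 : |α - a / ((b ^ 2 * q : ℕ) : ℝ)| * (b : ℝ) ^ 2 =
        |(α - a / ((b ^ 2 * q : ℕ) : ℝ)) * (b : ℝ) ^ 2| := by
      rw [abs_mul, abs_of_pos (show (0 : ℝ) < (b : ℝ) ^ 2 by positivity)]
    rw [eq_div_iff (by positivity), h4]
    congr 1
    push_cast
    field_simp
  rw [h3] at h1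
  have h4 : |((b ^ 2 : ℕ) : ℝ) * α - a / q| / (b : ℝ) ^ 2 ≤ L ^ A' * 2 / H := by
    rw [div_le_iff₀ (by positivity)]
    refine hcon.trans ?_
    rw [div_le_iff₀ hH'0]
    calc L ^ A' = L ^ A' * 2 / H * (H / 2) := by field_simp
      _ ≤ L ^ A' * 2 / H * (((H / b ^ 2 : ℕ) : ℝ) * (b : ℝ) ^ 2) := by gcongr
      _ = _ := by ring
  have h5 := h1.trans_le h4
  rw [div_lt_div_iff_of_pos_right hH0] at h5
  have h6 : L ^ A' * 2 ≤ L ^ (A' + 2 * m + 2) := by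
    calc L ^ A' * 2 ≤ L ^ A' * L ^ (2 * m + 2) := by
          refine mul_le_mul_of_nonneg_left ?_ (by positivity)
          calc (2 : ℝ) ≤ L ^ 1 := by rw [pow_one]; linarith
            _ ≤ L ^ (2 * m + 2) := pow_le_pow_right₀ (by linarith) (by omega)
      _ = _ := by rw [← pow_add]; congr 1
  linarith

end MinorMAux

open MinorMAux VM.BlkMinorAux

theorem minor_mu (B : ℕ) (ε : ℝ) (hε : 0 < ε) : ∃ A : ℕ, ∀ᶠ x : ℕ in atTop, ∀ (H : ℕ) (α : ℝ),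
    (x : ℝ) ^ (1 / 6 + ε) ≤ H → (H : ℝ) ≤ (x : ℝ) ^ (9 / 25 : ℝ) → Mn (Real.log x ^ A) H α →
    ∑ u ∈ range (2 * x + 1), ‖∑ n ∈ Ioc u (u + H), mu n * ex (n * α)‖ ^ 2 ≤ x * (H : ℝ) ^ 2 / Real.log x ^ B := by
  obtain ⟨C, hC1, hC⟩ := tail_sum
  set m : ℕ := 4 * (B + 5) with hm
  set B1 : ℕ := B + 2 * m + 2 with hB1
  obtain ⟨A', hA'⟩ := minor_li B1 (ε / 2) (half_pos hε)
  refine ⟨A' + 2 * m + 2, ?_⟩
  have hlogtop : Tendsto (fun x : ℕ => Real.log x) atTop atTop :=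
    Real.tendsto_log_atTop.comp tendsto_natCast_atTop_atTop
  filter_upwards [hA', hlogtop.eventually_ge_atTop (100 * C + 100),
    logpow (2 * m) 2 (ε / 2) (half_pos hε), logpow (2 * m + B) 100 (1 / 3) (by norm_num),
    logpow (2 * m) 2 (1 / 6) (by norm_num), eventually_ge_atTop 3] with x hx hL hl1 hl2 hl3 hx3
  intro H α hH1 hH2 hMn
  set L : ℝ := Real.log x with hLdef
  have hL100 : 100 ≤ L := by linarith
  have hL0 : 0 < L := by linarith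
  have hL1 : 1 ≤ L := by linarith
  have hx0 : (0 : ℝ) < x := by exact_mod_cast (by omega : 0 < x)
  have hx1 : (1 : ℝ) ≤ x := by exact_mod_cast (by omega : 1 ≤ x)
  have hHx : H ≤ x := by
    have h1 : (H : ℝ) ≤ x := hH2.trans (by
      calc (x : ℝ) ^ (9 / 25 : ℝ) ≤ (x : ℝ) ^ (1 : ℝ) := Real.rpow_le_rpow_of_exponent_le hx1 (by norm_num)
        _ = x := Real.rpow_one _)
    exact_mod_cast h1
  have hH0 : (0 : ℝ) ≤ H := Nat.cast_nonneg _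
  have hH16 : (x : ℝ) ^ (1 / 6 : ℝ) ≤ H := le_trans
    (Real.rpow_le_rpow_of_exponent_le hx1 (by linarith)) hH1
  have hHsq : (x : ℝ) ^ (1 / 3 : ℝ) ≤ (H : ℝ) ^ 2 := by
    have h1 := pow_le_pow_left₀ (Real.rpow_nonneg hx0.le _) hH16 2
    rw [← Real.rpow_natCast, ← Real.rpow_mul hx0.le] at h1
    norm_num at h1 ⊢
    exact h1
  -- the cut
  set Z : ℕ := ⌊L ^ m⌋₊ with hZ
  have hLm : 0 ≤ L ^ m := by positivity
  have hZle : (Z : ℝ) ≤ L ^ m := Nat.floor_le hLm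
  have hLm2 : 2 ≤ L ^ m := by
    calc (2 : ℝ) ≤ L ^ 1 := by rw [pow_one]; linarith
      _ ≤ L ^ m := pow_le_pow_right₀ hL1 (by omega)
  have hZge : L ^ m / 2 ≤ Z := by
    have := Nat.lt_floor_add_one (L ^ m)
    rw [← hZ] at this
    linarith
  have hZ1 : 1 ≤ Z := by
    have : (0 : ℝ) < Z := by linarith
    exact_mod_cast this
  have hZ2 : (Z : ℝ) ^ 2 ≤ L ^ (2 * m) := by
    calc (Z : ℝ) ^ 2 ≤ (L ^ m) ^ 2 := pow_le_pow_left₀ (Nat.cast_nonneg _) hZle 2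
      _ = L ^ (2 * m) := by rw [← pow_mul, mul_comm]
  have hL2m : L ^ m ≤ L ^ (2 * m) := pow_le_pow_right₀ hL1 (by omega)
  have hbH : ∀ b ∈ Icc 1 Z, 2 * b ^ 2 ≤ H := by
    intro b hb
    have hb' := Finset.mem_Icc.1 hb
    have h1 : (b : ℝ) ≤ Z := by exact_mod_cast hb'.2
    have h2 : (2 : ℝ) * (b : ℝ) ^ 2 ≤ H := by
      calc (2 : ℝ) * (b : ℝ) ^ 2 ≤ 2 * (Z : ℝ) ^ 2 := by gcongr
        _ ≤ 2 * L ^ (2 * m) := by gcongr
        _ ≤ (x : ℝ) ^ (1 / 6 : ℝ) := hl3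
        _ ≤ H := hH16
    exact_mod_cast h2
  have hZ3 : Z ≤ 3 * x := by
    have h1 := hbH Z (Finset.mem_Icc.2 ⟨hZ1, le_rfl⟩)
    have h2 : Z ≤ Z ^ 2 := Nat.le_self_pow two_ne_zero Z
    omega
  -- splitting
  have hsplit : ∀ u ∈ range (2 * x + 1), ‖∑ n ∈ Ioc u (u + H), mu n * ex (n * α)‖ ^ 2 ≤
      2 * ‖∑ b ∈ Icc 1 Z, mu b *
        ∑ n ∈ Ioc u (u + H), (if b ^ 2 ∣ n then li (n / b ^ 2) else 0) * ex (n * α)‖ ^ 2 +
      2 * ‖∑ n ∈ Ioc u (u + H),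
        (∑ b ∈ Ioc Z (3 * x), if b ^ 2 ∣ n then mu b * li (n / b ^ 2) else 0) * ex (n * α)‖ ^ 2 := by
    intro u hu
    rw [Finset.mem_range] at hu
    rw [split_mu x Z H u α (by omega) hZ3]
    generalize ∑ b ∈ Icc 1 Z, mu b *
        ∑ n ∈ Ioc u (u + H), (if b ^ 2 ∣ n then li (n / b ^ 2) else 0) * ex (n * α) = P
    generalize ∑ n ∈ Ioc u (u + H),
        (∑ b ∈ Ioc Z (3 * x), if b ^ 2 ∣ n then mu b * li (n / b ^ 2) else 0) * ex (n * α) = Q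
    have h1 := norm_add_le P Q
    have h2 := pow_le_pow_left₀ (norm_nonneg _) h1 2
    nlinarith [sq_nonneg (‖P‖ - ‖Q‖)]
  refine (Finset.sum_le_sum hsplit).trans ?_
  rw [Finset.sum_add_distrib, ← Finset.mul_sum, ← Finset.mul_sum]
  -- the main part
  have hmain : ∀ b ∈ Icc 1 Z,
      (b : ℝ) ^ 2 * ∑ v ∈ range (2 * x + 1),
        ‖∑ m ∈ Ioc v (v + H / b ^ 2), li m * ex (m * (((b ^ 2 : ℕ) : ℝ) * α))‖ ^ 2 ≤
      x * (H : ℝ) ^ 2 / L ^ B1 := by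
    intro b hb
    have hb' := Finset.mem_Icc.1 hb
    have hb0 : (0 : ℝ) < b := by exact_mod_cast (by omega : 0 < b)
    have hbZ : (b : ℝ) ≤ Z := by exact_mod_cast hb'.2
    have h2b := hbH b hb
    have hdiv : ((H / b ^ 2 : ℕ) : ℝ) ≤ H := by exact_mod_cast Nat.div_le_self _ _
    have hdiv2 : ((H / b ^ 2 : ℕ) : ℝ) * (b : ℝ) ^ 2 ≤ H := by
      exact_mod_cast Nat.div_mul_le_self H (b ^ 2)
    have hdiv3 : (H : ℝ) / 2 ≤ ((H / b ^ 2 : ℕ) : ℝ) * (b : ℝ) ^ 2 := by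
      have h3 := Nat.div_add_mod H (b ^ 2)
      have h4 := Nat.mod_lt H (Nat.one_le_pow 2 _ hb'.1)
      have h5 : H ≤ 2 * (H / b ^ 2 * b ^ 2) := by
        rw [mul_comm (b ^ 2)] at h3
        omega
      have h6 : (H : ℝ) ≤ 2 * (((H / b ^ 2 : ℕ) : ℝ) * (b : ℝ) ^ 2) := by exact_mod_cast h5
      linarith
    have hlow : (x : ℝ) ^ (1 / 6 + ε / 2) ≤ ((H / b ^ 2 : ℕ) : ℝ) := by
      have h1 : (b : ℝ) ^ 2 ≤ L ^ (2 * m) := (pow_le_pow_left₀ hb0.le hbZ 2).trans hZ2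
      have h2 : (x : ℝ) ^ (1 / 6 + ε / 2) * (2 * (b : ℝ) ^ 2) ≤ (H : ℝ) := by
        calc (x : ℝ) ^ (1 / 6 + ε / 2) * (2 * (b : ℝ) ^ 2)
            ≤ (x : ℝ) ^ (1 / 6 + ε / 2) * (2 * L ^ (2 * m)) := by gcongr
          _ ≤ (x : ℝ) ^ (1 / 6 + ε / 2) * (x : ℝ) ^ (ε / 2) := by gcongr
          _ = (x : ℝ) ^ (1 / 6 + ε) := by rw [← Real.rpow_add hx0]; congr 1; ring
          _ ≤ H := hH1
      have h3 : (x : ℝ) ^ (1 / 6 + ε / 2) * (2 * (b : ℝ) ^ 2) ≤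
          ((H / b ^ 2 : ℕ) : ℝ) * (2 * (b : ℝ) ^ 2) := by linarith
      exact le_of_mul_le_mul_right h3 (by positivity)
    have h1 := hx (H / b ^ 2) (((b ^ 2 : ℕ) : ℝ) * α) hlow (hdiv.trans hH2)
      (minor_dil (by linarith) hb'.1 (hbZ.trans hZle) h2b hMn)
    have h4 : (b : ℝ) ^ 2 * ((H / b ^ 2 : ℕ) : ℝ) ^ 2 ≤ (H : ℝ) ^ 2 := by
      have h5 : (0 : ℝ) ≤ ((H / b ^ 2 : ℕ) : ℝ) := Nat.cast_nonneg _
      calc (b : ℝ) ^ 2 * ((H / b ^ 2 : ℕ) : ℝ) ^ 2 =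
          (((H / b ^ 2 : ℕ) : ℝ) * (b : ℝ) ^ 2) * ((H / b ^ 2 : ℕ) : ℝ) := by ring
        _ ≤ (H : ℝ) * H := mul_le_mul hdiv2 hdiv h5 hH0
        _ = _ := by ring
    calc (b : ℝ) ^ 2 * _ ≤ (b : ℝ) ^ 2 * (x * ((H / b ^ 2 : ℕ) : ℝ) ^ 2 / L ^ B1) := by gcongr
      _ = x * ((b : ℝ) ^ 2 * ((H / b ^ 2 : ℕ) : ℝ) ^ 2) / L ^ B1 := by ring
      _ ≤ _ := by gcongr
  have hM := main_part x Z H α _ hmain
  -- the tail
  have hT := (tail_part x Z H α hHx).trans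
    (mul_le_mul_of_nonneg_left (hC Z (3 * x) hZ1) (sq_nonneg (H : ℝ)))
  have hLB : 0 < L ^ B := by positivity
  have hM2 : (Z : ℝ) ^ 2 * (2 * (x * (H : ℝ) ^ 2 / L ^ B1) + 2 * (2 * x + 1)) ≤
      x * (H : ℝ) ^ 2 / L ^ B / 4 := by
    have h1 : (Z : ℝ) ^ 2 * (2 * (x * (H : ℝ) ^ 2 / L ^ B1) + 2 * (2 * x + 1)) ≤
        L ^ (2 * m) * (2 * (x * (H : ℝ) ^ 2 / L ^ B1) + 6 * x) := by
      refine mul_le_mul hZ2 (by linarith) (by positivity) (by positivity)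
    have h2 : L ^ (2 * m) * (2 * (x * (H : ℝ) ^ 2 / L ^ B1)) = 2 * (x * (H : ℝ) ^ 2 / L ^ B) / L ^ 2 := by
      rw [hB1, show B + 2 * m + 2 = 2 * m + (B + 2) by ring, pow_add, pow_add]
      field_simp
    have h3 : 2 * (x * (H : ℝ) ^ 2 / L ^ B) / L ^ 2 ≤ x * (H : ℝ) ^ 2 / L ^ B / 8 := by
      have h4 : 0 ≤ x * (H : ℝ) ^ 2 / L ^ B := by positivity
      rw [div_le_iff₀ (by positivity)]
      have h5 : 16 ≤ L ^ 2 := by nlinarith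
      nlinarith
    have h4 : L ^ (2 * m) * (6 * x) ≤ x * (H : ℝ) ^ 2 / L ^ B / 8 := by
      have h5 : 100 * L ^ (2 * m + B) ≤ (H : ℝ) ^ 2 := hl2.trans hHsq
      rw [div_div, le_div_iff₀ (by positivity)]
      have h6 : L ^ (2 * m) * (6 * x) * (L ^ B * 8) = 48 * L ^ (2 * m + B) * x := by
        rw [pow_add]; ring
      rw [h6]
      have h7 : 0 ≤ L ^ (2 * m + B) := by positivity
      nlinarith
    calc _ ≤ _ := h1
      _ = L ^ (2 * m) * (2 * (x * (H : ℝ) ^ 2 / L ^ B1)) + L ^ (2 * m) * (6 * x) := by ring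
      _ ≤ x * (H : ℝ) ^ 2 / L ^ B / 8 + x * (H : ℝ) ^ 2 / L ^ B / 8 := by
          rw [h2]
          exact add_le_add h3 h4
      _ = _ := by ring
  have hT2 : (H : ℝ) ^ 2 * (C * ((3 * x : ℕ) : ℝ) * (1 + Real.log ((3 * x : ℕ) : ℝ)) ^ 2 *
      (Z : ℝ) ^ (-(1 / 4) : ℝ)) ≤ x * (H : ℝ) ^ 2 / L ^ B / 4 := by
    have h1 : 1 + Real.log ((3 * x : ℕ) : ℝ) ≤ 2 * L := by
      push_cast
      rw [Real.log_mul (by norm_num) hx0.ne']
      have h2 : Real.log 3 ≤ 2 := by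
        have := Real.log_le_sub_one_of_pos (show (0 : ℝ) < 3 by norm_num)
        linarith
      linarith
    have h0 : 0 ≤ 1 + Real.log ((3 * x : ℕ) : ℝ) := by
      have := Real.log_natCast_nonneg (3 * x)
      linarith
    have h2 : (Z : ℝ) ^ (-(1 / 4) : ℝ) ≤ 2 / L ^ (B + 5) := by
      have h3 : (L ^ m / 2) ^ (1 / 4 : ℝ) ≤ (Z : ℝ) ^ (1 / 4 : ℝ) :=
        Real.rpow_le_rpow (by positivity) hZge (by norm_num)
      have h4 : L ^ (B + 5) / 2 ≤ (L ^ m / 2) ^ (1 / 4 : ℝ) := by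
        rw [Real.div_rpow (by positivity) (by norm_num)]
        have h5 : (L ^ m) ^ (1 / 4 : ℝ) = L ^ (B + 5) := by
          rw [hm, mul_comm 4 (B + 5), pow_mul, ← Real.rpow_natCast (L ^ (B + 5)) 4,
            ← Real.rpow_mul (by positivity)]
          norm_num
        rw [h5]
        have h6 : (2 : ℝ) ^ (1 / 4 : ℝ) ≤ 2 := by
          calc (2 : ℝ) ^ (1 / 4 : ℝ) ≤ (2 : ℝ) ^ (1 : ℝ) :=
                Real.rpow_le_rpow_of_exponent_le (by norm_num) (by norm_num)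
            _ = 2 := Real.rpow_one _
        exact div_le_div_of_nonneg_left (by positivity) (by positivity) h6
      rw [Real.rpow_neg (Nat.cast_nonneg _), inv_le_comm₀ (by
        exact Real.rpow_pos_of_pos (by linarith) _) (by positivity), inv_div]
      exact h4.trans h3
    have h3 : (1 + Real.log ((3 * x : ℕ) : ℝ)) ^ 2 ≤ (2 * L) ^ 2 := pow_le_pow_left₀ h0 h1 2
    calc (H : ℝ) ^ 2 * (C * ((3 * x : ℕ) : ℝ) * (1 + Real.log ((3 * x : ℕ) : ℝ)) ^ 2 *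
          (Z : ℝ) ^ (-(1 / 4) : ℝ))
        ≤ (H : ℝ) ^ 2 * (C * ((3 * x : ℕ) : ℝ) * (2 * L) ^ 2 * (2 / L ^ (B + 5))) := by gcongr
      _ = x * (H : ℝ) ^ 2 / L ^ B * (24 * C / L ^ 3) := by
          rw [pow_add]
          push_cast
          field_simp
          ring
      _ ≤ x * (H : ℝ) ^ 2 / L ^ B * (1 / 4) := by
          refine mul_le_mul_of_nonneg_left ?_ (by positivity)
          rw [div_le_div_iff₀ (by positivity) (by norm_num)]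
          have h4 : 96 * C ≤ L := by linarith
          have h5 : L ≤ L ^ 3 := le_self_pow₀ hL1 (by norm_num)
          linarith
      _ = _ := by ring
  linarith [hM.trans hM2, hT.trans hT2]

end Pool.Agent.MW
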