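import Pool.Agent.Lib.MW.Defs
import Pool.Agent.Lib.SW.PsiChi

/-!
# Module MuRec: from `∑ g` to `∑ f` when `g * f = - f log`

Let `F x = ∑_{n ≤ x} f n`, `G y = ∑_{n ≤ y} g n`, `l = √(log x)`. By induction on `i ≤ 2 j` we show: for all `x ≥ 3`, `‖F x‖ ≤ C_i K x / l^i` (with `l = √(log x)`); `i = 0` is trivial (`‖F x‖ ≤ x`).
Step. For `x` below a bound depending on `i` (say `log x ≤ 16`, or whatever is needed) it is trivial with a large constant. Otherwise let `z = ⌊exp l⌋₊`, so `3 ≤ z`, `z ≤ √x`-like, `log z ≥ l/2`, `log z ≤ l`.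
`F(x) log x = ∑_{n ≤ x} f(n) log(x/n) + ∑_{n ≤ x} f(n) log n`.
(1) `∑_{n ≤ x} f(n) log(x/n) = ∑_{m = 1}^{x-1} F(m) (log(m+1) - log m)` (Abel; the last term has `log(x/x) = 0`), `log(m+1) - log m ≤ 1/m`, so the norm is at most `∑_{m < x} ‖F m‖/m ≤ ∑_{m ≤ √x} 1 + ∑_{√x < m < x} C_i K 2^i/l^i` (for `m > √x`: `log m ≥ (log x)/2`,
`√(log m)^i ≥ l^i/2^i`) `≤ √x + C_i K 2^i x/l^i`.
(2) `∑_{n ≤ x} f(n) log n = c - ∑_{ab ≤ x} g(a) f(b)` (sum of the hypothesis over `n ≤ x`), and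
`∑_{ab ≤ x} g(a) f(b) = ∑_{b ≤ x/z} f(b) G(x/b) + ∑_{a ≤ z} g(a) (F(x/a) - F(x/z))` (natural divisions; a pair with `b > x/z` has `a ≤ z`: `a b ≤ x`, `b ≥ x/z + 1 > x/z`).
First sum: `x/b ≥ z ≥ 3`: `‖G(x/b)‖ ≤ K (x/b)/(log z)^(2j+6) `, `∑ 1/b ≤ 1 + log x`: total `≤ K x (1 + l²) 2^(2j+6)/l^(2j+6) ≤ C K x/l^(2j)`.
Second sum: `‖F(x/a)‖ ≤ C_i K (x/a)/√(log(x/a))^i`, where `x/a ≥ x/z ≥ √x`-like so `√(log (x/a)) ≥ l/2`; `∑_{a ≤ z} (Λ(a) + 1)/a ≤ C (1 + log z)` and `(1/z) ∑_{a ≤ z} (Λ(a) + 1) ≤ C` (Chebyshev: `Chebyshev.psi_le...` in Mathlib or `SW.psi_bound`; `∑_{a ≤ z} Λ(a)/a ≤ log z + C` follows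
from `∑_{a ≤ z} Λ(a) ⌊z/a⌋ = log z! ≤ z log z` and `ψ(z) ≤ C z`, or by Abel summation from `ψ(y) ≤ C y`: `∑ Λ(a)/a ≤ C (1 + log z)` is enough): total `≤ C' C_i K (x/l^i)(1 + l)`.
Dividing by `log x = l²`: `‖F x‖ ≤ (C'' C_i K x)(1/l^(i+1) + 1/l^(2j+2)) + (√x + 1)/l²`, which is `≤ C_{i+1} K x/l^(i+1)` for `i + 1 ≤ 2j` (`√x + 1 ≤ C x/l^(2j)`).
Finally `l^(2j) = (log x)^j`.
-/

set_option autoImplicit false

open Finset Filter

namespace Pool.Agent.MW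

open Pool.Agent.VK Pool.Agent.HLT Pool.Agent.VM

namespace MuRecAux

/-- Abel summation for the logarithm. -/
lemma abel (f : ℕ → ℂ) (x : ℕ) (hx : 1 ≤ x) :
    ∑ n ∈ Icc 1 x, f n * ((Real.log x : ℂ) - (Real.log n : ℂ)) =
      ∑ m ∈ Ico 1 x, (∑ n ∈ Icc 1 m, f n) * ((Real.log (m + 1 : ℕ) : ℂ) - (Real.log m : ℂ)) := by
  induction x, hx using Nat.le_induction with
  | base => simp
  | succ x hx ih =>
    rw [Finset.sum_Icc_succ_top (by omega), Finset.sum_Ico_succ_top hx, ← ih, sub_self, mul_zero, add_zero,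
      Finset.sum_mul, ← Finset.sum_add_distrib]
    refine Finset.sum_congr rfl fun n _ => ?_
    ring

lemma log_step (m : ℕ) (hm : 1 ≤ m) : 0 ≤ Real.log (m + 1 : ℕ) - Real.log m ∧
    Real.log (m + 1 : ℕ) - Real.log m ≤ 1 / m := by
  have h0 : (0 : ℝ) < m := by exact_mod_cast hm
  have h1 : (0 : ℝ) < (m + 1 : ℕ) := by positivity
  constructor
  · have := Real.log_le_log h0 (show (m : ℝ) ≤ (m + 1 : ℕ) by push_cast; linarith)
    linarith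
  · rw [← Real.log_div h1.ne' h0.ne']
    have := Real.log_le_sub_one_of_pos (show (0 : ℝ) < (m + 1 : ℕ) / m by positivity)
    refine this.trans (le_of_eq ?_)
    push_cast
    field_simp
    ring

/-- The nonnegative function `Λ + 1`. -/
noncomputable def h (n : ℕ) : ℝ := ArithmeticFunction.vonMangoldt n + 1

lemma h_nonneg (n : ℕ) : 0 ≤ h n := by
  have : 0 ≤ ArithmeticFunction.vonMangoldt n := ArithmeticFunction.vonMangoldt_nonneg
  unfold h; linarith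

lemma sum_h (N : ℕ) : ∑ n ∈ Icc 1 N, h n ≤ 7 * N := by
  have h1 := Chebyshev.psi_le_const_mul_self (x := (N : ℝ)) (by positivity)
  unfold Chebyshev.psi at h1
  rw [Nat.floor_natCast] at h1
  have h4 : Real.log 4 ≤ 2 := by
    have : Real.log 4 = 2 * Real.log 2 := by
      rw [show (4 : ℝ) = 2 ^ 2 by norm_num, Real.log_pow]; norm_num
    rw [this]
    have := Real.log_two_lt_d9
    linarith
  have hN : (0 : ℝ) ≤ N := by positivity
  have e : ∑ n ∈ Icc 1 N, h n = ∑ n ∈ Ioc 0 N, ArithmeticFunction.vonMangoldt n + N := by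
    unfold h
    rw [Finset.sum_add_distrib]
    congr 1
    simp
  rw [e]
  nlinarith

lemma sum_h_div (N : ℕ) : ∑ n ∈ Icc 1 N, h n / n ≤ 7 * (1 + Real.log N) := by
  have key : ∀ N : ℕ, 1 ≤ N → ∑ n ∈ Icc 1 N, h n / n ≤ (∑ n ∈ Icc 1 N, h n) / N + 7 * (((harmonic N : ℚ) : ℝ) - 1) := by
    intro N hN
    induction N, hN using Nat.le_induction with
    | base => simp [harmonic]
    | succ N hN ih =>
      have hN0 : (0 : ℝ) < N := by exact_mod_cast hN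
      rw [Finset.sum_Icc_succ_top (by omega), Finset.sum_Icc_succ_top (by omega), harmonic_succ]
      have hs := sum_h N
      have e : (∑ n ∈ Icc 1 N, h n) / N ≤ (∑ n ∈ Icc 1 N, h n) / (N + 1 : ℕ) + 7 / (N + 1 : ℕ) := by
        push_cast
        rw [← add_div, div_le_div_iff₀ hN0 (by positivity)]
        nlinarith
      have e2 : (∑ n ∈ Icc 1 N, h n + h (N + 1)) / ((N + 1 : ℕ) : ℝ) = (∑ n ∈ Icc 1 N, h n) / ((N + 1 : ℕ) : ℝ) + h (N + 1) / ((N + 1 : ℕ) : ℝ) := by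
        rw [add_div]
      rw [e2]
      push_cast at *
      have e3 : 7 * (((harmonic N : ℚ) : ℝ) + ((N : ℝ) + 1)⁻¹ - 1) = 7 * (((harmonic N : ℚ) : ℝ) - 1) + 7 / ((N : ℝ) + 1) := by
        rw [div_eq_mul_inv]; ring
      rw [e3]
      linarith
  rcases Nat.eq_zero_or_pos N with rfl | hN
  · simp
  · have h1 := key N hN
    have h2 := harmonic_le_one_add_log N
    have hN0 : (0 : ℝ) < N := by exact_mod_cast hN
    have h3 : (∑ n ∈ Icc 1 N, h n) / N ≤ 7 := by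
      rw [div_le_iff₀ hN0]; exact sum_h N
    linarith

/-- The sum over pairs. -/
lemma hyp (f g : ℕ → ℂ) (x z : ℕ) (hz : 1 ≤ z) :
    ∑ n ∈ Icc 1 x, ∑ p ∈ n.divisorsAntidiagonal, g p.1 * f p.2 =
      ∑ b ∈ Icc 1 (x / z), f b * ∑ a ∈ Icc 1 (x / b), g a +
      ∑ a ∈ Icc 1 z, g a * (∑ b ∈ Icc 1 (x / a), f b - ∑ b ∈ Icc 1 (x / z), f b) := by
  set P := (Icc 1 x ×ˢ Icc 1 x).filter (fun p : ℕ × ℕ => p.1 * p.2 ≤ x) with hP
  have e1 : ∑ n ∈ Icc 1 x, ∑ p ∈ n.divisorsAntidiagonal, g p.1 * f p.2 = ∑ p ∈ P, g p.1 * f p.2 := by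
    have hm : ∀ p ∈ P, p.1 * p.2 ∈ Icc 1 x := by
      intro p hp
      simp only [hP, mem_filter, mem_product, mem_Icc] at hp ⊢
      exact ⟨Nat.mul_pos hp.1.1.1 hp.1.2.1, hp.2⟩
    rw [← Finset.sum_fiberwise_of_maps_to hm]
    refine Finset.sum_congr rfl fun n hn => ?_
    refine Finset.sum_congr ?_ fun _ _ => rfl
    ext p
    simp only [Nat.mem_divisorsAntidiagonal, hP, mem_filter, mem_product, mem_Icc] at hn ⊢
    constructor
    · rintro ⟨h1, h2⟩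
      have h3 : 0 < p.1 := Nat.pos_of_ne_zero (by rintro h; rw [h] at h1; simp at h1; omega)
      have h4 : 0 < p.2 := Nat.pos_of_ne_zero (by rintro h; rw [h] at h1; simp at h1; omega)
      refine ⟨⟨⟨⟨h3, ?_⟩, ⟨h4, ?_⟩⟩, ?_⟩, h1⟩
      · nlinarith
      · nlinarith
      · omega
    · rintro ⟨-, h2⟩
      exact ⟨h2, by omega⟩
  rw [e1, ← Finset.sum_filter_add_sum_filter_not P (fun p => p.2 ≤ x / z)]
  congr 1
  · have : ∑ b ∈ Icc 1 (x / z), f b * ∑ a ∈ Icc 1 (x / b), g a =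
        ∑ s ∈ (Icc 1 (x / z)).sigma (fun b => Icc 1 (x / b)), f s.1 * g s.2 := by
      rw [Finset.sum_sigma]
      refine Finset.sum_congr rfl fun b _ => ?_
      rw [Finset.mul_sum]
    rw [this]
    refine Finset.sum_bij' (fun p _ => (⟨p.2, p.1⟩ : (_ : ℕ) × ℕ)) (fun s _ => (s.2, s.1)) ?_ ?_ ?_ ?_ ?_
    · intro p hp
      simp only [hP, mem_filter, mem_product, mem_Icc, mem_sigma] at hp ⊢
      refine ⟨⟨hp.1.1.2.1, hp.2⟩, hp.1.1.1.1, ?_⟩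
      rw [Nat.le_div_iff_mul_le hp.1.1.2.1]
      exact hp.1.2
    · intro s hs
      simp only [hP, mem_filter, mem_product, mem_Icc, mem_sigma] at hs ⊢
      obtain ⟨⟨h1, h2⟩, h3, h4⟩ := hs
      rw [Nat.le_div_iff_mul_le h1] at h4
      refine ⟨⟨⟨⟨h3, by nlinarith⟩, h1, by nlinarith⟩, h4⟩, h2⟩
    · intro p _; rfl
    · intro s _; rfl
    · intro p _; ring
  · have : ∑ a ∈ Icc 1 z, g a * (∑ b ∈ Icc 1 (x / a), f b - ∑ b ∈ Icc 1 (x / z), f b) =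
        ∑ s ∈ (Icc 1 z).sigma (fun a => Ioc (x / z) (x / a)), g s.1 * f s.2 := by
      rw [Finset.sum_sigma]
      refine Finset.sum_congr rfl fun a ha => ?_
      show g a * _ = ∑ s ∈ Ioc (x / z) (x / a), g a * f s
      rw [← Finset.mul_sum]
      congr 1
      have hle : x / z ≤ x / a := Nat.div_le_div_left (Finset.mem_Icc.1 ha).2 (Finset.mem_Icc.1 ha).1
      rw [sub_eq_iff_eq_add, ← Finset.sum_union]
      · refine Finset.sum_congr ?_ fun _ _ => rfl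
        ext n
        simp only [mem_Icc, mem_union, mem_Ioc]
        generalize x / a = u at *
        generalize x / z = v at *
        omega
      · rw [Finset.disjoint_left]
        intro n h1 h2
        simp only [mem_Icc, mem_Ioc] at h1 h2
        omega
    rw [this]
    refine Finset.sum_bij' (fun p _ => (⟨p.1, p.2⟩ : (_ : ℕ) × ℕ)) (fun s _ => (s.1, s.2)) ?_ ?_ ?_ ?_ ?_
    · intro p hp
      simp only [hP, mem_filter, mem_product, mem_Icc, mem_sigma, mem_Ioc, not_le] at hp ⊢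
      obtain ⟨⟨⟨⟨h1, h2⟩, h3, h4⟩, h5⟩, h6⟩ := hp
      refine ⟨⟨h1, ?_⟩, h6, ?_⟩
      · by_contra hc
        push Not at hc
        have h7 := Nat.div_lt_iff_lt_mul (show 0 < z by omega) |>.1 h6
        nlinarith
      · rw [Nat.le_div_iff_mul_le h1]
        nlinarith
    · intro s hs
      simp only [hP, mem_filter, mem_product, mem_Icc, mem_sigma, mem_Ioc, not_le] at hs ⊢
      obtain ⟨⟨h1, h2⟩, h3, h4⟩ := hs
      rw [Nat.le_div_iff_mul_le h1] at h4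
      have h5 : 0 < s.2 := lt_of_le_of_lt (Nat.zero_le _) h3
      refine ⟨⟨⟨⟨h1, by nlinarith⟩, h5, by nlinarith⟩, by nlinarith⟩, h3⟩
    · intro p _; rfl
    · intro s _; rfl
    · intro p _; rfl

/-- The hypotheses. -/
def Hyp (j : ℕ) (f g : ℕ → ℂ) (c : ℂ) (K : ℝ) : Prop :=
  1 ≤ K ∧ ‖c‖ ≤ 1 ∧ (∀ n, ‖f n‖ ≤ 1) ∧ (∀ n, ‖g n‖ ≤ h n) ∧
  (∀ n : ℕ, 1 ≤ n → ∑ p ∈ n.divisorsAntidiagonal, g p.1 * f p.2 = -(f n * (Real.log n : ℂ)) + (if n = 1 then c else 0)) ∧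
  (∀ y : ℕ, 3 ≤ y → ‖∑ n ∈ Icc 1 y, g n‖ ≤ K * y / Real.log y ^ (2 * j + 6))

lemma triv (f : ℕ → ℂ) (hf : ∀ n, ‖f n‖ ≤ 1) (x : ℕ) : ‖∑ n ∈ Icc 1 x, f n‖ ≤ x := by
  calc ‖∑ n ∈ Icc 1 x, f n‖ ≤ ∑ n ∈ Icc 1 x, ‖f n‖ := norm_sum_le _ _
    _ ≤ ∑ n ∈ Icc 1 x, (1 : ℝ) := Finset.sum_le_sum fun n _ => hf n
    _ = x := by simp

/-- The first sum. -/
lemma S1 (i : ℕ) (f : ℕ → ℂ) (hf : ∀ n, ‖f n‖ ≤ 1) (x : ℕ) (hx : 1 ≤ x) (l s B : ℝ) (hl : 0 ≤ l) (hs : 0 ≤ s) (hB : 0 ≤ B)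
    (hP : ∀ y : ℕ, s ≤ y → y ≤ x → ‖∑ n ∈ Icc 1 y, f n‖ * l ^ i ≤ B * y) :
    ‖∑ n ∈ Icc 1 x, f n * ((Real.log x : ℂ) - (Real.log n : ℂ))‖ * l ^ i ≤ B * x + l ^ i * s := by
  rw [abel f x hx]
  have h1 : ∀ m ∈ Ico 1 x, ‖(∑ n ∈ Icc 1 m, f n) * ((Real.log (m + 1 : ℕ) : ℂ) - (Real.log m : ℂ))‖ * l ^ i ≤
      B + (if (m : ℝ) < s then l ^ i else 0) := by
    intro m hm
    rw [Finset.mem_Ico] at hm
    have hm0 : (0 : ℝ) < m := by exact_mod_cast hm.1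
    obtain ⟨h2, h3⟩ := log_step m hm.1
    have h4 : ‖((Real.log (m + 1 : ℕ) : ℂ) - (Real.log m : ℂ))‖ ≤ 1 / m := by
      rw [← Complex.ofReal_sub, Complex.norm_real, Real.norm_eq_abs, abs_of_nonneg h2]
      exact h3
    rw [norm_mul]
    have h5 : ‖∑ n ∈ Icc 1 m, f n‖ * ‖((Real.log (m + 1 : ℕ) : ℂ) - (Real.log m : ℂ))‖ * l ^ i ≤
        ‖∑ n ∈ Icc 1 m, f n‖ * l ^ i / m := by
      calc ‖∑ n ∈ Icc 1 m, f n‖ * ‖((Real.log (m + 1 : ℕ) : ℂ) - (Real.log m : ℂ))‖ * l ^ i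
          ≤ ‖∑ n ∈ Icc 1 m, f n‖ * (1 / m) * l ^ i := by gcongr
        _ = _ := by ring
    refine h5.trans ?_
    split_ifs with hc
    · have h6 := triv f hf m
      rw [div_le_iff₀ hm0]
      have h7 : 0 ≤ l ^ i := pow_nonneg hl i
      nlinarith [mul_le_mul_of_nonneg_right h6 h7, mul_nonneg hB hm0.le]
    · push Not at hc
      rw [div_le_iff₀ hm0, add_zero]
      exact hP m hc hm.2.le
  calc ‖∑ m ∈ Ico 1 x, (∑ n ∈ Icc 1 m, f n) * ((Real.log (m + 1 : ℕ) : ℂ) - (Real.log m : ℂ))‖ * l ^ i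
      ≤ (∑ m ∈ Ico 1 x, ‖(∑ n ∈ Icc 1 m, f n) * ((Real.log (m + 1 : ℕ) : ℂ) - (Real.log m : ℂ))‖) * l ^ i := by
        gcongr
        exact norm_sum_le _ _
    _ = ∑ m ∈ Ico 1 x, ‖(∑ n ∈ Icc 1 m, f n) * ((Real.log (m + 1 : ℕ) : ℂ) - (Real.log m : ℂ))‖ * l ^ i := by
        rw [Finset.sum_mul]
    _ ≤ ∑ m ∈ Ico 1 x, (B + (if (m : ℝ) < s then l ^ i else 0)) := Finset.sum_le_sum h1
    _ = (x - 1 : ℕ) * B + ((Ico 1 x).filter (fun m : ℕ => (m : ℝ) < s)).card * l ^ i := by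
        rw [Finset.sum_add_distrib, Finset.sum_const, Nat.card_Ico, nsmul_eq_mul, ← Finset.sum_filter,
          Finset.sum_const, nsmul_eq_mul]
    _ ≤ x * B + s * l ^ i := by
        have h8 : (((Ico 1 x).filter (fun m : ℕ => (m : ℝ) < s)).card : ℝ) ≤ s := by
          have h9 : (Ico 1 x).filter (fun m : ℕ => (m : ℝ) < s) ⊆ Icc 1 ⌊s⌋₊ := by
            intro m hm
            simp only [mem_filter, mem_Ico, mem_Icc] at hm ⊢
            exact ⟨hm.1.1, Nat.le_floor hm.2.le⟩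
          have h10 := Finset.card_le_card h9
          rw [Nat.card_Icc, Nat.add_sub_cancel] at h10
          exact le_trans (by exact_mod_cast h10) (Nat.floor_le hs)
        have h11 : ((x - 1 : ℕ) : ℝ) ≤ x := by exact_mod_cast Nat.sub_le x 1
        gcongr
    _ = B * x + l ^ i * s := by ring

lemma pow_le (i : ℕ) (l : ℝ) (hl : 0 ≤ l) : l ^ i ≤ i.factorial * Real.exp l := by
  have := Real.pow_div_factorial_le_exp (x := l) hl i
  rwa [div_le_iff₀ (by exact_mod_cast i.factorial_pos), mul_comm] at this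

/-- The sum with `G`. -/
lemma SU (j : ℕ) (f g : ℕ → ℂ) (K : ℝ) (hK : 1 ≤ K) (hf : ∀ n, ‖f n‖ ≤ 1)
    (hG : ∀ y : ℕ, 3 ≤ y → ‖∑ n ∈ Icc 1 y, g n‖ ≤ K * y / Real.log y ^ (2 * j + 6))
    (x z : ℕ) (l : ℝ) (hz : 3 ≤ z) (hl : 1 ≤ l) (hlz : l / 2 ≤ Real.log z) (hx : Real.log x = l ^ 2) (hx1 : 1 ≤ x) :
    ‖∑ b ∈ Icc 1 (x / z), f b * ∑ a ∈ Icc 1 (x / b), g a‖ * l ^ (2 * j + 4) ≤ 2 ^ (2 * j + 7) * K * x := by
  have hl0 : 0 < l := by linarith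
  have hx0 : (0 : ℝ) < x := by exact_mod_cast hx1
  have h1 : ∀ b ∈ Icc 1 (x / z), ‖f b * ∑ a ∈ Icc 1 (x / b), g a‖ * l ^ (2 * j + 6) ≤
      2 ^ (2 * j + 6) * K * x * (1 / b) := by
    intro b hb
    rw [Finset.mem_Icc] at hb
    have hb0 : (0 : ℝ) < b := by exact_mod_cast hb.1
    have h2 : z ≤ x / b := by
      rw [Nat.le_div_iff_mul_le hb.1]
      calc z * b ≤ z * (x / z) := Nat.mul_le_mul_left _ hb.2
        _ ≤ x := Nat.mul_div_le x z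
    have h3 := hG (x / b) (hz.trans h2)
    have hz0 : (0 : ℝ) < z := by exact_mod_cast (show 0 < z by omega)
    have h4 : l / 2 ≤ Real.log (x / b : ℕ) := hlz.trans (Real.log_le_log hz0 (by exact_mod_cast h2))
    have h5 : (l / 2) ^ (2 * j + 6) ≤ Real.log (x / b : ℕ) ^ (2 * j + 6) := pow_le_pow_left₀ (by positivity) h4 _
    have h6 : (0 : ℝ) < Real.log (x / b : ℕ) ^ (2 * j + 6) := lt_of_lt_of_le (by positivity) h5
    rw [le_div_iff₀ h6] at h3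
    have h7 : ((x / b : ℕ) : ℝ) ≤ x / b := Nat.cast_div_le
    have h8 : ‖∑ n ∈ Icc 1 (x / b), g n‖ * (l / 2) ^ (2 * j + 6) ≤ K * (x / b) := by
      calc ‖∑ n ∈ Icc 1 (x / b), g n‖ * (l / 2) ^ (2 * j + 6)
          ≤ ‖∑ n ∈ Icc 1 (x / b), g n‖ * Real.log (x / b : ℕ) ^ (2 * j + 6) := by gcongr
        _ ≤ K * (x / b : ℕ) := h3
        _ ≤ K * (x / b) := by gcongr
    rw [div_pow] at h8
    have h9 : ‖∑ n ∈ Icc 1 (x / b), g n‖ * l ^ (2 * j + 6) ≤ 2 ^ (2 * j + 6) * (K * (x / b)) := by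
      have := mul_le_mul_of_nonneg_left h8 (show (0 : ℝ) ≤ 2 ^ (2 * j + 6) by positivity)
      refine le_trans (le_of_eq ?_) this
      field_simp
    rw [norm_mul]
    calc ‖f b‖ * ‖∑ a ∈ Icc 1 (x / b), g a‖ * l ^ (2 * j + 6)
        ≤ 1 * ‖∑ a ∈ Icc 1 (x / b), g a‖ * l ^ (2 * j + 6) := by gcongr; exact hf b
      _ ≤ 2 ^ (2 * j + 6) * (K * (x / b)) := by rw [one_mul]; exact h9
      _ = 2 ^ (2 * j + 6) * K * x * (1 / b) := by ring
  have h2 : ∑ b ∈ Icc 1 (x / z), (1 / (b : ℝ)) ≤ 1 + l ^ 2 := by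
    rcases Nat.eq_zero_or_pos (x / z) with h | h
    · rw [h]; simp; positivity
    have h3 := harmonic_le_one_add_log (x / z)
    rw [harmonic_eq_sum_Icc] at h3
    push_cast at h3
    have h4 : Real.log ((x / z : ℕ) : ℝ) ≤ l ^ 2 := by
      rw [← hx]
      exact Real.log_le_log (by exact_mod_cast h) (by exact_mod_cast Nat.div_le_self x z)
    simp only [one_div]
    linarith
  have h3 : ‖∑ b ∈ Icc 1 (x / z), f b * ∑ a ∈ Icc 1 (x / b), g a‖ * l ^ (2 * j + 6) ≤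
      2 ^ (2 * j + 6) * K * x * (1 + l ^ 2) := by
    calc ‖∑ b ∈ Icc 1 (x / z), f b * ∑ a ∈ Icc 1 (x / b), g a‖ * l ^ (2 * j + 6)
        ≤ (∑ b ∈ Icc 1 (x / z), ‖f b * ∑ a ∈ Icc 1 (x / b), g a‖) * l ^ (2 * j + 6) := by
          gcongr; exact norm_sum_le _ _
      _ = ∑ b ∈ Icc 1 (x / z), ‖f b * ∑ a ∈ Icc 1 (x / b), g a‖ * l ^ (2 * j + 6) := by rw [Finset.sum_mul]
      _ ≤ ∑ b ∈ Icc 1 (x / z), 2 ^ (2 * j + 6) * K * x * (1 / (b : ℝ)) := Finset.sum_le_sum h1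
      _ = 2 ^ (2 * j + 6) * K * x * ∑ b ∈ Icc 1 (x / z), (1 / (b : ℝ)) := by rw [Finset.mul_sum]
      _ ≤ 2 ^ (2 * j + 6) * K * x * (1 + l ^ 2) := by gcongr
  have h4 : l ^ (2 * j + 6) = l ^ (2 * j + 4) * l ^ 2 := by rw [← pow_add]
  have hl2 : 1 ≤ l ^ 2 := one_le_pow₀ hl
  rw [h4, ← mul_assoc] at h3
  have h5 : 2 ^ (2 * j + 6) * K * x * (1 + l ^ 2) ≤ 2 ^ (2 * j + 7) * K * x * l ^ 2 := by
    have : (2 : ℝ) ^ (2 * j + 7) = 2 ^ (2 * j + 6) * 2 := by rw [← pow_succ]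
    rw [this]
    have h6 : (0 : ℝ) ≤ 2 ^ (2 * j + 6) * K * x := by positivity
    nlinarith
  exact le_of_mul_le_mul_right (h3.trans h5) (by positivity)

/-- The sum with `F`. -/
lemma SV (i : ℕ) (f g : ℕ → ℂ) (hg : ∀ n, ‖g n‖ ≤ h n) (x z : ℕ) (l s B : ℝ) (hz : 3 ≤ z) (hl : 1 ≤ l) (hB : 0 ≤ B)
    (hlz : Real.log z ≤ l) (hs : s ≤ (x / z : ℕ))
    (hP : ∀ y : ℕ, s ≤ y → y ≤ x → ‖∑ n ∈ Icc 1 y, f n‖ * l ^ i ≤ B * y) :
    ‖∑ a ∈ Icc 1 z, g a * (∑ b ∈ Icc 1 (x / a), f b - ∑ b ∈ Icc 1 (x / z), f b)‖ * l ^ i ≤ 21 * B * x * l := by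
  have hl0 : 0 < l := by linarith
  have hz0 : (0 : ℝ) < z := by exact_mod_cast (show 0 < z by omega)
  have h1 : ∀ a ∈ Icc 1 z, ‖g a * (∑ b ∈ Icc 1 (x / a), f b - ∑ b ∈ Icc 1 (x / z), f b)‖ * l ^ i ≤
      B * x * (h a / a) + B * x / z * h a := by
    intro a ha
    rw [Finset.mem_Icc] at ha
    have ha0 : (0 : ℝ) < a := by exact_mod_cast ha.1
    have h2 : x / z ≤ x / a := Nat.div_le_div_left ha.2 ha.1
    have h3 := hP (x / a) (hs.trans (by exact_mod_cast h2)) (Nat.div_le_self _ _)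
    have h4 := hP (x / z) hs (Nat.div_le_self _ _)
    have h5 : ((x / a : ℕ) : ℝ) ≤ x / a := Nat.cast_div_le
    have h6 : ((x / z : ℕ) : ℝ) ≤ x / z := Nat.cast_div_le
    have h7 := h_nonneg a
    rw [norm_mul]
    calc ‖g a‖ * ‖∑ b ∈ Icc 1 (x / a), f b - ∑ b ∈ Icc 1 (x / z), f b‖ * l ^ i
        ≤ h a * (‖∑ b ∈ Icc 1 (x / a), f b‖ + ‖∑ b ∈ Icc 1 (x / z), f b‖) * l ^ i := by
          gcongr
          · exact hg a
          · exact norm_sub_le _ _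
      _ = h a * (‖∑ b ∈ Icc 1 (x / a), f b‖ * l ^ i + ‖∑ b ∈ Icc 1 (x / z), f b‖ * l ^ i) := by ring
      _ ≤ h a * (B * (x / a) + B * (x / z)) :=
          mul_le_mul_of_nonneg_left (add_le_add (h3.trans (mul_le_mul_of_nonneg_left h5 hB))
            (h4.trans (mul_le_mul_of_nonneg_left h6 hB))) h7
      _ = B * x * (h a / a) + B * x / z * h a := by ring
  have hs1 := sum_h z
  have hs2 := sum_h_div z
  calc ‖∑ a ∈ Icc 1 z, g a * (∑ b ∈ Icc 1 (x / a), f b - ∑ b ∈ Icc 1 (x / z), f b)‖ * l ^ i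
      ≤ (∑ a ∈ Icc 1 z, ‖g a * (∑ b ∈ Icc 1 (x / a), f b - ∑ b ∈ Icc 1 (x / z), f b)‖) * l ^ i := by
        gcongr; exact norm_sum_le _ _
    _ = ∑ a ∈ Icc 1 z, ‖g a * (∑ b ∈ Icc 1 (x / a), f b - ∑ b ∈ Icc 1 (x / z), f b)‖ * l ^ i := by rw [Finset.sum_mul]
    _ ≤ ∑ a ∈ Icc 1 z, (B * x * (h a / a) + B * x / z * h a) := Finset.sum_le_sum h1
    _ = B * x * ∑ a ∈ Icc 1 z, h a / a + B * x / z * ∑ a ∈ Icc 1 z, h a := by
        rw [Finset.sum_add_distrib, Finset.mul_sum, Finset.mul_sum]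
    _ ≤ B * x * (7 * (1 + l)) + B * x / z * (7 * z) := by
        gcongr
        exact hs2.trans (by gcongr)
    _ = B * x * (7 * (1 + l)) + B * x * 7 := by field_simp
    _ ≤ 21 * B * x * l := by
        have h9 : 0 ≤ B * x := by positivity
        nlinarith

/-- One step of the recursion, large `x`. -/
lemma big (j i : ℕ) (hi : i ≤ 2 * j + 4) (C : ℝ) (hC : 1 ≤ C) (f g : ℕ → ℂ) (c : ℂ) (K : ℝ) (H : Hyp j f g c K)
    (hP : ∀ x : ℕ, 3 ≤ x → ‖∑ n ∈ Icc 1 x, f n‖ * Real.sqrt (Real.log x) ^ i ≤ C * K * x)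
    (x : ℕ) (hx : 3 ≤ x) (hl4 : 4 < Real.sqrt (Real.log x)) :
    ‖∑ n ∈ Icc 1 x, f n‖ * Real.sqrt (Real.log x) ^ (i + 1) ≤
      (22 * 2 ^ i * C + 2 * i.factorial + 2 ^ (2 * j + 7)) * K * x := by
  obtain ⟨hK, hc, hf, hg, hfg, hG⟩ := H
  have hx0 : (0 : ℝ) < x := by exact_mod_cast (show 0 < x by omega)
  have hL : 0 ≤ Real.log x := Real.log_natCast_nonneg x
  set l := Real.sqrt (Real.log x) with hl
  have hl2 : Real.log x = l ^ 2 := (Real.sq_sqrt hL).symm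
  have hl0 : 0 < l := by linarith
  have hex : Real.exp (l ^ 2) = x := by rw [← hl2, Real.exp_log hx0]
  set s := Real.exp (l ^ 2 / 2) with hs
  have hss : s * s = x := by rw [hs, ← Real.exp_add, ← hex]; congr 1; ring
  have hs3 : 3 ≤ s := by
    have := Real.add_one_le_exp (l ^ 2 / 2)
    nlinarith
  set z := ⌊Real.exp l⌋₊ with hz
  have hzl : (z : ℝ) ≤ Real.exp l := Nat.floor_le (Real.exp_pos l).le
  have hlz : Real.exp l < z + 1 := Nat.lt_floor_add_one _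
  have hz3 : 3 ≤ z := by
    have h1 := Real.add_one_le_exp l
    exact Nat.le_floor (by push_cast; linarith)
  have hz0 : (0 : ℝ) < z := by exact_mod_cast (show 0 < z by omega)
  have hlogz : Real.log z ≤ l := by
    rw [Real.log_le_iff_le_exp hz0]; exact hzl
  have hlogz2 : l / 2 ≤ Real.log z := by
    rw [Real.le_log_iff_exp_le hz0]
    have h1 := Real.add_one_le_exp (l / 2)
    have h2 : Real.exp l = Real.exp (l / 2) * Real.exp (l / 2) := by rw [← Real.exp_add]; congr 1; ring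
    nlinarith
  have hsw : s ≤ ((x / z : ℕ) : ℝ) := by
    have h1 : x < z * (x / z + 1) := Nat.lt_mul_div_succ x (by omega)
    have h2 : (x : ℝ) < z * ((x / z : ℕ) + 1) := by exact_mod_cast h1
    have h3 : (x : ℝ) < Real.exp l * ((x / z : ℕ) + 1) := lt_of_lt_of_le h2 (by gcongr)
    have h4 : (x : ℝ) = Real.exp l * (s * Real.exp (l ^ 2 / 2 - l)) := by
      rw [hs, ← Real.exp_add, ← Real.exp_add, ← hex]; congr 1; ring
    rw [h4] at h3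
    have h5 := lt_of_mul_lt_mul_left h3 (Real.exp_pos l).le
    have h6 := Real.add_one_le_exp (l ^ 2 / 2 - l)
    have h7 : 2 ≤ Real.exp (l ^ 2 / 2 - l) := by nlinarith
    nlinarith
  have hB : (0 : ℝ) ≤ 2 ^ i * C * K := by positivity
  have hP' : ∀ y : ℕ, s ≤ y → y ≤ x → ‖∑ n ∈ Icc 1 y, f n‖ * l ^ i ≤ 2 ^ i * C * K * y := by
    intro y hy hyx
    have hy0 : (0 : ℝ) < y := by linarith
    have hy3 : 3 ≤ y := by
      have : (3 : ℝ) ≤ y := hs3.trans hy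
      exact_mod_cast this
    have h1 := hP y hy3
    have h2 : l ^ 2 / 2 ≤ Real.log y := by
      rw [Real.le_log_iff_exp_le hy0]; exact hy
    have h3 : l / 2 ≤ Real.sqrt (Real.log y) := by
      apply Real.le_sqrt_of_sq_le
      nlinarith
    have h4 : l ^ i ≤ 2 ^ i * Real.sqrt (Real.log y) ^ i := by
      rw [← mul_pow]
      exact pow_le_pow_left₀ hl0.le (by linarith) i
    calc ‖∑ n ∈ Icc 1 y, f n‖ * l ^ i ≤ ‖∑ n ∈ Icc 1 y, f n‖ * (2 ^ i * Real.sqrt (Real.log y) ^ i) := by gcongr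
      _ = 2 ^ i * (‖∑ n ∈ Icc 1 y, f n‖ * Real.sqrt (Real.log y) ^ i) := by ring
      _ ≤ 2 ^ i * (C * K * y) := by gcongr
      _ = 2 ^ i * C * K * y := by ring
  have hS1 := S1 i f hf x (by omega) l s (2 ^ i * C * K) hl0.le (by linarith) hB hP'
  have hU := SU j f g K hK hf hG x z l hz3 (by linarith) hlogz2 hl2 (by omega)
  have hV := SV i f g hg x z l s (2 ^ i * C * K) hz3 (by linarith) hB hlogz hsw hP'
  set U := ∑ b ∈ Icc 1 (x / z), f b * ∑ a ∈ Icc 1 (x / b), g a with hUdef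
  set V := ∑ a ∈ Icc 1 z, g a * (∑ b ∈ Icc 1 (x / a), f b - ∑ b ∈ Icc 1 (x / z), f b) with hVdef
  set T := ∑ n ∈ Icc 1 x, f n * ((Real.log x : ℂ) - (Real.log n : ℂ)) with hTdef
  set F := ∑ n ∈ Icc 1 x, f n with hFdef
  have hsum : U + V = -(∑ n ∈ Icc 1 x, f n * (Real.log n : ℂ)) + c := by
    rw [hUdef, hVdef, ← hyp f g x z (by omega)]
    have : ∀ n ∈ Icc 1 x, ∑ p ∈ n.divisorsAntidiagonal, g p.1 * f p.2 =
        -(f n * (Real.log n : ℂ)) + (if n = 1 then c else 0) := by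
      intro n hn
      exact hfg n (Finset.mem_Icc.1 hn).1
    rw [Finset.sum_congr rfl this, Finset.sum_add_distrib, Finset.sum_neg_distrib, Finset.sum_ite_eq' (Icc 1 x) 1]
    rw [if_pos (Finset.mem_Icc.2 ⟨le_rfl, by omega⟩)]
  have hF : F * (Real.log x : ℂ) = T + (c - U - V) := by
    have h1 : T = F * (Real.log x : ℂ) - ∑ n ∈ Icc 1 x, f n * (Real.log n : ℂ) := by
      rw [hTdef, hFdef, Finset.sum_mul, ← Finset.sum_sub_distrib]
      refine Finset.sum_congr rfl fun n _ => ?_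
      ring
    have h2 : ∑ n ∈ Icc 1 x, f n * (Real.log n : ℂ) = c - U - V := by
      linear_combination hsum
    rw [h1, h2]; ring
  have hn : ‖F‖ * l ^ 2 ≤ ‖T‖ + (1 + ‖U‖ + ‖V‖) := by
    have h1 : ‖F * (Real.log x : ℂ)‖ = ‖F‖ * l ^ 2 := by
      rw [norm_mul, Complex.norm_real, Real.norm_eq_abs, abs_of_nonneg hL, hl2]
    rw [← h1, hF]
    refine (norm_add_le _ _).trans ?_
    gcongr
    refine (norm_sub_le _ _).trans ?_
    gcongr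
    refine (norm_sub_le _ _).trans ?_
    gcongr
  have he1 : l ^ i ≤ i.factorial * x := by
    refine (pow_le i l hl0.le).trans ?_
    gcongr
    rw [← hex]
    apply Real.exp_le_exp.2
    nlinarith
  have he2 : l ^ i * s ≤ i.factorial * x := by
    rw [← hss, ← mul_assoc]
    gcongr
    refine (pow_le i l hl0.le).trans ?_
    gcongr
    rw [hs]
    apply Real.exp_le_exp.2
    nlinarith
  have hU2 : ‖U‖ * l ^ i ≤ 2 ^ (2 * j + 7) * K * x := by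
    refine le_trans ?_ hU
    exact mul_le_mul_of_nonneg_left (pow_le_pow_right₀ (by linarith) hi) (norm_nonneg _)
  have hA : ‖F‖ * l ^ (i + 1) * l ≤ (22 * 2 ^ i * C + 2 * i.factorial + 2 ^ (2 * j + 7)) * K * x * l := by
    have h1 : ‖F‖ * l ^ (i + 1) * l = ‖F‖ * l ^ 2 * l ^ i := by ring
    rw [h1]
    have h2 : ‖F‖ * l ^ 2 * l ^ i ≤ (‖T‖ + (1 + ‖U‖ + ‖V‖)) * l ^ i := by gcongr
    have h3 : (‖T‖ + (1 + ‖U‖ + ‖V‖)) * l ^ i = ‖T‖ * l ^ i + l ^ i + ‖U‖ * l ^ i + ‖V‖ * l ^ i := by ring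
    have hfac : (0 : ℝ) ≤ i.factorial := by positivity
    have hKx : (x : ℝ) ≤ K * x * l := by
      have : (1 : ℝ) ≤ K * l := by nlinarith
      nlinarith
    have hKx2 : K * x ≤ K * x * l := by
      have : 0 ≤ K * x := by positivity
      nlinarith
    have h4 : 2 ^ i * C * K * x ≤ 2 ^ i * C * (K * x * l) := by
      have : 0 ≤ 2 ^ i * C := by positivity
      nlinarith [mul_le_mul_of_nonneg_left hKx2 this]
    have h5 : (i.factorial : ℝ) * x ≤ i.factorial * (K * x * l) := by gcongr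
    have h6 : 2 ^ (2 * j + 7) * K * x ≤ 2 ^ (2 * j + 7) * (K * x * l) := by
      have : (0 : ℝ) ≤ 2 ^ (2 * j + 7) := by positivity
      nlinarith [mul_le_mul_of_nonneg_left hKx2 this]
    have h7 : (22 * 2 ^ i * C + 2 * i.factorial + 2 ^ (2 * j + 7)) * K * x * l =
      2 ^ i * C * (K * x * l) + i.factorial * (K * x * l) + i.factorial * (K * x * l) + 2 ^ (2 * j + 7) * (K * x * l)
        + 21 * (2 ^ i * C * K) * x * l := by ring
    rw [h7]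
    linarith
  exact le_of_mul_le_mul_right hA hl0

/-- One step of the recursion. -/
lemma step (j i : ℕ) (hi : i ≤ 2 * j + 4) (C : ℝ) (hC : 1 ≤ C)
    (hP : ∀ (f g : ℕ → ℂ) (c : ℂ) (K : ℝ), Hyp j f g c K →
      ∀ x : ℕ, 3 ≤ x → ‖∑ n ∈ Icc 1 x, f n‖ * Real.sqrt (Real.log x) ^ i ≤ C * K * x) :
    ∃ C' : ℝ, 1 ≤ C' ∧ ∀ (f g : ℕ → ℂ) (c : ℂ) (K : ℝ), Hyp j f g c K →
      ∀ x : ℕ, 3 ≤ x → ‖∑ n ∈ Icc 1 x, f n‖ * Real.sqrt (Real.log x) ^ (i + 1) ≤ C' * K * x := by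
  refine ⟨4 ^ (i + 1) + (22 * 2 ^ i * C + 2 * i.factorial + 2 ^ (2 * j + 7)), ?_, ?_⟩
  · have h1 : (1 : ℝ) ≤ 4 ^ (i + 1) := one_le_pow₀ (by norm_num)
    have h2 : (0 : ℝ) ≤ 22 * 2 ^ i * C + 2 * i.factorial + 2 ^ (2 * j + 7) := by positivity
    linarith
  · intro f g c K H x hx
    have hx0 : (0 : ℝ) < x := by exact_mod_cast (show 0 < x by omega)
    have hK : 1 ≤ K := H.1
    rcases le_or_gt (Real.sqrt (Real.log x)) 4 with h4 | h4
    · have h1 := triv f H.2.2.1 x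
      have h2 : Real.sqrt (Real.log x) ^ (i + 1) ≤ 4 ^ (i + 1) := pow_le_pow_left₀ (Real.sqrt_nonneg _) h4 _
      have h3 : (0 : ℝ) ≤ 22 * 2 ^ i * C + 2 * i.factorial + 2 ^ (2 * j + 7) := by positivity
      calc ‖∑ n ∈ Icc 1 x, f n‖ * Real.sqrt (Real.log x) ^ (i + 1) ≤ x * 4 ^ (i + 1) := by gcongr
        _ = 4 ^ (i + 1) * 1 * x := by ring
        _ ≤ (4 ^ (i + 1) + (22 * 2 ^ i * C + 2 * i.factorial + 2 ^ (2 * j + 7))) * K * x := by
            gcongr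
            linarith
    · have h1 := big j i hi C hC f g c K H (hP f g c K H) x hx h4
      have h2 : (0 : ℝ) ≤ 4 ^ (i + 1) * K * x := by positivity
      nlinarith

end MuRecAux

theorem mu_rec (j : ℕ) : ∃ C : ℝ, 1 ≤ C ∧ ∀ (f g : ℕ → ℂ) (c : ℂ) (K : ℝ), 1 ≤ K → ‖c‖ ≤ 1 → (∀ n, ‖f n‖ ≤ 1) →
    (∀ n, ‖g n‖ ≤ ArithmeticFunction.vonMangoldt n + 1) →
    (∀ n : ℕ, 1 ≤ n → ∑ p ∈ n.divisorsAntidiagonal, g p.1 * f p.2 = -(f n * (Real.log n : ℂ)) + (if n = 1 then c else 0)) →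
    (∀ y : ℕ, 3 ≤ y → ‖∑ n ∈ Icc 1 y, g n‖ ≤ K * y / Real.log y ^ (2 * j + 6)) →
    ∀ x : ℕ, 3 ≤ x → ‖∑ n ∈ Icc 1 x, f n‖ ≤ C * K * x / Real.log x ^ j := by
  have key : ∀ i : ℕ, i ≤ 2 * j → ∃ C : ℝ, 1 ≤ C ∧ ∀ (f g : ℕ → ℂ) (c : ℂ) (K : ℝ), MuRecAux.Hyp j f g c K →
      ∀ x : ℕ, 3 ≤ x → ‖∑ n ∈ Icc 1 x, f n‖ * Real.sqrt (Real.log x) ^ i ≤ C * K * x := by
    intro i
    induction i with
    | zero =>
      intro _
      refine ⟨1, le_rfl, fun f g c K H x hx => ?_⟩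
      have h1 := MuRecAux.triv f H.2.2.1 x
      have hK : 1 ≤ K := H.1
      have hx0 : (0 : ℝ) < x := by exact_mod_cast (show 0 < x by omega)
      rw [pow_zero, mul_one, one_mul]
      nlinarith
    | succ i ih =>
      intro hi
      obtain ⟨C, hC, hP⟩ := ih (by omega)
      exact MuRecAux.step j i (by omega) C hC hP
  obtain ⟨C, hC, hP⟩ := key (2 * j) le_rfl
  refine ⟨C, hC, fun f g c K hK hc hf hg hfg hG x hx => ?_⟩
  have h1 := hP f g c K ⟨hK, hc, hf, hg, hfg, hG⟩ x hx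
  have hL : 0 < Real.log x := Real.log_pos (by exact_mod_cast (show 1 < x by omega))
  rw [pow_mul, Real.sq_sqrt hL.le] at h1
  rw [le_div_iff₀ (by positivity)]
  exact h1

end Pool.Agent.MW
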