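import Pool.Agent.Lib.MW.MinorM
import Pool.Agent.Lib.MW.MajorM
import Pool.Agent.Lib.VL.SI3

/-!
# Module SIm: windows of the Moebius function, all frequencies

`L = log x`. `minor_mu B ε` gives `A`. If `Mn (L^A) H α`: done. Otherwise there are `1 ≤ q ≤ L^A`, `a` with `|η| ≤ L^A/H`, `η = α - a/q`. As in the major arc part of `VM.si6` (file VM/SI6.lean): `K = A + B + 10`, `R = ⌈L^K⌉₊`,
`h = H / R`, `VL.SI3Aux.major_red` with `c = mu`, `F = 1`, `N = 3x` (every `u ≤ 2x` has `u + H ≤ 3x`):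
`≤ 2 R² ∑_{v ≤ 3x} ‖∑_{Ioc v (v+h)} mu n ex(n a/q)‖² + 2 (3x+1) (2π |η| R h h + R)²`; the first part by `major_mu A (B + 4) (ε/4)` at `x' = 2x` (`range (3x + 1) ⊆ range (2 x' + 1)`; `L^A ≤ (log x')^A`, `x'^(1/6+ε/4) ≤ h ≤ x'^(9/25)`),
`R h ≤ H`: `≤ 2 · 2x H²/(log x')^(B+4)`; the second: `|η| R h ≤ L^A`, `h ≤ H/L^K`: `≤ 7x·(7 L^A H/L^K + 2 L^K)² ≤ x H²/L^(B+2)`.
-/

set_option autoImplicit false

open Finset Filter

namespace Pool.Agent.MW

open Pool.Agent.VK Pool.Agent.HLT Pool.Agent.VM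

open Pool.Agent.VL.SI3Aux Pool.Agent.HLU

private theorem si_mu_major (A B : ℕ) (ε : ℝ) (hε : 0 < ε) : ∀ᶠ x : ℕ in atTop, ∀ (H : ℕ) (α : ℝ),
    (x : ℝ) ^ (1 / 6 + ε) ≤ H → (H : ℝ) ≤ (x : ℝ) ^ (9 / 25 : ℝ) →
    ∀ (q : ℕ) (a : ℤ), 1 ≤ q → (q : ℝ) ≤ Real.log x ^ A → |α - a / q| ≤ Real.log x ^ A / H →
    ∑ u ∈ range (2 * x + 1), ‖∑ n ∈ Ioc u (u + H), mu n * ex (n * α)‖ ^ 2 ≤ x * (H : ℝ) ^ 2 / Real.log x ^ B := by
  obtain ⟨K, hK⟩ : ∃ K, K = A + B + 10 := ⟨_, rfl⟩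
  have hmaj0 := major_mu A (B + 4) (ε / 4) (by positivity)
  have htend : Tendsto (fun x : ℕ => 2 * x) atTop atTop :=
    tendsto_atTop_mono (fun x => by show x ≤ 2 * x; omega) tendsto_id
  have hmaj := htend.eventually hmaj0
  filter_upwards [hmaj, ev_log 3, eventually_ge_atTop 1,
    ev_lp (K + B + 8) 2 (1 / 6) (by norm_num), ev_lp K 4 (ε / 2) (by positivity),
    ev_lp 0 ((2 : ℝ) ^ (1 / 6 + ε / 4)) (ε / 4) (by positivity)] with x hmaj hL3 hx1 e3 e4 e5
  intro H α hxH hHx q a hq hqM hα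
  set L := Real.log x with hLdef
  have hx1' : (1 : ℝ) ≤ x := by exact_mod_cast hx1
  have hx0 : (0 : ℝ) < x := by linarith only [hx1']
  have hL0 : 0 < L := by linarith only [hL3]
  have hL1 : 1 ≤ L := by linarith only [hL3]
  have hL2 : L ≤ Real.log ((2 * x : ℕ) : ℝ) := by
    rw [hLdef]
    apply Real.log_le_log hx0
    push_cast
    linarith only [hx0]
  have hx13 : (x : ℝ) ^ (1 / 6 : ℝ) ≤ (x : ℝ) ^ (1 / 6 + ε) :=
    Real.rpow_le_rpow_of_exponent_le hx1' (by linarith only [hε])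
  have hH13 : (x : ℝ) ^ (1 / 6 : ℝ) ≤ H := hx13.trans hxH
  have hx13' : (1 : ℝ) ≤ (x : ℝ) ^ (1 / 6 : ℝ) := Real.one_le_rpow hx1' (by norm_num)
  have hH1 : (1 : ℝ) ≤ H := hx13'.trans hH13
  have hH0 : (0 : ℝ) < H := by linarith only [hH1]
  have hHx' : (H : ℝ) ≤ x := by
    refine hHx.trans ?_
    have h1 := Real.rpow_le_rpow_of_exponent_le hx1' (by norm_num : (9 / 25 : ℝ) ≤ 1)
    rwa [Real.rpow_one] at h1
  have hHxN : H ≤ x := by exact_mod_cast hHx'
  have hT0 : 0 ≤ x * (H : ℝ) ^ 2 / L ^ (B + 4) := by (clear * - hx1 hL3 hH1; positivity)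
  have hfin : 5 * (x * (H : ℝ) ^ 2 / L ^ (B + 4)) ≤ x * (H : ℝ) ^ 2 / L ^ B := by
    have h2 : (x : ℝ) * (H : ℝ) ^ 2 / L ^ B = L ^ 4 * (x * (H : ℝ) ^ 2 / L ^ (B + 4)) := by
      have : L ^ (B + 4) = L ^ B * L ^ 4 := by rw [← pow_add]
      rw [this]
      field_simp
    rw [h2]
    refine mul_le_mul_of_nonneg_right ?_ hT0
    have : (3 : ℝ) ^ 4 ≤ L ^ 4 := pow_le_pow_left₀ (by norm_num) hL3 4
    norm_num at this
    linarith only [this]
  refine le_trans ?_ hfin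
  -- the major arc argument
  set η : ℝ := α - a / q with hη
  have hαη : α = a / q + η := by rw [hη]; ring
  have hLK1 : 1 ≤ L ^ K := one_le_pow₀ hL1
  set R : ℕ := ⌈L ^ K⌉₊ with hR
  have hR1 : L ^ K ≤ R := Nat.le_ceil _
  have hR2 : (R : ℝ) ≤ 2 * L ^ K := by
    have := (Nat.ceil_lt_add_one (by (clear * - hL3; positivity) : (0 : ℝ) ≤ L ^ K)).le
    linarith only [hLK1, this]
  have hR0 : 0 < R := by
    have : (0 : ℝ) < R := by linarith only [hLK1, hR1]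
    exact_mod_cast this
  have hR0' : (0 : ℝ) < R := by exact_mod_cast hR0
  obtain ⟨h, hh⟩ : ∃ h, h = H / R := ⟨_, rfl⟩
  have hRh : R * h ≤ H := by rw [hh]; exact Nat.mul_div_le H R
  have hRh2 : H ≤ R * h + R := by
    have := Nat.lt_mul_div_succ H hR0
    rw [← hh] at this
    have h3 : R * (h + 1) = R * h + R := by ring
    omega
  have hRhr : (R : ℝ) * h ≤ H := by exact_mod_cast hRh
  have hRh2r : (H : ℝ) ≤ R * h + R := by exact_mod_cast hRh2
  have hred := major_red mu (3 * x) H h R 1 (a / q) η zero_le_one (fun n _ => norm_mu n) hRh hRh2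
  rw [← hαη] at hred
  have hsub : range (2 * x + 1) ⊆ (range (3 * x + 1)).filter (fun u => u + H ≤ 3 * x) := by
    intro u hu
    rw [Finset.mem_range] at hu
    rw [Finset.mem_filter, Finset.mem_range]
    omega
  refine (Finset.sum_le_sum_of_subset_of_nonneg hsub (fun _ _ _ => by (clear * -; positivity))).trans ?_
  refine hred.trans ?_
  -- size of `h`
  have hhx : (x : ℝ) ^ (1 / 6 + ε / 2) ≤ h := by
    have h1 : (x : ℝ) ^ (1 / 6 + ε) = (x : ℝ) ^ (1 / 6 + ε / 2) * (x : ℝ) ^ (ε / 2) := by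
      rw [← Real.rpow_add hx0]
      congr 1
      ring
    have h2 : (1 : ℝ) ≤ (x : ℝ) ^ (1 / 6 + ε / 2) := Real.one_le_rpow hx1' (by (clear * - hε; positivity))
    have h3 : (x : ℝ) ^ (1 / 6 + ε / 2) * (4 * L ^ K) ≤ H := by
      refine le_trans ?_ hxH
      rw [h1]
      exact mul_le_mul_of_nonneg_left e4 (by (clear * - hx1; positivity))
    have h4 : (x : ℝ) ^ (1 / 6 + ε / 2) * (2 * R) ≤ H := by
      refine le_trans ?_ h3
      exact mul_le_mul_of_nonneg_left (by linarith only [hR2]) (by (clear * - hx1; positivity))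
    have h5 : (R : ℝ) * (2 * (x : ℝ) ^ (1 / 6 + ε / 2)) ≤ R * (h + 1) := by linarith only [hRh2r, h4]
    have h6 := le_of_mul_le_mul_left h5 hR0'
    linarith only [h2, h6]
  have hhx2 : ((2 * x : ℕ) : ℝ) ^ (1 / 6 + ε / 4) ≤ h := by
    refine le_trans ?_ hhx
    push_cast
    rw [Real.mul_rpow (by norm_num) hx0.le]
    have h1 : (x : ℝ) ^ (1 / 6 + ε / 2) = (x : ℝ) ^ (ε / 4) * (x : ℝ) ^ (1 / 6 + ε / 4) := by
      rw [← Real.rpow_add hx0]
      congr 1
      ring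
    rw [h1]
    rw [pow_zero, mul_one] at e5
    exact mul_le_mul_of_nonneg_right e5 (by (clear * - hx1; positivity))
  have hhH : (h : ℝ) ≤ H := by
    have : h ≤ H := by rw [hh]; exact Nat.div_le_self _ _
    exact_mod_cast this
  have hh25 : (h : ℝ) ≤ ((2 * x : ℕ) : ℝ) ^ (9 / 25 : ℝ) := by
    refine hhH.trans (hHx.trans ?_)
    refine Real.rpow_le_rpow hx0.le ?_ (by norm_num)
    push_cast
    linarith only [hx0]
  have hT := hmaj q a hq (hqM.trans (pow_le_pow_left₀ hL0.le hL2 A)) h hhx2 hh25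
  have hT' : ∑ v ∈ range (3 * x + 1), ‖∑ n ∈ Ioc v (v + h), mu n * ex (n * (a / q))‖ ^ 2 ≤
      2 * (x * (h : ℝ) ^ 2 / L ^ (B + 4)) := by
    have h1 : range (3 * x + 1) ⊆ range (2 * (2 * x) + 1) := by
      intro u hu
      rw [Finset.mem_range] at hu ⊢
      omega
    refine (Finset.sum_le_sum_of_subset_of_nonneg h1 (fun _ _ _ => by (clear * -; positivity))).trans ?_
    refine hT.trans ?_
    have h2 : (2 : ℝ) * (x * (h : ℝ) ^ 2 / L ^ (B + 4)) = ((2 * x : ℕ) : ℝ) * (h : ℝ) ^ 2 / L ^ (B + 4) := by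
      push_cast
      ring
    rw [h2]
    refine div_le_div_of_nonneg_left (by (clear * -; positivity)) (by (clear * - hL3; positivity)) ?_
    exact pow_le_pow_left₀ hL0.le hL2 _
  have hpart1 : 2 * (R : ℝ) ^ 2 * ∑ v ∈ range (3 * x + 1), ‖∑ n ∈ Ioc v (v + h), mu n * ex (n * (a / q))‖ ^ 2 ≤
      4 * (x * (H : ℝ) ^ 2 / L ^ (B + 4)) := by
    have h1 : 2 * (R : ℝ) ^ 2 * ∑ v ∈ range (3 * x + 1), ‖∑ n ∈ Ioc v (v + h), mu n * ex (n * (a / q))‖ ^ 2 ≤
        2 * (R : ℝ) ^ 2 * (2 * (x * (h : ℝ) ^ 2 / L ^ (B + 4))) :=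
      mul_le_mul_of_nonneg_left hT' (by (clear * - hL3; positivity))
    refine h1.trans ?_
    have h2 : 2 * (R : ℝ) ^ 2 * (2 * (x * (h : ℝ) ^ 2 / L ^ (B + 4))) =
        4 * (x * (R * h : ℝ) ^ 2 / L ^ (B + 4)) := by ring
    rw [h2]
    refine mul_le_mul_of_nonneg_left ?_ (by norm_num)
    refine div_le_div_of_nonneg_right ?_ (by (clear * - hL3; positivity))
    refine mul_le_mul_of_nonneg_left ?_ hx0.le
    exact pow_le_pow_left₀ (by (clear * - hL3; positivity)) hRhr 2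
  have hE : 1 * (2 * Real.pi * |η| * (R * h) * h + R) ≤ 8 * (H / L ^ (B + 8)) := by
    have hpi : 2 * Real.pi ≤ 7 := by
      have := Real.pi_lt_d2
      linarith only [this]
    have hLMpos : 0 < L ^ A := by (clear * - hL3; positivity)
    have h1 : 2 * Real.pi * |η| * (R * h) ≤ 7 * L ^ A := by
      have h2 : |η| * (R * h) ≤ L ^ A / H * H :=
        mul_le_mul hα hRhr (by (clear * - hL3; positivity)) (by (clear * - hL3 hH1; positivity))
      rw [div_mul_cancel₀ _ hH0.ne'] at h2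
      have h3 : 2 * Real.pi * (|η| * (R * h)) ≤ 7 * L ^ A :=
        mul_le_mul hpi h2 (by (clear * - hL3; positivity)) (by norm_num)
      linarith only [h3]
    have h2 : (h : ℝ) ≤ H / L ^ K := by
      rw [le_div_iff₀ (by (clear * - hL3; positivity))]
      calc (h : ℝ) * L ^ K ≤ h * R := mul_le_mul_of_nonneg_left hR1 (Nat.cast_nonneg _)
        _ ≤ H := by linarith only [hRhr]
    have h3 : 2 * Real.pi * |η| * (R * h) * h ≤ 7 * L ^ A * (H / L ^ K) :=
      mul_le_mul h1 h2 (Nat.cast_nonneg _) (by (clear * - hL3; positivity))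
    have h4 : 7 * L ^ A * (H / L ^ K) ≤ 7 * (H / L ^ (B + 8)) := by
      have e : L ^ K = L ^ 2 * L ^ A * L ^ (B + 8) := by
        rw [hK, ← pow_add, ← pow_add]
        congr 1
        ring
      have h5 : 7 * L ^ A * (H / L ^ K) = 7 * (H / L ^ (B + 8)) / L ^ 2 := by
        rw [e]
        field_simp
      rw [h5]
      exact div_le_self (by (clear * - hL3; positivity)) (one_le_pow₀ hL1)
    have h5 : (R : ℝ) ≤ H / L ^ (B + 8) := by
      rw [le_div_iff₀ (by (clear * - hL3; positivity))]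
      have e : (2 * L ^ K) * L ^ (B + 8) = 2 * L ^ (K + B + 8) := by
        have : L ^ (K + B + 8) = L ^ K * L ^ (B + 8) := by
          rw [← pow_add]
          congr 1
        rw [this]; ring
      calc (R : ℝ) * L ^ (B + 8) ≤ (2 * L ^ K) * L ^ (B + 8) :=
            mul_le_mul_of_nonneg_right hR2 (by (clear * - hL3; positivity))
        _ = 2 * L ^ (K + B + 8) := e
        _ ≤ (x : ℝ) ^ (1 / 6 : ℝ) := e3
        _ ≤ H := hH13
    rw [one_mul]
    linarith only [h3, h4, h5]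
  have hpart2 : 2 * (((3 * x : ℕ) : ℝ) + 1) * (1 * (2 * Real.pi * |η| * (R * h) * h + R)) ^ 2 ≤
      x * (H : ℝ) ^ 2 / L ^ (B + 4) := by
    have h1 : (1 * (2 * Real.pi * |η| * (R * h) * h + R)) ^ 2 ≤ (8 * (H / L ^ (B + 8))) ^ 2 :=
      pow_le_pow_left₀ (by (clear * - hL3; positivity)) hE 2
    have h2 : 2 * (((3 * x : ℕ) : ℝ) + 1) ≤ 8 * x := by
      push_cast
      linarith only [hx1']
    calc 2 * (((3 * x : ℕ) : ℝ) + 1) * (1 * (2 * Real.pi * |η| * (R * h) * h + R)) ^ 2 ≤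
          8 * x * (8 * (H / L ^ (B + 8))) ^ 2 :=
            mul_le_mul h2 h1 (by (clear * - hL3; positivity)) (by (clear * - hx1; positivity))
      _ = 512 / L ^ (B + 12) * (x * (H : ℝ) ^ 2 / L ^ (B + 4)) := by
            have e : L ^ (B + 12) * L ^ (B + 4) = (L ^ (B + 8)) ^ 2 := by
              rw [← pow_add, ← pow_mul]
              congr 1
              ring
            rw [div_mul_div_comm, e]
            field_simp
            norm_num
      _ ≤ 1 * (x * (H : ℝ) ^ 2 / L ^ (B + 4)) := by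
            refine mul_le_mul_of_nonneg_right ?_ hT0
            rw [div_le_one (by (clear * - hL3; positivity))]
            have h3 : (3 : ℝ) ^ 12 ≤ L ^ 12 := pow_le_pow_left₀ (by norm_num) hL3 12
            have h4 : L ^ 12 ≤ L ^ (B + 12) := pow_le_pow_right₀ hL1 (by omega)
            have h5 : (512 : ℝ) ≤ 3 ^ 12 := by norm_num
            linarith only [h3, h4, h5]
      _ = x * (H : ℝ) ^ 2 / L ^ (B + 4) := one_mul _
  have := add_le_add hpart1 hpart2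
  refine le_trans (le_of_eq ?_) (this.trans (le_of_eq (by ring)))
  push_cast
  rfl

theorem si_mu (B : ℕ) (ε : ℝ) (hε : 0 < ε) : ∀ᶠ x : ℕ in atTop, ∀ (H : ℕ) (α : ℝ),
    (x : ℝ) ^ (1 / 6 + ε) ≤ H → (H : ℝ) ≤ (x : ℝ) ^ (9 / 25 : ℝ) →
    ∑ u ∈ range (2 * x + 1), ‖∑ n ∈ Ioc u (u + H), mu n * ex (n * α)‖ ^ 2 ≤ x * (H : ℝ) ^ 2 / Real.log x ^ B := by
  obtain ⟨A, hA⟩ := minor_mu B ε hε
  filter_upwards [hA, si_mu_major A B ε hε] with x h1 h2
  intro H α hxH hHx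
  by_cases hMn : Mn (Real.log x ^ A) H α
  · exact h1 H α hxH hHx hMn
  · unfold Mn at hMn
    push Not at hMn
    obtain ⟨q, a, hq, hqA, hη⟩ := hMn
    exact h2 H α hxH hHx q a hq hqA hη

end Pool.Agent.MW
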