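import Pool.Agent.Lib.MW.HBm
import Pool.Agent.Lib.VM.VarDiff

/-!
# Module VarDifM: `χ μ`, difference of the averages over a short and a long window

Copy the proof of `VM.var_diff` (file VM/VarDiff.lean): `hb_mu` with `r = q` instead of `hb` (no sum over `y`, `y = 0`; the index set is only the cells `e`, the sum of the weights is at most `(4L)^12 64`); `mu n * χ n = (if n.Coprime q then mu n else 0) * χ n`.
The lemmas of `VM.VarDiffAux` (`cauchy_w`, `dif`, `dif_sum`, `dif_congr`) may be used.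
-/

set_option autoImplicit false

open Finset Filter

namespace Pool.Agent.MW

open Pool.Agent.VK Pool.Agent.HLT Pool.Agent.VM

open VarDiffAux in
theorem var_diff_mu (A B : ℕ) (ε : ℝ) (hε : 0 < ε) : ∀ᶠ X : ℕ in atTop, ∀ (q : ℕ) [NeZero q] (χ : DirichletCharacter ℂ q),
    (q : ℝ) ≤ Real.log X ^ A → ∀ h : ℕ, (X : ℝ) ^ (1 / 6 + ε) ≤ h → (h : ℝ) ≤ (X : ℝ) ^ (39 / 100 : ℝ) →
    ∑ u ∈ Icc X (2 * X), ‖(∑ n ∈ Ioc u (u + h), mu n * χ (n : ZMod q)) / (h : ℂ) -
        (∑ n ∈ Ioc u (u + YY X), mu n * χ (n : ZMod q)) / (YY X : ℂ)‖ ^ 2 ≤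
      X / Real.log X ^ B := by
  obtain ⟨s0, hs0, hsm⟩ := cls_sm_maj ε hε
  set δ : ℝ := min s0 (ε / 2) with hδ
  have hδ0 : 0 < δ := lt_min hs0 (by positivity)
  have hδs : δ ≤ s0 := min_le_left _ _
  have hδε : δ ≤ ε / 2 := min_le_right _ _
  have htwo := cls_two_maj A (B + 27) δ hδ0
  have hXat : Tendsto (fun X : ℕ => (X : ℝ)) atTop atTop := tendsto_natCast_atTop_atTop
  have ev1 : ∀ᶠ X : ℕ in atTop, (8 : ℝ) ≤ (X : ℝ) ^ (ε / 2) :=
    ((tendsto_rpow_atTop (by positivity)).comp hXat).eventually_ge_atTop _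
  have ev2 : ∀ k : ℕ, ∀ᶠ X : ℕ in atTop, Real.log X ^ k ≤ (X : ℝ) ^ s0 := by
    intro k
    have h1 := (isLittleO_log_rpow_rpow_atTop (k : ℝ) hs0).bound one_pos
    filter_upwards [hXat.eventually h1, eventually_ge_atTop 1] with X hX hX1
    have hL : 0 ≤ Real.log X := Real.log_nonneg (by exact_mod_cast hX1)
    rw [one_mul, Real.rpow_natCast, Real.norm_eq_abs, Real.norm_eq_abs, abs_of_nonneg (by positivity),
      abs_of_nonneg (Real.rpow_nonneg (Nat.cast_nonneg _) _)] at hX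
    exact hX
  have ev3 : ∀ᶠ X : ℕ in atTop, (2 : ℝ) ^ 62 ≤ Real.log X :=
    (Real.tendsto_log_atTop.comp hXat).eventually_ge_atTop _
  filter_upwards [hsm, htwo, ev1, ev2 A, ev2 (B + 27), ev3, eventually_ge_atTop 4] with X hsm htwo
    ev1 ev2 ev2' ev3 hX4
  intro q _ χ hq h hh1 hh2
  have hXr4 : (4 : ℝ) ≤ X := by exact_mod_cast hX4
  have hXr1 : (1 : ℝ) ≤ X := by linarith only [hXr4]
  have hX0 : (0 : ℝ) < X := by linarith only [hXr4]
  have hrp : ∀ a b : ℝ, a ≤ b → (X : ℝ) ^ a ≤ (X : ℝ) ^ b := fun a b hab =>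
    Real.rpow_le_rpow_of_exponent_le hXr1 hab
  have hadd : ∀ a b : ℝ, (X : ℝ) ^ a * (X : ℝ) ^ b = (X : ℝ) ^ (a + b) := fun a b =>
    (Real.rpow_add hX0 a b).symm
  have hpos : ∀ a : ℝ, 0 < (X : ℝ) ^ a := fun a => Real.rpow_pos_of_pos hX0 a
  have hX1' : (X : ℝ) ^ (1 : ℝ) = X := Real.rpow_one _
  set L : ℝ := Real.log X with hL
  have hL0 : 0 < L := lt_of_lt_of_le (by (clear * -; positivity)) ev3
  have hL2 : 2 ≤ L := le_trans (by norm_num) ev3
  have hh0 : (0 : ℝ) < h := lt_of_lt_of_le (hpos _) hh1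
  have hhX : h ≤ X := by
    have : (h : ℝ) ≤ X := by
      calc (h : ℝ) ≤ (X : ℝ) ^ (39 / 100 : ℝ) := hh2
        _ ≤ (X : ℝ) ^ (1 : ℝ) := hrp _ _ (by norm_num)
        _ = X := hX1'
    exact_mod_cast this
  have hYX : YY X ≤ X := by
    refine Nat.ceil_le.2 ?_
    calc (X : ℝ) ^ (17 / 20 : ℝ) ≤ (X : ℝ) ^ (1 : ℝ) := hrp _ _ (by norm_num)
      _ = X := hX1'
  -- parameters of the identity
  set N : ℕ := 4 * X with hN
  have hNr : (N : ℝ) = 4 * X := by rw [hN]; push_cast; ring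
  set E : ℕ := ⌈3 * L⌉₊ with hE
  set z : ℕ := ⌈(N : ℝ) ^ (1 / 6 : ℝ)⌉₊ with hz
  have hNz : N ≤ z ^ 6 := by
    have h1 : (N : ℝ) ^ (1 / 6 : ℝ) ≤ z := Nat.le_ceil _
    have h2 : ((N : ℝ) ^ (1 / 6 : ℝ)) ^ 6 ≤ (z : ℝ) ^ 6 :=
      pow_le_pow_left₀ (Real.rpow_nonneg (Nat.cast_nonneg _) _) h1 6
    rw [← Real.rpow_natCast, ← Real.rpow_mul (Nat.cast_nonneg _)] at h2
    have h3 : (1 / 6 : ℝ) * ((6 : ℕ) : ℝ) = 1 := by norm_num
    rw [h3, Real.rpow_one] at h2
    exact_mod_cast h2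
  have hNE : N ≤ 2 ^ E := by
    have h1 : 3 * L ≤ E := Nat.le_ceil _
    have h2 : Real.log N ≤ Real.log (2 ^ E) := by
      rw [Real.log_pow, hNr, Real.log_mul (by norm_num) hX0.ne']
      have h3 := Real.log_two_gt_d9
      have h4 : Real.log 4 ≤ L := Real.log_le_log (by norm_num) hXr4
      have h5 : 3 * L * Real.log 2 ≤ E * Real.log 2 :=
        mul_le_mul_of_nonneg_right h1 (by linarith only [h3])
      nlinarith only [ev3, h1, h3, h4]
    have h3 : (N : ℝ) ≤ 2 ^ E :=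
      (Real.log_le_log_iff (by rw [hNr]; (clear * - hX4; positivity)) (by (clear * -; positivity))).1 h2
    exact_mod_cast h3
  have hE4 : (E : ℝ) + 1 ≤ 4 * L := by
    have h1 : (E : ℝ) < 3 * L + 1 := Nat.ceil_lt_add_one (by (clear * - ev3; positivity))
    linarith only [ev3, h1]
  have h2z : 2 * (z : ℝ) ≤ (X : ℝ) ^ (1 / 6 + ε / 2) := by
    have h1 : (z : ℝ) < (N : ℝ) ^ (1 / 6 : ℝ) + 1 :=
      Nat.ceil_lt_add_one (Real.rpow_nonneg (Nat.cast_nonneg _) _)
    have h2 : (1 : ℝ) ≤ (N : ℝ) ^ (1 / 6 : ℝ) := Real.one_le_rpow (by rw [hNr]; linarith only [hXr4]) (by norm_num)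
    have h3 : (N : ℝ) ^ (1 / 6 : ℝ) ≤ 2 * (X : ℝ) ^ (1 / 6 : ℝ) := by
      rw [hNr, Real.mul_rpow (by norm_num) hX0.le]
      refine mul_le_mul_of_nonneg_right ?_ (hpos _).le
      calc (4 : ℝ) ^ (1 / 6 : ℝ) ≤ (4 : ℝ) ^ (1 / 2 : ℝ) :=
            Real.rpow_le_rpow_of_exponent_le (by norm_num) (by norm_num)
        _ = 2 := by
            rw [← Real.sqrt_eq_rpow]
            rw [show (4 : ℝ) = 2 ^ 2 by norm_num]
            exact Real.sqrt_sq (by norm_num)
    calc 2 * (z : ℝ) ≤ 8 * (X : ℝ) ^ (1 / 6 : ℝ) := by linarith only [h1, h2, h3]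
      _ ≤ (X : ℝ) ^ (ε / 2) * (X : ℝ) ^ (1 / 6 : ℝ) := mul_le_mul_of_nonneg_right ev1 (hpos _).le
      _ = (X : ℝ) ^ (1 / 6 + ε / 2) := by rw [hadd]; congr 1; ring
  -- the classes
  set D : ℝ := X / L ^ (B + 27) with hD
  have hD0 : 0 ≤ D := by (clear * - hX4 ev3; positivity)
  have hcls : ∀ (y : ℕ) (e : Fin 12 → ℕ), ∑ u ∈ Icc X (2 * X),
      ‖dif h (YY X) (fun n => Fcl z q y e n * χ (n : ZMod q)) u‖ ^ 2 ≤ D := by
    intro y e
    by_cases h1 : ∃ i, (X : ℝ) ^ δ ≤ (2 : ℝ) ^ e i ∧ (2 : ℝ) ^ e i ≤ h * (X : ℝ) ^ (-δ)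
    · obtain ⟨i, hi1, hi2⟩ := h1
      exact htwo q χ h z y e i hq ((hrp _ _ (by linarith only [hδ0, hδε])).trans hh1)
        (hh2.trans (hrp _ _ (by norm_num))) hi1 hi2
    · push Not at h1
      by_cases h2 : ∃ i : Fin 12, i.val < 6 ∧ h * (X : ℝ) ^ (-δ) < (2 : ℝ) ^ e i
      · obtain ⟨i, hi1, hi2⟩ := h2
        have h3 : (2 : ℝ) * z ≤ (2 : ℝ) ^ e i := by
          refine le_trans (h2z.trans ?_) hi2.le
          calc (X : ℝ) ^ (1 / 6 + ε / 2) ≤ (X : ℝ) ^ (1 / 6 + ε + -δ) := hrp _ _ (by linarith only [hδε])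
            _ = (X : ℝ) ^ (1 / 6 + ε) * (X : ℝ) ^ (-δ) := (hadd _ _).symm
            _ ≤ h * (X : ℝ) ^ (-δ) := mul_le_mul_of_nonneg_right hh1 (hpos _).le
        have h4 : 2 * z ≤ 2 ^ e i := by exact_mod_cast h3
        have h5 : gcl z q y e i = 0 := gcl_moebius z q y e i hi1 (by omega)
        have h6 : Fcl z q y e = 0 := by
          unfold Fcl
          exact Finset.prod_eq_zero (Finset.mem_univ i) h5
        have h7 : ∀ u, dif h (YY X) (fun n => Fcl z q y e n * χ (n : ZMod q)) u = 0 := by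
          intro u
          unfold dif
          simp [h6]
        simp only [h7, norm_zero]
        rw [Finset.sum_const, nsmul_eq_mul]
        simpa using hD0
      · push Not at h2
        have h3 := hsm q χ h z y e hh1 (hh2.trans (hrp _ _ (by norm_num))) (hq.trans ev2)
          (fun i => by
            rcases lt_or_ge ((2 : ℝ) ^ e i) ((X : ℝ) ^ δ) with h4 | h4
            · left
              exact h4.le.trans (hrp _ _ hδs)
            · right
              have h5 := h1 i h4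
              refine ⟨?_, ?_⟩
              · by_contra h6
                have := h2 i (by omega)
                linarith only [h5, this]
              · refine le_trans ?_ h5.le
                exact mul_le_mul_of_nonneg_left (hrp _ _ (by linarith only [hδs])) hh0.le)
        refine le_trans h3 ?_
        rw [hD, Real.rpow_neg hX0.le, ← div_eq_mul_inv]
        exact div_le_div_of_nonneg_left hX0.le (by (clear * - ev3; positivity)) ev2'
  -- the identity
  set I : Finset (Fin 12 → ℕ) := Fintype.piFinset (fun _ : Fin 12 => range (E + 1)) with hI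
  set w : (Fin 12 → ℕ) → ℂ := fun e => (wm e : ℂ) with hw
  have hid : ∀ n, 1 ≤ n → n ≤ N → mu n * χ (n : ZMod q) =
      ∑ e ∈ I, w e * (Fcl z q 0 e n * χ (n : ZMod q)) := by
    intro n hn1 hn2
    have h1 := hb_mu z q N E hNz hNE n hn1 hn2
    have h2 : mu n * χ (n : ZMod q) = (if n.Coprime q then mu n else 0) * χ (n : ZMod q) := by
      split_ifs with hc
      · rfl
      · have : ¬ IsUnit (n : ZMod q) := by
          rw [ZMod.isUnit_iff_coprime]
          exact hc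
        rw [χ.map_nonunit this, mul_zero, mul_zero]
    rw [h2, h1, hI, Finset.sum_mul]
    refine Finset.sum_congr rfl fun e _ => ?_
    rw [hw]
    ring
  have hwsum : ∑ e ∈ I, ‖w e‖ ≤ 2 * L * ((4 * L) ^ 12 * 64) := by
    calc ∑ e ∈ I, ‖w e‖ ≤ ∑ _e ∈ I, (64 : ℝ) := by
          refine Finset.sum_le_sum fun e _ => ?_
          rw [hw]
          dsimp only
          rw [Complex.norm_real, Real.norm_eq_abs]
          exact wm_le e
      _ = ((E : ℝ) + 1) ^ 12 * 64 := by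
          rw [hI, Finset.sum_const, nsmul_eq_mul, Fintype.card_piFinset]
          simp
      _ ≤ (4 * L) ^ 12 * 64 := by
          refine mul_le_mul_of_nonneg_right (pow_le_pow_left₀ (by (clear * - ev3; positivity)) hE4 12) ?_
          norm_num
      _ = 1 * ((4 * L) ^ 12 * 64) := (one_mul _).symm
      _ ≤ 2 * L * ((4 * L) ^ 12 * 64) := by
          refine mul_le_mul_of_nonneg_right (by linarith only [hL2]) ?_
          (clear * - ev3; positivity)
  have hmain := cauchy_w I w (Icc X (2 * X))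
    (fun p u => dif h (YY X) (fun n => Fcl z q 0 p n * χ (n : ZMod q)) u) hwsum
    (fun p _ => hcls 0 p) hD0
  have heq : ∑ u ∈ Icc X (2 * X), ‖(∑ n ∈ Ioc u (u + h), mu n * χ (n : ZMod q)) / (h : ℂ) -
        (∑ n ∈ Ioc u (u + YY X), mu n * χ (n : ZMod q)) / (YY X : ℂ)‖ ^ 2 =
      ∑ u ∈ Icc X (2 * X), ‖∑ p ∈ I, w p *
        dif h (YY X) (fun n => Fcl z q 0 p n * χ (n : ZMod q)) u‖ ^ 2 := by
    refine Finset.sum_congr rfl fun u hu => ?_
    rw [Finset.mem_Icc] at hu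
    have h1 : (∑ n ∈ Ioc u (u + h), mu n * χ (n : ZMod q)) / (h : ℂ) -
        (∑ n ∈ Ioc u (u + YY X), mu n * χ (n : ZMod q)) / (YY X : ℂ) =
        dif h (YY X) (fun n => mu n * χ (n : ZMod q)) u := rfl
    rw [h1, dif_congr (N := N) (by omega) (by omega) hid, dif_sum]
  rw [heq]
  refine hmain.trans ?_
  rw [hD, ← mul_div_assoc, div_le_div_iff₀ (by (clear * - ev3; positivity)) (by (clear * - ev3; positivity))]
  have h1 : (2 * L * ((4 * L) ^ 12 * 64)) ^ 2 = 2 ^ 62 * L ^ 26 := by ring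
  rw [h1]
  calc 2 ^ 62 * L ^ 26 * X * L ^ B ≤ L * L ^ 26 * X * L ^ B := by gcongr
    _ = X * L ^ (B + 27) := by ring

end Pool.Agent.MW
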