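import Pool.Agent.Lib.MW.VarLong
import Pool.Agent.Lib.MW.VarDifM
import Pool.Agent.Lib.VM.VarChi6

/-!
# Module VarAll: windows of `χ μ`, exponent 1/6

(1) Dyadic: for `X` large, `q ≤ L^A'`, `X^(1/6+ε') ≤ h ≤ X^(39/100)`: `∑_{u ∈ Icc X (2X)} ‖∑_{Ioc u (u+h)} mu n χ n‖² ≤ X h²/L^A'`: the proof of `VM.var_chi6` (file VM/VarChi6.lean), case `h ≤ X^(39/100)`, with `var_diff_mu A' (A'+2) ε'` and
`var_long (A'+2)` for the window `YY X` (`cc`, `lam (chf χ)` both replaced by `mu n * χ n`).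
(2) All `u ≤ 2x`: the proof of `VL.VarChi3Aux.all_gen` (file VL/VarChi3.lean) with `θ = 1/6` and the split point `X0 = ⌈x^(19/20)⌉`: `u < X0` trivially `≤ (X0 + 1) h²` (`≤ x h²/L^(A+2)`), the blocks `Icc X (2X)`,
`X = 2^j X0 ≤ 2x`: `h ≤ x^(9/25) ≤ X^(39/100)` since `9/25 < (39/100)(19/20)`; `h ≥ x^(1/6+ε) ≥ X^(1/6+ε/2)`; `log X ≥ L/2`; (1) with `A' = A + 4`.
`VL.VarChi3Aux.dyadic` gives the decomposition.
-/

set_option autoImplicit false

open Finset Filter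

namespace Pool.Agent.MW

open Pool.Agent.VK Pool.Agent.HLT Pool.Agent.VM

namespace VarAllAux

/-- two averages and their difference -/
lemma sq_two (a b : ℂ) : ‖a‖ ^ 2 ≤ 2 * (‖a - b‖ ^ 2 + ‖b‖ ^ 2) := by
  have h1 : ‖a‖ ≤ ‖a - b‖ + ‖b‖ := by
    calc ‖a‖ = ‖(a - b) + b‖ := by rw [sub_add_cancel]
      _ ≤ _ := norm_add_le _ _
  refine (pow_le_pow_left₀ (norm_nonneg _) h1 2).trans ?_
  nlinarith only [sq_nonneg (‖a - b‖ - ‖b‖)]

lemma norm_term {q : ℕ} (χ : DirichletCharacter ℂ q) (n : ℕ) : ‖mu n * χ (n : ZMod q)‖ ≤ 1 := by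
  rw [norm_mul]
  calc ‖mu n‖ * ‖χ (n : ZMod q)‖ ≤ 1 * 1 :=
        mul_le_mul (norm_mu n) (DirichletCharacter.norm_le_one χ _) (norm_nonneg _) zero_le_one
    _ = 1 := one_mul _

/-- The dyadic statement. -/
lemma dyad (A : ℕ) (ε : ℝ) (hε : 0 < ε) : ∀ᶠ X : ℕ in atTop, ∀ (q : ℕ) [NeZero q]
    (χ : DirichletCharacter ℂ q), (q : ℝ) ≤ Real.log X ^ A → ∀ h : ℕ, (X : ℝ) ^ (1 / 6 + ε) ≤ h →
    (h : ℝ) ≤ (X : ℝ) ^ (39 / 100 : ℝ) →
    ∑ u ∈ Icc X (2 * X), ‖∑ n ∈ Ioc u (u + h), mu n * χ (n : ZMod q)‖ ^ 2 ≤ X * (h : ℝ) ^ 2 / Real.log X ^ A := by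
  filter_upwards [var_long (A + 2), var_diff_mu A (A + 2) ε hε,
    (Real.tendsto_log_atTop.comp tendsto_natCast_atTop_atTop).eventually_ge_atTop 2,
    eventually_ge_atTop 2] with X hv2 hd hL hX
  simp only [Function.comp_def] at hL
  intro q _ χ hq h hXh hhX
  have hX1 : (1 : ℝ) ≤ X := by exact_mod_cast (by omega : 1 ≤ X)
  have hX0 : (0 : ℝ) < X := by linarith
  have hh1 : 1 ≤ h := by
    have h1 : (1 : ℝ) ≤ (X : ℝ) ^ (1 / 6 + ε) := Real.one_le_rpow hX1 (by positivity)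
    exact_mod_cast h1.trans hXh
  have hY0 : (X : ℝ) ^ (17 / 20 : ℝ) ≤ (YY X : ℕ) := Nat.le_ceil _
  have hY2 : YY X ≤ X := by
    unfold YY
    rw [Nat.ceil_le]
    calc (X : ℝ) ^ (17 / 20 : ℝ) ≤ (X : ℝ) ^ (1 : ℝ) :=
          Real.rpow_le_rpow_of_exponent_le hX1 (by norm_num)
      _ = X := Real.rpow_one _
  have hY3 : 1 ≤ YY X := by
    have h1 : (1 : ℝ) ≤ (X : ℝ) ^ (17 / 20 : ℝ) := Real.one_le_rpow hX1 (by norm_num)
    exact_mod_cast h1.trans hY0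
  have hYr : (0 : ℝ) < (YY X : ℕ) := by exact_mod_cast hY3
  have hhr : (0 : ℝ) < h := by exact_mod_cast hh1
  have h1 := hd q χ hq h hXh hhX
  have h2 := hv2 q χ (hq.trans (pow_le_pow_right₀ (by linarith only [hL]) (by omega))) (YY X) hY0 hY2
  have hpt : ∀ u ∈ Icc X (2 * X), ‖∑ n ∈ Ioc u (u + h), mu n * χ (n : ZMod q)‖ ^ 2 ≤ 2 * (h : ℝ) ^ 2 *
      (‖(∑ n ∈ Ioc u (u + h), mu n * χ (n : ZMod q)) / (h : ℂ) -
        (∑ n ∈ Ioc u (u + YY X), mu n * χ (n : ZMod q)) / (YY X : ℂ)‖ ^ 2 +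
        ‖∑ n ∈ Ioc u (u + YY X), mu n * χ (n : ZMod q)‖ ^ 2 / ((YY X : ℕ) : ℝ) ^ 2) := by
    intro u _
    have e1 : ‖∑ n ∈ Ioc u (u + h), mu n * χ (n : ZMod q)‖ =
        h * ‖(∑ n ∈ Ioc u (u + h), mu n * χ (n : ZMod q)) / (h : ℂ)‖ := by
      rw [norm_div, Complex.norm_natCast]
      field_simp
    rw [e1, mul_pow, mul_assoc 2, mul_comm 2, mul_assoc]
    refine mul_le_mul_of_nonneg_left ?_ (by positivity)
    have e2 : ‖∑ n ∈ Ioc u (u + YY X), mu n * χ (n : ZMod q)‖ ^ 2 / ((YY X : ℕ) : ℝ) ^ 2 =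
        ‖(∑ n ∈ Ioc u (u + YY X), mu n * χ (n : ZMod q)) / (YY X : ℂ)‖ ^ 2 := by
      rw [norm_div, Complex.norm_natCast, div_pow]
    rw [e2, mul_comm _ (2 : ℝ)]
    exact sq_two _ _
  refine (Finset.sum_le_sum hpt).trans ?_
  rw [← Finset.mul_sum, Finset.sum_add_distrib, ← Finset.sum_div]
  exact VarChi6Aux.num hX0.le hL hYr h1 h2

end VarAllAux

open VarAllAux in
theorem var_all_mu (A : ℕ) (ε : ℝ) (hε : 0 < ε) : ∀ᶠ x : ℕ in atTop, ∀ (q : ℕ) [NeZero q]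
    (χ : DirichletCharacter ℂ q), (q : ℝ) ≤ Real.log x ^ A → ∀ h : ℕ, (x : ℝ) ^ (1 / 6 + ε) ≤ h → (h : ℝ) ≤ (x : ℝ) ^ (9 / 25 : ℝ) →
    ∑ u ∈ range (2 * x + 1), ‖∑ n ∈ Ioc u (u + h), mu n * χ (n : ZMod q)‖ ^ 2 ≤ x * (h : ℝ) ^ 2 / Real.log x ^ A := by
  obtain ⟨N0, hN0⟩ := eventually_atTop.mp (dyad (A + 4) (ε / 2) (by linarith))
  filter_upwards [eventually_ge_atTop 1, VL.VarChi3Aux.ev_log 4, VL.VarChi3Aux.ev_log (12 * 2 ^ (A + 4)),
    VL.VarChi3Aux.ev_rpow 0 (N0 + 1) (19 / 20) (by norm_num), VL.VarChi3Aux.ev_rpow A 4 (1 / 20) (by norm_num),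
    VL.VarChi3Aux.ev_rpow 0 (2 ^ (1 / 6 + ε / 2)) (ε / 2) (by linarith)]
    with x hx1 hL4 hLA hE1 hE2 hE3
  intro q _ χ hq h hh hhx
  have hx0 : (1 : ℝ) ≤ x := by exact_mod_cast hx1
  have hxpos : (0 : ℝ) < x := by linarith only [hx0]
  obtain ⟨L, hL⟩ : ∃ L : ℝ, L = Real.log x := ⟨_, rfl⟩
  rw [pow_zero, mul_one] at hE1
  rw [pow_zero, mul_one] at hE3
  rw [← hL] at hL4 hLA hE2 hq
  rw [← hL]
  have hL0 : 0 < L := by linarith only [hL4]
  have hhpos : (0 : ℝ) < h := lt_of_lt_of_le (Real.rpow_pos_of_pos hxpos _) hh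
  have hM0 : 0 < (x : ℝ) ^ (19 / 20 : ℝ) := Real.rpow_pos_of_pos hxpos _
  obtain ⟨X0, hX0⟩ : ∃ X0 : ℕ, X0 = ⌈(x : ℝ) ^ (19 / 20 : ℝ)⌉₊ := ⟨_, rfl⟩
  have hX0a : (x : ℝ) ^ (19 / 20 : ℝ) ≤ X0 := by
    rw [hX0]
    exact Nat.le_ceil _
  have hX0b : (X0 : ℝ) ≤ 2 * (x : ℝ) ^ (19 / 20 : ℝ) := by
    have h1 : (X0 : ℝ) < (x : ℝ) ^ (19 / 20 : ℝ) + 1 := by
      rw [hX0]
      exact Nat.ceil_lt_add_one hM0.le
    have h2 : (0 : ℝ) ≤ N0 := Nat.cast_nonneg _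
    linarith only [hE1, h1, h2]
  have hX01 : 1 ≤ X0 := by
    have : (0 : ℝ) < X0 := lt_of_lt_of_le hM0 hX0a
    exact_mod_cast this
  have hX0N : N0 ≤ X0 := by
    have : (N0 : ℝ) ≤ X0 := by linarith only [hE1, hX0a]
    exact_mod_cast this
  obtain ⟨F, hF⟩ : ∃ F : ℕ → ℝ, F = fun u => ‖∑ n ∈ Ioc u (u + h), mu n * χ (n : ZMod q)‖ ^ 2 := ⟨_, rfl⟩
  have hF0 : ∀ u, 0 ≤ F u := fun u => by
    rw [hF]
    (clear * -; positivity)
  have hmain := VL.VarChi3Aux.dyadic F hF0 X0 (2 * x) hX01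
  have hFe : ∑ u ∈ range (2 * x + 1), ‖∑ n ∈ Ioc u (u + h), mu n * χ (n : ZMod q)‖ ^ 2 =
      ∑ u ∈ range (2 * x + 1), F u := by rw [hF]
  rw [hFe]
  refine hmain.trans ?_
  -- small u
  have p1 : ∑ u ∈ (range (2 * x + 1)).filter (fun u => u < X0), F u ≤
      x * (h : ℝ) ^ 2 / L ^ A / 2 := by
    have b1 : ∀ u ∈ (range (2 * x + 1)).filter (fun u => u < X0), F u ≤ (h : ℝ) ^ 2 := by
      intro u hu
      rw [hF]
      dsimp only
      refine pow_le_pow_left₀ (norm_nonneg _) ?_ 2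
      refine (norm_sum_le _ _).trans ?_
      calc ∑ n ∈ Ioc u (u + h), ‖mu n * χ (n : ZMod q)‖ ≤ ∑ n ∈ Ioc u (u + h), (1 : ℝ) :=
            sum_le_sum fun n _ => norm_term χ n
        _ = h := by
            rw [sum_const, Nat.card_Ioc, nsmul_eq_mul]
            have : u + h - u = h := by omega
            rw [this, mul_one]
    have b2 : ((range (2 * x + 1)).filter (fun u => u < X0)).card ≤ X0 := by
      calc _ ≤ (range X0).card := card_le_card (by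
            intro u hu
            rw [mem_filter] at hu
            exact mem_range.2 hu.2)
        _ = X0 := card_range _
    have b3 : ∑ u ∈ (range (2 * x + 1)).filter (fun u => u < X0), F u ≤
        X0 * (h : ℝ) ^ 2 := by
      refine (sum_le_card_nsmul _ _ _ b1).trans ?_
      rw [nsmul_eq_mul]
      exact mul_le_mul_of_nonneg_right (by exact_mod_cast b2) (by (clear * -; positivity))
    refine b3.trans ?_
    have b4 : (X0 : ℝ) * (h : ℝ) ^ 2 ≤ 2 * (x : ℝ) ^ (19 / 20 : ℝ) * (h : ℝ) ^ 2 :=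
      mul_le_mul_of_nonneg_right hX0b (by (clear * -; positivity))
    refine b4.trans ?_
    rw [div_div, le_div_iff₀ (by (clear * - hL4; positivity))]
    have b5 : (x : ℝ) ^ (19 / 20 : ℝ) * (x : ℝ) ^ (1 / 20 : ℝ) = x := by
      rw [← Real.rpow_add hxpos]
      norm_num
    calc 2 * (x : ℝ) ^ (19 / 20 : ℝ) * (h : ℝ) ^ 2 * (L ^ A * 2) =
          (x : ℝ) ^ (19 / 20 : ℝ) * (4 * L ^ A) * (h : ℝ) ^ 2 := by ring
      _ ≤ (x : ℝ) ^ (19 / 20 : ℝ) * (x : ℝ) ^ (1 / 20 : ℝ) * (h : ℝ) ^ 2 :=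
          mul_le_mul_of_nonneg_right (mul_le_mul_of_nonneg_left hE2 hM0.le) (by (clear * -; positivity))
      _ = x * (h : ℝ) ^ 2 := by rw [b5]
  -- dyadic ranges
  have p2 : ∑ j ∈ (range (Nat.log 2 (2 * x) + 1)).filter (fun j => 2 ^ j * X0 ≤ 2 * x),
        ∑ u ∈ Icc (2 ^ j * X0) (2 * (2 ^ j * X0)), F u ≤ x * (h : ℝ) ^ 2 / L ^ A / 2 := by
    have b1 : ∀ j ∈ (range (Nat.log 2 (2 * x) + 1)).filter (fun j => 2 ^ j * X0 ≤ 2 * x),
        ∑ u ∈ Icc (2 ^ j * X0) (2 * (2 ^ j * X0)), F u ≤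
          2 * x * (h : ℝ) ^ 2 / (L / 2) ^ (A + 4) := by
      intro j hj
      rw [mem_filter] at hj
      obtain ⟨-, hj⟩ := hj
      obtain ⟨Y, hY⟩ : ∃ Y : ℕ, Y = 2 ^ j * X0 := ⟨_, rfl⟩
      rw [← hY] at hj ⊢
      have hY0 : X0 ≤ Y := by
        rw [hY]
        exact Nat.le_mul_of_pos_left _ (by (clear * -; positivity))
      have hYx : (Y : ℝ) ≤ 2 * x := by exact_mod_cast hj
      have hYX : (X0 : ℝ) ≤ Y := by exact_mod_cast hY0
      have hYpos : (0 : ℝ) < Y := lt_of_lt_of_le (lt_of_lt_of_le hM0 hX0a) hYX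
      have hlog : L / 2 ≤ Real.log Y := by
        have c1 : (x : ℝ) ^ (1 / 2 : ℝ) ≤ Y := by
          refine le_trans ?_ (hX0a.trans hYX)
          exact Real.rpow_le_rpow_of_exponent_le hx0 (by norm_num)
        have c2 := Real.log_le_log (Real.rpow_pos_of_pos hxpos _) c1
        rw [Real.log_rpow hxpos, ← hL] at c2
        linarith only [c2]
      have hqY : (q : ℝ) ≤ Real.log Y ^ (A + 4) := by
        have c1 : (L / 2) ^ (A + 4) ≤ Real.log Y ^ (A + 4) :=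
          pow_le_pow_left₀ (by (clear * - hL4; positivity)) hlog _
        refine le_trans ?_ c1
        refine hq.trans ?_
        rw [div_pow, le_div_iff₀ (by (clear * -; positivity)), pow_add L A 4]
        apply mul_le_mul_of_nonneg_left _ (by (clear * - hL4; positivity))
        have c2 : (2 : ℝ) ^ (A + 4) ≤ L := by
          have : (0 : ℝ) ≤ 2 ^ (A + 4) := by (clear * -; positivity)
          linarith only [hLA, hL4]
        calc (2 : ℝ) ^ (A + 4) ≤ L ^ 1 := by rwa [pow_one]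
          _ ≤ L ^ 4 := pow_le_pow_right₀ (by linarith only [hL4]) (by norm_num)
      have hhY : (Y : ℝ) ^ (1 / 6 + ε / 2) ≤ h := by
        calc (Y : ℝ) ^ (1 / 6 + ε / 2) ≤ (2 * x : ℝ) ^ (1 / 6 + ε / 2) :=
              Real.rpow_le_rpow hYpos.le hYx (by linarith only [hε])
          _ = 2 ^ (1 / 6 + ε / 2) * (x : ℝ) ^ (1 / 6 + ε / 2) :=
              Real.mul_rpow (by norm_num) hxpos.le
          _ ≤ (x : ℝ) ^ (ε / 2) * (x : ℝ) ^ (1 / 6 + ε / 2) :=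
              mul_le_mul_of_nonneg_right hE3 (by (clear * - hx1; positivity))
          _ = (x : ℝ) ^ (1 / 6 + ε) := by
              rw [← Real.rpow_add hxpos]
              congr 1
              ring
          _ ≤ h := hh
      have hhY' : (h : ℝ) ≤ (Y : ℝ) ^ (39 / 100 : ℝ) := by
        refine hhx.trans ?_
        calc (x : ℝ) ^ (9 / 25 : ℝ) ≤ (x : ℝ) ^ (19 / 20 * (39 / 100) : ℝ) :=
              Real.rpow_le_rpow_of_exponent_le hx0 (by norm_num)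
          _ = ((x : ℝ) ^ (19 / 20 : ℝ)) ^ (39 / 100 : ℝ) := Real.rpow_mul hxpos.le _ _
          _ ≤ (Y : ℝ) ^ (39 / 100 : ℝ) :=
              Real.rpow_le_rpow hM0.le (hX0a.trans hYX) (by norm_num)
      have hHY := hN0 Y (hX0N.trans hY0) q χ hqY h hhY hhY'
      rw [hF]
      refine hHY.trans ?_
      have c3 : (L / 2) ^ (A + 4) ≤ Real.log Y ^ (A + 4) :=
        pow_le_pow_left₀ (by (clear * - hL4; positivity)) hlog _
      have c4 : (Y : ℝ) * (h : ℝ) ^ 2 ≤ 2 * x * (h : ℝ) ^ 2 :=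
        mul_le_mul_of_nonneg_right hYx (by (clear * - hhpos; positivity))
      exact div_le_div₀ (by (clear * - hx1 hhpos; positivity)) c4 (by (clear * - hL4; positivity)) c3
    have b2 : (((range (Nat.log 2 (2 * x) + 1)).filter (fun j => 2 ^ j * X0 ≤ 2 * x)).card : ℝ) ≤
        3 * L := by
      have c1 : ((range (Nat.log 2 (2 * x) + 1)).filter (fun j => 2 ^ j * X0 ≤ 2 * x)).card ≤
          Nat.log 2 (2 * x) + 1 := by
        refine (card_filter_le _ _).trans ?_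
        rw [card_range]
      have c2 : (Nat.log 2 (2 * x) : ℝ) * Real.log 2 ≤ Real.log (2 * x) := by
        have d1 : 2 ^ Nat.log 2 (2 * x) ≤ 2 * x := Nat.pow_log_le_self 2 (by omega)
        have d2 : (2 : ℝ) ^ Nat.log 2 (2 * x) ≤ 2 * x := by exact_mod_cast d1
        have d3 := Real.log_le_log (by (clear * -; positivity)) d2
        rwa [Real.log_pow] at d3
      rw [Real.log_mul (by norm_num) hxpos.ne', ← hL] at c2
      have c3 : Real.log 2 > 0.6931471803 := Real.log_two_gt_d9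
      have c4 : Real.log 2 < 0.6931471808 := Real.log_two_lt_d9
      have c5 : (0 : ℝ) ≤ (Nat.log 2 (2 * x) : ℝ) := Nat.cast_nonneg _
      have c6 : (Nat.log 2 (2 * x) : ℝ) + 1 ≤ 3 * L := by nlinarith only [hL4, c2, c3, c4]
      refine le_trans ?_ c6
      exact_mod_cast c1
    refine (sum_le_card_nsmul _ _ _ b1).trans ?_
    rw [nsmul_eq_mul]
    calc (((range (Nat.log 2 (2 * x) + 1)).filter (fun j => 2 ^ j * X0 ≤ 2 * x)).card : ℝ) *
          (2 * x * (h : ℝ) ^ 2 / (L / 2) ^ (A + 4)) ≤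
          3 * L * (2 * x * (h : ℝ) ^ 2 / (L / 2) ^ (A + 4)) :=
          mul_le_mul_of_nonneg_right b2 (by (clear * - hx1 hL4 hhpos; positivity))
      _ = x * (h : ℝ) ^ 2 / L ^ A / 2 * (12 * 2 ^ (A + 4) / L ^ 3) := by
          have : L ^ (A + 4) = L ^ A * L ^ 4 := pow_add _ _ _
          rw [div_pow, this]
          field_simp
          ring
      _ ≤ x * (h : ℝ) ^ 2 / L ^ A / 2 * 1 := by
          apply mul_le_mul_of_nonneg_left _ (by (clear * - hx1 hL4 hhpos; positivity))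
          rw [div_le_one (by (clear * - hL4; positivity))]
          calc 12 * 2 ^ (A + 4) ≤ L ^ 1 := by
                rw [pow_one]
                exact hLA
            _ ≤ L ^ 3 := pow_le_pow_right₀ (by linarith only [hL4]) (by norm_num)
      _ = _ := mul_one _
  linarith only [p1, p2]

end Pool.Agent.MW
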