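import Pool.Agent.Lib.MW.FullMu
import Pool.Agent.Lib.VL.VarChi3

/-!
# Module VarLong: long windows of `χ μ`

The proof of `VL.VarChi3Aux.chi_gen` (file VL/VarChi3.lean) with `cc χ n` replaced by `mu n * χ n` (norm at most 1 ≤ 2 L) and
`T = X^(1/5)`: `h T ≥ X^(17/20 + 1/5) = X * X^(1/20)`, so `σ T ≥ X^(1/20) L^(-(A+10)) ≥ L`. The mean square up to the height
`X^(1/5)` is `full_mu (A + 2)`. Tools: `VK.gauss_win`, `VK.sharp_win`.
-/

set_option autoImplicit false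

open Finset Filter

namespace Pool.Agent.MW

open Pool.Agent.VK Pool.Agent.HLT Pool.Agent.VM

open Pool.Agent.VL.VarChi3Aux (ev_rpow ev_log)

theorem var_long (A : ℕ) : ∀ᶠ X : ℕ in atTop, ∀ (q : ℕ) [NeZero q] (χ : DirichletCharacter ℂ q),
    (q : ℝ) ≤ Real.log X ^ A → ∀ h : ℕ, (X : ℝ) ^ (17 / 20 : ℝ) ≤ h → h ≤ X →
    ∑ u ∈ Icc X (2 * X), ‖∑ n ∈ Ioc u (u + h), mu n * χ (n : ZMod q)‖ ^ 2 ≤ X * (h : ℝ) ^ 2 / Real.log X ^ A := by
  obtain ⟨C, hC1, hC⟩ := sharp_win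
  filter_upwards [full_mu (A + 2), eventually_ge_atTop 1, ev_log 4,
    ev_log (128 * C), ev_rpow (A + 2) (128 * C) (2 * (4 / 5)) (by norm_num),
    ev_rpow (2 * A + 12) (64 * C) 1 one_pos, ev_rpow (A + 11) 1 (1 / 20) (by norm_num)]
    with X hF hX1 hL4 hLC hE1 hE2 hE3
  intro q _ χ hq h hh hhX
  have hX0 : (1 : ℝ) ≤ X := by exact_mod_cast hX1
  have hXpos : (0 : ℝ) < X := by linarith only [hX0]
  have hexp : Real.exp (Real.log X) = X := Real.exp_log hXpos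
  obtain ⟨L, hL⟩ : ∃ L : ℝ, L = Real.log X := ⟨_, rfl⟩
  rw [← hL] at hL4 hLC hE1 hE2 hE3 hexp hq
  have hF' := hF q χ
  rw [← hL] at hF'
  rw [← hL]
  have hL0 : 0 < L := by linarith only [hC1, hLC]
  have hhpos : (0 : ℝ) < h := lt_of_lt_of_le (Real.rpow_pos_of_pos hXpos _) hh
  have hh1 : 1 ≤ h := by exact_mod_cast hhpos
  have hh1' : (1 : ℝ) ≤ h := by exact_mod_cast hh1
  have hhX' : (h : ℝ) ≤ X := by exact_mod_cast hhX
  have hqA : (q : ℝ) ≤ L ^ (A + 2) := hq.trans (pow_le_pow_right₀ (by linarith only [hC1, hLC]) (by omega))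
  have hI := hF' hqA
  obtain ⟨σ, hσ⟩ : ∃ σ : ℝ, σ = (h : ℝ) / X / L ^ (A + 10) := ⟨_, rfl⟩
  obtain ⟨T, hT⟩ : ∃ T : ℝ, T = (X : ℝ) ^ (1 / 5 : ℝ) := ⟨_, rfl⟩
  rw [← hT] at hI
  have hσpos : 0 < σ := by
    rw [hσ]
    (clear * - hX1 hL4 hh1; positivity)
  have hTpos : 0 < T := by
    rw [hT]
    exact Real.rpow_pos_of_pos hXpos _
  have hσT : L ≤ σ * T := by
    have e1 : (X : ℝ) ^ (17 / 20 : ℝ) * T = X * (X : ℝ) ^ (1 / 20 : ℝ) := by
      rw [hT, ← Real.rpow_add hXpos]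
      have : (17 / 20 : ℝ) + 1 / 5 = 1 + 1 / 20 := by norm_num
      rw [this, Real.rpow_add hXpos, Real.rpow_one]
    have e2 : X * (X : ℝ) ^ (1 / 20 : ℝ) ≤ h * T := by
      rw [← e1]
      exact mul_le_mul_of_nonneg_right hh hTpos.le
    rw [one_mul] at hE3
    rw [hσ, div_div, div_mul_eq_mul_div, le_div_iff₀ (by (clear * - hX1 hL4; positivity))]
    calc L * (X * L ^ (A + 10)) = X * L ^ (A + 11) := by ring
      _ ≤ X * (X : ℝ) ^ (1 / 20 : ℝ) := mul_le_mul_of_nonneg_left hE3 hXpos.le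
      _ ≤ h * T := e2
  have hexp' : Real.exp (-L) = 1 / X := by
    rw [Real.exp_neg, hexp, one_div]
  -- the Gaussian window
  have gw := gauss_win (Ioc X (3 * X)) (fun n hn => by
    have := mem_Ioc.1 hn
    omega) (fun n => mu n * χ (n : ZMod q)) σ T hσpos hTpos
  obtain ⟨gi, gb⟩ := gw
  have hK : ∀ n ∈ Ioc X (3 * X), ‖mu n * χ (n : ZMod q)‖ ≤ 2 * L := by
    intro n _
    refine le_trans ?_ (by linarith only [hL4] : (1 : ℝ) ≤ 2 * L)
    rw [norm_mul]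
    calc ‖mu n‖ * ‖χ (n : ZMod q)‖ ≤ 1 * 1 :=
          mul_le_mul (norm_mu n) (DirichletCharacter.norm_le_one χ _) (norm_nonneg _) zero_le_one
      _ = 1 := one_mul _
  have hS : ∑ n ∈ Ioc X (3 * X), ‖mu n * χ (n : ZMod q)‖ ≤ 4 * X * L := by
    calc ∑ n ∈ Ioc X (3 * X), ‖mu n * χ (n : ZMod q)‖ ≤ ∑ n ∈ Ioc X (3 * X), 2 * L := sum_le_sum hK
      _ = 4 * X * L := by
          rw [sum_const, Nat.card_Ioc, nsmul_eq_mul]
          have : 3 * X - X = 2 * X := by omega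
          rw [this]
          push_cast
          ring
  have hS0 : 0 ≤ ∑ n ∈ Ioc X (3 * X), ‖mu n * χ (n : ZMod q)‖ := sum_nonneg fun _ _ => norm_nonneg _
  have hS2 : (∑ n ∈ Ioc X (3 * X), ‖mu n * χ (n : ZMod q)‖) ^ 2 ≤ (4 * X * L) ^ 2 := pow_le_pow_left₀ hS0 hS 2
  have hE : Real.exp (-(σ ^ 2 * T ^ 2 / 2)) / σ ≤ L ^ (A + 10) / X := by
    have a1 : Real.exp (-(σ ^ 2 * T ^ 2 / 2)) ≤ 1 / (X : ℝ) ^ 2 := by
      have a2 : -(σ ^ 2 * T ^ 2 / 2) ≤ -L + -L := by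
        have : L ^ 2 ≤ (σ * T) ^ 2 := pow_le_pow_left₀ hL0.le hσT 2
        rw [mul_pow] at this
        nlinarith only [hC1, hLC, this]
      refine (Real.exp_le_exp.mpr a2).trans ?_
      rw [Real.exp_add, hexp']
      apply le_of_eq
      field_simp
    have a3 : σ⁻¹ ≤ X * L ^ (A + 10) := by
      rw [hσ, div_div, inv_div, div_le_iff₀ hhpos]
      have : 0 ≤ X * L ^ (A + 10) := by (clear * - hX1 hL4; positivity)
      nlinarith only [hh1', this]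
    calc Real.exp (-(σ ^ 2 * T ^ 2 / 2)) / σ = Real.exp (-(σ ^ 2 * T ^ 2 / 2)) * σ⁻¹ :=
          div_eq_mul_inv _ _
      _ ≤ 1 / (X : ℝ) ^ 2 * (X * L ^ (A + 10)) :=
          mul_le_mul a1 a3 (inv_nonneg.mpr hσpos.le) (by (clear * - hX1; positivity))
      _ = L ^ (A + 10) / X := by
          field_simp
  have hE0 : 0 ≤ Real.exp (-(σ ^ 2 * T ^ 2 / 2)) / σ := by (clear * - hσpos; positivity)
  have hW : ∫ v : ℝ, ‖∑ n ∈ Ioc X (3 * X), mu n * χ (n : ZMod q) * (gs σ (v - Real.log n) : ℂ)‖ ^ 2 ≤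
      (X : ℝ) ^ 2 / L ^ (A + 2) + 16 * X * L ^ (A + 12) := by
    refine gb.trans (add_le_add hI ?_)
    calc (∑ n ∈ Ioc X (3 * X), ‖mu n * χ (n : ZMod q)‖) ^ 2 * (Real.exp (-(σ ^ 2 * T ^ 2 / 2)) / σ) ≤
          (4 * X * L) ^ 2 * (L ^ (A + 10) / X) := mul_le_mul hS2 hE hE0 (by (clear * - hX1 hL4; positivity))
      _ = 16 * X * L ^ (A + 12) := by
          field_simp
          ring
  -- the sharp window
  have hΛ1 : (1 : ℝ) ≤ 2 * L := by linarith only [hC1, hLC]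
  have hσΛ' : X * σ * (2 * L) = 2 * h / L ^ (A + 9) := by
    rw [hσ]
    field_simp
    ring
  have hσΛ : σ * (2 * L) ≤ 1 := by
    have e1 : σ * (2 * L) = (h : ℝ) / X * (2 / L ^ (A + 9)) := by
      rw [hσ]
      field_simp
      ring
    have e2 : (h : ℝ) / X ≤ 1 := (div_le_one hXpos).mpr hhX'
    have e3 : 2 / L ^ (A + 9) ≤ 1 := by
      rw [div_le_one (by (clear * - hL4; positivity))]
      calc (2 : ℝ) ≤ L ^ 1 := by
            rw [pow_one]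
            linarith only [hC1, hLC]
        _ ≤ L ^ (A + 9) := pow_le_pow_right₀ (by linarith only [hC1, hLC]) (by omega)
    rw [e1]
    calc (h : ℝ) / X * (2 / L ^ (A + 9)) ≤ 1 * 1 :=
          mul_le_mul e2 e3 (by (clear * - hL4; positivity)) zero_le_one
      _ = 1 := one_mul _
  have hsw := hC X h (fun n => mu n * χ (n : ZMod q)) (2 * L) σ (2 * L) hX1 hh1 hhX hσpos hΛ1 hσΛ hK gi
  refine hsw.trans ?_
  have hR0 : 0 ≤ 1 + X * σ * (2 * L) + X * Real.exp (-((2 * L) ^ 2 / 2)) := by (clear * - hX1 hL4 hσpos; positivity)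
  have hR : 1 + X * σ * (2 * L) + X * Real.exp (-((2 * L) ^ 2 / 2)) ≤
      2 + 2 * h / L ^ (A + 9) := by
    have : X * Real.exp (-((2 * L) ^ 2 / 2)) ≤ 1 := by
      have a1 : Real.exp (-((2 * L) ^ 2 / 2)) ≤ Real.exp (-L) := by
        apply Real.exp_le_exp.mpr
        nlinarith only [hC1, hLC]
      rw [hexp'] at a1
      calc X * Real.exp (-((2 * L) ^ 2 / 2)) ≤ X * (1 / X) :=
            mul_le_mul_of_nonneg_left a1 hXpos.le
        _ = 1 := by field_simp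
    rw [hσΛ']
    linarith only [this]
  have hR2 : (1 + X * σ * (2 * L) + X * Real.exp (-((2 * L) ^ 2 / 2))) ^ 2 ≤
      8 + 8 * (h / L ^ (A + 9)) ^ 2 := by
    refine (pow_le_pow_left₀ hR0 hR 2).trans ?_
    have : 2 * (h : ℝ) / L ^ (A + 9) = 2 * (h / L ^ (A + 9)) := by ring
    rw [this]
    nlinarith only [sq_nonneg (1 - (h : ℝ) / L ^ (A + 9))]
  have hC0 : 0 < C := by linarith only [hC1]
  have t1 : C * ((h : ℝ) ^ 2 / X * (X ^ 2 / L ^ (A + 2))) ≤ X * (h : ℝ) ^ 2 / L ^ A / 4 := by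
    have e1 : C * ((h : ℝ) ^ 2 / X * (X ^ 2 / L ^ (A + 2))) =
        X * (h : ℝ) ^ 2 / L ^ A * (C / L ^ 2) := by
      rw [pow_add]
      field_simp
    have e2 : C / L ^ 2 ≤ 1 / 4 := by
      rw [div_le_div_iff₀ (by (clear * - hL4; positivity)) (by norm_num)]
      nlinarith only [hC1, hLC]
    rw [e1]
    calc X * (h : ℝ) ^ 2 / L ^ A * (C / L ^ 2) ≤ X * (h : ℝ) ^ 2 / L ^ A * (1 / 4) :=
          mul_le_mul_of_nonneg_left e2 (by (clear * - hX1 hL4 hh1; positivity))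
      _ = X * (h : ℝ) ^ 2 / L ^ A / 4 := by ring
  have t2 : C * ((h : ℝ) ^ 2 / X * (16 * X * L ^ (A + 12))) ≤ X * (h : ℝ) ^ 2 / L ^ A / 4 := by
    rw [Real.rpow_one] at hE2
    have e1 : C * ((h : ℝ) ^ 2 / X * (16 * X * L ^ (A + 12))) =
        (h : ℝ) ^ 2 * (64 * C * L ^ (2 * A + 12)) / L ^ A / 4 := by
      have : L ^ (2 * A + 12) = L ^ (A + 12) * L ^ A := by
        rw [← pow_add]
        congr 1
        omega
      rw [this]
      field_simp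
      ring
    rw [e1]
    have e2 : (h : ℝ) ^ 2 * (64 * C * L ^ (2 * A + 12)) ≤ X * (h : ℝ) ^ 2 := by
      rw [mul_comm (X : ℝ)]
      exact mul_le_mul_of_nonneg_left hE2 (by (clear * - hh1; positivity))
    gcongr
  have hhθ : 128 * C * L ^ (A + 2) ≤ (h : ℝ) ^ 2 := by
    refine hE1.trans ?_
    have e1 : (X : ℝ) ^ (2 * (4 / 5) : ℝ) = ((X : ℝ) ^ (4 / 5 : ℝ)) ^ 2 := by
      rw [← Real.rpow_natCast, ← Real.rpow_mul hXpos.le]
      norm_num
    rw [e1]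
    have e2 : (X : ℝ) ^ (4 / 5 : ℝ) ≤ h :=
      (Real.rpow_le_rpow_of_exponent_le hX0 (by norm_num)).trans hh
    exact pow_le_pow_left₀ (Real.rpow_pos_of_pos hXpos _).le e2 2
  have t3 : C * (X * (2 * L) ^ 2 * 8) ≤ X * (h : ℝ) ^ 2 / L ^ A / 4 := by
    have e1 : C * (X * (2 * L) ^ 2 * 8) = X * (128 * C * L ^ (A + 2)) / L ^ A / 4 := by
      rw [pow_add]
      field_simp
      ring
    rw [e1]
    gcongr
  have t4 : C * (X * (2 * L) ^ 2 * (8 * (h / L ^ (A + 9)) ^ 2)) ≤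
      X * (h : ℝ) ^ 2 / L ^ A / 4 := by
    have e1 : C * (X * (2 * L) ^ 2 * (8 * (h / L ^ (A + 9)) ^ 2)) =
        X * (h : ℝ) ^ 2 / L ^ A / 4 * (128 * C / L ^ (A + 16)) := by
      have : L ^ A * L ^ (A + 16) = (L ^ (A + 9)) ^ 2 / L ^ 2 := by
        rw [eq_div_iff (by (clear * - hL4; positivity)), ← pow_mul, ← pow_add, ← pow_add]
        congr 1
        omega
      have h5 : X * (h : ℝ) ^ 2 / L ^ A / 4 * (128 * C / L ^ (A + 16)) =
          32 * C * X * (h : ℝ) ^ 2 / (L ^ A * L ^ (A + 16)) := by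
        field_simp
        ring
      rw [h5, this]
      field_simp
      ring
    have e2 : 128 * C / L ^ (A + 16) ≤ 1 := by
      rw [div_le_one (by (clear * - hL4; positivity))]
      calc 128 * C ≤ L ^ 1 := by
            rw [pow_one]
            exact hLC
        _ ≤ L ^ (A + 16) := pow_le_pow_right₀ (by linarith only [hC1, hLC]) (by omega)
    rw [e1]
    calc X * (h : ℝ) ^ 2 / L ^ A / 4 * (128 * C / L ^ (A + 16)) ≤
          X * (h : ℝ) ^ 2 / L ^ A / 4 * 1 := mul_le_mul_of_nonneg_left e2 (by (clear * - hX1 hL4 hh1; positivity))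
      _ = _ := mul_one _
  have m1 := mul_le_mul_of_nonneg_left hW
    (show 0 ≤ C * ((h : ℝ) ^ 2 / X) by (clear * - hC1 hX1 hh1; positivity))
  have m2 := mul_le_mul_of_nonneg_left hR2
    (show 0 ≤ C * (X * (2 * L) ^ 2) by (clear * - hC1 hX1 hL4; positivity))
  calc C * ((h : ℝ) ^ 2 / X *
        (∫ v : ℝ, ‖∑ n ∈ Ioc X (3 * X), mu n * χ (n : ZMod q) * (gs σ (v - Real.log n) : ℂ)‖ ^ 2) +
        X * (2 * L) ^ 2 *
          (1 + X * σ * (2 * L) + X * Real.exp (-((2 * L) ^ 2 / 2))) ^ 2) =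
      C * ((h : ℝ) ^ 2 / X) *
        (∫ v : ℝ, ‖∑ n ∈ Ioc X (3 * X), mu n * χ (n : ZMod q) * (gs σ (v - Real.log n) : ℂ)‖ ^ 2) +
      C * (X * (2 * L) ^ 2) *
          (1 + X * σ * (2 * L) + X * Real.exp (-((2 * L) ^ 2 / 2))) ^ 2 := by ring
    _ ≤ C * ((h : ℝ) ^ 2 / X) * ((X : ℝ) ^ 2 / L ^ (A + 2) + 16 * X * L ^ (A + 12)) +
        C * (X * (2 * L) ^ 2) * (8 + 8 * (h / L ^ (A + 9)) ^ 2) := add_le_add m1 m2
    _ = C * ((h : ℝ) ^ 2 / X * (X ^ 2 / L ^ (A + 2))) +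
        C * ((h : ℝ) ^ 2 / X * (16 * X * L ^ (A + 12))) +
        C * (X * (2 * L) ^ 2 * 8) +
        C * (X * (2 * L) ^ 2 * (8 * (h / L ^ (A + 9)) ^ 2)) := by ring
    _ ≤ X * (h : ℝ) ^ 2 / L ^ A := by linarith only [t1, t2, t3, t4]

end Pool.Agent.MW
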